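import Mathlib

/-!
# Geodesic flows of conformal metrics on the disc: definitions

The metric is `rho u z * |dz|` on the open unit disc, `rho u z = 2 exp (u z) / (1 - |z|^2)`.
-/

namespace Pool.Agent.H.MP_bfbbee_an

/-- The open unit disc. -/
abbrev Disc : Set ℂ := Metric.ball (0 : ℂ) 1

/-- The conformal factor of the metric `rho u z * |dz|` on the disc. -/
noncomputable def rho (u : ℂ → ℝ) (z : ℂ) : ℝ := 2 * Real.exp (u z) / (1 - ‖z‖ ^ 2)

/-- The logarithm of the conformal factor. -/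
noncomputable def phi (u : ℂ → ℝ) (z : ℂ) : ℝ := Real.log (rho u z)

/-- The unit complex number with angle `θ`. -/
noncomputable def dir (θ : ℝ) : ℂ := Complex.exp (θ * Complex.I)

/-- The rate of change of the angle along a geodesic through `z` in the direction of the unit
complex number `v`: the derivative of `phi u` in the normal direction `I * v`, divided by
`rho u z`. -/
noncomputable def kap (u : ℂ → ℝ) (z v : ℂ) : ℝ := fderiv ℝ (phi u) z (Complex.I * v) / rho u z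

/-- `(z, θ)` is a geodesic arc, parametrised by arc length of the metric, on `[a, b]`. -/
def IsGeodesicOn (u : ℂ → ℝ) (a b : ℝ) (z : ℝ → ℂ) (θ : ℝ → ℝ) : Prop :=
  ∀ t ∈ Set.Icc a b, z t ∈ Disc ∧
    HasDerivWithinAt z (dir (θ t) / (rho u (z t) : ℂ)) (Set.Icc a b) t ∧
    HasDerivWithinAt θ (kap u (z t) (dir (θ t))) (Set.Icc a b) t

/-- `F` is a continuous first integral: a continuous function of the point `z` of the disc and of
the angle `θ` of the unit tangent vector, constant along every geodesic arc. -/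
structure FirstIntegral (u : ℂ → ℝ) (F : ℂ × ℝ → ℝ) : Prop where
  cont : ContinuousOn F (Disc ×ˢ Set.univ)
  per : ∀ z ∈ Disc, ∀ θ : ℝ, F (z, θ + 2 * Real.pi) = F (z, θ)
  inv : ∀ (a b : ℝ) (z : ℝ → ℂ) (θ : ℝ → ℝ), a ≤ b → IsGeodesicOn u a b z θ →
    F (z a, θ a) = F (z b, θ b)

/-- The Möbius map `z ↦ w (z - a) / (1 - conj a z)`. -/
noncomputable def mob (w a z : ℂ) : ℂ := w * (z - a) / (1 - (starRingEnd ℂ) a * z)

/-- The derivative of `mob w a` at `z`. -/
noncomputable def mobd (w a z : ℂ) : ℂ :=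
  w * (1 - (‖a‖ : ℂ) ^ 2) / (1 - (starRingEnd ℂ) a * z) ^ 2

/-- The Möbius map with parameters `w, a` is an isometry of the metric. -/
structure Sym (u : ℂ → ℝ) (w a : ℂ) : Prop where
  hw : ‖w‖ = 1
  ha : ‖a‖ < 1
  inv : ∀ z ∈ Disc, u (mob w a z) = u z

/-- `F` is invariant under the differential of the Möbius map `mob w a`. -/
def FSym (F : ℂ × ℝ → ℝ) (w a : ℂ) : Prop :=
  ∀ z ∈ Disc, ∀ θ θ' : ℝ, dir θ' = dir θ * (mobd w a z / (‖mobd w a z‖ : ℂ)) →
    F (mob w a z, θ') = F (z, θ)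

/-- Standing assumptions on the metric. -/
structure Met (u : ℂ → ℝ) (A : ℝ) : Prop where
  smooth : ContDiffOn ℝ 2 u Disc
  nonneg : 0 ≤ A
  bdd : ∀ z ∈ Disc, |u z| ≤ A

/-- The isometries of the metric move every point into the disc of radius `R < 1`. -/
structure Coco (u : ℂ → ℝ) (R : ℝ) : Prop where
  pos : 0 ≤ R
  lt : R < 1
  move : ∀ z ∈ Disc, ∃ w a, Sym u w a ∧ ‖mob w a z‖ ≤ R

/-- The isometries of the metric which preserve `F` move every point into the disc of radius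
`R < 1`. -/
structure CocoF (u : ℂ → ℝ) (F : ℂ × ℝ → ℝ) (R : ℝ) : Prop where
  pos : 0 ≤ R
  lt : R < 1
  move : ∀ z ∈ Disc, ∃ w a, Sym u w a ∧ FSym F w a ∧ ‖mob w a z‖ ≤ R

/-- Euclidean inner product of two complex numbers. -/
def dotp (v h : ℂ) : ℝ := v.re * h.re + v.im * h.im

/-- The gradient of `phi u` as a complex number. -/
noncomputable def grad (u : ℂ → ℝ) (z : ℂ) : ℂ :=
  ⟨fderiv ℝ (phi u) z 1, fderiv ℝ (phi u) z Complex.I⟩

/-- The length of the straight segment from `p` to `q` in the metric `rho u |dz|`. -/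
noncomputable def cost (u : ℂ → ℝ) (p q : ℂ) : ℝ :=
  ‖q - p‖ * ∫ s in (0 : ℝ)..1, rho u (p + (s : ℂ) * (q - p))

/-- `Chain u p q L`: there is a polygonal path in the disc from `p` to `q` of length `L`. -/
inductive Chain (u : ℂ → ℝ) (p : ℂ) : ℂ → ℝ → Prop
  | nil : p ∈ Disc → Chain u p p 0
  | cons {q r : ℂ} {L : ℝ} : Chain u p q L → r ∈ Disc → Chain u p r (L + cost u q r)

/-- The distance of the metric `rho u |dz|`. -/
noncomputable def dst (u : ℂ → ℝ) (p q : ℂ) : ℝ := sInf {L | Chain u p q L}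

/-- `σ` is a minimal geodesic (an isometric embedding of `[a, b]`). -/
def IsoOn (u : ℂ → ℝ) (a b : ℝ) (σ : ℝ → ℂ) : Prop :=
  (∀ t ∈ Set.Icc a b, σ t ∈ Disc) ∧
    ∀ s ∈ Set.Icc a b, ∀ t ∈ Set.Icc a b, dst u (σ s) (σ t) = |s - t|

/-- `(r, θ)` is a minimal geodesic ray. -/
structure GRay (u : ℂ → ℝ) (r : ℝ → ℂ) (θ : ℝ → ℝ) : Prop where
  mem : ∀ t, 0 ≤ t → r t ∈ Disc
  iso : ∀ s, 0 ≤ s → ∀ t, 0 ≤ t → dst u (r s) (r t) = |s - t|
  geo : ∀ T, 0 < T → IsGeodesicOn u 0 T r θ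

/-- `b` is 1-Lipschitz. -/
def Lip1 (u : ℂ → ℝ) (b : ℂ → ℝ) : Prop := ∀ x ∈ Disc, ∀ y ∈ Disc, b x - b y ≤ dst u x y

/-- `r` is a `b`-calibrated ray from `x`. -/
structure Cal (u : ℂ → ℝ) (b : ℂ → ℝ) (x : ℂ) (r : ℝ → ℂ) : Prop where
  start : r 0 = x
  mem : ∀ t, 0 ≤ t → r t ∈ Disc
  one : ∀ s, 0 ≤ s → ∀ t, 0 ≤ t → dst u (r s) (r t) ≤ |s - t|
  cal : ∀ t, 0 ≤ t → b (r t) = b x - t

/-- `b` is a 1-Lipschitz function such that from every point there starts a `b`-calibrated ray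
which ends at `ξ` and on which `F = c`. -/
def Good (u : ℂ → ℝ) (F : ℂ × ℝ → ℝ) (b : ℂ → ℝ) (c : ℝ) (ξ : ℂ) : Prop :=
  Lip1 u b ∧ ∀ x ∈ Disc, ∃ r θ, Cal u b x r ∧ GRay u r θ ∧
    Filter.Tendsto r Filter.atTop (nhds ξ) ∧ F (x, θ 0) = c

/-- A non-principal ultrafilter on the natural numbers, as a filter. -/
noncomputable def ul : Filter ℕ := ((Filter.hyperfilter ℕ : Ultrafilter ℕ) : Filter ℕ)

end Pool.Agent.H.MP_bfbbee_an
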