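import Mathlib
import Pool.Agent.H.MP_bfbbee_an.Defs

/-!
# Elementary facts on `rho`, `dir`, `dotp`, `grad`
-/

namespace Pool.Agent.H.MP_bfbbee_an

open Filter Topology

/-- `1 - |z|^2 > 0` on the disc. -/
theorem q_pos {z : ℂ} (hz : z ∈ Disc) : 0 < 1 - ‖z‖ ^ 2 := by
  have h : ‖z‖ < 1 := by simpa [Disc] using hz
  have h0 := norm_nonneg z
  nlinarith

/-- `rho u z > 0` on the disc. -/
theorem rho_pos (u : ℂ → ℝ) {z : ℂ} (hz : z ∈ Disc) : 0 < rho u z :=
  div_pos (mul_pos two_pos (Real.exp_pos _)) (q_pos hz)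

/-- `rho` is bounded below by `2 e^(-A) / (1 - |z|^2)`, from `|u z| ≤ A`. -/
theorem rho_lower {u : ℂ → ℝ} {A : ℝ} (M : Met u A) {z : ℂ} (hz : z ∈ Disc) :
    2 * Real.exp (-A) / (1 - ‖z‖ ^ 2) ≤ rho u z := by
  have h1 := abs_le.1 (M.bdd z hz)
  unfold rho
  apply div_le_div_of_nonneg_right _ (q_pos hz).le
  have h2 : Real.exp (-A) ≤ Real.exp (u z) := Real.exp_le_exp.2 h1.1
  linarith

/-- `rho` is bounded above by `2 e^A / (1 - |z|^2)`, from `|u z| ≤ A`. -/
theorem rho_upper {u : ℂ → ℝ} {A : ℝ} (M : Met u A) {z : ℂ} (hz : z ∈ Disc) :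
    rho u z ≤ 2 * Real.exp A / (1 - ‖z‖ ^ 2) := by
  have h1 := abs_le.1 (M.bdd z hz)
  unfold rho
  apply div_le_div_of_nonneg_right _ (q_pos hz).le
  have h2 : Real.exp (u z) ≤ Real.exp A := Real.exp_le_exp.2 h1.2
  linarith

/-- `2 e^(-A) ≤ rho`, as `0 < 1 - |z|^2 ≤ 1`. -/
theorem rho_ge {u : ℂ → ℝ} {A : ℝ} (M : Met u A) {z : ℂ} (hz : z ∈ Disc) :
    2 * Real.exp (-A) ≤ rho u z := by
  refine le_trans ?_ (rho_lower M hz)
  have h1 := q_pos hz
  have h2 : 0 < Real.exp (-A) := Real.exp_pos _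
  have h3 := sq_nonneg ‖z‖
  rw [le_div_iff₀ h1]
  nlinarith

/-- `rho u` is `C²` on the disc. -/
theorem rho_contDiffOn {u : ℂ → ℝ} {A : ℝ} (M : Met u A) : ContDiffOn ℝ 2 (rho u) Disc := by
  unfold rho
  exact (contDiffOn_const.mul M.smooth.exp).div
    (contDiffOn_const.sub (contDiff_norm_sq ℝ).contDiffOn) (fun z hz => (q_pos hz).ne')

/-- `phi u = log (rho u)` is `C²` on the disc. -/
theorem phi_contDiffOn {u : ℂ → ℝ} {A : ℝ} (M : Met u A) : ContDiffOn ℝ 2 (phi u) Disc := by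
  unfold phi
  exact (rho_contDiffOn M).log (fun z hz => (rho_pos u hz).ne')

/-- `‖dir θ‖ = 1`. -/
theorem norm_dir (θ : ℝ) : ‖dir θ‖ = 1 := by
  unfold dir
  exact Complex.norm_exp_ofReal_mul_I θ

theorem Base_dir_add_two_pi (θ : ℝ) : dir (θ + 2 * Real.pi) = dir θ := by
  unfold dir
  have h : ((θ + 2 * Real.pi : ℝ) : ℂ) * Complex.I = θ * Complex.I + 2 * Real.pi * Complex.I := by
    push_cast
    ring
  rw [h, Complex.exp_add, Complex.exp_two_pi_mul_I, mul_one]

/-- Every unit complex number is `dir θ` for some `θ` in `[0, 2π]`. (Take `θ = arg v` or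
`arg v + 2π`.) -/
theorem exists_dir {v : ℂ} (hv : ‖v‖ = 1) : ∃ θ ∈ Set.Icc (0 : ℝ) (2 * Real.pi), dir θ = v := by
  have h0 : dir (Complex.arg v) = v := by
    have h := Complex.norm_mul_exp_arg_mul_I v
    rw [hv, Complex.ofReal_one, one_mul] at h
    exact h
  have h1 := Complex.neg_pi_lt_arg v
  have h2 := Complex.arg_le_pi v
  have hpi := Real.pi_pos
  by_cases h3 : 0 ≤ Complex.arg v
  · exact ⟨Complex.arg v, ⟨h3, by linarith⟩, h0⟩
  · refine ⟨Complex.arg v + 2 * Real.pi, ⟨by linarith, by linarith⟩, ?_⟩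
    exact (Base_dir_add_two_pi _).trans h0

/-- `dir` is 1-Lipschitz: `|e^{iθ} - e^{iθ'}| ≤ |θ - θ'|`. -/
theorem dir_lip (θ θ' : ℝ) : ‖dir θ - dir θ'‖ ≤ |θ - θ'| := by
  have h1 : dir θ - dir θ' = dir θ' * (Complex.exp (Complex.I * ((θ - θ' : ℝ) : ℂ)) - 1) := by
    unfold dir
    rw [mul_sub, mul_one, ← Complex.exp_add]
    congr 2
    push_cast
    ring
  rw [h1, norm_mul, norm_dir, one_mul]
  exact Real.norm_exp_I_mul_ofReal_sub_one_le

/-- If `‖dir θ - v‖ ≤ δ ≤ 1` for a unit complex number `v`, then `v = dir θ'` with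
`|θ' - θ| ≤ 2 δ`. (Put `θ' = θ + arg (v / dir θ)`; for a unit complex number `w = e^{iτ}`,
`|τ| ≤ π`, `|w - 1| = 2 |sin (τ/2)| ≥ (2/π) |τ|`, so `|τ| ≤ (π/2) |w - 1| ≤ 2 |w - 1|`.) -/
theorem exists_near {θ : ℝ} {v : ℂ} (hv : ‖v‖ = 1) :
    ∃ θ' : ℝ, dir θ' = v ∧ |θ' - θ| ≤ 2 * ‖v - dir θ‖ := by
  have hd : dir θ ≠ 0 := by
    unfold dir
    exact Complex.exp_ne_zero _
  have hv0 : v ≠ 0 := by
    rintro rfl
    simp at hv
  have hn : ‖v / dir θ‖ = 1 := by rw [norm_div, hv, norm_dir, div_one]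
  refine ⟨θ + Complex.arg (v / dir θ), ?_, ?_⟩
  · have h := Complex.norm_mul_exp_arg_mul_I (v / dir θ)
    rw [hn, Complex.ofReal_one, one_mul] at h
    have h2 : dir (θ + Complex.arg (v / dir θ)) =
        dir θ * Complex.exp (Complex.arg (v / dir θ) * Complex.I) := by
      unfold dir
      rw [← Complex.exp_add]
      congr 1
      push_cast
      ring
    rw [h2, h]
    field_simp
  · have h1 : θ + Complex.arg (v / dir θ) - θ = Complex.arg (v / dir θ) := by ring
    rw [h1, ← Complex.angle_eq_abs_arg hv0 hd]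
    have h2 := Complex.angle_le_mul_norm_sub hv (norm_dir θ)
    have h3 := Real.pi_le_four
    have h4 := norm_nonneg (v - dir θ)
    nlinarith

/-- `dir θ = dir θ'` iff `θ' = θ + 2 π k`, `k` an integer. -/
theorem dir_eq_iff (θ θ' : ℝ) : dir θ = dir θ' ↔ ∃ k : ℤ, θ' = θ + 2 * Real.pi * k := by
  unfold dir
  rw [eq_comm, Complex.exp_eq_exp_iff_exists_int]
  constructor
  · rintro ⟨n, hn⟩
    refine ⟨n, ?_⟩
    have h1 : ((θ' : ℝ) : ℂ) * Complex.I = ((θ + 2 * Real.pi * n : ℝ) : ℂ) * Complex.I := by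
      rw [hn]
      push_cast
      ring
    exact Complex.ofReal_injective (mul_right_cancel₀ Complex.I_ne_zero h1)
  · rintro ⟨k, rfl⟩
    refine ⟨k, ?_⟩
    push_cast
    ring

/-- `fderiv (phi u) z h` is the inner product of the gradient with `h` (linearity over `ℝ`:
`h = h.re • 1 + h.im • I`). -/
theorem fderiv_phi_eq (u : ℂ → ℝ) (z h : ℂ) : fderiv ℝ (phi u) z h = dotp (grad u z) h := by
  have h1 : h = h.re • (1 : ℂ) + h.im • Complex.I := by
    apply Complex.ext <;> simp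
  have h2 : fderiv ℝ (phi u) z h = h.re * fderiv ℝ (phi u) z 1 +
      h.im * fderiv ℝ (phi u) z Complex.I := by
    conv_lhs => rw [h1]
    rw [map_add, map_smul, map_smul, smul_eq_mul, smul_eq_mul]
  rw [h2]
  unfold dotp grad
  ring

/-- `|dotp v h| ≤ ‖v‖ ‖h‖`. -/
theorem abs_dotp_le (v h : ℂ) : |dotp v h| ≤ ‖v‖ * ‖h‖ := by
  have h1 : dotp v h = ((starRingEnd ℂ) v * h).re := by
    unfold dotp
    simp
  rw [h1]
  refine (Complex.abs_re_le_norm _).trans ?_
  rw [norm_mul, RCLike.norm_conj]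

theorem dotp_self (v : ℂ) : dotp v v = ‖v‖ ^ 2 := by
  unfold dotp
  rw [Complex.sq_norm, Complex.normSq_apply]

theorem dotp_add_right (v h k : ℂ) : dotp v (h + k) = dotp v h + dotp v k := by
  unfold dotp; simp; ring

theorem dotp_add_left (v w h : ℂ) : dotp (v + w) h = dotp v h + dotp w h := by
  unfold dotp; simp; ring

theorem dotp_sub_right (v h k : ℂ) : dotp v (h - k) = dotp v h - dotp v k := by
  unfold dotp; simp; ring

theorem dotp_sub_left (v w h : ℂ) : dotp (v - w) h = dotp v h - dotp w h := by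
  unfold dotp; simp; ring

theorem dotp_smul_right (c : ℝ) (v h : ℂ) : dotp v ((c : ℂ) * h) = c * dotp v h := by
  unfold dotp; simp; ring

theorem dotp_smul_left (c : ℝ) (v h : ℂ) : dotp ((c : ℂ) * v) h = c * dotp v h := by
  unfold dotp; simp; ring

/-- The gradient is a continuous function on the disc (the directional derivatives of the `C²`
function `phi u` are continuous). -/
theorem grad_continuousOn {u : ℂ → ℝ} {A : ℝ} (M : Met u A) : ContinuousOn (grad u) Disc := by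
  have h1 : ContinuousOn (fderiv ℝ (phi u)) Disc :=
    (phi_contDiffOn M).continuousOn_fderiv_of_isOpen Metric.isOpen_ball (by norm_num)
  have h2 : grad u = fun z => ((fderiv ℝ (phi u) z 1 : ℝ) : ℂ) +
      ((fderiv ℝ (phi u) z Complex.I : ℝ) : ℂ) * Complex.I := by
    funext z
    unfold grad
    apply Complex.ext <;> simp
  rw [h2]
  have h3 : ContinuousOn (fun z => fderiv ℝ (phi u) z 1) Disc := h1.clm_apply continuousOn_const
  have h4 : ContinuousOn (fun z => fderiv ℝ (phi u) z Complex.I) Disc :=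
    h1.clm_apply continuousOn_const
  exact (Complex.continuous_ofReal.comp_continuousOn h3).add
    ((Complex.continuous_ofReal.comp_continuousOn h4).mul continuousOn_const)

/-- Periodicity: a first integral depends only on the unit vector `dir θ`. (Use `dir_eq_iff` and
induction on the integer `k`.) -/
theorem F_congr {u : ℂ → ℝ} {F : ℂ × ℝ → ℝ} (hF : FirstIntegral u F) {z : ℂ} (hz : z ∈ Disc)
    {θ θ' : ℝ} (h : dir θ = dir θ') : F (z, θ) = F (z, θ') := by
  obtain ⟨k, rfl⟩ := (dir_eq_iff θ θ').1 h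
  have hp : Function.Periodic (fun t => F (z, t)) (2 * Real.pi) := fun t => hF.per z hz t
  have h1 := (hp.int_mul k) θ
  have h2 : θ + 2 * Real.pi * k = θ + k * (2 * Real.pi) := by ring
  rw [h2]
  exact h1.symm

/-- Continuity of a first integral as a function of the point and the unit vector: if
`z_n → z` in the disc and `dir θ_n → dir θ`, then `F (z_n, θ_n) → F (z, θ)`.
(By `exists_near` there are `θ'_n` with `dir θ'_n = dir θ_n` and
`|θ'_n - θ| ≤ 2 ‖dir θ_n - dir θ‖ → 0`; then `F (z_n, θ_n) = F (z_n, θ'_n)` by `F_congr`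
and `F (z_n, θ'_n) → F (z, θ)` by continuity.) -/
theorem F_tendsto {u : ℂ → ℝ} {F : ℂ × ℝ → ℝ} (hF : FirstIntegral u F) {ι : Type*} {l : Filter ι}
    {zn : ι → ℂ} {θn : ι → ℝ} {z : ℂ} {θ : ℝ} (hz : z ∈ Disc) (hzn : ∀ᶠ n in l, zn n ∈ Disc)
    (h1 : Tendsto zn l (𝓝 z)) (h2 : Tendsto (fun n => dir (θn n)) l (𝓝 (dir θ))) :
    Tendsto (fun n => F (zn n, θn n)) l (𝓝 (F (z, θ))) := by
  have h3 : ∀ n, ∃ θ' : ℝ, dir θ' = dir (θn n) ∧ |θ' - θ| ≤ 2 * ‖dir (θn n) - dir θ‖ :=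
    fun n => exists_near (norm_dir _)
  choose θ' hθ1 hθ2 using h3
  have h4 : Tendsto (fun n => 2 * ‖dir (θn n) - dir θ‖) l (𝓝 0) := by
    have := (tendsto_iff_norm_sub_tendsto_zero.1 h2).const_mul 2
    rwa [mul_zero] at this
  have h5 : Tendsto θ' l (𝓝 θ) := by
    rw [tendsto_iff_norm_sub_tendsto_zero]
    exact squeeze_zero (fun n => norm_nonneg _) hθ2 h4
  have h6 : ContinuousAt F (z, θ) := hF.cont.continuousAt
    ((Metric.isOpen_ball.prod isOpen_univ).mem_nhds ⟨hz, Set.mem_univ _⟩)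
  have h7 : Tendsto (fun n => F (zn n, θ' n)) l (𝓝 (F (z, θ))) :=
    h6.tendsto.comp (h1.prodMk_nhds h5)
  refine h7.congr' ?_
  filter_upwards [hzn] with n hn
  exact F_congr hF hn (hθ1 n)

/-- The ultrafilter `ul` is a proper filter. -/
instance ul_neBot : ul.NeBot := by
  unfold ul; infer_instance

/-- `ul` refines `atTop`. -/
theorem ul_le : ul ≤ (atTop : Filter ℕ) := by
  unfold ul
  exact Nat.hyperfilter_le_atTop

/-- Every sequence which is eventually in a compact set has an `ul`-limit in it. (For an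
ultrafilter, `IsCompact.ultrafilter_le_nhds'` applied to the image ultrafilter.) -/
theorem exists_ul_lim {X : Type*} [TopologicalSpace X] {K : Set X} (hK : IsCompact K) {f : ℕ → X}
    (hf : ∀ᶠ n in ul, f n ∈ K) : ∃ x ∈ K, Tendsto f ul (𝓝 x) := by
  obtain ⟨x, hx, hx2⟩ := hK.ultrafilter_le_nhds' ((Filter.hyperfilter ℕ : Ultrafilter ℕ).map f) hf
  exact ⟨x, hx, hx2⟩

/-- If `f n → x` along `ul` fails to be eventually in a set, it is eventually in the complement
(ultrafilter property). -/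
theorem ul_em (p : ℕ → Prop) : (∀ᶠ n in ul, p n) ∨ ∀ᶠ n in ul, ¬ p n := by
  unfold ul
  exact Ultrafilter.em _ p

end Pool.Agent.H.MP_bfbbee_an
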