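import Mathlib
import Pool.Agent.H.MP_bfbbee_an.Base

/-!
# The length of a straight segment
-/

namespace Pool.Agent.H.MP_bfbbee_an

open Filter Topology

/-- The segment between two points of the disc stays in the disc (the disc is convex). -/
theorem seg_mem {p q : ℂ} (hp : p ∈ Disc) (hq : q ∈ Disc) {s : ℝ} (hs : s ∈ Set.Icc (0 : ℝ) 1) :
    p + (s : ℂ) * (q - p) ∈ Disc := by
  have h := (convex_ball (0 : ℂ) 1).add_smul_sub_mem hp hq hs
  rwa [Complex.real_smul] at h

/-- `s ↦ rho u (p + s (q - p))` is continuous on `[0, 1]`, so interval integrable. -/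
theorem rho_seg_continuousOn {u : ℂ → ℝ} {A : ℝ} (M : Met u A) {p q : ℂ} (hp : p ∈ Disc)
    (hq : q ∈ Disc) :
    ContinuousOn (fun s : ℝ => rho u (p + (s : ℂ) * (q - p))) (Set.Icc (0 : ℝ) 1) := by
  have h1 : ContinuousOn (rho u) Disc := (rho_contDiffOn M).continuousOn
  have h2 : Continuous fun s : ℝ => p + (s : ℂ) * (q - p) := by fun_prop
  exact h1.comp h2.continuousOn fun s hs => seg_mem hp hq hs

theorem Cost_integrable {u : ℂ → ℝ} {A : ℝ} (M : Met u A) {p q : ℂ} (hp : p ∈ Disc)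
    (hq : q ∈ Disc) :
    IntervalIntegrable (fun s : ℝ => rho u (p + (s : ℂ) * (q - p))) MeasureTheory.volume 0 1 := by
  apply ContinuousOn.intervalIntegrable
  rw [Set.uIcc_of_le zero_le_one]
  exact rho_seg_continuousOn M hp hq

theorem cost_self (u : ℂ → ℝ) (p : ℂ) : cost u p p = 0 := by
  unfold cost; simp

/-- The cost is symmetric (substitute `s ↦ 1 - s`). -/
theorem cost_comm (u : ℂ → ℝ) (p q : ℂ) : cost u p q = cost u q p := by
  unfold cost
  rw [norm_sub_rev q p]
  congr 1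
  have h := intervalIntegral.integral_comp_sub_left (a := (0 : ℝ)) (b := 1)
    (fun s : ℝ => rho u (p + (s : ℂ) * (q - p))) 1
  rw [sub_self, sub_zero] at h
  rw [← h]
  apply intervalIntegral.integral_congr
  intro x _
  have : p + ((1 - x : ℝ) : ℂ) * (q - p) = q + (x : ℂ) * (p - q) := by
    push_cast; ring
  simp only [this]

/-- Upper bound for the cost: if `rho ≤ K` on the segment, then `cost ≤ K ‖q - p‖`. -/
theorem cost_le {u : ℂ → ℝ} {A : ℝ} (M : Met u A) {p q : ℂ} (hp : p ∈ Disc) (hq : q ∈ Disc) {K : ℝ}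
    (hK : ∀ s ∈ Set.Icc (0 : ℝ) 1, rho u (p + (s : ℂ) * (q - p)) ≤ K) :
    cost u p q ≤ K * ‖q - p‖ := by
  unfold cost
  rw [mul_comm K]
  refine mul_le_mul_of_nonneg_left ?_ (norm_nonneg _)
  have h := intervalIntegral.integral_mono_on (zero_le_one' ℝ) (Cost_integrable M hp hq)
    (intervalIntegrable_const (c := K)) hK
  simpa using h

/-- Lower bound for the cost: if `k ≤ rho` on the segment, then `k ‖q - p‖ ≤ cost`. -/
theorem le_cost {u : ℂ → ℝ} {A : ℝ} (M : Met u A) {p q : ℂ} (hp : p ∈ Disc) (hq : q ∈ Disc) {k : ℝ}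
    (hk : ∀ s ∈ Set.Icc (0 : ℝ) 1, k ≤ rho u (p + (s : ℂ) * (q - p))) :
    k * ‖q - p‖ ≤ cost u p q := by
  unfold cost
  rw [mul_comm k]
  refine mul_le_mul_of_nonneg_left ?_ (norm_nonneg _)
  have h := intervalIntegral.integral_mono_on (zero_le_one' ℝ)
    (intervalIntegrable_const (c := k)) (Cost_integrable M hp hq) hk
  simpa using h

theorem cost_nonneg {u : ℂ → ℝ} {A : ℝ} (M : Met u A) {p q : ℂ} (hp : p ∈ Disc) (hq : q ∈ Disc) :
    0 ≤ cost u p q := by
  have h := le_cost M hp hq (k := 0) (fun s hs => (rho_pos u (seg_mem hp hq hs)).le)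
  simpa using h

/-- Additivity along a segment: for `m = p + t (q - p)`, `0 ≤ t ≤ 1`,
`cost p m = ‖q - p‖ ∫_0^t` and `cost m q = ‖q - p‖ ∫_t^1` of `rho u (p + s (q - p))` (linear
changes of variable). More generally for `0 ≤ s ≤ t ≤ 1` the cost between the points with
parameters `s` and `t` is `‖q - p‖ ∫_s^t`. -/
theorem cost_part {u : ℂ → ℝ} {p q : ℂ} {s t : ℝ} (hst : s ≤ t) :
    cost u (p + (s : ℂ) * (q - p)) (p + (t : ℂ) * (q - p)) =
      ‖q - p‖ * ∫ x in s..t, rho u (p + (x : ℂ) * (q - p)) := by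
  unfold cost
  have h1 : p + (t : ℂ) * (q - p) - (p + (s : ℂ) * (q - p)) = ((t - s : ℝ) : ℂ) * (q - p) := by
    push_cast; ring
  rw [h1, norm_mul, Complex.norm_real, Real.norm_of_nonneg (sub_nonneg.2 hst),
    mul_comm (t - s) ‖q - p‖, mul_assoc]
  congr 1
  have h2 := intervalIntegral.smul_integral_comp_add_mul (a := (0 : ℝ)) (b := 1)
    (fun x : ℝ => rho u (p + (x : ℂ) * (q - p))) (t - s) s
  rw [mul_zero, add_zero, mul_one, add_sub_cancel, smul_eq_mul] at h2
  rw [← h2]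
  congr 1
  apply intervalIntegral.integral_congr
  intro x _
  have : p + (s : ℂ) * (q - p) + (x : ℂ) * (((t - s : ℝ) : ℂ) * (q - p))
      = p + ((s + (t - s) * x : ℝ) : ℂ) * (q - p) := by
    push_cast; ring
  simp only [this]

end Pool.Agent.H.MP_bfbbee_an
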