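import Mathlib
import Pool.Agent.H.MP_bfbbee_an.Cost

/-!
# Polygonal paths and the distance
-/

namespace Pool.Agent.H.MP_bfbbee_an

open Filter Topology

theorem Chain.mem {u : ℂ → ℝ} {p q : ℂ} {L : ℝ} (h : Chain u p q L) : p ∈ Disc ∧ q ∈ Disc := by
  induction h with
  | nil hp => exact ⟨hp, hp⟩
  | cons _ hr ih => exact ⟨ih.1, hr⟩

theorem Chain.nonneg {u : ℂ → ℝ} {A : ℝ} (M : Met u A) {p q : ℂ} {L : ℝ} (h : Chain u p q L) :
    0 ≤ L := by
  induction h with
  | nil hp => exact le_refl _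
  | cons h1 hr ih => exact add_nonneg ih (cost_nonneg M h1.mem.2 hr)

theorem Chain.append {u : ℂ → ℝ} {p q r : ℂ} {L L' : ℝ} (h : Chain u p q L)
    (h' : Chain u q r L') : Chain u p r (L + L') := by
  induction h' with
  | nil _ => simpa using h
  | cons _ hr ih =>
    have h2 := Chain.cons ih hr
    rwa [add_assoc] at h2

theorem Chain.single {u : ℂ → ℝ} {p q : ℂ} (hp : p ∈ Disc) (hq : q ∈ Disc) :
    Chain u p q (cost u p q) := by
  have h := Chain.cons (Chain.nil (u := u) hp) hq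
  simpa using h

/-- Reversal of a path (induction, using `Chain.append`, `Chain.single` and `cost_comm`). -/
theorem Chain.reverse {u : ℂ → ℝ} {p q : ℂ} {L : ℝ} (h : Chain u p q L) : Chain u q p L := by
  induction h with
  | nil hp => exact Chain.nil hp
  | cons h1 hr ih =>
    rename_i q' r' L'
    have hq := h1.mem.2
    have hs : Chain u r' q' (cost u r' q') := by
      have h2 := Chain.cons (Chain.nil (u := u) hr) hq
      simpa using h2
    have h3 := Chain.append hs ih
    rw [cost_comm u r' q', add_comm] at h3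
    exact h3

theorem bddBelow_chain {u : ℂ → ℝ} {A : ℝ} (M : Met u A) (p q : ℂ) :
    BddBelow {L | Chain u p q L} := ⟨0, fun _ h => Chain.nonneg M h⟩

theorem dst_le_of_chain {u : ℂ → ℝ} {A : ℝ} (M : Met u A) {p q : ℂ} {L : ℝ}
    (h : Chain u p q L) : dst u p q ≤ L := csInf_le (bddBelow_chain M p q) h

theorem dst_le_cost {u : ℂ → ℝ} {A : ℝ} (M : Met u A) {p q : ℂ} (hp : p ∈ Disc) (hq : q ∈ Disc) :
    dst u p q ≤ cost u p q := dst_le_of_chain M (Chain.single hp hq)

theorem dst_nonneg {u : ℂ → ℝ} {A : ℝ} (M : Met u A) (p q : ℂ) : 0 ≤ dst u p q :=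
  Real.sInf_nonneg (fun _ h => Chain.nonneg M h)

theorem dst_self {u : ℂ → ℝ} {A : ℝ} (M : Met u A) {p : ℂ} (hp : p ∈ Disc) : dst u p p = 0 :=
  le_antisymm (dst_le_of_chain M (Chain.nil hp)) (dst_nonneg M p p)

theorem dst_comm (u : ℂ → ℝ) (p q : ℂ) : dst u p q = dst u q p := by
  unfold dst
  congr 1
  ext L
  exact ⟨Chain.reverse, Chain.reverse⟩

/-- There are paths of length `< dst + ε`. -/
theorem exists_chain {u : ℂ → ℝ} {p q : ℂ} (hp : p ∈ Disc)
    (hq : q ∈ Disc) {ε : ℝ} (hε : 0 < ε) : ∃ L, L < dst u p q + ε ∧ Chain u p q L := by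
  have hne : {L | Chain u p q L}.Nonempty := ⟨_, Chain.single hp hq⟩
  obtain ⟨L, hL, h2⟩ := Real.lt_sInf_add_pos hne hε
  exact ⟨L, h2, hL⟩

theorem dst_triangle {u : ℂ → ℝ} {A : ℝ} (M : Met u A) {p q r : ℂ} (hp : p ∈ Disc) (hq : q ∈ Disc)
    (hr : r ∈ Disc) : dst u p r ≤ dst u p q + dst u q r := by
  refine le_of_forall_pos_lt_add fun ε hε => ?_
  obtain ⟨L1, h1, hc1⟩ := exists_chain (u := u) hp hq (half_pos hε)
  obtain ⟨L2, h2, hc2⟩ := exists_chain (u := u) hq hr (half_pos hε)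
  have h3 := dst_le_of_chain M (Chain.append hc1 hc2)
  linarith

/-- Lower bounds: a function which increases by at most `cost` along every segment of the disc
increases by at most the distance. (Induction on the path, then the infimum.) -/
theorem le_dst {u : ℂ → ℝ} {p q : ℂ} (hp : p ∈ Disc) (hq : q ∈ Disc)
    {f : ℂ → ℝ} (hf : ∀ x ∈ Disc, ∀ y ∈ Disc, f y - f x ≤ cost u x y) :
    f q - f p ≤ dst u p q := by
  have key : ∀ L, Chain u p q L → f q - f p ≤ L := by
    intro L hL
    clear hq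
    induction hL with
    | nil _ => simp
    | cons h1 hr ih =>
      have h2 := hf _ h1.mem.2 _ hr
      linarith
  exact le_csInf ⟨_, Chain.single hp hq⟩ fun L hL => key L hL

end Pool.Agent.H.MP_bfbbee_an
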