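import Mathlib
import Pool.Agent.H.MP_bfbbee_an.Dist

/-!
# Lower bounds for the distance
-/

namespace Pool.Agent.H.MP_bfbbee_an

open Filter Topology

/-- The distance dominates the Euclidean distance: `2 e^(-A) ‖q - p‖ ≤ dst p q`.
(`le_dst` with `f z = 2 e^(-A) ‖z - p‖`, whose increments are at most
`2 e^(-A) ‖y - x‖ ≤ cost x y` by `le_cost` and `rho_ge`.) -/
theorem dst_ge_norm {u : ℂ → ℝ} {A : ℝ} (M : Met u A) {p q : ℂ} (hp : p ∈ Disc) (hq : q ∈ Disc) :
    2 * Real.exp (-A) * ‖q - p‖ ≤ dst u p q := by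
  have h3 : 0 < 2 * Real.exp (-A) := by positivity
  have h := le_dst (u := u) hp hq (f := fun z => 2 * Real.exp (-A) * ‖z - p‖) (by
    intro x hx y hy
    have h1 := le_cost M hx hy (k := 2 * Real.exp (-A)) (fun s hs => rho_ge M (seg_mem hx hy hs))
    have h2 : ‖y - p‖ ≤ ‖y - x‖ + ‖x - p‖ := by
      have := norm_add_le (y - x) (x - p)
      rwa [sub_add_sub_cancel] at this
    have h4 := mul_le_mul_of_nonneg_left h2 h3.le
    rw [mul_add] at h4
    show 2 * Real.exp (-A) * ‖y - p‖ - 2 * Real.exp (-A) * ‖x - p‖ ≤ cost u x y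
    linarith)
  simpa using h

/-- The increment of `- log (1 - |z|²)` along a segment. -/
theorem Low_log_cost {u : ℂ → ℝ} {A : ℝ} (M : Met u A) {x y : ℂ} (hx : x ∈ Disc) (hy : y ∈ Disc) :
    Real.log (1 - ‖x‖ ^ 2) - Real.log (1 - ‖y‖ ^ 2) ≤ Real.exp A * cost u x y := by
  obtain ⟨d, hd⟩ : ∃ d, d = y - x := ⟨_, rfl⟩
  obtain ⟨N, hN⟩ : ∃ N : ℝ → ℝ, N = fun s => 1 - ((x.re + s * d.re) ^ 2 + (x.im + s * d.im) ^ 2) :=
    ⟨_, rfl⟩
  obtain ⟨D, hD⟩ : ∃ D : ℝ → ℝ, D = fun s =>
      2 * ((x.re + s * d.re) * d.re + (x.im + s * d.im) * d.im) := ⟨_, rfl⟩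
  have hnorm : ∀ s : ℝ, 1 - ‖x + (s : ℂ) * (y - x)‖ ^ 2 = N s := by
    intro s
    rw [hN, ← hd, Complex.sq_norm, Complex.normSq_apply]
    simp
    ring
  have hdot : ∀ s : ℝ, D s = 2 * dotp (x + (s : ℂ) * (y - x)) (y - x) := by
    intro s
    rw [hD, ← hd]
    unfold dotp
    simp
  have hNpos : ∀ s ∈ Set.Icc (0 : ℝ) 1, 0 < N s := by
    intro s hs
    rw [← hnorm s]
    exact q_pos (seg_mem hx hy hs)
  have hder : ∀ s : ℝ, HasDerivAt N (- D s) s := by
    intro s
    have e1 : HasDerivAt (fun s : ℝ => x.re + s * d.re) d.re s := by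
      simpa using ((hasDerivAt_id s).mul_const d.re).const_add x.re
    have e2 : HasDerivAt (fun s : ℝ => x.im + s * d.im) d.im s := by
      simpa using ((hasDerivAt_id s).mul_const d.im).const_add x.im
    have e3 := ((e1.pow 2).add (e2.pow 2)).const_sub 1
    rw [hN, hD]
    refine e3.congr_deriv ?_
    simp
    ring
  have hcN : Continuous N := by
    rw [hN]
    fun_prop
  have hcD : Continuous D := by
    rw [hD]
    fun_prop
  have hderL : ∀ s ∈ Set.uIcc (0 : ℝ) 1, HasDerivAt (fun s => - Real.log (N s)) (D s / N s) s := by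
    intro s hs
    rw [Set.uIcc_of_le zero_le_one] at hs
    have h1 := ((hder s).log (hNpos s hs).ne').neg
    refine h1.congr_deriv ?_
    ring
  have hcont : ContinuousOn (fun s => D s / N s) (Set.uIcc (0 : ℝ) 1) := by
    rw [Set.uIcc_of_le zero_le_one]
    exact hcD.continuousOn.div hcN.continuousOn (fun s hs => (hNpos s hs).ne')
  have hint := intervalIntegral.integral_eq_sub_of_hasDerivAt hderL hcont.intervalIntegrable
  have h0 : N 0 = 1 - ‖x‖ ^ 2 := by
    rw [← hnorm 0]
    simp
  have h1 : N 1 = 1 - ‖y‖ ^ 2 := by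
    rw [← hnorm 1]
    simp
  rw [h0, h1] at hint
  have hmono : ∫ s in (0 : ℝ)..1, D s / N s ≤
      ∫ s in (0 : ℝ)..1, Real.exp A * ‖y - x‖ * rho u (x + (s : ℂ) * (y - x)) := by
    refine intervalIntegral.integral_mono_on zero_le_one hcont.intervalIntegrable
      ((Cost_integrable M hx hy).const_mul _) ?_
    intro s hs
    have hz := seg_mem hx hy hs
    have hlow := rho_lower M hz
    rw [hnorm s] at hlow
    have hzn : ‖x + (s : ℂ) * (y - x)‖ ≤ 1 := by
      have : ‖x + (s : ℂ) * (y - x)‖ < 1 := by simpa [Disc] using hz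
      exact this.le
    have hdp : dotp (x + (s : ℂ) * (y - x)) (y - x) ≤ ‖y - x‖ := by
      refine (le_abs_self _).trans ((abs_dotp_le _ _).trans ?_)
      exact mul_le_of_le_one_left (norm_nonneg _) hzn
    have hA : Real.exp A * (2 * Real.exp (-A)) = 2 := by
      rw [mul_left_comm, ← Real.exp_add]
      simp
    have hp := hNpos s hs
    calc D s / N s ≤ 2 * ‖y - x‖ / N s := by
          apply div_le_div_of_nonneg_right _ hp.le
          rw [hdot s]
          linarith
      _ = Real.exp A * ‖y - x‖ * (2 * Real.exp (-A) / N s) := by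
          have e : Real.exp A * ‖y - x‖ * (2 * Real.exp (-A) / N s) =
              Real.exp A * (2 * Real.exp (-A)) * ‖y - x‖ / N s := by ring
          rw [e, hA]
      _ ≤ Real.exp A * ‖y - x‖ * rho u (x + (s : ℂ) * (y - x)) := by
          apply mul_le_mul_of_nonneg_left hlow
          positivity
  rw [intervalIntegral.integral_const_mul] at hmono
  unfold cost
  linarith

/-- Logarithmic lower bound: `e^(-A) (log (1 - |p|²) - log (1 - |q|²)) ≤ dst p q`.
(`le_dst` with `f z = - e^(-A) log (1 - |z|²)`. On the segment `z s = x + s (y - x)` the function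
`s ↦ - log (1 - |z s|²)` has derivative `2 ⟨z, y - x⟩ / (1 - |z|²) ≤ 2 ‖y - x‖ / (1 - |z|²)
≤ e^A rho(z) ‖y - x‖` (by `rho_lower`); integrate over `[0, 1]`.) -/
theorem dst_ge_log {u : ℂ → ℝ} {A : ℝ} (M : Met u A) {p q : ℂ} (hp : p ∈ Disc) (hq : q ∈ Disc) :
    Real.exp (-A) * (Real.log (1 - ‖p‖ ^ 2) - Real.log (1 - ‖q‖ ^ 2)) ≤ dst u p q := by
  have h := le_dst (u := u) hp hq (f := fun z => - (Real.exp (-A) * Real.log (1 - ‖z‖ ^ 2))) (by
    intro x hx y hy
    have h1 := Low_log_cost M hx hy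
    have h2 := mul_le_mul_of_nonneg_left h1 (Real.exp_pos (-A)).le
    rw [← mul_assoc, ← Real.exp_add, neg_add_cancel, Real.exp_zero, one_mul, mul_sub] at h2
    show - (Real.exp (-A) * Real.log (1 - ‖y‖ ^ 2)) - - (Real.exp (-A) * Real.log (1 - ‖x‖ ^ 2))
      ≤ cost u x y
    linarith)
  rw [mul_sub]
  have h2 : - (Real.exp (-A) * Real.log (1 - ‖q‖ ^ 2)) - - (Real.exp (-A) * Real.log (1 - ‖p‖ ^ 2))
    ≤ dst u p q := h
  linarith

/-- Points at bounded distance of a compact set stay in a compact subset of the disc: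
by `dst_ge_log`, `log (1 - |z|²) ≥ log (1 - R²) - e^A r`, so
`1 - |z|² ≥ (1 - R²) exp (- e^A r) =: η` and `|z| ≤ sqrt (1 - η) =: R' < 1`. -/
theorem confine {u : ℂ → ℝ} {A : ℝ} (M : Met u A) {R : ℝ} (hR0 : 0 ≤ R) (hR : R < 1) (r : ℝ) :
    ∃ R', R ≤ R' ∧ R' < 1 ∧ ∀ p, ‖p‖ ≤ R → ∀ z ∈ Disc, dst u p z ≤ r → ‖z‖ ≤ R' := by
  obtain ⟨η, hη⟩ : ∃ η, η = (1 - R ^ 2) * Real.exp (-(Real.exp A * r)) := ⟨_, rfl⟩
  have hR2 : 0 < 1 - R ^ 2 := by nlinarith
  have hη0 : 0 < η := by
    rw [hη]
    exact mul_pos hR2 (Real.exp_pos _)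
  refine ⟨max R (Real.sqrt (1 - η)), le_max_left _ _, max_lt hR ?_, ?_⟩
  · rw [Real.sqrt_lt' one_pos]
    linarith
  · intro p hpR z hz hdz
    have hp : p ∈ Disc := by
      rw [Disc, mem_ball_zero_iff]
      linarith
    have h1 := (dst_ge_log M hp hz).trans hdz
    have h2 := mul_le_mul_of_nonneg_left h1 (Real.exp_pos A).le
    rw [← mul_assoc, ← Real.exp_add, add_neg_cancel, Real.exp_zero, one_mul] at h2
    have h3 : 1 - R ^ 2 ≤ 1 - ‖p‖ ^ 2 := by
      have := norm_nonneg p
      nlinarith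
    have h4 := Real.log_le_log hR2 h3
    have h5 : Real.log (1 - R ^ 2) - Real.exp A * r ≤ Real.log (1 - ‖z‖ ^ 2) := by linarith
    have h6 := Real.exp_le_exp.2 h5
    rw [Real.exp_log (q_pos hz), sub_eq_add_neg (Real.log (1 - R ^ 2)), Real.exp_add,
      Real.exp_log hR2, ← hη] at h6
    refine le_trans ?_ (le_max_right _ _)
    apply Real.le_sqrt_of_sq_le
    linarith

/-- Local lower bound. Let `z0` be in the disc and `ε > 0`. There is `s > 0` with
`ball z0 s ⊆ Disc` and `(rho z0 - ε) ‖q - p‖ ≤ dst p q` for all `p, q` in `ball z0 s`.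
Proof. Let `k := rho z0 - ε`, `m := 2 e^(-A)`. If `k ≤ m` use `dst_ge_norm`. Otherwise, by
continuity of `rho`, choose `s0 > 0` with `k ≤ rho` on `ball z0 s0 ⊆ Disc`. For `p` in
`ball z0 (s0/2)` the function `f z = min (k ‖z - p‖) (m s0 / 2)` increases by at most `cost` along
every segment (inside `ball p (s0/2)` it is `k`-Lipschitz and the cost is at least `k ‖y - x‖`;
otherwise it is constant or the cost is at least `m ‖y - x‖`). So
`dst p q ≥ min (k ‖q - p‖) (m s0 / 2)`, and for `p, q` in a ball of radius `s` with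
`2 s k ≤ m s0 / 2`, `s ≤ s0 / 2`, the minimum is `k ‖q - p‖`. -/
theorem dst_ge_local {u : ℂ → ℝ} {A : ℝ} (M : Met u A) {z0 : ℂ} (hz : z0 ∈ Disc) {ε : ℝ}
    (hε : 0 < ε) : ∃ s > 0, Metric.ball z0 s ⊆ Disc ∧ ∀ p ∈ Metric.ball z0 s,
      ∀ q ∈ Metric.ball z0 s, (rho u z0 - ε) * ‖q - p‖ ≤ dst u p q := by
  obtain ⟨k, hk⟩ : ∃ k, k = rho u z0 - ε := ⟨_, rfl⟩
  obtain ⟨m, hm⟩ : ∃ m, m = 2 * Real.exp (-A) := ⟨_, rfl⟩
  have hm0 : 0 < m := by
    rw [hm]
    positivity
  rw [← hk]
  have hcont : ContinuousAt (rho u) z0 :=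
    (rho_contDiffOn M).continuousOn.continuousAt (Metric.isOpen_ball.mem_nhds hz)
  have hev : ∀ᶠ z in 𝓝 z0, k < rho u z ∧ z ∈ Disc := by
    refine (hcont.eventually (lt_mem_nhds ?_)).and (Metric.isOpen_ball.mem_nhds hz)
    rw [hk]
    linarith
  obtain ⟨s0, hs0, hball⟩ := Metric.eventually_nhds_iff_ball.1 hev
  by_cases hkm : k ≤ m
  · refine ⟨s0, hs0, fun z hz => (hball z hz).2, ?_⟩
    intro p hp q hq
    refine le_trans ?_ (dst_ge_norm M (hball p hp).2 (hball q hq).2)
    rw [← hm]
    exact mul_le_mul_of_nonneg_right hkm (norm_nonneg _)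
  · have hmk : m < k := not_le.1 hkm
    have hk0 : 0 < k := hm0.trans hmk
    refine ⟨min (s0 / 2) (m * s0 / (4 * k)), lt_min (by positivity) (by positivity), ?_, ?_⟩
    · intro z hz
      refine (hball z ?_).2
      rw [Metric.mem_ball] at hz ⊢
      have := min_le_left (s0 / 2) (m * s0 / (4 * k))
      linarith
    · intro p hp q hq
      rw [mem_ball_iff_norm] at hp hq
      have e1 : ‖p - z0‖ < s0 / 2 := hp.trans_le (min_le_left _ _)
      have e2 : ‖p - z0‖ < m * s0 / (4 * k) := hp.trans_le (min_le_right _ _)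
      have e3 : ‖q - z0‖ < s0 / 2 := hq.trans_le (min_le_left _ _)
      have e4 : ‖q - z0‖ < m * s0 / (4 * k) := hq.trans_le (min_le_right _ _)
      have hsub : ∀ z, ‖z - p‖ < s0 / 2 → z ∈ Metric.ball z0 s0 := by
        intro z hz
        rw [mem_ball_iff_norm]
        have := norm_add_le (z - p) (p - z0)
        rw [sub_add_sub_cancel] at this
        linarith
      have hpD : p ∈ Disc := (hball p (hsub p (by simpa using half_pos hs0))).2
      have hqD : q ∈ Disc := by
        refine (hball q ?_).2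
        rw [mem_ball_iff_norm]
        linarith
      have hf := le_dst (u := u) hpD hqD (f := fun z => min (k * ‖z - p‖) (m * s0 / 2)) (by
        intro x hx y hy
        show min (k * ‖y - p‖) (m * s0 / 2) - min (k * ‖x - p‖) (m * s0 / 2) ≤ cost u x y
        have hyx : ‖y - p‖ ≤ ‖y - x‖ + ‖x - p‖ := by
          have := norm_add_le (y - x) (x - p)
          rwa [sub_add_sub_cancel] at this
        have hmc : m * ‖y - x‖ ≤ cost u x y := by
          refine le_cost M hx hy (fun s hs => ?_)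
          rw [hm]
          exact rho_ge M (seg_mem hx hy hs)
        by_cases hxs : ‖x - p‖ < s0 / 2
        · by_cases hys : ‖y - p‖ < s0 / 2
          · have hkc : k * ‖y - x‖ ≤ cost u x y := by
              refine le_cost M hx hy (fun s hs => ?_)
              have hxb : x ∈ Metric.ball p (s0 / 2) := by rwa [mem_ball_iff_norm]
              have hyb : y ∈ Metric.ball p (s0 / 2) := by rwa [mem_ball_iff_norm]
              have h := (convex_ball p (s0 / 2)).add_smul_sub_mem hxb hyb hs
              rw [Complex.real_smul, mem_ball_iff_norm] at h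
              exact (hball _ (hsub _ h)).1.le
            have h1 : k * ‖y - p‖ ≤ k * ‖y - x‖ + k * ‖x - p‖ := by
              rw [← mul_add]
              exact mul_le_mul_of_nonneg_left hyx hk0.le
            have h2 : min (k * ‖y - p‖) (m * s0 / 2) ≤
                k * ‖y - x‖ + min (k * ‖x - p‖) (m * s0 / 2) := by
              rcases le_total (k * ‖x - p‖) (m * s0 / 2) with h | h
              · rw [min_eq_left h]
                exact (min_le_left _ _).trans h1
              · rw [min_eq_right h]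
                refine (min_le_right _ _).trans ?_
                have : 0 ≤ k * ‖y - x‖ := mul_nonneg hk0.le (norm_nonneg _)
                linarith
            linarith
          · have h1 := min_le_right (k * ‖y - p‖) (m * s0 / 2)
            have h2 : m * ‖x - p‖ ≤ min (k * ‖x - p‖) (m * s0 / 2) := by
              apply le_min
              · exact mul_le_mul_of_nonneg_right hmk.le (norm_nonneg _)
              · have := mul_le_mul_of_nonneg_left hxs.le hm0.le
                linarith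
            have h3 := mul_le_mul_of_nonneg_left ((not_lt.1 hys).trans hyx) hm0.le
            rw [mul_add] at h3
            linarith
        · have h1 := min_le_right (k * ‖y - p‖) (m * s0 / 2)
          have h2 : m * s0 / 2 ≤ min (k * ‖x - p‖) (m * s0 / 2) := by
            apply le_min _ le_rfl
            have h3 := mul_le_mul hmk.le (not_lt.1 hxs) (by positivity) hk0.le
            linarith
          have h3 : 0 ≤ m * ‖y - x‖ := mul_nonneg hm0.le (norm_nonneg _)
          linarith)
      have hf2 : min (k * ‖q - p‖) (m * s0 / 2) - min (k * ‖p - p‖) (m * s0 / 2) ≤ dst u p q := hf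
      rw [sub_self p, norm_zero, mul_zero, min_eq_left (by positivity : (0 : ℝ) ≤ m * s0 / 2),
        sub_zero] at hf2
      have hqp : ‖q - p‖ ≤ ‖q - z0‖ + ‖p - z0‖ := by
        have := norm_sub_le (q - z0) (p - z0)
        rwa [sub_sub_sub_cancel_right] at this
      have h4 : k * ‖q - p‖ ≤ m * s0 / 2 := by
        have h5 : ‖q - p‖ ≤ 2 * (m * s0 / (4 * k)) := by linarith
        have h6 := mul_le_mul_of_nonneg_left h5 hk0.le
        have h7 : k * (2 * (m * s0 / (4 * k))) = m * s0 / 2 := by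
          field_simp
          ring
        linarith
      rwa [min_eq_left h4] at hf2

end Pool.Agent.H.MP_bfbbee_an
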