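import Mathlib
import Pool.Agent.H.MP_bfbbee_an.Dist

/-!
# Upper bounds for the distance, continuity
-/

namespace Pool.Agent.H.MP_bfbbee_an

open Filter Topology

private theorem one_sub_sq_pos {r s : ℝ} (hr0 : 0 ≤ r) (hr : r < 1)
    (hs : s ∈ Set.Icc (0 : ℝ) 1) : 0 < 1 + s * r ∧ 0 < 1 - s * r := by
  obtain ⟨h0, h1⟩ := hs
  have h2 : 0 ≤ s * r := mul_nonneg h0 hr0
  have h3 : s * r ≤ 1 * r := mul_le_mul_of_nonneg_right h1 hr0
  constructor <;> linarith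

private theorem int_log {r : ℝ} (hr0 : 0 ≤ r) (hr : r < 1) :
    IntervalIntegrable (fun s : ℝ => 2 * r / (1 - (s * r) ^ 2)) MeasureTheory.volume 0 1 ∧
    ∫ s in (0 : ℝ)..1, 2 * r / (1 - (s * r) ^ 2) = Real.log (1 + r) - Real.log (1 - r) := by
  have hc : ContinuousOn (fun s : ℝ => 2 * r / (1 - (s * r) ^ 2)) (Set.uIcc (0 : ℝ) 1) := by
    rw [Set.uIcc_of_le zero_le_one]
    refine ContinuousOn.div (by fun_prop) (by fun_prop) ?_
    intro s hs
    obtain ⟨h1, h2⟩ := one_sub_sq_pos hr0 hr hs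
    have h3 : 1 - (s * r) ^ 2 = (1 + s * r) * (1 - s * r) := by ring
    rw [h3]
    exact (mul_pos h1 h2).ne'
  refine ⟨hc.intervalIntegrable, ?_⟩
  have hd : ∀ s ∈ Set.uIcc (0 : ℝ) 1,
      HasDerivAt (fun s : ℝ => Real.log (1 + s * r) - Real.log (1 - s * r))
        (2 * r / (1 - (s * r) ^ 2)) s := by
    intro s hs
    rw [Set.uIcc_of_le zero_le_one] at hs
    obtain ⟨h1, h2⟩ := one_sub_sq_pos hr0 hr hs
    have e1 : HasDerivAt (fun s : ℝ => 1 + s * r) r s := by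
      have := ((hasDerivAt_id s).mul_const r).const_add 1
      simpa using this
    have e2 : HasDerivAt (fun s : ℝ => 1 - s * r) (-r) s := by
      have := ((hasDerivAt_id s).mul_const r).const_sub 1
      simpa using this
    have e3 := (e1.log h1.ne').sub (e2.log h2.ne')
    have e4 : r / (1 + s * r) - -r / (1 - s * r) = 2 * r / (1 - (s * r) ^ 2) := by
      have h3 : 1 - (s * r) ^ 2 = (1 + s * r) * (1 - s * r) := by ring
      rw [h3, div_sub_div _ _ h1.ne' h2.ne']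
      congr 1
      ring
    rw [e4] at e3
    exact e3
  rw [intervalIntegral.integral_eq_sub_of_hasDerivAt hd hc.intervalIntegrable]
  simp

/-- Distance to the centre: `dst 0 z ≤ e^A log (4 / (1 - |z|²))`.
(`dst ≤ cost = |z| ∫_0^1 rho (s z) ds ≤ e^A ∫_0^1 2 |z| / (1 - s² |z|²) ds
= e^A log ((1 + |z|) / (1 - |z|))`, since `s ↦ log ((1 + s|z|) / (1 - s|z|))` has derivative
`2|z| / (1 - s²|z|²)`; and `(1 + |z|)/(1 - |z|) = (1 + |z|)² / (1 - |z|²) ≤ 4 / (1 - |z|²)`.) -/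
theorem dst_zero_le {u : ℂ → ℝ} {A : ℝ} (M : Met u A) {z : ℂ} (hz : z ∈ Disc) :
    dst u 0 z ≤ Real.exp A * Real.log (4 / (1 - ‖z‖ ^ 2)) := by
  have h0 : (0 : ℂ) ∈ Disc := by simp [Disc]
  have hz1 : ‖z‖ < 1 := by simpa [Disc] using hz
  have hz0 := norm_nonneg z
  refine (dst_le_cost M h0 hz).trans ?_
  obtain ⟨hi, hv⟩ := int_log hz0 hz1
  have h1 : cost u 0 z ≤ Real.exp A * ∫ s in (0 : ℝ)..1, 2 * ‖z‖ / (1 - (s * ‖z‖) ^ 2) := by
    unfold cost
    rw [← intervalIntegral.integral_const_mul, ← intervalIntegral.integral_const_mul]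
    refine intervalIntegral.integral_mono_on zero_le_one ?_ (hi.const_mul _) ?_
    · refine IntervalIntegrable.const_mul ?_ _
      refine ContinuousOn.intervalIntegrable ?_
      rw [Set.uIcc_of_le zero_le_one]
      exact rho_seg_continuousOn M h0 hz
    · intro s hs
      have hm := seg_mem h0 hz hs
      have h2 := rho_upper M hm
      have h3 : ‖(0 : ℂ) + (s : ℂ) * (z - 0)‖ = s * ‖z‖ := by
        simp [abs_of_nonneg hs.1]
      rw [h3] at h2
      have h4 : ‖z - 0‖ * rho u (0 + (s : ℂ) * (z - 0))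
          ≤ ‖z - 0‖ * (2 * Real.exp A / (1 - (s * ‖z‖) ^ 2)) :=
        mul_le_mul_of_nonneg_left h2 (norm_nonneg _)
      refine h4.trans (le_of_eq ?_)
      rw [sub_zero]
      ring
  refine h1.trans ?_
  rw [hv]
  refine mul_le_mul_of_nonneg_left ?_ (Real.exp_pos A).le
  have hp := q_pos hz
  have e1 : 0 < 1 + ‖z‖ := by linarith
  have e2 : 0 < 1 - ‖z‖ := by linarith
  rw [← Real.log_div e1.ne' e2.ne']
  refine Real.log_le_log (div_pos e1 e2) ?_
  rw [div_le_div_iff₀ e2 hp]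
  have e3 : 1 - ‖z‖ ^ 2 = (1 + ‖z‖) * (1 - ‖z‖) := by ring
  rw [e3]
  have e4 : (1 + ‖z‖) ^ 2 ≤ 4 := by nlinarith
  calc (1 + ‖z‖) * ((1 + ‖z‖) * (1 - ‖z‖)) = (1 + ‖z‖) ^ 2 * (1 - ‖z‖) := by ring
    _ ≤ 4 * (1 - ‖z‖) := mul_le_mul_of_nonneg_right e4 e2.le

private theorem rho_continuousAt {u : ℂ → ℝ} {A : ℝ} (M : Met u A) {z0 : ℂ} (hz : z0 ∈ Disc) :
    ContinuousAt (rho u) z0 :=
  (rho_contDiffOn M).continuousOn.continuousAt (Metric.isOpen_ball.mem_nhds hz)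

private theorem seg_in_ball {z0 p q : ℂ} {s0 : ℝ} (hp : p ∈ Metric.ball z0 s0)
    (hq : q ∈ Metric.ball z0 s0) {s : ℝ} (hs : s ∈ Set.Icc (0 : ℝ) 1) :
    p + (s : ℂ) * (q - p) ∈ Metric.ball z0 s0 := by
  have h := (convex_ball z0 s0) hp hq (sub_nonneg.2 hs.2) hs.1 (by ring)
  have e : (1 - s) • p + s • q = p + (s : ℂ) * (q - p) := by
    simp only [Complex.real_smul]
    push_cast
    ring
  rw [e] at h
  exact h

/-- Local upper bound (by `cost_le`, continuity of `rho` and convexity of balls). -/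
theorem dst_le_local {u : ℂ → ℝ} {A : ℝ} (M : Met u A) {z0 : ℂ} (hz : z0 ∈ Disc) {ε : ℝ}
    (hε : 0 < ε) : ∃ s > 0, Metric.ball z0 s ⊆ Disc ∧ ∀ p ∈ Metric.ball z0 s,
      ∀ q ∈ Metric.ball z0 s, dst u p q ≤ (rho u z0 + ε) * ‖q - p‖ := by
  have h1 : ∀ᶠ z in 𝓝 z0, rho u z < rho u z0 + ε :=
    (rho_continuousAt M hz).eventually_lt_const (by linarith)
  have h2 : ∀ᶠ z in 𝓝 z0, z ∈ Disc := Metric.isOpen_ball.mem_nhds hz
  obtain ⟨s, hs, hb⟩ := Metric.eventually_nhds_iff_ball.1 (h1.and h2)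
  refine ⟨s, hs, fun z hz' => (hb z hz').2, ?_⟩
  intro p hp q hq
  refine (dst_le_cost M (hb p hp).2 (hb q hq).2).trans ?_
  refine cost_le M (hb p hp).2 (hb q hq).2 ?_
  intro t ht
  exact (hb _ (seg_in_ball hp hq ht)).1.le

/-- On compact subsets of the disc the distance is at most a constant times the Euclidean
distance (`rho ≤ 2 e^A / (1 - R²)` on the convex set `‖z‖ ≤ R`). -/
theorem dst_le_norm {u : ℂ → ℝ} {A : ℝ} (M : Met u A) {R : ℝ} (hR0 : 0 ≤ R) (hR : R < 1) {p q : ℂ}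
    (hp : ‖p‖ ≤ R) (hq : ‖q‖ ≤ R) :
    dst u p q ≤ 2 * Real.exp A / (1 - R ^ 2) * ‖q - p‖ := by
  have hp' : p ∈ Disc := by simpa [Disc] using lt_of_le_of_lt hp hR
  have hq' : q ∈ Disc := by simpa [Disc] using lt_of_le_of_lt hq hR
  refine (dst_le_cost M hp' hq').trans ?_
  refine cost_le M hp' hq' ?_
  intro s hs
  have hm := seg_mem hp' hq' hs
  refine (rho_upper M hm).trans ?_
  have h1 : p + (s : ℂ) * (q - p) ∈ Metric.closedBall (0 : ℂ) R := by
    have h := (convex_closedBall (0 : ℂ) R) (mem_closedBall_zero_iff.2 hp)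
      (mem_closedBall_zero_iff.2 hq) (sub_nonneg.2 hs.2) hs.1 (by ring)
    have e : (1 - s) • p + s • q = p + (s : ℂ) * (q - p) := by
      simp only [Complex.real_smul]
      push_cast
      ring
    rw [e] at h
    exact h
  have h2 : ‖p + (s : ℂ) * (q - p)‖ ≤ R := mem_closedBall_zero_iff.1 h1
  have h3 : ‖p + (s : ℂ) * (q - p)‖ ^ 2 ≤ R ^ 2 := pow_le_pow_left₀ (norm_nonneg _) h2 2
  have h4 : 0 < 1 - R ^ 2 := by nlinarith
  exact div_le_div_of_nonneg_left (by positivity) h4 (by linarith)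

private theorem dst_diff_le {u : ℂ → ℝ} {A : ℝ} (M : Met u A) {p q p' q' : ℂ} (hp : p ∈ Disc)
    (hq : q ∈ Disc) (hp' : p' ∈ Disc) (hq' : q' ∈ Disc) :
    |dst u p q - dst u p' q'| ≤ dst u p p' + dst u q q' := by
  have h1 := dst_triangle M hp hp' hq
  have h2 := dst_triangle M hp' hq' hq
  have h3 := dst_triangle M hp' hp hq'
  have h4 := dst_triangle M hp hq hq'
  have h5 := dst_comm u q q'
  have h6 := dst_comm u p p'
  rw [abs_le]
  constructor <;> linarith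

/-- Continuity of the distance:
`|dst p q - dst p' q'| ≤ dst p p' + dst q q'` and `dst_le_local`. -/
theorem dst_continuousOn {u : ℂ → ℝ} {A : ℝ} (M : Met u A) :
    ContinuousOn (fun x : ℂ × ℂ => dst u x.1 x.2) (Disc ×ˢ Disc) := by
  rintro ⟨p0, q0⟩ ⟨hp0, hq0⟩
  obtain ⟨s1, hs1, hb1, hl1⟩ := dst_le_local M hp0 one_pos
  obtain ⟨s2, hs2, hb2, hl2⟩ := dst_le_local M hq0 one_pos
  apply ContinuousAt.continuousWithinAt
  have key : Tendsto (fun x : ℂ × ℂ => dst u x.1 x.2 - dst u p0 q0) (𝓝 (p0, q0)) (𝓝 0) := by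
    have hlim : Tendsto (fun x : ℂ × ℂ => (rho u p0 + 1) * ‖p0 - x.1‖ +
        (rho u q0 + 1) * ‖q0 - x.2‖) (𝓝 (p0, q0)) (𝓝 0) := by
      have hcont : Continuous (fun x : ℂ × ℂ => (rho u p0 + 1) * ‖p0 - x.1‖ +
        (rho u q0 + 1) * ‖q0 - x.2‖) := by fun_prop
      have := hcont.tendsto (p0, q0)
      simpa using this
    refine squeeze_zero_norm' ?_ hlim
    have hmem : ∀ᶠ x : ℂ × ℂ in 𝓝 (p0, q0), x.1 ∈ Metric.ball p0 s1 ∧ x.2 ∈ Metric.ball q0 s2 := by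
      have := prod_mem_nhds (Metric.ball_mem_nhds p0 hs1) (Metric.ball_mem_nhds q0 hs2)
      filter_upwards [this] with x hx
      exact hx
    filter_upwards [hmem] with x hx
    rw [Real.norm_eq_abs]
    refine (dst_diff_le M (hb1 hx.1) (hb2 hx.2) hp0 hq0).trans ?_
    exact add_le_add (hl1 _ hx.1 _ (Metric.mem_ball_self hs1))
      (hl2 _ hx.2 _ (Metric.mem_ball_self hs2))
  have h2 := key.add_const (dst u p0 q0)
  simp only [sub_add_cancel, zero_add] at h2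
  exact h2

/-- Sequential form of the continuity of the distance. -/
theorem dst_tendsto {u : ℂ → ℝ} {A : ℝ} (M : Met u A) {ι : Type*} {l : Filter ι} {p q : ι → ℂ}
    {p0 q0 : ℂ} (hp0 : p0 ∈ Disc) (hq0 : q0 ∈ Disc) (hp : Tendsto p l (𝓝 p0))
    (hq : Tendsto q l (𝓝 q0)) : Tendsto (fun n => dst u (p n) (q n)) l (𝓝 (dst u p0 q0)) := by
  have h1 : ContinuousAt (fun x : ℂ × ℂ => dst u x.1 x.2) (p0, q0) :=
    (dst_continuousOn M).continuousAt
      ((Metric.isOpen_ball.prod Metric.isOpen_ball).mem_nhds ⟨hp0, hq0⟩)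
  exact h1.tendsto.comp (hp.prodMk_nhds hq)

end Pool.Agent.H.MP_bfbbee_an
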