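import Mathlib
import Pool.Agent.H.MP_bfbbee_an.Low
import Pool.Agent.H.MP_bfbbee_an.Up

/-!
# The distance is at most the length of a Lipschitz curve
-/

namespace Pool.Agent.H.MP_bfbbee_an

open Filter Topology MeasureTheory

/-- A Lipschitz curve in the disc is Lipschitz for the distance; more precisely
`t ↦ dst p (σ t)` is Lipschitz on `[a, b]`.
(`|dst p (σ t) - dst p (σ s)| ≤ dst (σ s) (σ t)`, and the image of `[a, b]` is a compact subset of
the disc, hence contained in `closedBall 0 R` with `R < 1`, where `dst_le_norm` applies.) -/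
theorem dst_curve_lipschitz {u : ℂ → ℝ} {A : ℝ} (M : Met u A) {p : ℂ} (hp : p ∈ Disc) {a b : ℝ}
    (hab : a ≤ b) {σ : ℝ → ℂ} {K : NNReal} (hσ : LipschitzOnWith K σ (Set.Icc a b))
    (hmem : ∀ t ∈ Set.Icc a b, σ t ∈ Disc) :
    ∃ K' : NNReal, LipschitzOnWith K' (fun t => dst u p (σ t)) (Set.Icc a b) := by
  have hne : (Set.Icc a b).Nonempty := ⟨a, Set.left_mem_Icc.2 hab⟩
  obtain ⟨t0, ht0, hmax⟩ := isCompact_Icc.exists_isMaxOn hne
    (f := fun t => ‖σ t‖) (hσ.continuousOn.norm)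
  obtain ⟨R, hRdef⟩ : ∃ R, R = ‖σ t0‖ := ⟨_, rfl⟩
  have hR0 : 0 ≤ R := by
    rw [hRdef]
    exact norm_nonneg _
  have hR1 : R < 1 := by
    have h := hmem t0 ht0
    rw [hRdef]
    simpa [Disc] using h
  have hle : ∀ t ∈ Set.Icc a b, ‖σ t‖ ≤ R := fun t ht => by
    rw [hRdef]
    exact hmax ht
  have hc0 : 0 ≤ 2 * Real.exp A / (1 - R ^ 2) := by
    have h1 : 0 < 1 - R ^ 2 := by nlinarith
    positivity
  refine ⟨Real.toNNReal (2 * Real.exp A / (1 - R ^ 2)) * K, ?_⟩
  refine LipschitzOnWith.of_dist_le_mul ?_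
  intro s hs t ht
  rw [Real.dist_eq]
  have h1 := dst_triangle M hp (hmem t ht) (hmem s hs)
  have h2 := dst_triangle M hp (hmem s hs) (hmem t ht)
  have h3 := dst_le_norm M hR0 hR1 (hle s hs) (hle t ht)
  have h4 := dst_comm u (σ s) (σ t)
  have h5 : ‖σ t - σ s‖ ≤ K * dist s t := by
    have h := hσ.dist_le_mul s hs t ht
    rwa [dist_comm, dist_eq_norm] at h
  have h6 : |dst u p (σ s) - dst u p (σ t)| ≤ dst u (σ s) (σ t) := by
    rw [abs_le]
    constructor <;> linarith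
  have h7 : 2 * Real.exp A / (1 - R ^ 2) * ‖σ t - σ s‖ ≤
      2 * Real.exp A / (1 - R ^ 2) * (K * dist s t) := mul_le_mul_of_nonneg_left h5 hc0
  have h8 : ((Real.toNNReal (2 * Real.exp A / (1 - R ^ 2)) * K : NNReal) : ℝ) * dist s t =
      2 * Real.exp A / (1 - R ^ 2) * (K * dist s t) := by
    rw [NNReal.coe_mul, Real.coe_toNNReal _ hc0, mul_assoc]
  linarith

/-- Speed bound: if `σ` has the derivative `σ'` at `t` and `g t = dst p (σ t)` has the derivative
`g'` at `t` (`a < t < b`), then `g' ≤ rho (σ t) ‖σ'‖`.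
(`g (t + h) - g t ≤ dst (σ t) (σ (t + h)) ≤ (rho (σ t) + ε) ‖σ (t + h) - σ t‖` for small `h > 0` by
`dst_le_local`; divide by `h`, let `h → 0`, then `ε → 0`.) -/
theorem deriv_dst_le {u : ℂ → ℝ} {A : ℝ} (M : Met u A) {p : ℂ} (hp : p ∈ Disc)
    {σ : ℝ → ℂ} {t : ℝ} (hmem : ∀ᶠ s in 𝓝 t, σ s ∈ Disc) {σ' : ℂ} {g' : ℝ}
    (h1 : HasDerivAt σ σ' t) (h2 : HasDerivAt (fun s => dst u p (σ s)) g' t) :
    g' ≤ rho u (σ t) * ‖σ'‖ := by
  have hst : σ t ∈ Disc := hmem.self_of_nhds
  have key : ∀ ε > 0, g' ≤ (rho u (σ t) + ε) * ‖σ'‖ := by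
    intro ε hε
    obtain ⟨s, hs, hb, hl⟩ := dst_le_local M hst hε
    have hslope1 : Tendsto (fun r => slope (fun s => dst u p (σ s)) t r) (𝓝[>] t) (𝓝 g') :=
      (hasDerivAt_iff_tendsto_slope.1 h2).mono_left
        (nhdsWithin_mono _ (fun x hx => ne_of_gt hx))
    have hslope2 : Tendsto (fun r => (rho u (σ t) + ε) * ‖slope σ t r‖) (𝓝[>] t)
        (𝓝 ((rho u (σ t) + ε) * ‖σ'‖)) := by
      have h3 : Tendsto (fun r => slope σ t r) (𝓝[>] t) (𝓝 σ') :=
        (hasDerivAt_iff_tendsto_slope.1 h1).mono_left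
          (nhdsWithin_mono _ (fun x hx => ne_of_gt hx))
      exact h3.norm.const_mul _
    refine le_of_tendsto_of_tendsto hslope1 hslope2 ?_
    have hev : ∀ᶠ r in 𝓝[>] t, σ r ∈ Metric.ball (σ t) s :=
      (h1.continuousAt.eventually (Metric.ball_mem_nhds _ hs)).filter_mono nhdsWithin_le_nhds
    filter_upwards [hev, self_mem_nhdsWithin] with r hr hrt
    have hrt' : 0 < r - t := sub_pos.2 hrt
    have h4 := hl (σ t) (Metric.mem_ball_self hs) (σ r) hr
    have h5 := dst_triangle M hp hst (hb hr)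
    have h6 : dst u p (σ r) - dst u p (σ t) ≤ (rho u (σ t) + ε) * ‖σ r - σ t‖ := by linarith
    rw [slope_def_field, slope_def_module, norm_smul, norm_inv, Real.norm_eq_abs, abs_of_pos hrt',
      div_le_iff₀ hrt']
    calc dst u p (σ r) - dst u p (σ t) ≤ (rho u (σ t) + ε) * ‖σ r - σ t‖ := h6
      _ = (rho u (σ t) + ε) * ((r - t)⁻¹ * ‖σ r - σ t‖) * (r - t) := by
        field_simp
  refine le_of_tendsto_of_tendsto (f := fun _ : ℝ => g')
    (g := fun ε => (rho u (σ t) + ε) * ‖σ'‖) (b := 𝓝[>] (0 : ℝ)) tendsto_const_nhds ?_ ?_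
  · have h3 : Tendsto (fun ε : ℝ => (rho u (σ t) + ε) * ‖σ'‖) (𝓝 0)
        (𝓝 ((rho u (σ t) + 0) * ‖σ'‖)) := by
      apply Continuous.tendsto
      fun_prop
    rw [add_zero] at h3
    exact h3.mono_left nhdsWithin_le_nhds
  · filter_upwards [self_mem_nhdsWithin] with ε hε
    exact key ε hε

/-- The distance between the end points of a Lipschitz curve is at most its length.
(`g t = dst (σ a) (σ t)` is Lipschitz, hence absolutely continuous,
`LipschitzOnWith.absolutelyContinuousOnInterval`, so `g b - g a = ∫ deriv g`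
(`AbsolutelyContinuousOnInterval.integral_deriv_eq_sub`) and `deriv g ≤ rho (σ) ‖deriv σ‖` almost
everywhere by `deriv_dst_le` (both functions are differentiable almost everywhere, Rademacher in
dimension one). Integrability of the right side: `deriv σ` is measurable
(`measurable_deriv`), bounded by `K` almost everywhere on `(a, b)`, `rho ∘ σ` is continuous.) -/
theorem dst_le_length {u : ℂ → ℝ} {A : ℝ} (M : Met u A) {a b : ℝ} (hab : a ≤ b) {σ : ℝ → ℂ}
    {K : NNReal} (hσ : LipschitzOnWith K σ (Set.Icc a b))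
    (hmem : ∀ t ∈ Set.Icc a b, σ t ∈ Disc) :
    IntervalIntegrable (fun t => rho u (σ t) * ‖deriv σ t‖) volume a b ∧
    dst u (σ a) (σ b) ≤ ∫ t in a..b, rho u (σ t) * ‖deriv σ t‖ := by
  have hσa : σ a ∈ Disc := hmem a (Set.left_mem_Icc.2 hab)
  have hnn : ∀ᵐ t : ℝ, t ≠ a ∧ t ≠ b := by
    have h1 : ∀ᵐ t : ℝ, t ≠ a := (Set.finite_singleton a).countable.ae_notMem volume |>.mono
      fun t ht h => ht (by simp [h])
    have h2 : ∀ᵐ t : ℝ, t ≠ b := (Set.finite_singleton b).countable.ae_notMem volume |>.mono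
      fun t ht h => ht (by simp [h])
    filter_upwards [h1, h2] with t h1 h2 using ⟨h1, h2⟩
  -- the interior
  have hint : ∀ᵐ t : ℝ ∂(volume.restrict (Set.uIoc a b)), t ∈ Set.Ioo a b := by
    rw [Set.uIoc_of_le hab, ae_restrict_iff' measurableSet_Ioc]
    filter_upwards [hnn] with t ht ht2
    exact ⟨ht2.1, lt_of_le_of_ne ht2.2 ht.2⟩
  -- differentiability of σ
  have hd1 : ∀ᵐ t : ℝ ∂(volume.restrict (Set.uIoc a b)), DifferentiableAt ℝ σ t := by
    have h := hσ.ae_differentiableWithinAt_of_mem_real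
    have h' : ∀ᵐ t : ℝ ∂(volume.restrict (Set.uIoc a b)), t ∈ Set.Icc a b →
      DifferentiableWithinAt ℝ σ (Set.Icc a b) t := ae_restrict_of_ae h
    filter_upwards [h', hint] with t h1 h2
    exact (h1 (Set.Ioo_subset_Icc_self h2)).differentiableAt (Icc_mem_nhds h2.1 h2.2)
  have hdb : ∀ t ∈ Set.Ioo a b, ‖deriv σ t‖ ≤ K := by
    intro t ht
    exact norm_deriv_le_of_lipschitzOn (Icc_mem_nhds ht.1 ht.2) hσ
  have hrc : ContinuousOn (fun t => rho u (σ t)) (Set.uIcc a b) := by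
    rw [Set.uIcc_of_le hab]
    intro t ht
    exact ((rho_contDiffOn M).continuousOn.continuousAt
      (Metric.isOpen_ball.mem_nhds (hmem t ht))).comp_continuousWithinAt (hσ.continuousOn t ht)
  have hdi : IntervalIntegrable (fun t => ‖deriv σ t‖) volume a b := by
    rw [intervalIntegrable_iff]
    have hfin : IsFiniteMeasure (volume.restrict (Set.uIoc a b)) := by
      rw [Set.uIoc_of_le hab]
      infer_instance
    refine MeasureTheory.Integrable.of_bound ((measurable_deriv σ).norm.aestronglyMeasurable) K ?_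
    filter_upwards [hint] with t ht
    rw [norm_norm]
    exact hdb t ht
  have hii : IntervalIntegrable (fun t => rho u (σ t) * ‖deriv σ t‖) volume a b :=
    hdi.continuousOn_mul hrc
  refine ⟨hii, ?_⟩
  obtain ⟨K', hK'⟩ := dst_curve_lipschitz M hσa hab hσ hmem
  have hK2 : LipschitzOnWith K' (fun t => dst u (σ a) (σ t)) (Set.uIcc a b) := by
    rwa [Set.uIcc_of_le hab]
  have hac := hK2.absolutelyContinuousOnInterval
  have hftc := hac.integral_deriv_eq_sub
  have hd2 : ∀ᵐ t : ℝ ∂(volume.restrict (Set.uIoc a b)),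
      DifferentiableAt ℝ (fun t => dst u (σ a) (σ t)) t := by
    have h := hK'.ae_differentiableWithinAt_of_mem_real
    have h' : ∀ᵐ t : ℝ ∂(volume.restrict (Set.uIoc a b)), t ∈ Set.Icc a b →
      DifferentiableWithinAt ℝ (fun t => dst u (σ a) (σ t)) (Set.Icc a b) t := ae_restrict_of_ae h
    filter_upwards [h', hint] with t h1 h2
    exact (h1 (Set.Ioo_subset_Icc_self h2)).differentiableAt (Icc_mem_nhds h2.1 h2.2)
  have hgi : IntervalIntegrable (deriv fun t => dst u (σ a) (σ t)) volume a b :=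
    hac.intervalIntegrable_deriv
  have hle : ∫ t in a..b, deriv (fun t => dst u (σ a) (σ t)) t ≤
      ∫ t in a..b, rho u (σ t) * ‖deriv σ t‖ := by
    refine intervalIntegral.integral_mono_ae_restrict hab hgi hii ?_
    have hmono : (volume.restrict (Set.Icc a b)) = volume.restrict (Set.Ioc a b) :=
      (restrict_Ioc_eq_restrict_Icc).symm
    rw [hmono, ← Set.uIoc_of_le hab]
    filter_upwards [hint, hd1, hd2] with t h1 h2 h3
    refine deriv_dst_le M hσa ?_ h2.hasDerivAt h3.hasDerivAt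
    filter_upwards [Icc_mem_nhds h1.1 h1.2] with s hs using hmem s hs
  rw [hftc, dst_self M hσa, sub_zero] at hle
  exact hle

/-- The `C¹` version (`σ'` continuous on the compact interval, hence bounded, so `σ` is Lipschitz;
`deriv σ = σ'` in the interior). -/
theorem dst_le_length_C1 {u : ℂ → ℝ} {A : ℝ} (M : Met u A) {a b : ℝ} (hab : a ≤ b)
    {σ σ' : ℝ → ℂ} (hσ : ∀ t ∈ Set.Icc a b, HasDerivWithinAt σ (σ' t) (Set.Icc a b) t)
    (hc : ContinuousOn σ' (Set.Icc a b)) (hmem : ∀ t ∈ Set.Icc a b, σ t ∈ Disc) :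
    dst u (σ a) (σ b) ≤ ∫ t in a..b, rho u (σ t) * ‖σ' t‖ := by
  obtain ⟨K, hK⟩ : ∃ K : NNReal, ∀ t ∈ Set.Icc a b, ‖σ' t‖ ≤ K := by
    obtain ⟨C, hC⟩ := isCompact_Icc.exists_bound_of_continuousOn hc
    refine ⟨Real.toNNReal C, fun t ht => (hC t ht).trans (Real.le_coe_toNNReal C)⟩
  have hlip : LipschitzOnWith K σ (Set.Icc a b) :=
    (convex_Icc a b).lipschitzOnWith_of_nnnorm_hasDerivWithin_le hσ
      (fun t ht => by exact_mod_cast hK t ht)
  refine (dst_le_length M hab hlip hmem).2.trans (le_of_eq ?_)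
  refine intervalIntegral.integral_congr_ae ?_
  have hnn : ∀ᵐ t : ℝ, t ≠ b := (Set.finite_singleton b).countable.ae_notMem volume |>.mono
      fun t ht h => ht (by simp [h])
  filter_upwards [hnn] with t ht ht2
  rw [Set.uIoc_of_le hab] at ht2
  have h3 : t < b := lt_of_le_of_ne ht2.2 ht
  have h4 : deriv σ t = σ' t :=
    ((hσ t ⟨ht2.1.le, ht2.2⟩).hasDerivAt (Icc_mem_nhds ht2.1 h3)).deriv
  rw [h4]

end Pool.Agent.H.MP_bfbbee_an
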