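import Mathlib
import Pool.Agent.H.MP_bfbbee_an.Base

/-!
# The second order estimate for the length integrand
-/

namespace Pool.Agent.H.MP_bfbbee_an

open Filter Topology

/-- `fderiv (rho u) z h = rho u z * dotp (grad u z) h`. -/
theorem Taylor_fderiv_rho {u : ℂ → ℝ} {A : ℝ} (M : Met u A) {z : ℂ} (hz : z ∈ Disc) (h : ℂ) :
    fderiv ℝ (rho u) z h = rho u z * dotp (grad u z) h := by
  have hd : DifferentiableAt ℝ (rho u) z :=
    ((rho_contDiffOn M).contDiffAt (Metric.isOpen_ball.mem_nhds hz)).differentiableAt (by norm_num)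
  have hp := rho_pos u hz
  have h1 : HasFDerivAt (phi u) ((rho u z)⁻¹ • fderiv ℝ (rho u) z) z :=
    hd.hasFDerivAt.log hp.ne'
  rw [← fderiv_phi_eq, h1.fderiv]
  simp only [ContinuousLinearMap.smul_apply, smul_eq_mul]
  field_simp

/-- Taylor estimate for `rho` on compact sets: for `R < 1` there are `C, ε > 0` such that for
`‖z‖ ≤ R` and `‖h‖ ≤ ε` the point `z + h` is in the disc and
`rho (z + h) ≤ rho z + rho z * ⟨grad z, h⟩ + C ‖h‖²`.
(`rho` is `C²` on the disc; take `ε = (1 - R) / 2` and `C` a bound for the second derivative on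
the compact convex set `closedBall 0 ((1 + R) / 2)`; the derivative of `rho = exp (phi)` at `z` is
`rho z * fderiv phi z = rho z * ⟨grad z, ·⟩`. One way: apply the one dimensional Taylor or mean
value theorem to `s ↦ rho (z + s h)`, whose derivative at `s` differs from that at `0` by at most
`C s ‖h‖²`, since the derivative of `rho` is Lipschitz on the compact convex set.) -/
theorem rho_taylor {u : ℂ → ℝ} {A : ℝ} (M : Met u A) {R : ℝ} (hR0 : 0 ≤ R) (hR : R < 1) :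
    ∃ C ε : ℝ, 0 < C ∧ 0 < ε ∧ ∀ z h : ℂ, ‖z‖ ≤ R → ‖h‖ ≤ ε →
      z + h ∈ Disc ∧ rho u (z + h) ≤ rho u z + rho u z * dotp (grad u z) h + C * ‖h‖ ^ 2 := by
  have hR' : (1 + R) / 2 < 1 := by linarith
  have hsub : Metric.closedBall (0 : ℂ) ((1 + R) / 2) ⊆ Disc := Metric.closedBall_subset_ball hR'
  have hcd : ContDiffOn ℝ 1 (fderiv ℝ (rho u)) Disc :=
    (rho_contDiffOn M).fderiv_of_isOpen Metric.isOpen_ball (by norm_num)
  have hc2 : ContinuousOn (fderiv ℝ (fderiv ℝ (rho u))) Disc :=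
    hcd.continuousOn_fderiv_of_isOpen Metric.isOpen_ball (by norm_num)
  have hc3 : ContinuousOn (fun x => ‖fderiv ℝ (fderiv ℝ (rho u)) x‖)
      (Metric.closedBall (0 : ℂ) ((1 + R) / 2)) :=
    ContinuousOn.norm (E := ℂ →L[ℝ] ℂ →L[ℝ] ℝ) (hc2.mono hsub)
  obtain ⟨C0, hC0''⟩ :=
    (isCompact_closedBall (0 : ℂ) ((1 + R) / 2)).exists_bound_of_continuousOn hc3
  have hC0 : ∀ x ∈ Metric.closedBall (0 : ℂ) ((1 + R) / 2),
      ‖fderiv ℝ (fderiv ℝ (rho u)) x‖ ≤ C0 := fun x hx => by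
    have h0 := hC0'' x hx
    rw [Real.norm_eq_abs] at h0
    exact (le_abs_self _).trans h0
  have hC0' : 0 ≤ C0 := by
    have h0 := hC0'' 0 (by simp; linarith)
    exact (norm_nonneg _).trans h0
  refine ⟨C0 + 1, (1 - R) / 2, by linarith, by linarith, fun z h hz hh => ?_⟩
  have hzh : z + h ∈ Metric.closedBall (0 : ℂ) ((1 + R) / 2) := by
    rw [mem_closedBall_zero_iff]
    refine (norm_add_le _ _).trans ?_
    linarith
  have hzc : z ∈ Metric.closedBall (0 : ℂ) ((1 + R) / 2) := by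
    rw [mem_closedBall_zero_iff]
    linarith
  refine ⟨hsub hzh, ?_⟩
  have hseg : segment ℝ z (z + h) ⊆ Metric.closedBall (0 : ℂ) ((1 + R) / 2) :=
    (convex_closedBall _ _).segment_subset hzc hzh
  have hlip : ∀ x ∈ segment ℝ z (z + h), ‖fderiv ℝ (rho u) x - fderiv ℝ (rho u) z‖ ≤ C0 * ‖h‖ := by
    intro x hx
    have h1 := (convex_closedBall (0 : ℂ) ((1 + R) / 2)).norm_image_sub_le_of_norm_fderiv_le
      (𝕜 := ℝ) (f := fderiv ℝ (rho u)) (C := C0) (fun y hy =>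
        (hcd.contDiffAt (Metric.isOpen_ball.mem_nhds (hsub hy))).differentiableAt (by norm_num))
      hC0 hzc (hseg hx)
    refine h1.trans (mul_le_mul_of_nonneg_left ?_ hC0')
    obtain ⟨t, ht, rfl⟩ := (segment_eq_image' ℝ z (z + h)).subset hx
    have h2 : z + t • (z + h - z) - z = t • h := by rw [add_sub_cancel_left, add_sub_cancel_left]
    rw [h2, norm_smul, Real.norm_of_nonneg ht.1]
    exact mul_le_of_le_one_left (norm_nonneg _) ht.2
  have h3 := (convex_segment z (z + h)).norm_image_sub_le_of_norm_fderiv_le'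
    (𝕜 := ℝ) (f := rho u) (C := C0 * ‖h‖) (φ := fderiv ℝ (rho u) z) (fun y hy =>
      ((rho_contDiffOn M).contDiffAt
        (Metric.isOpen_ball.mem_nhds (hsub (hseg hy)))).differentiableAt (by norm_num))
    hlip (left_mem_segment ℝ z (z + h)) (right_mem_segment ℝ z (z + h))
  rw [add_sub_cancel_left, Taylor_fderiv_rho M (hsub hzc)] at h3
  have h4 := (abs_le.1 ((Real.norm_eq_abs _).symm.le.trans h3)).2
  have h5 : 0 ≤ ‖h‖ ^ 2 := sq_nonneg _
  nlinarith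

/-- `‖ζ + k‖ ≤ ‖ζ‖ + (2 ⟨ζ, k⟩ + ‖k‖²) / (2 ‖ζ‖)` for `ζ ≠ 0` (`sqrt (1 + x) ≤ 1 + x / 2`, i.e.
`(‖ζ‖ + y)² ≥ ‖ζ‖² + 2 ‖ζ‖ y` for `y` the added term, and the right side is nonnegative). -/
theorem norm_add_le_quad {ζ k : ℂ} (hζ : ζ ≠ 0) :
    ‖ζ + k‖ ≤ ‖ζ‖ + (2 * dotp ζ k + ‖k‖ ^ 2) / (2 * ‖ζ‖) := by
  have ha : 0 < ‖ζ‖ := norm_pos_iff.2 hζ
  have h1 : ‖ζ + k‖ ^ 2 = ‖ζ‖ ^ 2 + (2 * dotp ζ k + ‖k‖ ^ 2) := by
    rw [← dotp_self, ← dotp_self, ← dotp_self]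
    unfold dotp
    simp only [Complex.add_re, Complex.add_im]
    ring
  have h2 : 2 * dotp ζ k + ‖k‖ ^ 2 = ‖ζ + k‖ ^ 2 - ‖ζ‖ ^ 2 := by rw [h1]; ring
  rw [h2, ← sub_le_iff_le_add', le_div_iff₀ (by positivity)]
  nlinarith [sq_nonneg (‖ζ + k‖ - ‖ζ‖)]

/-- The integrand estimate. For `R < 1` there are `C, ε > 0` such that for `‖z‖ ≤ R`,
`rho z * ‖ζ‖ = 1`, `‖h‖ ≤ ε` and `‖k‖ ≤ ε`:
`rho (z + h) ‖ζ + k‖ ≤ 1 + ⟨grad z, h⟩ + rho z ² ⟨ζ, k⟩ + C (‖h‖² + ‖k‖²)`.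
Proof: multiply the estimates `rho (z + h) ≤ rho (1 + ⟨grad, h⟩) + C ‖h‖²` and
`‖ζ + k‖ ≤ 1 / rho + rho ⟨ζ, k⟩ + rho ‖k‖² / 2` (`norm_add_le_quad` with `‖ζ‖ = 1 / rho`).
On the compact set `rho`, `1 / rho` and `‖grad‖` are bounded, so all further terms of the product
are `≤ C (‖h‖² + ‖k‖² + ‖h‖ ‖k‖)` (products of order three or four are absorbed by `ε ≤ 1`). Note
that both upper bounds are nonnegative, so the product inequality is legitimate. -/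
theorem integrand_le {u : ℂ → ℝ} {A : ℝ} (M : Met u A) {R : ℝ} (hR0 : 0 ≤ R) (hR : R < 1) :
    ∃ C ε : ℝ, 0 < C ∧ 0 < ε ∧ ∀ z ζ h k : ℂ, ‖z‖ ≤ R → rho u z * ‖ζ‖ = 1 → ‖h‖ ≤ ε → ‖k‖ ≤ ε →
      z + h ∈ Disc ∧ rho u (z + h) * ‖ζ + k‖ ≤
        1 + dotp (grad u z) h + rho u z ^ 2 * dotp ζ k + C * (‖h‖ ^ 2 + ‖k‖ ^ 2) := by
  obtain ⟨C1, ε1, hC1, hε1, H1⟩ := rho_taylor M hR0 hR
  have hsub : Metric.closedBall (0 : ℂ) R ⊆ Disc := Metric.closedBall_subset_ball hR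
  obtain ⟨G, hG⟩ := (isCompact_closedBall (0 : ℂ) R).exists_bound_of_continuousOn
    ((grad_continuousOn M).mono hsub)
  have hG0 : 0 ≤ G := (norm_nonneg _).trans (hG 0 (by simpa using hR0))
  obtain ⟨P, hP⟩ := (isCompact_closedBall (0 : ℂ) R).exists_bound_of_continuousOn
    ((rho_contDiffOn M).continuousOn.mono hsub)
  have hP0 : 0 ≤ P := (norm_nonneg _).trans (hP 0 (by simpa using hR0))
  set m : ℝ := 2 * Real.exp (-A) with hm
  have hm0 : 0 < m := by positivity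
  refine ⟨P * G + P ^ 2 * (1 + G) + C1 / m + C1 + C1 * P + 1, min ε1 1, by positivity,
    lt_min hε1 one_pos, fun z ζ h k hz hζ hh hk => ?_⟩
  have hzD : z ∈ Disc := hsub (by rwa [mem_closedBall_zero_iff])
  obtain ⟨h1, h2⟩ := H1 z h hz (hh.trans (min_le_left _ _))
  refine ⟨h1, ?_⟩
  have hh1 : ‖h‖ ≤ 1 := hh.trans (min_le_right _ _)
  have hk1 : ‖k‖ ≤ 1 := hk.trans (min_le_right _ _)
  set r := rho u z with hr
  have hr0 : 0 < r := rho_pos u hzD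
  have hrP : r ≤ P := (le_abs_self _).trans ((Real.norm_eq_abs _).symm.le.trans
    (hP z (by rwa [mem_closedBall_zero_iff])))
  have hrm : m ≤ r := rho_ge M hzD
  have hζn : ‖ζ‖ = 1 / r := by field_simp; linarith
  have hζ0 : ζ ≠ 0 := by
    rintro rfl
    simp at hζ
  have h3 := norm_add_le_quad hζ0 (k := k)
  set g := dotp (grad u z) h with hg
  set d := dotp ζ k with hd
  have hgb : |g| ≤ G * ‖h‖ := (abs_dotp_le _ _).trans
    (mul_le_mul_of_nonneg_right (hG z (by rwa [mem_closedBall_zero_iff])) (norm_nonneg _))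
  have hdb : |d| ≤ ‖k‖ / r := by
    refine (abs_dotp_le _ _).trans ?_
    rw [hζn]
    exact le_of_eq (by ring)
  have h4 : ‖ζ + k‖ ≤ 1 / r + r * d + r * ‖k‖ ^ 2 / 2 := by
    rw [hζn] at h3
    refine h3.trans (le_of_eq ?_)
    field_simp
    ring
  have h5 : 0 < rho u (z + h) := rho_pos u h1
  have h6 : rho u (z + h) * ‖ζ + k‖ ≤
      (r + r * g + C1 * ‖h‖ ^ 2) * (1 / r + r * d + r * ‖k‖ ^ 2 / 2) :=
    mul_le_mul h2 h4 (norm_nonneg _) (h5.le.trans h2)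
  refine h6.trans ?_
  set a := ‖h‖ with ha
  set b := ‖k‖ with hb
  have ha0 : 0 ≤ a := norm_nonneg _
  have hb0 : 0 ≤ b := norm_nonneg _
  have e1 : (r + r * g + C1 * a ^ 2) * (1 / r + r * d + r * b ^ 2 / 2) =
      1 + g + r ^ 2 * d + (r ^ 2 * (g * d) + r ^ 2 * (1 + g) * b ^ 2 / 2 + C1 * a ^ 2 / r +
        C1 * a ^ 2 * (r * d) + C1 * a ^ 2 * (r * b ^ 2) / 2) := by
    field_simp
    ring
  rw [e1]
  have hrd : |r * d| ≤ b := by
    rw [abs_mul, abs_of_pos hr0]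
    calc r * |d| ≤ r * (b / r) := mul_le_mul_of_nonneg_left hdb hr0.le
      _ = b := by field_simp
  have hg1 : |g| ≤ G := hgb.trans (mul_le_of_le_one_right hG0 hh1)
  have hab : a * b ≤ a ^ 2 + b ^ 2 := by nlinarith [sq_nonneg (a - b), sq_nonneg (a + b)]
  have t1 : r ^ 2 * (g * d) ≤ P * G * (a ^ 2 + b ^ 2) := by
    have q1 : r ^ 2 * (g * d) = r * (g * (r * d)) := by ring
    have q2 : g * (r * d) ≤ G * a * b := by
      refine (le_abs_self _).trans ?_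
      rw [abs_mul]
      exact mul_le_mul hgb hrd (abs_nonneg _) (by positivity)
    have q3 : G * a * b ≤ G * (a ^ 2 + b ^ 2) := by
      rw [mul_assoc]
      exact mul_le_mul_of_nonneg_left hab hG0
    rw [q1]
    calc r * (g * (r * d)) ≤ r * (G * (a ^ 2 + b ^ 2)) :=
          mul_le_mul_of_nonneg_left (q2.trans q3) hr0.le
      _ ≤ P * (G * (a ^ 2 + b ^ 2)) := mul_le_mul_of_nonneg_right hrP (by positivity)
      _ = P * G * (a ^ 2 + b ^ 2) := by ring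
  have t2 : r ^ 2 * (1 + g) * b ^ 2 / 2 ≤ P ^ 2 * (1 + G) * b ^ 2 := by
    have q1 : r ^ 2 ≤ P ^ 2 := pow_le_pow_left₀ hr0.le hrP 2
    have q2 : r ^ 2 * (1 + g) ≤ P ^ 2 * (1 + G) := by
      have q3 : 1 + g ≤ 1 + G := by linarith [le_abs_self g]
      calc r ^ 2 * (1 + g) ≤ r ^ 2 * (1 + G) := mul_le_mul_of_nonneg_left q3 (by positivity)
        _ ≤ P ^ 2 * (1 + G) := mul_le_mul_of_nonneg_right q1 (by positivity)
    have q4 : r ^ 2 * (1 + g) * b ^ 2 ≤ P ^ 2 * (1 + G) * b ^ 2 :=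
      mul_le_mul_of_nonneg_right q2 (by positivity)
    have q5 : 0 ≤ P ^ 2 * (1 + G) * b ^ 2 := by positivity
    linarith
  have t3 : C1 * a ^ 2 / r ≤ C1 / m * a ^ 2 := by
    rw [div_mul_eq_mul_div]
    exact div_le_div_of_nonneg_left (by positivity) hm0 hrm
  have t4 : C1 * a ^ 2 * (r * d) ≤ C1 * a ^ 2 := by
    refine mul_le_of_le_one_right (by positivity) ?_
    exact (le_abs_self _).trans (hrd.trans hk1)
  have t5 : C1 * a ^ 2 * (r * b ^ 2) / 2 ≤ C1 * P * a ^ 2 := by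
    have q1 : b ^ 2 ≤ 1 := pow_le_one₀ hb0 hk1
    have q2 : r * b ^ 2 ≤ P := (mul_le_of_le_one_right hr0.le q1).trans hrP
    have q3 : C1 * a ^ 2 * (r * b ^ 2) ≤ C1 * a ^ 2 * P :=
      mul_le_mul_of_nonneg_left q2 (by positivity)
    have q4 : 0 ≤ C1 * a ^ 2 * P := by positivity
    linarith
  have u1 : 0 ≤ a ^ 2 := sq_nonneg _
  have u2 : 0 ≤ b ^ 2 := sq_nonneg _
  have w1 : P ^ 2 * (1 + G) * b ^ 2 ≤ P ^ 2 * (1 + G) * (a ^ 2 + b ^ 2) :=
    mul_le_mul_of_nonneg_left (by linarith) (by positivity)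
  have w2 : C1 / m * a ^ 2 ≤ C1 / m * (a ^ 2 + b ^ 2) :=
    mul_le_mul_of_nonneg_left (by linarith) (by positivity)
  have w3 : C1 * a ^ 2 ≤ C1 * (a ^ 2 + b ^ 2) :=
    mul_le_mul_of_nonneg_left (by linarith) (by positivity)
  have w4 : C1 * P * a ^ 2 ≤ C1 * P * (a ^ 2 + b ^ 2) :=
    mul_le_mul_of_nonneg_left (by linarith) (by positivity)
  have w5 : (P * G + P ^ 2 * (1 + G) + C1 / m + C1 + C1 * P + 1) * (a ^ 2 + b ^ 2) =
      P * G * (a ^ 2 + b ^ 2) + P ^ 2 * (1 + G) * (a ^ 2 + b ^ 2) + C1 / m * (a ^ 2 + b ^ 2) +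
        C1 * (a ^ 2 + b ^ 2) + C1 * P * (a ^ 2 + b ^ 2) + (a ^ 2 + b ^ 2) := by ring
  rw [w5]
  linarith

end Pool.Agent.H.MP_bfbbee_an
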