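import Mathlib
import Pool.Agent.H.MP_bfbbee_an.CurveLen
import Pool.Agent.H.MP_bfbbee_an.Taylor

/-!
# Minimal curves: unit speed and the first variation
-/

namespace Pool.Agent.H.MP_bfbbee_an

open Filter Topology MeasureTheory

/-- A minimal curve is Lipschitz: `2 e^(-A) ‖σ s - σ t‖ ≤ dst (σ s) (σ t) = |s - t|`. -/
theorem iso_lipschitz {u : ℂ → ℝ} {A : ℝ} (M : Met u A) {a b : ℝ} {σ : ℝ → ℂ}
    (h : IsoOn u a b σ) : ∃ K : NNReal, LipschitzOnWith K σ (Set.Icc a b) := by
  have hc : 0 < 2 * Real.exp (-A) := by positivity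
  refine ⟨Real.toNNReal (1 / (2 * Real.exp (-A))), LipschitzOnWith.of_dist_le_mul ?_⟩
  intro s hs t ht
  have h1 := dst_ge_norm M (h.1 s hs) (h.1 t ht)
  rw [h.2 s hs t ht] at h1
  rw [Real.coe_toNNReal _ (by positivity), dist_eq_norm, Real.dist_eq, ← norm_neg, neg_sub,
    div_mul_eq_mul_div, one_mul, le_div_iff₀ hc]
  linarith

/-- At a point of differentiability `rho (σ t) ‖σ' t‖ ≤ 1`: by `dst_ge_local`,
`(rho (σ t) - ε) ‖σ (t + h) - σ t‖ ≤ dst (σ t) (σ (t + h)) = |h|`. -/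
theorem iso_speed_le {u : ℂ → ℝ} {A : ℝ} (M : Met u A) {a b : ℝ} {σ : ℝ → ℂ}
    (h : IsoOn u a b σ) {t : ℝ} (ht : t ∈ Set.Ioo a b) {σ' : ℂ} (hd : HasDerivAt σ σ' t) :
    rho u (σ t) * ‖σ'‖ ≤ 1 := by
  have htI : t ∈ Set.Icc a b := Set.Ioo_subset_Icc_self ht
  have key : ∀ ε : ℝ, 0 < ε → (rho u (σ t) - ε) * ‖σ'‖ ≤ 1 := by
    intro ε hε
    obtain ⟨s, hs, _, hb⟩ := dst_ge_local M (h.1 t htI) hε
    have hlim : Tendsto (fun τ => (rho u (σ t) - ε) * ‖slope σ t τ‖) (𝓝[≠] t)
        (𝓝 ((rho u (σ t) - ε) * ‖σ'‖)) :=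
      ((hasDerivAt_iff_tendsto_slope.1 hd).norm).const_mul _
    refine le_of_tendsto hlim ?_
    have h1 : ∀ᶠ τ in 𝓝[≠] t, σ τ ∈ Metric.ball (σ t) s :=
      (hd.continuousAt.tendsto.mono_left nhdsWithin_le_nhds) (Metric.ball_mem_nhds _ hs)
    have h2 : ∀ᶠ τ in 𝓝[≠] t, τ ∈ Set.Ioo a b := nhdsWithin_le_nhds (Ioo_mem_nhds ht.1 ht.2)
    filter_upwards [h1, h2, self_mem_nhdsWithin] with τ e1 e2 e3
    have e4 := hb (σ t) (Metric.mem_ball_self hs) (σ τ) e1
    rw [h.2 t htI τ (Set.Ioo_subset_Icc_self e2)] at e4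
    have e5 : 0 < |τ - t| := abs_pos.2 (sub_ne_zero.2 e3)
    have e6 : ‖slope σ t τ‖ = ‖σ τ - σ t‖ / |τ - t| := by
      rw [slope_def_module, norm_smul, norm_inv, Real.norm_eq_abs]
      ring
    rw [e6, mul_div_assoc', div_le_one e5, abs_sub_comm τ t]
    exact e4
  refine le_of_forall_pos_lt_add fun δ hδ => ?_
  have h0 := norm_nonneg σ'
  have h3 := key (δ / (2 * (‖σ'‖ + 1))) (by positivity)
  have h4 : δ / (2 * (‖σ'‖ + 1)) * ‖σ'‖ ≤ δ / 2 := by
    rw [div_mul_eq_mul_div, div_le_div_iff₀ (by positivity) (by positivity)]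
    nlinarith
  linarith

theorem RegA_ae_diff {a b : ℝ} {σ : ℝ → ℂ} {K : NNReal} (hσ : LipschitzOnWith K σ (Set.Icc a b)) :
    ∀ᵐ t, t ∈ Set.Ioo a b → DifferentiableAt ℝ σ t := by
  filter_upwards [hσ.ae_differentiableWithinAt_of_mem_real] with t h1 h2
  exact (h1 (Set.Ioo_subset_Icc_self h2)).differentiableAt (Icc_mem_nhds h2.1 h2.2)

/-- Unit speed almost everywhere: by `dst_le_length`, `b - a = dst (σ a) (σ b) ≤ ∫ rho ‖deriv σ‖`
and the integrand is `≤ 1` almost everywhere by `iso_speed_le`; so it is `= 1` almost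
everywhere. -/
theorem iso_speed_eq {u : ℂ → ℝ} {A : ℝ} (M : Met u A) {a b : ℝ} (hab : a < b) {σ : ℝ → ℂ}
    (h : IsoOn u a b σ) :
    ∀ᵐ t, t ∈ Set.Ioo a b → DifferentiableAt ℝ σ t ∧ rho u (σ t) * ‖deriv σ t‖ = 1 := by
  obtain ⟨K, hK⟩ := iso_lipschitz M h
  have hd := RegA_ae_diff hK
  obtain ⟨hi, hl⟩ := dst_le_length M hab.le hK h.1
  rw [h.2 a (Set.left_mem_Icc.2 hab.le) b (Set.right_mem_Icc.2 hab.le), abs_sub_comm,
    abs_of_pos (sub_pos.2 hab)] at hl
  have hle : ∀ᵐ t, t ∈ Set.Ioo a b → rho u (σ t) * ‖deriv σ t‖ ≤ 1 := by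
    filter_upwards [hd] with t h1 h2
    exact iso_speed_le M h h2 (h1 h2).hasDerivAt
  have hne : ∀ᵐ t : ℝ, t ≠ b := by
    simp [ae_iff, measure_singleton]
  have hi2 : IntervalIntegrable (fun t => 1 - rho u (σ t) * ‖deriv σ t‖) volume a b :=
    intervalIntegrable_const.sub hi
  have hnn : 0 ≤ᵐ[volume.restrict (Set.Ioc a b)] fun t => 1 - rho u (σ t) * ‖deriv σ t‖ := by
    refine (ae_restrict_iff' measurableSet_Ioc).2 ?_
    filter_upwards [hle, hne] with t h1 h2 h3
    exact sub_nonneg.2 (h1 ⟨h3.1, lt_of_le_of_ne h3.2 h2⟩)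
  have hint : ∫ t in a..b, (1 - rho u (σ t) * ‖deriv σ t‖) = 0 := by
    apply le_antisymm
    · rw [intervalIntegral.integral_sub intervalIntegrable_const hi,
        intervalIntegral.integral_const, smul_eq_mul, mul_one]
      linarith
    · rw [intervalIntegral.integral_of_le hab.le]
      exact setIntegral_nonneg_of_ae_restrict hnn
  have hz := (intervalIntegral.integral_eq_zero_iff_of_le_of_nonneg_ae hab.le hnn hi2).1 hint
  have hz2 := (ae_restrict_iff' measurableSet_Ioc).1 hz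
  filter_upwards [hd, hz2] with t h1 h2 h3
  refine ⟨h1 h3, ?_⟩
  have := h2 (Set.Ioo_subset_Ioc_self h3)
  simp only [Pi.zero_apply] at this
  linarith

/-- First variation. For a Lipschitz `η` vanishing at both ends,
`∫ ⟨grad (σ), η⟩ + rho(σ)² ⟨deriv σ, deriv η⟩ = 0`.
Proof. The image of `σ` lies in `closedBall 0 R`, `R < 1`; take `C, ε` from `integrand_le`, and let
`B` bound `‖η‖` on `[a, b]` and `‖deriv η‖` almost everywhere. For a real `τ` with `|τ| B ≤ ε` the
curve `σ + τ η` is Lipschitz, stays in the disc and has the same end points as `σ`, so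
`b - a = dst (σ a) (σ b) ≤ ∫ rho (σ + τ η) ‖deriv σ + τ deriv η‖
≤ (b - a) + τ I + C τ² (B² + B²) (b - a)` (`dst_le_length`, `integrand_le` with
`ζ = deriv σ t`, `h = τ η t`, `k = τ deriv η t`, `iso_speed_eq`). Hence
`τ I ≥ - C' τ²` for all small `τ` of both signs, so `I = 0`. The integrand of `I` is integrable
(bounded and measurable). -/
theorem first_variation {u : ℂ → ℝ} {A : ℝ} (M : Met u A) {a b : ℝ} (hab : a < b) {σ : ℝ → ℂ}
    (h : IsoOn u a b σ) {η : ℝ → ℂ} {K : NNReal} (hη : LipschitzOnWith K η (Set.Icc a b))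
    (ha : η a = 0) (hb : η b = 0) :
    ∫ t in a..b, (dotp (grad u (σ t)) (η t) +
      rho u (σ t) ^ 2 * dotp (deriv σ t) (deriv η t)) = 0 := by
  obtain ⟨Kσ, hKσ⟩ := iso_lipschitz M h
  have hdσ := RegA_ae_diff hKσ
  have hdη := RegA_ae_diff hη
  have hsp := iso_speed_eq M hab h
  have hcσ := hKσ.continuousOn
  have hcη := hη.continuousOn
  have haI : a ∈ Set.Icc a b := Set.left_mem_Icc.2 hab.le
  have hbI : b ∈ Set.Icc a b := Set.right_mem_Icc.2 hab.le
  have huI : Set.uIcc a b = Set.Icc a b := Set.uIcc_of_le hab.le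
  -- the radius
  obtain ⟨t0, ht0, hmax⟩ := isCompact_Icc.exists_isMaxOn ⟨a, haI⟩ hcσ.norm
  have hR : ‖σ t0‖ < 1 := by
    have := h.1 t0 ht0
    simpa [Disc] using this
  have hR0 := norm_nonneg (σ t0)
  have hRle : ∀ t ∈ Set.Icc a b, ‖σ t‖ ≤ ‖σ t0‖ := fun t ht => hmax ht
  obtain ⟨C, ε, hC, hε, hint⟩ := integrand_le M hR0 hR
  -- the bound of η
  obtain ⟨t1, ht1, hmax1⟩ := isCompact_Icc.exists_isMaxOn ⟨a, haI⟩ hcη.norm
  obtain ⟨B, hBdef⟩ : ∃ B : ℝ, B = max ‖η t1‖ K := ⟨_, rfl⟩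
  have hB0 : 0 ≤ B := by
    rw [hBdef]
    exact le_max_of_le_left (norm_nonneg _)
  have hB1 : ∀ t ∈ Set.Icc a b, ‖η t‖ ≤ B := by
    intro t ht
    rw [hBdef]
    exact le_max_of_le_left (hmax1 ht)
  have hB2 : ∀ t ∈ Set.Ioo a b, ‖deriv η t‖ ≤ B := by
    intro t ht
    rw [hBdef]
    exact le_max_of_le_right (norm_deriv_le_of_lipschitzOn (Icc_mem_nhds ht.1 ht.2) hη)
  have hS2 : ∀ t ∈ Set.Ioo a b, ‖deriv σ t‖ ≤ Kσ := by
    intro t ht
    exact norm_deriv_le_of_lipschitzOn (Icc_mem_nhds ht.1 ht.2) hKσ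
  obtain ⟨J, hJ⟩ : ∃ J : ℝ → ℝ, J = fun t => dotp (grad u (σ t)) (η t) +
      rho u (σ t) ^ 2 * dotp (deriv σ t) (deriv η t) := ⟨_, rfl⟩
  have hmaps : Set.MapsTo σ (Set.Icc a b) Disc := h.1
  have hJi : IntervalIntegrable J volume a b := by
    rw [hJ]
    refine IntervalIntegrable.add ?_ ?_
    · refine ContinuousOn.intervalIntegrable ?_
      rw [huI]
      have hg : ContinuousOn (fun t => grad u (σ t)) (Set.Icc a b) :=
        (grad_continuousOn M).comp hcσ hmaps
      unfold dotp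
      exact ((Complex.continuous_re.comp_continuousOn hg).mul
        (Complex.continuous_re.comp_continuousOn hcη)).add
        ((Complex.continuous_im.comp_continuousOn hg).mul
        (Complex.continuous_im.comp_continuousOn hcη))
    · refine IntervalIntegrable.continuousOn_mul ?_ ?_
      · rw [intervalIntegrable_iff_integrableOn_Ioo_of_le hab.le]
        refine Integrable.of_bound ?_ ((Kσ : ℝ) * B) ?_
        · have m1 := measurable_deriv σ
          have m2 := measurable_deriv η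
          have : Measurable fun t => dotp (deriv σ t) (deriv η t) := by
            unfold dotp
            exact ((Complex.measurable_re.comp m1).mul (Complex.measurable_re.comp m2)).add
              ((Complex.measurable_im.comp m1).mul (Complex.measurable_im.comp m2))
          exact this.aestronglyMeasurable
        · refine (ae_restrict_iff' measurableSet_Ioo).2 (Eventually.of_forall ?_)
          intro t ht
          rw [Real.norm_eq_abs]
          refine (abs_dotp_le _ _).trans ?_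
          exact mul_le_mul (hS2 t ht) (hB2 t ht) (norm_nonneg _) Kσ.2
      · rw [huI]
        exact ((rho_contDiffOn M).continuousOn.comp hcσ hmaps).pow 2
  have hne : ∀ᵐ t : ℝ, t ≠ b := by
    simp [ae_iff, measure_singleton]
  -- the main inequality
  have main : ∀ τ : ℝ, |τ| * B ≤ ε →
      0 ≤ τ * (∫ t in a..b, J t) + C * (2 * B ^ 2) * (b - a) * τ ^ 2 := by
    intro τ hτ
    have hτn : ‖(τ : ℂ)‖ = |τ| := by rw [Complex.norm_real, Real.norm_eq_abs]
    have hmem : ∀ t ∈ Set.Icc a b, σ t + (τ : ℂ) * η t ∈ Disc := by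
      intro t ht
      have hp := rho_pos u (h.1 t ht)
      refine (hint (σ t) (((rho u (σ t))⁻¹ : ℝ) : ℂ) ((τ : ℂ) * η t) 0 (hRle t ht) ?_ ?_ ?_).1
      · rw [Complex.norm_real, Real.norm_eq_abs, abs_of_pos (inv_pos.2 hp),
          mul_inv_cancel₀ hp.ne']
      · rw [norm_mul, hτn]
        exact (mul_le_mul_of_nonneg_left (hB1 t ht) (abs_nonneg τ)).trans hτ
      · rw [norm_zero]
        exact hε.le
    have hlip : LipschitzOnWith (Kσ + Real.toNNReal |τ| * K) (fun t => σ t + (τ : ℂ) * η t)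
        (Set.Icc a b) := by
      refine LipschitzOnWith.of_dist_le_mul ?_
      intro s hs t ht
      have h1 := hKσ.dist_le_mul s hs t ht
      have h2 := hη.dist_le_mul s hs t ht
      rw [dist_eq_norm] at h1 h2 ⊢
      have e1 : σ s + (τ : ℂ) * η s - (σ t + (τ : ℂ) * η t) =
          (σ s - σ t) + (τ : ℂ) * (η s - η t) := by ring
      rw [e1, NNReal.coe_add, NNReal.coe_mul, Real.coe_toNNReal _ (abs_nonneg τ), add_mul]
      refine (norm_add_le _ _).trans (add_le_add h1 ?_)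
      rw [norm_mul, hτn, mul_assoc]
      exact mul_le_mul_of_nonneg_left h2 (abs_nonneg τ)
    obtain ⟨hi1, hl1⟩ := dst_le_length M hab.le hlip hmem
    simp only [ha, hb, mul_zero, add_zero] at hl1
    rw [h.2 a haI b hbI, abs_sub_comm, abs_of_pos (sub_pos.2 hab)] at hl1
    have hi3 : IntervalIntegrable (fun t => 1 + τ * J t + C * (2 * B ^ 2) * τ ^ 2)
        volume a b :=
      (intervalIntegrable_const.add (hJi.const_mul τ)).add intervalIntegrable_const
    have hmono : ∫ t in a..b, rho u (σ t + (τ : ℂ) * η t) *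
        ‖deriv (fun t => σ t + (τ : ℂ) * η t) t‖ ≤
        ∫ t in a..b, (1 + τ * J t + C * (2 * B ^ 2) * τ ^ 2) := by
      refine intervalIntegral.integral_mono_ae_restrict hab.le hi1 hi3 ?_
      refine (ae_restrict_iff' measurableSet_Icc).2 ?_
      have hne2 : ∀ᵐ t : ℝ, t ≠ a := by
        simp [ae_iff, measure_singleton]
      filter_upwards [hdη, hsp, hne, hne2] with t e1 e2 e3 e5 e4
      have ht : t ∈ Set.Ioo a b := ⟨lt_of_le_of_ne e4.1 (Ne.symm e5), lt_of_le_of_ne e4.2 e3⟩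
      have d1 := (e2 ht).1.hasDerivAt
      have d2 := (e1 ht).hasDerivAt
      have d3 : deriv (fun t => σ t + (τ : ℂ) * η t) t = deriv σ t + (τ : ℂ) * deriv η t :=
        (d1.add (d2.const_mul (τ : ℂ))).deriv
      rw [d3]
      have n1 : ‖(τ : ℂ) * η t‖ ≤ |τ| * B := by
        rw [norm_mul, hτn]
        exact mul_le_mul_of_nonneg_left (hB1 t e4) (abs_nonneg τ)
      have n2 : ‖(τ : ℂ) * deriv η t‖ ≤ |τ| * B := by
        rw [norm_mul, hτn]
        exact mul_le_mul_of_nonneg_left (hB2 t ht) (abs_nonneg τ)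
      have hh := (hint (σ t) (deriv σ t) ((τ : ℂ) * η t) ((τ : ℂ) * deriv η t) (hRle t e4)
        (e2 ht).2 (n1.trans hτ) (n2.trans hτ)).2
      refine hh.trans ?_
      rw [dotp_smul_right, dotp_smul_right]
      have q1 : ‖(τ : ℂ) * η t‖ ^ 2 ≤ τ ^ 2 * B ^ 2 := by
        have := pow_le_pow_left₀ (norm_nonneg _) n1 2
        rwa [mul_pow, sq_abs] at this
      have q2 : ‖(τ : ℂ) * deriv η t‖ ^ 2 ≤ τ ^ 2 * B ^ 2 := by
        have := pow_le_pow_left₀ (norm_nonneg _) n2 2
        rwa [mul_pow, sq_abs] at this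
      have q3 := mul_le_mul_of_nonneg_left (add_le_add q1 q2) hC.le
      have q4 : J t = dotp (grad u (σ t)) (η t) +
        rho u (σ t) ^ 2 * dotp (deriv σ t) (deriv η t) := by rw [hJ]
      rw [q4]
      nlinarith [q3]
    rw [intervalIntegral.integral_add (intervalIntegrable_const.add (hJi.const_mul τ))
      intervalIntegrable_const, intervalIntegral.integral_add intervalIntegrable_const
      (hJi.const_mul τ), intervalIntegral.integral_const, intervalIntegral.integral_const,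
      intervalIntegral.integral_const_mul, smul_eq_mul, smul_eq_mul, mul_one] at hmono
    have := hl1.trans hmono
    nlinarith [this]
  obtain ⟨I, hI⟩ : ∃ I : ℝ, I = ∫ t in a..b, J t := ⟨_, rfl⟩
  obtain ⟨D, hD⟩ : ∃ D : ℝ, D = C * (2 * B ^ 2) * (b - a) := ⟨_, rfl⟩
  have hD0 : 0 ≤ D := by
    rw [hD]
    have := sub_pos.2 hab
    positivity
  rw [← hI, ← hD] at main
  have goal : I = 0 := by
    have h1 : ∀ δ : ℝ, 0 < δ → |I| ≤ δ := by
      intro δ hδ
      obtain ⟨τ, hτ⟩ : ∃ τ : ℝ, τ = min (ε / (B + 1)) (δ / (D + 1)) := ⟨_, rfl⟩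
      have hτ0 : 0 < τ := by
        rw [hτ]
        exact lt_min (by positivity) (by positivity)
      have hτ1 : τ * B ≤ ε := by
        have e1 : τ ≤ ε / (B + 1) := by
          rw [hτ]
          exact min_le_left _ _
        have e2 : τ * (B + 1) ≤ ε := by
          rwa [le_div_iff₀ (by positivity)] at e1
        nlinarith
      have hτ2 : D * τ ≤ δ := by
        have e1 : τ ≤ δ / (D + 1) := by
          rw [hτ]
          exact min_le_right _ _
        have e2 : τ * (D + 1) ≤ δ := by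
          rwa [le_div_iff₀ (by positivity)] at e1
        nlinarith
      have m1 := main τ (by rwa [abs_of_pos hτ0])
      have m2 := main (-τ) (by rwa [abs_neg, abs_of_pos hτ0])
      have f1 : 0 ≤ τ * (I + D * τ) := by
        calc 0 ≤ τ * I + D * τ ^ 2 := m1
          _ = τ * (I + D * τ) := by ring
      have f2 : 0 ≤ τ * (D * τ - I) := by
        calc 0 ≤ -τ * I + D * (-τ) ^ 2 := m2
          _ = τ * (D * τ - I) := by ring
      have g1 := nonneg_of_mul_nonneg_right f1 hτ0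
      have g2 := nonneg_of_mul_nonneg_right f2 hτ0
      rw [abs_le]
      constructor <;> linarith
    by_contra hne
    have h2 := abs_pos.2 hne
    have h3 := h1 (|I| / 2) (by positivity)
    linarith
  rw [hI, hJ] at goal
  exact goal

end Pool.Agent.H.MP_bfbbee_an
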