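import Mathlib
import Pool.Agent.H.MP_bfbbee_an.RegA

/-!
# Minimal curves are geodesics
-/

namespace Pool.Agent.H.MP_bfbbee_an

open Filter Topology MeasureTheory

/-- a bounded measurable function is integrable -/
theorem RegB_int {a b : ℝ} (hab : a < b) {β : ℝ → ℝ}
    (hβm : AEStronglyMeasurable β (volume.restrict (Set.Ioo a b))) {B : ℝ}
    (hβ : ∀ᵐ t, t ∈ Set.Ioo a b → ‖β t‖ ≤ B) : IntervalIntegrable β volume a b := by
  rw [intervalIntegrable_iff_integrableOn_Ioo_of_le hab.le]
  refine IntegrableOn.of_bound (by simp) hβm B ?_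
  rw [ae_restrict_iff' measurableSet_Ioo]
  exact hβ

/-- real version of the lemma of du Bois-Reymond -/
theorem RegB_real {a b : ℝ} (hab : a < b) {α β : ℝ → ℝ} (hα : ContinuousOn α (Set.Icc a b))
    (hβm : AEStronglyMeasurable β (volume.restrict (Set.Ioo a b))) {B : ℝ}
    (hβ : ∀ᵐ t, t ∈ Set.Ioo a b → ‖β t‖ ≤ B)
    (hint : ∀ (η : ℝ → ℝ) (K : NNReal), LipschitzOnWith K η (Set.Icc a b) → η a = 0 → η b = 0 →
      ∫ t in a..b, (α t * η t + β t * deriv η t) = 0) :
    ∃ c : ℝ, ∀ᵐ t, t ∈ Set.Ioo a b → β t = c + ∫ x in a..t, α x := by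
  have hIcc : Set.uIcc a b = Set.Icc a b := Set.uIcc_of_le hab.le
  have hαi : IntervalIntegrable α volume a b := (hIcc ▸ hα).intervalIntegrable
  have hβi := RegB_int hab hβm hβ
  obtain ⟨A, hA⟩ := (isCompact_Icc.bddAbove_image hα.norm)
  have hA' : ∀ t ∈ Set.Icc a b, ‖α t‖ ≤ A := fun t ht => hA ⟨t, ht, rfl⟩
  have hA0 : 0 ≤ A := (norm_nonneg _).trans (hA' a (Set.left_mem_Icc.2 hab.le))
  set P : ℝ → ℝ := fun t => ∫ x in a..t, α x with hP
  have hαs : ∀ s ∈ Set.Icc a b, ∀ t ∈ Set.Icc a b, IntervalIntegrable α volume s t := by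
    intro s hs t ht
    exact hαi.mono_set (by rw [hIcc]; exact Set.uIcc_subset_Icc hs ht)
  have hPlip : LipschitzOnWith A.toNNReal P (Set.Icc a b) := by
    apply LipschitzOnWith.of_dist_le_mul
    intro s hs t ht
    rw [Real.coe_toNNReal _ hA0, dist_eq_norm, dist_eq_norm]
    have h1 : P s - P t = ∫ x in t..s, α x := by
      simp only [hP]
      rw [intervalIntegral.integral_interval_sub_left (hαs a (Set.left_mem_Icc.2 hab.le) s hs)
        (hαs a (Set.left_mem_Icc.2 hab.le) t ht)]
    rw [h1, Real.norm_eq_abs (s - t)]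
    apply intervalIntegral.norm_integral_le_of_norm_le_const
    intro x hx
    exact hA' x (Set.uIcc_subset_Icc ht hs (Set.uIoc_subset_uIcc hx))
  have hPc : ContinuousOn P (Set.Icc a b) := hPlip.continuousOn
  set G : ℝ → ℝ := fun t => β t - P t with hG
  have hPi : IntervalIntegrable P volume a b := (hIcc ▸ hPc).intervalIntegrable
  have hGi : IntervalIntegrable G volume a b := hβi.sub hPi
  set m : ℝ := (∫ t in a..b, G t) / (b - a) with hm
  have hba : b - a ≠ 0 := by linarith
  set g : ℝ → ℝ := fun t => G t - m with hg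
  have hgi : IntervalIntegrable g volume a b := hGi.sub intervalIntegrable_const
  set η : ℝ → ℝ := fun t => ∫ x in a..t, g x with hη
  obtain ⟨Q, hQ⟩ := (isCompact_Icc.bddAbove_image hPc.norm)
  have hgb : ∀ᵐ t, t ∈ Set.Ioo a b → ‖g t‖ ≤ B + Q + ‖m‖ := by
    filter_upwards [hβ] with t ht hta
    have h1 := ht hta
    have h2 : ‖P t‖ ≤ Q := hQ ⟨t, Set.Ioo_subset_Icc_self hta, rfl⟩
    calc ‖g t‖ ≤ ‖G t‖ + ‖m‖ := norm_sub_le _ _
      _ ≤ ‖β t‖ + ‖P t‖ + ‖m‖ := by
        have := norm_sub_le (β t) (P t)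
        linarith
      _ ≤ _ := by linarith
  set C : ℝ := |B + Q + ‖m‖| with hC
  have hgs : ∀ s ∈ Set.Icc a b, ∀ t ∈ Set.Icc a b, IntervalIntegrable g volume s t := by
    intro s hs t ht
    exact hgi.mono_set (by rw [hIcc]; exact Set.uIcc_subset_Icc hs ht)
  have hηlip : LipschitzOnWith C.toNNReal η (Set.Icc a b) := by
    apply LipschitzOnWith.of_dist_le_mul
    intro s hs t ht
    rw [Real.coe_toNNReal _ (abs_nonneg _), dist_eq_norm, dist_eq_norm]
    have h1 : η s - η t = ∫ x in t..s, g x := by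
      simp only [hη]
      rw [intervalIntegral.integral_interval_sub_left (hgs a (Set.left_mem_Icc.2 hab.le) s hs)
        (hgs a (Set.left_mem_Icc.2 hab.le) t ht)]
    rw [h1, Real.norm_eq_abs (s - t)]
    apply intervalIntegral.norm_integral_le_of_norm_le_const_ae
    have h2 : ∀ᵐ x : ℝ, x ≠ b := by simp [ae_iff, measure_singleton]
    have h3 : ∀ᵐ x : ℝ, x ≠ a := by simp [ae_iff, measure_singleton]
    filter_upwards [hgb, h2, h3] with x hx hxb hxa hxm
    have h4 : x ∈ Set.Icc a b := Set.uIcc_subset_Icc ht hs (Set.uIoc_subset_uIcc hxm)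
    exact (hx ⟨lt_of_le_of_ne h4.1 (Ne.symm hxa), lt_of_le_of_ne h4.2 hxb⟩).trans (le_abs_self _)
  have hηa : η a = 0 := by simp [hη]
  have hηb : η b = 0 := by
    simp only [hη, hg]
    rw [intervalIntegral.integral_sub hGi intervalIntegrable_const,
      intervalIntegral.integral_const, smul_eq_mul, hm]
    field_simp
    ring
  have hd : ∀ᵐ t, t ∈ Set.uIcc a b → deriv η t = g t := by
    filter_upwards [hgi.ae_hasDerivAt_integral] with t ht hta
    exact (ht hta a Set.left_mem_uIcc).deriv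
  have hdP : ∀ᵐ t, t ∈ Set.uIcc a b → deriv P t = α t := by
    filter_upwards [hαi.ae_hasDerivAt_integral] with t ht hta
    exact (ht hta a Set.left_mem_uIcc).deriv
  have hPac : AbsolutelyContinuousOnInterval P a b :=
    (hIcc ▸ hPlip).absolutelyContinuousOnInterval
  have hηac : AbsolutelyContinuousOnInterval η a b :=
    (hIcc ▸ hηlip).absolutelyContinuousOnInterval
  have hparts := hPac.integral_mul_deriv_eq_deriv_mul hηac
  rw [hηa, hηb, mul_zero, mul_zero, sub_zero, zero_sub] at hparts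
  have hηi : IntervalIntegrable (deriv η) volume a b := hηac.intervalIntegrable_deriv
  have e1 : ∫ x in a..b, P x * deriv η x = ∫ x in a..b, P x * g x := by
    apply intervalIntegral.integral_congr_ae
    filter_upwards [hd] with t ht hta
    rw [ht (Set.uIoc_subset_uIcc hta)]
  have e2 : ∫ x in a..b, deriv P x * η x = ∫ x in a..b, α x * η x := by
    apply intervalIntegral.integral_congr_ae
    filter_upwards [hdP] with t ht hta
    rw [ht (Set.uIoc_subset_uIcc hta)]
  have e3 : ∫ t in a..b, (α t * η t + β t * deriv η t) =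
      ∫ t in a..b, (α t * η t + β t * g t) := by
    apply intervalIntegral.integral_congr_ae
    filter_upwards [hd] with t ht hta
    rw [ht (Set.uIoc_subset_uIcc hta)]
  have hgm : AEStronglyMeasurable g (volume.restrict (Set.Ioo a b)) := by
    have := (intervalIntegrable_iff_integrableOn_Ioo_of_le hab.le).1 hgi
    exact this.aestronglyMeasurable
  have hβg : IntervalIntegrable (fun t => β t * g t) volume a b := by
    refine RegB_int (B := |B| * C) hab (hβm.mul hgm) ?_
    filter_upwards [hβ, hgb] with t h1 h2 hta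
    rw [norm_mul]
    exact mul_le_mul ((h1 hta).trans (le_abs_self _)) ((h2 hta).trans (le_abs_self _))
      (norm_nonneg _) (abs_nonneg _)
  have hαη : IntervalIntegrable (fun t => α t * η t) volume a b :=
    (hIcc ▸ (hα.mul hηlip.continuousOn)).intervalIntegrable
  have hPg : IntervalIntegrable (fun t => P t * g t) volume a b :=
    hgi.continuousOn_mul (hIcc ▸ hPc)
  have h0 := hint η C.toNNReal hηlip hηa hηb
  rw [e3, intervalIntegral.integral_add hαη hβg] at h0
  have h1 : ∫ x in a..b, α x * η x = - ∫ x in a..b, P x * g x := by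
    rw [← e2, ← e1, hparts, neg_neg]
  have h2 : ∫ t in a..b, (β t * g t - P t * g t) = 0 := by
    rw [intervalIntegral.integral_sub hβg hPg]
    linarith
  have h3 : ∫ t in a..b, m * g t = 0 := by
    rw [intervalIntegral.integral_const_mul]
    have : ∫ t in a..b, g t = 0 := hηb
    rw [this, mul_zero]
  have h4 : ∫ t in a..b, g t * g t = 0 := by
    have h5 : ∀ t, g t * g t = (β t * g t - P t * g t) - m * g t := by
      intro t
      simp only [hg, hG]
      ring
    simp only [h5]
    rw [intervalIntegral.integral_sub (hβg.sub hPg) (hgi.const_mul m), h2, h3, sub_zero]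
  have hgg : IntegrableOn (fun t => g t * g t) (Set.Ioo a b) := by
    refine (intervalIntegrable_iff_integrableOn_Ioo_of_le hab.le).1 ?_
    refine RegB_int (B := C * C) hab (hgm.mul hgm) ?_
    filter_upwards [hgb] with t h2 hta
    rw [norm_mul]
    exact mul_le_mul ((h2 hta).trans (le_abs_self _)) ((h2 hta).trans (le_abs_self _))
      (norm_nonneg _) (abs_nonneg _)
  rw [intervalIntegral.integral_of_le hab.le, integral_Ioc_eq_integral_Ioo] at h4
  have h6 := (integral_eq_zero_iff_of_nonneg (fun t => mul_self_nonneg (g t)) hgg).1 h4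
  have h7 := (ae_restrict_iff' (μ := (volume : Measure ℝ)) measurableSet_Ioo).1 h6
  refine ⟨m, ?_⟩
  filter_upwards [h7] with t ht hta
  have h8 : g t = 0 := mul_self_eq_zero.1 (ht hta)
  have h9 : β t - P t - m = 0 := h8
  change β t = m + P t
  linarith

/-- the derivative of a real function times a complex constant -/
theorem RegB_deriv (η : ℝ → ℝ) {w : ℂ} (hw : w ≠ 0) (t : ℝ) :
    deriv (fun s => (η s : ℂ) * w) t = ((deriv η t : ℝ) : ℂ) * w := by
  by_cases hd : DifferentiableAt ℝ η t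
  · exact (hd.hasDerivAt.ofReal_comp.mul_const w).deriv
  · have h1 : ¬ DifferentiableAt ℝ (fun s => (η s : ℂ) * w) t := by
      intro h2
      apply hd
      have h3 : DifferentiableAt ℝ (fun s => ((η s : ℂ) * w) * w⁻¹) t := h2.mul_const _
      have h4 : DifferentiableAt ℝ (fun s => Complex.reCLM (((η s : ℂ) * w) * w⁻¹)) t :=
        Complex.reCLM.differentiableAt.comp t h3
      have h5 : (fun s => Complex.reCLM (((η s : ℂ) * w) * w⁻¹)) = η := by
        funext s
        rw [mul_assoc, mul_inv_cancel₀ hw, mul_one]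
        simp
      rwa [h5] at h4
    rw [deriv_zero_of_not_differentiableAt h1, deriv_zero_of_not_differentiableAt hd]
    simp

/-- one component of the lemma of du Bois-Reymond -/
theorem RegB_comp {a b : ℝ} (hab : a < b) {α β : ℝ → ℂ} (hα : ContinuousOn α (Set.Icc a b))
    (hβm : AEStronglyMeasurable β (volume.restrict (Set.Ioo a b))) {B : ℝ}
    (hβ : ∀ᵐ t, t ∈ Set.Ioo a b → ‖β t‖ ≤ B)
    (hint : ∀ (η : ℝ → ℂ) (K : NNReal), LipschitzOnWith K η (Set.Icc a b) → η a = 0 → η b = 0 →
      ∫ t in a..b, (dotp (α t) (η t) + dotp (β t) (deriv η t)) = 0) {w : ℂ} (hw : ‖w‖ = 1) :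
    ∃ c : ℝ, ∀ᵐ t, t ∈ Set.Ioo a b → dotp (β t) w = c + ∫ x in a..t, dotp (α x) w := by
  have hw0 : w ≠ 0 := by
    intro h
    rw [h, norm_zero] at hw
    exact zero_ne_one hw
  refine RegB_real (B := B) hab (α := fun t => dotp (α t) w) (β := fun t => dotp (β t) w)
    ?_ ?_ ?_ ?_
  · unfold dotp
    exact ((Complex.continuous_re.comp_continuousOn hα).mul continuousOn_const).add
      ((Complex.continuous_im.comp_continuousOn hα).mul continuousOn_const)
  · unfold dotp
    exact ((Complex.continuous_re.comp_aestronglyMeasurable hβm).mul_const _).add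
      ((Complex.continuous_im.comp_aestronglyMeasurable hβm).mul_const _)
  · filter_upwards [hβ] with t ht hta
    rw [Real.norm_eq_abs]
    refine (abs_dotp_le _ _).trans ?_
    rw [hw, mul_one]
    exact ht hta
  · intro η K hη ha hb
    have h1 := hint (fun s => (η s : ℂ) * w) K ?_ ?_ ?_
    · rw [← h1]
      apply intervalIntegral.integral_congr
      intro t _
      simp only [RegB_deriv η hw0, dotp_smul_right]
      ring
    · apply LipschitzOnWith.of_dist_le_mul
      intro s hs t ht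
      have h2 := hη.dist_le_mul s hs t ht
      rw [dist_eq_norm, ← sub_mul, norm_mul, hw, mul_one, ← Complex.ofReal_sub, Complex.norm_real,
        ← dist_eq_norm]
      exact h2
    · simp [ha]
    · simp [hb]

/-- The lemma of du Bois-Reymond, for bounded measurable functions. Let `β : ℝ → ℂ` be measurable
and bounded on `[a, b]`, `α : ℝ → ℂ` continuous on `[a, b]`, and suppose
`∫ ⟨α, η⟩ + ⟨β, deriv η⟩ = 0` for all Lipschitz `η` with `η a = η b = 0`. Then there is a constant
`c` with `β t = c + ∫_a^t α` for almost every `t` in `(a, b)`.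
Proof. Put `G t = β t - ∫_a^t α`, `m = (1/(b-a)) ∫_a^b G`, `η t = ∫_a^t (G - m)`: Lipschitz,
`η a = η b = 0`, `deriv η = G - m` almost everywhere (Lebesgue differentiation). Integrating by
parts, `∫ ⟨α, η⟩ = - ∫ ⟨∫_a^t α, deriv η⟩` (the product `⟨∫_a^t α, η⟩` is absolutely continuous and
vanishes at both ends; work with real and imaginary parts). So `0 = ∫ ⟨G, G - m⟩ = ∫ ‖G - m‖²`,
because `∫ ⟨m, G - m⟩ = 0`. Hence `G = m` almost everywhere. -/
theorem du_bois {a b : ℝ} (hab : a < b) {α β : ℝ → ℂ} (hα : ContinuousOn α (Set.Icc a b))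
    (hβm : AEStronglyMeasurable β (volume.restrict (Set.Ioo a b))) {B : ℝ}
    (hβ : ∀ᵐ t, t ∈ Set.Ioo a b → ‖β t‖ ≤ B)
    (hint : ∀ (η : ℝ → ℂ) (K : NNReal), LipschitzOnWith K η (Set.Icc a b) → η a = 0 → η b = 0 →
      ∫ t in a..b, (dotp (α t) (η t) + dotp (β t) (deriv η t)) = 0) :
    ∃ c : ℂ, ∀ᵐ t, t ∈ Set.Ioo a b → β t = c + ∫ x in a..t, α x := by
  obtain ⟨c1, h1⟩ := RegB_comp hab hα hβm hβ hint (w := 1) (by simp)
  obtain ⟨c2, h2⟩ := RegB_comp hab hα hβm hβ hint (w := Complex.I) (by simp)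
  refine ⟨⟨c1, c2⟩, ?_⟩
  filter_upwards [h1, h2] with t h1 h2 hta
  have h3 := h1 hta
  have h4 := h2 hta
  have hαi : IntervalIntegrable α volume a t := by
    apply ContinuousOn.intervalIntegrable
    rw [Set.uIcc_of_le hta.1.le]
    exact hα.mono (Set.Icc_subset_Icc_right hta.2.le)
  have e1 : ∫ x in a..t, (α x).re = (∫ x in a..t, α x).re :=
    Complex.reCLM.intervalIntegral_comp_comm hαi
  have e2 : ∫ x in a..t, (α x).im = (∫ x in a..t, α x).im :=
    Complex.imCLM.intervalIntegral_comp_comm hαi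
  simp only [dotp, Complex.one_re, Complex.one_im, mul_one, mul_zero, add_zero] at h3
  simp only [dotp, Complex.I_re, Complex.I_im, mul_one, mul_zero, zero_add] at h4
  apply Complex.ext
  · rw [h3, e1]
    simp
  · rw [h4, e2]
    simp

/-- the derivative of the integral of a continuous function on a compact interval -/
theorem RegB_ftc {a b : ℝ} (hab : a < b) {g : ℝ → ℂ} (hg : ContinuousOn g (Set.Icc a b)) :
    ∀ t ∈ Set.Icc a b, HasDerivWithinAt (fun t => ∫ x in a..t, g x) (g t) (Set.Icc a b) t := by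
  intro t ht
  set G : ℝ → ℂ := Set.IccExtend hab.le ((Set.Icc a b).domRestrict g) with hG
  have hGc : Continuous G := (continuousOn_iff_continuous_domRestrict.1 hg).Icc_extend'
  have hGg : ∀ s ∈ Set.Icc a b, G s = g s := by
    intro s hs
    rw [hG, Set.IccExtend_of_mem hab.le _ hs]
    rfl
  have h1 : HasDerivAt (fun t => ∫ x in a..t, G x) (G t) t :=
    intervalIntegral.integral_hasDerivAt_right (hGc.intervalIntegrable _ _)
      (hGc.stronglyMeasurableAtFilter _ _) hGc.continuousAt
  have h2 : ∀ s ∈ Set.Icc a b, ∫ x in a..s, g x = ∫ x in a..s, G x := by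
    intro s hs
    apply intervalIntegral.integral_congr
    intro x hx
    rw [Set.uIcc_of_le hs.1] at hx
    exact (hGg x ⟨hx.1, hx.2.trans hs.2⟩).symm
  rw [← hGg t ht]
  exact h1.hasDerivWithinAt.congr h2 (h2 t ht)

/-- the fundamental theorem for a component of a Lipschitz curve -/
theorem RegB_comp2 {a b : ℝ} {σ g : ℝ → ℂ} {K : NNReal}
    (hσ : LipschitzOnWith K σ (Set.Icc a b)) (hg : ContinuousOn g (Set.Icc a b))
    (h : ∀ᵐ t, t ∈ Set.Ioo a b → DifferentiableAt ℝ σ t ∧ deriv σ t = g t) (L : ℂ →L[ℝ] ℝ)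
    {t : ℝ} (ht : t ∈ Set.Icc a b) : L (σ t) - L (σ a) = L (∫ x in a..t, g x) := by
  have hgi : IntervalIntegrable g volume a t := by
    apply ContinuousOn.intervalIntegrable
    rw [Set.uIcc_of_le ht.1]
    exact hg.mono (Set.Icc_subset_Icc_right ht.2)
  have h1 : LipschitzOnWith (‖L‖₊ * K) (fun s => L (σ s)) (Set.uIcc a t) := by
    rw [Set.uIcc_of_le ht.1]
    exact L.lipschitz.comp_lipschitzOnWith (hσ.mono (Set.Icc_subset_Icc_right ht.2))
  have h2 := h1.absolutelyContinuousOnInterval.integral_deriv_eq_sub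
  rw [← h2, ← L.intervalIntegral_comp_comm hgi]
  apply intervalIntegral.integral_congr_ae
  have h3 : ∀ᵐ x : ℝ, x ≠ t := by simp [ae_iff, measure_singleton]
  filter_upwards [h, h3] with x hx hxt hxm
  rw [Set.uIoc_of_le ht.1] at hxm
  have h4 := hx ⟨hxm.1, lt_of_lt_of_le (lt_of_le_of_ne hxm.2 hxt) ht.2⟩
  rw [← h4.2]
  exact (L.hasFDerivAt.comp_hasDerivAt x h4.1.hasDerivAt).deriv

/-- A Lipschitz curve whose derivative is almost everywhere equal to a continuous function is
`C¹` (integrate real and imaginary parts: `σ t = σ a + ∫_a^t deriv σ`). -/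
theorem C1_of_ae {a b : ℝ} (hab : a < b) {σ g : ℝ → ℂ} {K : NNReal}
    (hσ : LipschitzOnWith K σ (Set.Icc a b)) (hg : ContinuousOn g (Set.Icc a b))
    (h : ∀ᵐ t, t ∈ Set.Ioo a b → DifferentiableAt ℝ σ t ∧ deriv σ t = g t) :
    ∀ t ∈ Set.Icc a b, HasDerivWithinAt σ (g t) (Set.Icc a b) t := by
  intro t ht
  have h1 : ∀ s ∈ Set.Icc a b, σ s = σ a + ∫ x in a..s, g x := by
    intro s hs
    have h2 := RegB_comp2 hσ hg h Complex.reCLM hs
    have h3 := RegB_comp2 hσ hg h Complex.imCLM hs
    simp only [Complex.reCLM_apply, Complex.imCLM_apply] at h2 h3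
    apply Complex.ext
    · rw [Complex.add_re]
      linarith
    · rw [Complex.add_im]
      linarith
  exact ((RegB_ftc hab hg t ht).const_add (σ a)).congr h1 (h1 t ht)

/-- Minimal curves are `C²` and satisfy the geodesic equation. There is `V : ℝ → ℂ` (the momentum
`rho² σ'`) with `‖V t‖ = rho (σ t)`, `σ' = V / rho²` and `V' = grad (σ)`.
Proof. `first_variation` and `du_bois` with `α = grad (σ)` and `β = rho(σ)² deriv σ` give
`rho² deriv σ = V` almost everywhere with `V t = c + ∫_a^t grad (σ)`, continuous, with derivative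
`grad (σ t)`. By `C1_of_ae`, `σ' = V / rho(σ)²` everywhere on `[a, b]`. By `iso_speed_eq`,
`‖V‖ = rho (σ)` almost everywhere, hence everywhere by continuity. -/
theorem iso_momentum {u : ℂ → ℝ} {A : ℝ} (M : Met u A) {a b : ℝ} (hab : a < b) {σ : ℝ → ℂ}
    (h : IsoOn u a b σ) : ∃ V : ℝ → ℂ, ∀ t ∈ Set.Icc a b, ‖V t‖ = rho u (σ t) ∧
      HasDerivWithinAt σ (V t / (rho u (σ t) : ℂ) ^ 2) (Set.Icc a b) t ∧
      HasDerivWithinAt V (grad u (σ t)) (Set.Icc a b) t := by
  obtain ⟨K, hK⟩ := iso_lipschitz M h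
  have hσc := hK.continuousOn
  have hα : ContinuousOn (fun t => grad u (σ t)) (Set.Icc a b) :=
    (grad_continuousOn M).comp hσc (fun t ht => h.1 t ht)
  have hr : ContinuousOn (fun t => rho u (σ t)) (Set.Icc a b) :=
    (rho_contDiffOn M).continuousOn.comp hσc (fun t ht => h.1 t ht)
  have hrp : ∀ t ∈ Set.Icc a b, 0 < rho u (σ t) := fun t ht => rho_pos u (h.1 t ht)
  obtain ⟨B, hB⟩ := isCompact_Icc.bddAbove_image hr
  have hB' : ∀ t ∈ Set.Icc a b, rho u (σ t) ≤ B := fun t ht => hB ⟨t, ht, rfl⟩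
  have hsp := iso_speed_eq M hab h
  set β : ℝ → ℂ := fun t => ((rho u (σ t) ^ 2 : ℝ) : ℂ) * deriv σ t with hβd
  have hβn : ∀ t ∈ Set.Icc a b, rho u (σ t) * ‖deriv σ t‖ = 1 → ‖β t‖ = rho u (σ t) := by
    intro t ht h1
    rw [hβd]
    simp only
    rw [norm_mul, Complex.norm_real, Real.norm_eq_abs, abs_of_nonneg (sq_nonneg _), sq, mul_assoc,
      h1, mul_one]
  have hβm : AEStronglyMeasurable β (volume.restrict (Set.Ioo a b)) := by
    refine AEStronglyMeasurable.mul ?_ (aestronglyMeasurable_deriv σ _)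
    apply ContinuousOn.aestronglyMeasurable _ measurableSet_Ioo
    exact Complex.continuous_ofReal.comp_continuousOn
      ((hr.mono Set.Ioo_subset_Icc_self).pow 2)
  have hβb : ∀ᵐ t, t ∈ Set.Ioo a b → ‖β t‖ ≤ B := by
    filter_upwards [hsp] with t ht hta
    rw [hβn t (Set.Ioo_subset_Icc_self hta) (ht hta).2]
    exact hB' t (Set.Ioo_subset_Icc_self hta)
  obtain ⟨c, hc⟩ := du_bois hab hα hβm hβb (by
    intro η K' hη ha hb
    have h1 := first_variation M hab h hη ha hb
    rw [← h1]
    apply intervalIntegral.integral_congr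
    intro t _
    simp only [hβd, dotp_smul_left])
  set V : ℝ → ℂ := fun t => c + ∫ x in a..t, grad u (σ x) with hV
  have hVd : ∀ t ∈ Set.Icc a b, HasDerivWithinAt V (grad u (σ t)) (Set.Icc a b) t :=
    fun t ht => (RegB_ftc hab hα t ht).const_add c
  have hVc : ContinuousOn V (Set.Icc a b) := fun t ht => (hVd t ht).continuousWithinAt
  have hnorm : ∀ t ∈ Set.Icc a b, ‖V t‖ = rho u (σ t) := by
    refine Measure.eqOn_Icc_of_ae_eq (μ := volume) hab.ne ?_ hVc.norm hr
    rw [← restrict_Ioo_eq_restrict_Icc]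
    rw [EventuallyEq, ae_restrict_iff' measurableSet_Ioo]
    filter_upwards [hsp, hc] with t h1 h2 hta
    rw [← hβn t (Set.Ioo_subset_Icc_self hta) (h1 hta).2, h2 hta]
  have hgc : ContinuousOn (fun t => V t / (rho u (σ t) : ℂ) ^ 2) (Set.Icc a b) := by
    refine hVc.div ((Complex.continuous_ofReal.comp_continuousOn hr).pow 2) ?_
    intro t ht
    have := (hrp t ht).ne'
    simpa using this
  have hσd := C1_of_ae hab hK hgc (by
    filter_upwards [hsp, hc] with t h1 h2 hta
    refine ⟨(h1 hta).1, ?_⟩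
    have h3 : ((rho u (σ t) : ℝ) : ℂ) ≠ 0 := by
      have := (hrp t (Set.Ioo_subset_Icc_self hta)).ne'
      simpa using this
    have h4 : β t = V t := h2 hta
    rw [← h4, hβd]
    simp only
    push_cast
    field_simp)
  exact ⟨V, fun t ht => ⟨hnorm t ht, hσd t ht, hVd t ht⟩⟩

end Pool.Agent.H.MP_bfbbee_an
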