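import Mathlib
import Pool.Agent.H.MP_bfbbee_an.RegB

/-!
# From the momentum to the angle
-/

namespace Pool.Agent.H.MP_bfbbee_an

open Filter Topology MeasureTheory

/-- Chain rule for the conformal factor along a curve: if `σ' = s` at `t` (within `S`), then
`(rho ∘ σ)' = rho (σ t) * ⟨grad (σ t), s⟩`. (`rho = exp ∘ phi` on the disc, `fderiv_phi_eq`.) -/
theorem rho_comp_deriv {u : ℂ → ℝ} {A : ℝ} (M : Met u A) {σ : ℝ → ℂ} {S : Set ℝ} {t : ℝ} {s : ℂ}
    (hmem : σ t ∈ Disc) (h : HasDerivWithinAt σ s S t) :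
    HasDerivWithinAt (fun x => rho u (σ x)) (rho u (σ t) * dotp (grad u (σ t)) s) S t := by
  have hd : DifferentiableAt ℝ (phi u) (σ t) :=
    ((phi_contDiffOn M).differentiableOn (by norm_num)).differentiableAt
      (Metric.isOpen_ball.mem_nhds hmem)
  have h1 : HasDerivWithinAt (fun x => phi u (σ x)) (fderiv ℝ (phi u) (σ t) s) S t :=
    hd.hasFDerivAt.comp_hasDerivWithinAt t h
  have h2 := h1.exp
  have e : ∀ z ∈ Disc, Real.exp (phi u z) = rho u z := fun z hz => by
    unfold phi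
    exact Real.exp_log (rho_pos u hz)
  rw [fderiv_phi_eq, e _ hmem] at h2
  refine h2.congr_of_eventuallyEq ?_ (e _ hmem).symm
  have h3 : ∀ᶠ x in 𝓝[S] t, σ x ∈ Disc :=
    h.continuousWithinAt.eventually (Metric.isOpen_ball.mem_nhds hmem)
  filter_upwards [h3] with x hx
  exact (e _ hx).symm

/-- The unit vector `v = V / rho (σ)` rotates with the angular speed `kap`:
`v' = kap (σ, v) * (I * v)`. Proof: `v' = V'/rho - V (rho ∘ σ)'/rho²` and
`(rho ∘ σ)' = rho ⟨grad, V/rho²⟩ = ⟨grad, v⟩`, so `v' = (grad - ⟨grad, v⟩ v) / rho`, and for a unit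
complex number `v`: `g - ⟨g, v⟩ v = ⟨g, I v⟩ I v`; `kap = ⟨grad, I v⟩ / rho`
(`fderiv_phi_eq`). -/
theorem unit_deriv {u : ℂ → ℝ} {A : ℝ} (M : Met u A) {a b : ℝ} {σ V : ℝ → ℂ}
    (hmem : ∀ t ∈ Set.Icc a b, σ t ∈ Disc)
    (h : ∀ t ∈ Set.Icc a b, ‖V t‖ = rho u (σ t) ∧
      HasDerivWithinAt σ (V t / (rho u (σ t) : ℂ) ^ 2) (Set.Icc a b) t ∧
      HasDerivWithinAt V (grad u (σ t)) (Set.Icc a b) t) :
    ∀ t ∈ Set.Icc a b, HasDerivWithinAt (fun x => V x / (rho u (σ x) : ℂ))
      ((kap u (σ t) (V t / (rho u (σ t) : ℂ)) : ℂ) * (Complex.I * (V t / (rho u (σ t) : ℂ))))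
      (Set.Icc a b) t := by
  intro t ht
  obtain ⟨h1, h2, h3⟩ := h t ht
  have hr := rho_pos u (hmem t ht)
  have h4 := rho_comp_deriv M (hmem t ht) h2
  have h5 := h4.ofReal_comp
  have hr0 : (rho u (σ t) : ℂ) ≠ 0 := by exact_mod_cast hr.ne'
  have h6 := h3.div h5 hr0
  refine h6.congr_deriv ?_
  set r := rho u (σ t) with hrdef
  set v := V t / (r : ℂ) with hvdef
  have hV : V t = (r : ℂ) * v := by rw [hvdef]; field_simp
  have hv : ‖v‖ = 1 := by
    rw [hvdef, norm_div, h1, Complex.norm_real, Real.norm_of_nonneg hr.le, div_self hr.ne']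
  have hv2 : v.re ^ 2 + v.im ^ 2 = 1 := by
    have := Complex.sq_norm v
    rw [hv, Complex.normSq_apply] at this
    nlinarith
  have e1 : dotp (grad u (σ t)) (V t / (r : ℂ) ^ 2) = dotp (grad u (σ t)) v / r := by
    have : V t / (r : ℂ) ^ 2 = ((1 / r : ℝ) : ℂ) * v := by
      rw [hV]; push_cast; field_simp
    rw [this, dotp_smul_right]; ring
  have e2 : kap u (σ t) v = dotp (grad u (σ t)) (Complex.I * v) / r := by
    unfold kap
    rw [fderiv_phi_eq]
  rw [e1, e2]
  have e3 : r * (dotp (grad u (σ t)) v / r) = dotp (grad u (σ t)) v := by field_simp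
  rw [e3, hV]
  generalize grad u (σ t) = g
  have key : g - (dotp g v : ℂ) * v = (dotp g (Complex.I * v) : ℂ) * (Complex.I * v) := by
    apply Complex.ext
    · simp only [dotp, Complex.sub_re, Complex.mul_re, Complex.ofReal_re, Complex.ofReal_im,
        Complex.I_re, Complex.I_im, Complex.mul_im]
      linear_combination (-g.re) * hv2
    · simp only [dotp, Complex.sub_im, Complex.mul_re, Complex.ofReal_re, Complex.ofReal_im,
        Complex.I_re, Complex.I_im, Complex.mul_im]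
      linear_combination (-g.im) * hv2
  have e4 : ((dotp g (Complex.I * v) / r : ℝ) : ℂ) * (Complex.I * v) =
      (g - (dotp g v : ℂ) * v) / (r : ℂ) := by
    rw [key]; push_cast; ring
  rw [e4]
  field_simp

/-- Lifting of a unit vector curve: if `‖v t‖ = 1` and `v' = k * (I * v)` on `[a, b]` with `k`
continuous, then `v = dir ∘ θ` with `θ' = k`. (`θ t = θ0 + ∫_a^t k` with `dir θ0 = v a`
(`exists_dir`); the function `v * exp (- I θ)` has derivative zero on `[a, b]`, so it is
constant.) -/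
theorem lift_angle {a b : ℝ} (hab : a < b) {v : ℝ → ℂ} {k : ℝ → ℝ}
    (hk : ContinuousOn k (Set.Icc a b)) (hv : ∀ t ∈ Set.Icc a b, ‖v t‖ = 1)
    (hd : ∀ t ∈ Set.Icc a b, HasDerivWithinAt v ((k t : ℂ) * (Complex.I * v t)) (Set.Icc a b) t) :
    ∃ θ : ℝ → ℝ, ∀ t ∈ Set.Icc a b, dir (θ t) = v t ∧
      HasDerivWithinAt θ (k t) (Set.Icc a b) t := by
  set k' : ℝ → ℝ := Set.IccExtend hab.le (Set.domRestrict (Set.Icc a b) k) with hk'
  have hkc : Continuous k' := (continuousOn_iff_continuous_domRestrict.1 hk).Icc_extend'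
  have hkk : ∀ t ∈ Set.Icc a b, k' t = k t := fun t ht => by
    rw [hk', Set.IccExtend_of_mem _ _ ht]; rfl
  obtain ⟨θ0, -, hθ0⟩ := exists_dir (hv a (Set.left_mem_Icc.2 hab.le))
  set θ : ℝ → ℝ := fun t => θ0 + ∫ x in a..t, k' x with hθ
  have hder : ∀ t, HasDerivAt θ (k' t) t := fun t =>
    (hkc.integral_hasStrictDerivAt a t).hasDerivAt.const_add θ0
  set w : ℝ → ℂ := fun t => v t * Complex.exp (-((θ t : ℂ) * Complex.I)) with hw
  have hwd : ∀ t ∈ Set.Icc a b, HasDerivWithinAt w 0 (Set.Icc a b) t := by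
    intro t ht
    have h1 : HasDerivWithinAt (fun x => ((θ x : ℝ) : ℂ)) ((k' t : ℝ) : ℂ) (Set.Icc a b) t :=
      (hder t).ofReal_comp.hasDerivWithinAt
    have h2 := ((h1.mul_const Complex.I).neg).cexp
    have h3 := (hd t ht).mul h2
    refine h3.congr_deriv ?_
    rw [hkk t ht]
    ring
  have hconst : ∀ t ∈ Set.Icc a b, w t = w a := by
    apply constant_of_derivWithin_zero
    · intro t ht
      exact (hwd t ht).differentiableWithinAt
    · intro t ht
      exact (hwd t (Set.Ico_subset_Icc_self ht)).derivWithin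
        (uniqueDiffOn_Icc hab t (Set.Ico_subset_Icc_self ht))
  have hwa : w a = 1 := by
    have : θ a = θ0 := by simp [hθ]
    rw [hw]
    simp only
    rw [this, ← hθ0]
    unfold dir
    rw [← Complex.exp_add]
    simp
  refine ⟨θ, fun t ht => ⟨?_, ?_⟩⟩
  · have h1 := hconst t ht
    rw [hwa] at h1
    have h2 : v t * Complex.exp (-((θ t : ℂ) * Complex.I)) = 1 := h1
    unfold dir
    calc Complex.exp ((θ t : ℂ) * Complex.I) = (v t * Complex.exp (-((θ t : ℂ) * Complex.I))) *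
          Complex.exp ((θ t : ℂ) * Complex.I) := by rw [h2, one_mul]
      _ = v t := by
          rw [mul_assoc, ← Complex.exp_add]
          simp
  · rw [← hkk t ht]
    exact (hder t).hasDerivWithinAt

/-- Minimal curves are geodesics (`iso_momentum`, `unit_deriv`, `lift_angle`; note
`V / rho² = (V / rho) / rho`, and `k t = kap u (σ t) (v t)` is continuous because the gradient is
continuous, `grad_continuousOn`, `fderiv_phi_eq`). -/
theorem iso_geodesic {u : ℂ → ℝ} {A : ℝ} (M : Met u A) {a b : ℝ} (hab : a < b) {σ : ℝ → ℂ}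
    (h : IsoOn u a b σ) : ∃ θ : ℝ → ℝ, IsGeodesicOn u a b σ θ := by
  obtain ⟨V, hV⟩ := iso_momentum M hab h
  have hmem := h.1
  have hr : ∀ t ∈ Set.Icc a b, 0 < rho u (σ t) := fun t ht => rho_pos u (hmem t ht)
  set v : ℝ → ℂ := fun x => V x / (rho u (σ x) : ℂ) with hv
  have hvd := unit_deriv M hmem hV
  have hσc : ContinuousOn σ (Set.Icc a b) := fun t ht => (hV t ht).2.1.continuousWithinAt
  have hvc : ContinuousOn v (Set.Icc a b) := fun t ht => (hvd t ht).continuousWithinAt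
  have hgc : ContinuousOn (fun t => grad u (σ t)) (Set.Icc a b) :=
    (grad_continuousOn M).comp hσc hmem
  have hrc : ContinuousOn (fun t => rho u (σ t)) (Set.Icc a b) :=
    (rho_contDiffOn M).continuousOn.comp hσc hmem
  have hkc : ContinuousOn (fun t => kap u (σ t) (v t)) (Set.Icc a b) := by
    have e : (fun t => kap u (σ t) (v t)) = fun t =>
        ((grad u (σ t)).re * (Complex.I * v t).re + (grad u (σ t)).im * (Complex.I * v t).im) /
          rho u (σ t) := by
      funext t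
      unfold kap
      rw [fderiv_phi_eq]
      rfl
    rw [e]
    have hI : ContinuousOn (fun t => Complex.I * v t) (Set.Icc a b) := continuousOn_const.mul hvc
    refine ContinuousOn.div ?_ hrc (fun t ht => (hr t ht).ne')
    exact ((Complex.continuous_re.comp_continuousOn hgc).mul
      (Complex.continuous_re.comp_continuousOn hI)).add
      ((Complex.continuous_im.comp_continuousOn hgc).mul
      (Complex.continuous_im.comp_continuousOn hI))
  have hv1 : ∀ t ∈ Set.Icc a b, ‖v t‖ = 1 := by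
    intro t ht
    have := (hV t ht).1
    rw [hv]
    simp only
    rw [norm_div, this, Complex.norm_real, Real.norm_of_nonneg (hr t ht).le,
      div_self (hr t ht).ne']
  obtain ⟨θ, hθ⟩ := lift_angle hab hkc hv1 hvd
  refine ⟨θ, fun t ht => ⟨hmem t ht, ?_, ?_⟩⟩
  · rw [(hθ t ht).1]
    refine (hV t ht).2.1.congr_deriv ?_
    have hr0 : (rho u (σ t) : ℂ) ≠ 0 := by exact_mod_cast (hr t ht).ne'
    rw [hv]
    simp only
    field_simp
  · rw [(hθ t ht).1]
    exact (hθ t ht).2

/-- Restriction of a geodesic to a smaller interval. -/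
theorem IsGeodesicOn.mono {u : ℂ → ℝ} {a b a' b' : ℝ} {z : ℝ → ℂ} {θ : ℝ → ℝ}
    (h : IsGeodesicOn u a b z θ) (ha : a ≤ a') (hb : b' ≤ b) : IsGeodesicOn u a' b' z θ := by
  intro t ht
  have hs : Set.Icc a' b' ⊆ Set.Icc a b := Set.Icc_subset_Icc ha hb
  obtain ⟨h1, h2, h3⟩ := h t (hs ht)
  exact ⟨h1, h2.mono hs, h3.mono hs⟩

/-- Translation of the parameter: `t ↦ (z (t + c), θ (t + c))` is a geodesic on
`[a - c, b - c]`. -/
theorem IsGeodesicOn.shift {u : ℂ → ℝ} {a b : ℝ} {z : ℝ → ℂ} {θ : ℝ → ℝ}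
    (h : IsGeodesicOn u a b z θ) (c : ℝ) :
    IsGeodesicOn u (a - c) (b - c) (fun t => z (t + c)) (fun t => θ (t + c)) := by
  intro t ht
  have ht' : t + c ∈ Set.Icc a b := ⟨by linarith [ht.1], by linarith [ht.2]⟩
  obtain ⟨h1, h2, h3⟩ := h (t + c) ht'
  have hm : Set.MapsTo (fun t : ℝ => t + c) (Set.Icc (a - c) (b - c)) (Set.Icc a b) :=
    fun x hx => ⟨by linarith [hx.1], by linarith [hx.2]⟩
  have hs : HasDerivWithinAt (fun t : ℝ => t + c) 1 (Set.Icc (a - c) (b - c)) t :=
    ((hasDerivAt_id t).add_const c).hasDerivWithinAt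
  refine ⟨h1, ?_, ?_⟩
  · have := h2.scomp t hs hm
    rw [one_smul] at this
    exact this
  · have := h3.scomp t hs hm
    rw [one_smul] at this
    exact this

/-- The direction of a geodesic is determined by the curve: if `(z, θ)` and `(z, θ')` are
geodesics on `[a, b]`, `a < b`, then `dir (θ t) = dir (θ' t)` (uniqueness of the derivative within
`[a, b]`). -/
theorem dir_unique {u : ℂ → ℝ} {A : ℝ} (M : Met u A) {a b : ℝ} (hab : a < b) {z : ℝ → ℂ}
    {θ θ' : ℝ → ℝ} (h : IsGeodesicOn u a b z θ) (h' : IsGeodesicOn u a b z θ') {t : ℝ}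
    (ht : t ∈ Set.Icc a b) : dir (θ t) = dir (θ' t) := by
  have h1 := (h t ht).2.1
  have h2 := (h' t ht).2.1
  have e := (uniqueDiffOn_Icc hab t ht).eq_deriv _ h1 h2
  have hr := rho_pos u (h t ht).1
  have hr0 : (rho u (z t) : ℂ) ≠ 0 := by exact_mod_cast hr.ne'
  rw [div_left_inj' hr0] at e
  exact e

end Pool.Agent.H.MP_bfbbee_an
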