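import Mathlib
import Pool.Agent.H.MP_bfbbee_an.RegC

/-!
# Minimal rays are geodesics
-/

namespace Pool.Agent.H.MP_bfbbee_an

open Filter Topology MeasureTheory

/-- Adding a multiple of `2π` to the angle function of a geodesic. -/
theorem RayA_add {u : ℂ → ℝ} {a b : ℝ} {z : ℝ → ℂ} {θ : ℝ → ℝ} (h : IsGeodesicOn u a b z θ)
    (k : ℤ) : IsGeodesicOn u a b z (fun t => θ t + 2 * Real.pi * k) := by
  intro t ht
  obtain ⟨h1, h2, h3⟩ := h t ht
  have hd : dir (θ t + 2 * Real.pi * k) = dir (θ t) := ((dir_eq_iff _ _).2 ⟨k, rfl⟩).symm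
  refine ⟨h1, ?_, ?_⟩
  · simp only [hd]
    exact h2
  · simp only [hd]
    exact h3.add_const _

/-- Geodesics along the same curve with the same starting angle have the same angle. -/
theorem RayA_eq {u : ℂ → ℝ} {A : ℝ} (M : Met u A) {b : ℝ} (hb : 0 < b) {z : ℝ → ℂ}
    {θ θ' : ℝ → ℝ} (h : IsGeodesicOn u 0 b z θ) (h' : IsGeodesicOn u 0 b z θ')
    (h0 : θ 0 = θ' 0) {t : ℝ} (ht : t ∈ Set.Icc 0 b) : θ t = θ' t := by
  have key : ∀ x ∈ Set.Icc (0 : ℝ) b,
      HasDerivWithinAt (fun x => θ x - θ' x) 0 (Set.Icc 0 b) x := by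
    intro x hx
    have h1 := (h x hx).2.2.sub (h' x hx).2.2
    rw [dir_unique M hb h h' hx, sub_self] at h1
    exact h1
  have h2 : θ t - θ' t = θ 0 - θ' 0 := constant_of_derivWithin_zero
    (f := fun x => θ x - θ' x) (a := 0) (b := b)
    (fun x hx => (key x hx).differentiableWithinAt)
    (fun x hx => (key x ⟨hx.1, hx.2.le⟩).derivWithin
      (uniqueDiffOn_Icc hb x ⟨hx.1, hx.2.le⟩)) t ht
  linarith

/-- A minimal ray is a geodesic with one angle function on `[0, ∞)`.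
Proof. For every `n ≥ 1`, `iso_geodesic` gives an angle function `θ_n` on `[0, n]`; by `dir_unique`
(on `[0, 1]`) and `dir_eq_iff` we may add a multiple of `2π` and assume `θ_n 0 = θ_1 0` (adding a
multiple of `2π` to the angle keeps a geodesic, since `dir` does not change). For `n ≤ m`,
`dir (θ_n t) = dir (θ_m t)` on `[0, n]` by `dir_unique`, so `θ_n' = θ_m'` there, and
`θ_n = θ_m` on `[0, n]`. Put `θ t = θ_{⌊t⌋ + 2} t`; it equals `θ_N` on `[0, T]` as soon as `N ≥ T + 2`. -/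
theorem ray_geodesic {u : ℂ → ℝ} {A : ℝ} (M : Met u A) {r : ℝ → ℂ}
    (hmem : ∀ t, 0 ≤ t → r t ∈ Disc)
    (hiso : ∀ s, 0 ≤ s → ∀ t, 0 ≤ t → dst u (r s) (r t) = |s - t|) :
    ∃ θ : ℝ → ℝ, GRay u r θ := by
  have hIso : ∀ n : ℕ, IsoOn u 0 ((n : ℝ) + 1) r := fun n =>
    ⟨fun t ht => hmem t ht.1, fun s hs t ht => hiso s hs.1 t ht.1⟩
  have hpos : ∀ n : ℕ, (0 : ℝ) < (n : ℝ) + 1 := fun n => by positivity
  obtain ⟨θ0, hθ0⟩ := iso_geodesic M (hpos 0) (hIso 0)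
  have hex : ∀ n : ℕ, ∃ θ : ℝ → ℝ, IsGeodesicOn u 0 ((n : ℝ) + 1) r θ ∧ θ 0 = θ0 0 := by
    intro n
    obtain ⟨θ, hθ⟩ := iso_geodesic M (hpos n) (hIso n)
    have hn : (0 : ℝ) ≤ n := Nat.cast_nonneg n
    have h1 : IsGeodesicOn u 0 1 r θ := hθ.mono le_rfl (by linarith)
    have h2 : IsGeodesicOn u 0 1 r θ0 := hθ0.mono le_rfl (by simp)
    have h3 := dir_unique M zero_lt_one h1 h2 (t := 0) ⟨le_rfl, zero_le_one⟩
    obtain ⟨k, hk⟩ := (dir_eq_iff _ _).1 h3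
    exact ⟨_, RayA_add hθ k, hk.symm⟩
  choose Θ hΘ hΘ0 using hex
  have hle : ∀ n m : ℕ, n ≤ m → ∀ t ∈ Set.Icc (0 : ℝ) ((n : ℝ) + 1), Θ n t = Θ m t := by
    intro n m hnm t ht
    have hnm' : (n : ℝ) ≤ m := by exact_mod_cast hnm
    exact RayA_eq M (hpos n) (hΘ n) ((hΘ m).mono le_rfl (by linarith))
      ((hΘ0 n).trans (hΘ0 m).symm) ht
  refine ⟨fun t => Θ (⌊t⌋₊ + 1) t, hmem, hiso, fun T hT => ?_⟩
  have hfl := Nat.lt_floor_add_one T
  have key : ∀ t ∈ Set.Icc (0 : ℝ) T, Θ (⌊t⌋₊ + 1) t = Θ (⌊T⌋₊ + 1) t := by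
    intro t ht
    refine hle _ _ (Nat.add_le_add_right (Nat.floor_mono ht.2) 1) t ⟨ht.1, ?_⟩
    have := Nat.lt_floor_add_one t
    push_cast
    linarith
  have hN : IsGeodesicOn u 0 T r (Θ (⌊T⌋₊ + 1)) := by
    refine (hΘ (⌊T⌋₊ + 1)).mono le_rfl ?_
    push_cast
    linarith
  intro t ht
  obtain ⟨h1, h2, h3⟩ := hN t ht
  refine ⟨h1, ?_, ?_⟩
  · simp only [key t ht]
    exact h2
  · simp only [key t ht]
    exact h3.congr (fun s hs => key s hs) (key t ht)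

/-- Shift of a minimal ray. -/
theorem GRay.shift {u : ℂ → ℝ} {r : ℝ → ℂ} {θ : ℝ → ℝ} (h : GRay u r θ) {s : ℝ} (hs : 0 ≤ s) :
    GRay u (fun t => r (s + t)) (fun t => θ (s + t)) := by
  refine ⟨fun t ht => h.mem _ (by linarith), fun a ha b hb => ?_, fun T hT => ?_⟩
  · rw [h.iso _ (by linarith) _ (by linarith)]
    congr 1
    ring
  · have h1 := (h.geo (s + T) (by linarith)).shift s
    have h2 := h1.mono (a' := 0) (b' := T) (by linarith) (by linarith)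
    have e1 : (fun t => r (t + s)) = fun t => r (s + t) := by
      funext t
      rw [add_comm]
    have e2 : (fun t => θ (t + s)) = fun t => θ (s + t) := by
      funext t
      rw [add_comm]
    rw [e1, e2] at h2
    exact h2

/-- A first integral is constant along a minimal ray. -/
theorem GRay.F_const {u : ℂ → ℝ} {F : ℂ × ℝ → ℝ} (hF : FirstIntegral u F) {r : ℝ → ℂ} {θ : ℝ → ℝ}
    (h : GRay u r θ) {t : ℝ} (ht : 0 ≤ t) : F (r t, θ t) = F (r 0, θ 0) := by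
  have h1 := h.geo (t + 1) (by linarith)
  exact (hF.inv 0 t r θ ht (h1.mono le_rfl (by linarith))).symm

/-- A calibrated curve is a minimal ray: `|s - t| = |b (r s) - b (r t)| ≤ dst (r s) (r t)
≤ |s - t|`; then `ray_geodesic`. -/
theorem Cal.gray {u : ℂ → ℝ} {A : ℝ} (M : Met u A) {b : ℂ → ℝ} (hb : Lip1 u b) {x : ℂ} {r : ℝ → ℂ}
    (h : Cal u b x r) : ∃ θ : ℝ → ℝ, GRay u r θ := by
  refine ray_geodesic M h.mem fun s hs t ht => ?_
  refine le_antisymm (h.one s hs t ht) ?_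
  have h1 := hb _ (h.mem s hs) _ (h.mem t ht)
  have h2 := hb _ (h.mem t ht) _ (h.mem s hs)
  have h3 := h.one t ht s hs
  have h4 := h.one s hs t ht
  rw [h.cal s hs, h.cal t ht] at h1 h2
  rcases le_total s t with hst | hst
  · rw [abs_of_nonpos (by linarith)]
    linarith
  · have hsym : dst u (r s) (r t) = dst u (r t) (r s) := dst_comm _ _ _
    rw [abs_of_nonneg (by linarith)]
    linarith

/-- Shift of a calibrated ray. -/
theorem Cal.shift {u : ℂ → ℝ} {b : ℂ → ℝ} {x : ℂ} {r : ℝ → ℂ} (h : Cal u b x r) {s : ℝ}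
    (hs : 0 ≤ s) : Cal u b (r s) (fun t => r (s + t)) := by
  refine ⟨by simp, fun t ht => h.mem _ (by linarith), fun a ha c hc => ?_, fun t ht => ?_⟩
  · have h1 := h.one (s + a) (by linarith) (s + c) (by linarith)
    have e : s + a - (s + c) = a - c := by ring
    rw [e] at h1
    exact h1
  · rw [h.cal _ (by linarith), h.cal _ hs]
    ring

end Pool.Agent.H.MP_bfbbee_an
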