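import Mathlib
import Pool.Agent.H.MP_bfbbee_an.Dist

/-!
# Parametrisation of a polygonal path
-/

namespace Pool.Agent.H.MP_bfbbee_an

open Filter Topology

/-- The primitive of the length density along a segment. -/
private noncomputable def Poly_kap (u : ℂ → ℝ) (p q : ℂ) (x : ℝ) : ℝ :=
  ‖q - p‖ * ∫ y in (0 : ℝ)..x, rho u (p + (y : ℂ) * (q - p))

private theorem Poly_int {u : ℂ → ℝ} {A : ℝ} (M : Met u A) {p q : ℂ} (hp : p ∈ Disc)
    (hq : q ∈ Disc) {a b : ℝ} (ha : a ∈ Set.Icc (0 : ℝ) 1) (hb : b ∈ Set.Icc (0 : ℝ) 1) :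
    IntervalIntegrable (fun y : ℝ => rho u (p + (y : ℂ) * (q - p))) MeasureTheory.volume a b := by
  apply ContinuousOn.intervalIntegrable
  exact (rho_seg_continuousOn M hp hq).mono (Set.uIcc_subset_Icc ha hb)

private theorem Poly_cost {u : ℂ → ℝ} {A : ℝ} (M : Met u A) {p q : ℂ} (hp : p ∈ Disc)
    (hq : q ∈ Disc) {a b : ℝ} (ha : a ∈ Set.Icc (0 : ℝ) 1) (hb : b ∈ Set.Icc (0 : ℝ) 1)
    (hab : a ≤ b) :
    cost u (p + (a : ℂ) * (q - p)) (p + (b : ℂ) * (q - p)) = Poly_kap u p q b - Poly_kap u p q a := by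
  have h0 : (0 : ℝ) ∈ Set.Icc (0 : ℝ) 1 := ⟨le_refl _, zero_le_one⟩
  rw [cost_part hab, Poly_kap, Poly_kap, ← mul_sub]
  congr 1
  have h := intervalIntegral.integral_add_adjacent_intervals (Poly_int M hp hq h0 ha)
    (Poly_int M hp hq ha hb)
  linarith

private theorem Poly_one (u : ℂ → ℝ) (p q : ℂ) : Poly_kap u p q 1 = cost u p q := rfl

private theorem Poly_zero (u : ℂ → ℝ) (p q : ℂ) : Poly_kap u p q 0 = 0 := by
  simp [Poly_kap]

private theorem Poly_cont {u : ℂ → ℝ} {A : ℝ} (M : Met u A) {p q : ℂ} (hp : p ∈ Disc)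
    (hq : q ∈ Disc) : ContinuousOn (Poly_kap u p q) (Set.Icc (0 : ℝ) 1) := by
  unfold Poly_kap
  apply ContinuousOn.mul continuousOn_const
  have h := intervalIntegral.continuousOn_primitive_interval (a := (0 : ℝ)) (b := 1)
    (f := fun y : ℝ => rho u (p + (y : ℂ) * (q - p))) (μ := MeasureTheory.volume) (by
      rw [Set.uIcc_of_le zero_le_one]
      exact (rho_seg_continuousOn M hp hq).integrableOn_Icc)
  rwa [Set.uIcc_of_le zero_le_one] at h

/-- A single segment: for `p, q` in the disc there is a curve `P` on `[0, cost p q]` in the disc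
from `p` to `q` with `dst (P s) (P t) ≤ |s - t|`.
Proof. Put `κ x = ‖q - p‖ ∫_0^x rho (p + y (q - p)) dy`, continuous and monotone on `[0, 1]`, with
`κ 0 = 0`, `κ 1 = cost p q`. For every `s` in `[0, cost]` choose `x s` in `[0, 1]` with
`κ (x s) = s` (intermediate value theorem; `x 0 = 0`, `x (cost) = 1`, and if `p = q` take anything),
and `P s = p + x s (q - p)`. For `s ≤ t` either `x s ≤ x t`, and then
`dst (P s) (P t) ≤ cost (P s) (P t) = κ (x t) - κ (x s) = t - s` by `cost_part`, or `x t < x s`,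
and then symmetrically `dst (P t) (P s) ≤ κ (x s) - κ (x t) = s - t ≤ 0`. -/
theorem segment_curve {u : ℂ → ℝ} {A : ℝ} (M : Met u A) {p q : ℂ} (hp : p ∈ Disc)
    (hq : q ∈ Disc) : ∃ P : ℝ → ℂ, P 0 = p ∧ P (cost u p q) = q ∧
      (∀ s ∈ Set.Icc 0 (cost u p q), P s ∈ Disc) ∧
      ∀ s ∈ Set.Icc 0 (cost u p q), ∀ t ∈ Set.Icc 0 (cost u p q), dst u (P s) (P t) ≤ |s - t| := by
  by_cases hpq : cost u p q = 0
  · -- then `p = q`
    have h1 : 2 * Real.exp (-A) * ‖q - p‖ ≤ cost u p q :=
      le_cost M hp hq (fun s hs => rho_ge M (seg_mem hp hq hs))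
    rw [hpq] at h1
    have h2 : ‖q - p‖ = 0 := by
      have h3 := norm_nonneg (q - p)
      have h4 := Real.exp_pos (-A)
      by_contra hne
      have h5 : 0 < ‖q - p‖ := lt_of_le_of_ne h3 (Ne.symm hne)
      have h6 : 0 < 2 * Real.exp (-A) * ‖q - p‖ := by positivity
      linarith
    have h3 : q = p := by
      rw [norm_eq_zero] at h2
      exact sub_eq_zero.mp h2
    refine ⟨fun _ => p, rfl, h3.symm, fun _ _ => hp, fun s _ t _ => ?_⟩
    rw [dst_self M hp]
    exact abs_nonneg _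
  · have hex : ∀ s : ℝ, ∃ x : ℝ, (s ∈ Set.Icc 0 (cost u p q) → x ∈ Set.Icc (0 : ℝ) 1 ∧
        Poly_kap u p q x = s) ∧ (s = 0 → x = 0) ∧ (s = cost u p q → x = 1) := by
      intro s
      by_cases hs0 : s = 0
      · refine ⟨0, fun _ => ⟨⟨le_refl _, zero_le_one⟩, ?_⟩, fun _ => rfl, fun h => ?_⟩
        · rw [hs0]; exact Poly_zero u p q
        · exact absurd (h.symm.trans hs0) hpq
      by_cases hs1 : s = cost u p q
      · refine ⟨1, fun _ => ⟨⟨zero_le_one, le_refl _⟩, ?_⟩, fun h => absurd h hs0, fun _ => rfl⟩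
        rw [hs1]; exact Poly_one u p q
      by_cases hs : s ∈ Set.Icc 0 (cost u p q)
      · have h := intermediate_value_Icc (zero_le_one' ℝ) (Poly_cont M hp hq)
        rw [Poly_zero, Poly_one] at h
        obtain ⟨x, hx, hxs⟩ := h hs
        exact ⟨x, fun _ => ⟨hx, hxs⟩, fun h => absurd h hs0, fun h => absurd h hs1⟩
      · exact ⟨0, fun h => absurd h hs, fun h => absurd h hs0, fun h => absurd h hs1⟩
    choose x hx1 hx2 hx3 using hex
    refine ⟨fun s => p + (x s : ℂ) * (q - p), ?_, ?_, ?_, ?_⟩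
    · simp [hx2 0 rfl]
    · simp [hx3 _ rfl]
    · intro s hs
      exact seg_mem hp hq (hx1 s hs).1
    · intro s hs t ht
      obtain ⟨hs1, hs2⟩ := hx1 s hs
      obtain ⟨ht1, ht2⟩ := hx1 t ht
      have key : ∀ a b : ℝ, x a ∈ Set.Icc (0 : ℝ) 1 → x b ∈ Set.Icc (0 : ℝ) 1 →
          Poly_kap u p q (x a) = a → Poly_kap u p q (x b) = b → x a ≤ x b →
          dst u (p + (x a : ℂ) * (q - p)) (p + (x b : ℂ) * (q - p)) ≤ b - a := by
        intro a b ha hb ha2 hb2 hab
        have h1 := dst_le_cost M (seg_mem hp hq ha) (seg_mem hp hq hb)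
        rw [Poly_cost M hp hq ha hb hab, ha2, hb2] at h1
        exact h1
      rcases le_total (x s) (x t) with hle | hle
      · have h := key s t hs1 ht1 hs2 ht2 hle
        have h2 : t - s ≤ |s - t| := by rw [abs_sub_comm]; exact le_abs_self _
        exact h.trans h2
      · have h := key t s ht1 hs1 ht2 hs2 hle
        rw [dst_comm]
        exact h.trans (le_abs_self _)

/-- A polygonal path of length `L`: induction on the path, appending the curve of
`segment_curve` for the last segment (the triangle inequality through the common vertex). -/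
theorem Chain.exists_curve {u : ℂ → ℝ} {A : ℝ} (M : Met u A) {p q : ℂ} {L : ℝ}
    (h : Chain u p q L) : ∃ P : ℝ → ℂ, P 0 = p ∧ P L = q ∧
      (∀ s ∈ Set.Icc 0 L, P s ∈ Disc) ∧
      ∀ s ∈ Set.Icc 0 L, ∀ t ∈ Set.Icc 0 L, dst u (P s) (P t) ≤ |s - t| := by
  induction h with
  | nil hp =>
    refine ⟨fun _ => p, rfl, rfl, fun _ _ => hp, fun s _ t _ => ?_⟩
    rw [dst_self M hp]
    exact abs_nonneg _
  | @cons q r L hc hr ih =>
    obtain ⟨P, hP0, hPL, hPd, hPl⟩ := ih
    have hq : q ∈ Disc := hc.mem.2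
    have hL : 0 ≤ L := hc.nonneg M
    obtain ⟨Q, hQ0, hQc, hQd, hQl⟩ := segment_curve M hq hr
    have hc0 : 0 ≤ cost u q r := cost_nonneg M hq hr
    have hz : (0 : ℝ) ∈ Set.Icc 0 (cost u q r) := ⟨le_refl _, hc0⟩
    have hLL : L ∈ Set.Icc 0 L := ⟨hL, le_refl _⟩
    have hcross : ∀ s t : ℝ, 0 ≤ s → s ≤ L → L < t → t ≤ L + cost u q r →
        dst u (P s) (Q (t - L)) ≤ t - s := by
      intro s t hs hsL ht htL
      have htm : t - L ∈ Set.Icc 0 (cost u q r) := ⟨by linarith, by linarith⟩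
      have h1 := dst_triangle M (hPd s ⟨hs, hsL⟩) hq (hQd _ htm)
      have h2 := hPl s ⟨hs, hsL⟩ L hLL
      have h3 := hQl 0 hz _ htm
      rw [hPL] at h2
      rw [hQ0] at h3
      rw [abs_sub_comm, abs_of_nonneg (by linarith)] at h2
      rw [abs_sub_comm, abs_of_nonneg (by linarith)] at h3
      linarith
    refine ⟨fun s => if s ≤ L then P s else Q (s - L), ?_, ?_, ?_, ?_⟩
    · simp [hL, hP0]
    · by_cases hcz : cost u q r = 0
      · have hqr : q = r := by
          rw [← hQ0, ← hQc, hcz]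
        simp only [hcz, add_zero, le_refl, if_true]
        rw [hPL, hqr]
      · have hlt : ¬ (L + cost u q r ≤ L) := by
          intro h
          exact hcz (le_antisymm (by linarith) hc0)
        simp only [hlt, if_false]
        rw [add_sub_cancel_left, hQc]
    · intro s hs
      by_cases hsL : s ≤ L
      · simp only [hsL, if_true]
        exact hPd s ⟨hs.1, hsL⟩
      · simp only [hsL, if_false]
        exact hQd _ ⟨by linarith, by linarith [hs.2]⟩
    · intro s hs t ht
      by_cases hsL : s ≤ L <;> by_cases htL : t ≤ L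
      · simp only [hsL, htL, if_true]
        exact hPl s ⟨hs.1, hsL⟩ t ⟨ht.1, htL⟩
      · simp only [hsL, htL, if_true, if_false]
        have h := hcross s t hs.1 hsL (not_le.mp htL) ht.2
        have h2 : t - s ≤ |s - t| := by rw [abs_sub_comm]; exact le_abs_self _
        exact h.trans h2
      · simp only [hsL, htL, if_true, if_false]
        rw [dst_comm]
        have h := hcross t s ht.1 htL (not_le.mp hsL) hs.2
        exact h.trans (le_abs_self _)
      · simp only [hsL, htL, if_false]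
        have h := hQl (s - L) ⟨by linarith, by linarith [hs.2]⟩ (t - L)
          ⟨by linarith, by linarith [ht.2]⟩
        rwa [sub_sub_sub_cancel_right] at h

end Pool.Agent.H.MP_bfbbee_an
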