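import Mathlib
import Pool.Agent.H.MP_bfbbee_an.Low
import Pool.Agent.H.MP_bfbbee_an.Up
import Pool.Agent.H.MP_bfbbee_an.Poly

/-!
# Existence of minimal geodesics
-/

namespace Pool.Agent.H.MP_bfbbee_an

open Filter Topology

/-- A curve which is 1-Lipschitz for the distance and joins its end points in minimal time is
isometric: for `s ≤ t`, `b - a = dst (σ a) (σ b) ≤ (s - a) + dst (σ s) (σ t) + (b - t)`. -/
theorem isoOn_of_le {u : ℂ → ℝ} {A : ℝ} (M : Met u A) {a b : ℝ} {σ : ℝ → ℂ}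
    (hmem : ∀ t ∈ Set.Icc a b, σ t ∈ Disc)
    (hle : ∀ s ∈ Set.Icc a b, ∀ t ∈ Set.Icc a b, dst u (σ s) (σ t) ≤ |s - t|)
    (hd : b - a ≤ dst u (σ a) (σ b)) : IsoOn u a b σ := by
  refine ⟨hmem, ?_⟩
  have key : ∀ s ∈ Set.Icc a b, ∀ t ∈ Set.Icc a b, s ≤ t → dst u (σ s) (σ t) = t - s := by
    intro s hs t ht hst
    have hab : a ≤ b := hs.1.trans hs.2
    have ha : a ∈ Set.Icc a b := ⟨le_rfl, hab⟩
    have hb : b ∈ Set.Icc a b := ⟨hab, le_rfl⟩
    have h1 := hle a ha s hs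
    have h2 := hle t ht b hb
    have h3 := hle s hs t ht
    have h4 := dst_triangle M (hmem a ha) (hmem s hs) (hmem b hb)
    have h5 := dst_triangle M (hmem s hs) (hmem t ht) (hmem b hb)
    rw [abs_sub_comm, abs_of_nonneg (by linarith [hs.1] : (0 : ℝ) ≤ s - a)] at h1
    rw [abs_sub_comm, abs_of_nonneg (by linarith [ht.2] : (0 : ℝ) ≤ b - t)] at h2
    rw [abs_sub_comm, abs_of_nonneg (by linarith : (0 : ℝ) ≤ t - s)] at h3
    linarith
  intro s hs t ht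
  rcases le_total s t with h | h
  · rw [key s hs t ht h, abs_sub_comm, abs_of_nonneg (by linarith : (0 : ℝ) ≤ t - s)]
  · rw [dst_comm, key t ht s hs h, abs_of_nonneg (by linarith : (0 : ℝ) ≤ s - t)]

/-- Existence of a minimal geodesic between any two points of the disc.
Proof. Let `d = dst p q`. For every `n` take a path of length `L_n < d + 1/(n+1)` (`exists_chain`;
`L_n ≥ d` by `dst_le_of_chain`) and its curve `P_n` (`Chain.exists_curve`). For `t` in `[0, d]` the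
points `P_n t` satisfy `dst p (P_n t) ≤ t ≤ d`, so they lie in a fixed compact subset
`closedBall 0 R'` of the disc (`confine`, with `R = ‖p‖`, `r = d`); let `σ t` be their `ul`-limit
(`exists_ul_lim`). By continuity of the distance (`dst_tendsto`) `dst (σ s) (σ t) ≤ |s - t|`,
`σ 0 = p`, and `dst (P_n d) q ≤ L_n - d → 0` gives `σ d = q` (`dst_ge_norm` or continuity).
Then `isoOn_of_le`. -/
theorem exists_seg {u : ℂ → ℝ} {A : ℝ} (M : Met u A) {p q : ℂ} (hp : p ∈ Disc) (hq : q ∈ Disc) :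
    ∃ σ : ℝ → ℂ, IsoOn u 0 (dst u p q) σ ∧ σ 0 = p ∧ σ (dst u p q) = q := by
  obtain ⟨d, hd⟩ : ∃ d, d = dst u p q := ⟨_, rfl⟩
  have hd0 : 0 ≤ d := hd ▸ dst_nonneg M p q
  rw [← hd]
  have hL : ∀ n : ℕ, ∃ L, L < d + 1 / ((n : ℝ) + 1) ∧ Chain u p q L := by
    intro n
    rw [hd]
    exact exists_chain hp hq (by positivity)
  choose L hL1 hL2 using hL
  have hL3 : ∀ n, d ≤ L n := fun n => hd ▸ dst_le_of_chain M (hL2 n)
  choose P hP0 hPL hPm hPd using fun n => Chain.exists_curve M (hL2 n)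
  have hsub : ∀ n, ∀ t ∈ Set.Icc (0 : ℝ) d, t ∈ Set.Icc (0 : ℝ) (L n) :=
    fun n t ht => ⟨ht.1, ht.2.trans (hL3 n)⟩
  have hpn : ‖p‖ < 1 := by simpa [Disc] using hp
  obtain ⟨R', -, hR1, hR⟩ := confine M (norm_nonneg p) hpn d
  have hK : ∀ n, ∀ t ∈ Set.Icc (0 : ℝ) d, P n t ∈ Metric.closedBall (0 : ℂ) R' := by
    intro n t ht
    rw [mem_closedBall_zero_iff]
    refine hR p le_rfl (P n t) (hPm n t (hsub n t ht)) ?_
    have h1 := hPd n 0 ⟨le_rfl, hd0.trans (hL3 n)⟩ t (hsub n t ht)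
    rw [hP0 n, zero_sub, abs_neg, abs_of_nonneg ht.1] at h1
    exact h1.trans ht.2
  have hlim : ∀ t : ℝ, ∃ x : ℂ, t ∈ Set.Icc (0 : ℝ) d →
      x ∈ Metric.closedBall (0 : ℂ) R' ∧ Tendsto (fun n => P n t) ul (𝓝 x) := by
    intro t
    by_cases ht : t ∈ Set.Icc (0 : ℝ) d
    · obtain ⟨x, hx, hx'⟩ := exists_ul_lim (isCompact_closedBall (0 : ℂ) R')
        (f := fun n => P n t) (Filter.Eventually.of_forall fun n => hK n t ht)
      exact ⟨x, fun _ => ⟨hx, hx'⟩⟩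
    · exact ⟨0, fun h => absurd h ht⟩
  choose σ hσ using hlim
  have hmem : ∀ t ∈ Set.Icc (0 : ℝ) d, σ t ∈ Disc := by
    intro t ht
    have h1 := (hσ t ht).1
    rw [mem_closedBall_zero_iff] at h1
    rw [Disc, mem_ball_zero_iff]
    exact lt_of_le_of_lt h1 hR1
  have h0 : (0 : ℝ) ∈ Set.Icc (0 : ℝ) d := ⟨le_rfl, hd0⟩
  have h1 : d ∈ Set.Icc (0 : ℝ) d := ⟨hd0, le_rfl⟩
  have hσ0 : σ 0 = p := by
    refine tendsto_nhds_unique (hσ 0 h0).2 ?_
    simp only [hP0]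
    exact tendsto_const_nhds
  have hσd : σ d = q := by
    refine tendsto_nhds_unique (hσ d h1).2 ?_
    have hc : 0 < 2 * Real.exp (-A) := by positivity
    have hb : ∀ n : ℕ, ‖P n d - q‖ ≤ (1 / ((n : ℝ) + 1)) / (2 * Real.exp (-A)) := by
      intro n
      rw [le_div_iff₀ hc, mul_comm, norm_sub_rev]
      refine (dst_ge_norm M (hPm n d (hsub n d h1)) hq).trans ?_
      have h2 := hPd n d (hsub n d h1) (L n) ⟨hd0.trans (hL3 n), le_rfl⟩
      rw [hPL n, abs_sub_comm, abs_of_nonneg (by linarith [hL3 n] : (0 : ℝ) ≤ L n - d)] at h2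
      linarith [hL1 n]
    have hz : Tendsto (fun n : ℕ => (1 / ((n : ℝ) + 1)) / (2 * Real.exp (-A))) atTop (𝓝 0) := by
      have h3 := (tendsto_one_div_add_atTop_nhds_zero_nat (𝕜 := ℝ)).div_const
        (2 * Real.exp (-A))
      simpa using h3
    have h4 : Tendsto (fun n => P n d) atTop (𝓝 q) := by
      rw [tendsto_iff_norm_sub_tendsto_zero]
      exact squeeze_zero (fun n => norm_nonneg _) hb hz
    exact h4.mono_left ul_le
  have hle : ∀ s ∈ Set.Icc (0 : ℝ) d, ∀ t ∈ Set.Icc (0 : ℝ) d,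
      dst u (σ s) (σ t) ≤ |s - t| := by
    intro s hs t ht
    refine le_of_tendsto (dst_tendsto M (hmem s hs) (hmem t ht) (hσ s hs).2 (hσ t ht).2) ?_
    exact Filter.Eventually.of_forall fun n => hPd n s (hsub n s hs) t (hsub n t ht)
  refine ⟨σ, isoOn_of_le M hmem hle ?_, hσ0, hσd⟩
  rw [hσ0, hσd, ← hd, sub_zero]

end Pool.Agent.H.MP_bfbbee_an
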