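import Mathlib
import Pool.Agent.H.MP_bfbbee_an.RayA
import Pool.Agent.H.MP_bfbbee_an.Seg

/-!
# Minimal curves converge exponentially to the boundary circle
-/

namespace Pool.Agent.H.MP_bfbbee_an

open Filter Topology MeasureTheory

/-- Along a minimal curve from `x`, `1 - |σ t|² ≤ C exp (- e^(-A) t)` with `C` depending only on
`R ≥ ‖x‖`: `t = dst x (σ t) ≤ dst x 0 + dst 0 (σ t) ≤ e^A (log (4/(1-|x|²)) + log (4/(1-|σ t|²)))`
(`dst_zero_le`), so `log (1 - |σ t|²) ≤ log (16 / (1 - R²)) - e^(-A) t`. -/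
theorem seg_q_le {u : ℂ → ℝ} {A : ℝ} (M : Met u A) {R : ℝ} (hR0 : 0 ≤ R) (hR : R < 1) {T : ℝ}
    {σ : ℝ → ℂ} (h : IsoOn u 0 T σ) (hx : ‖σ 0‖ ≤ R) {t : ℝ} (ht : t ∈ Set.Icc 0 T) :
    1 - ‖σ t‖ ^ 2 ≤ 16 / (1 - R ^ 2) * Real.exp (-(Real.exp (-A) * t)) := by
  have hT : (0 : ℝ) ∈ Set.Icc 0 T := ⟨le_rfl, ht.1.trans ht.2⟩
  have hm0 := h.1 0 hT
  have hmt := h.1 t ht
  have h0 : (0 : ℂ) ∈ Disc := by simp [Disc]
  have hq0 := q_pos hm0
  have hqt := q_pos hmt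
  have h1 := h.2 0 hT t ht
  rw [zero_sub, abs_neg, abs_of_nonneg ht.1] at h1
  have h2 := dst_triangle M hm0 h0 hmt
  have h3 := dst_zero_le M hm0
  have h4 := dst_zero_le M hmt
  rw [dst_comm u (σ 0) 0] at h2
  have h5 : t ≤ Real.exp A * (Real.log (4 / (1 - ‖σ 0‖ ^ 2)) + Real.log (4 / (1 - ‖σ t‖ ^ 2))) := by
    rw [mul_add]
    linarith
  have h6 : Real.exp (-A) * t ≤
      Real.log (4 / (1 - ‖σ 0‖ ^ 2)) + Real.log (4 / (1 - ‖σ t‖ ^ 2)) := by
    have h7 := mul_le_mul_of_nonneg_left h5 (Real.exp_pos (-A)).le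
    rw [← mul_assoc, ← Real.exp_add, neg_add_cancel, Real.exp_zero, one_mul] at h7
    exact h7
  have h8 : Real.exp (Real.exp (-A) * t) ≤ 4 / (1 - ‖σ 0‖ ^ 2) * (4 / (1 - ‖σ t‖ ^ 2)) := by
    have h9 := Real.exp_le_exp.2 h6
    rwa [Real.exp_add, Real.exp_log (by positivity), Real.exp_log (by positivity)] at h9
  have h10 : (1 - ‖σ t‖ ^ 2) * Real.exp (Real.exp (-A) * t) ≤ 16 / (1 - ‖σ 0‖ ^ 2) := by
    have h11 := mul_le_mul_of_nonneg_left h8 hqt.le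
    have e : (1 - ‖σ t‖ ^ 2) * (4 / (1 - ‖σ 0‖ ^ 2) * (4 / (1 - ‖σ t‖ ^ 2))) =
        16 / (1 - ‖σ 0‖ ^ 2) := by
      field_simp
      norm_num
    rwa [e] at h11
  have hR2 : 1 - R ^ 2 ≤ 1 - ‖σ 0‖ ^ 2 := by
    have := pow_le_pow_left₀ (norm_nonneg (σ 0)) hx 2
    linarith
  have hR3 : 0 < 1 - R ^ 2 := by nlinarith
  have h12 : 16 / (1 - ‖σ 0‖ ^ 2) ≤ 16 / (1 - R ^ 2) := by
    gcongr
  rw [Real.exp_neg, ← div_eq_mul_inv, le_div_iff₀ (Real.exp_pos _)]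
  exact h10.trans h12

/-- Exponential decay of the Euclidean oscillation: for `0 ≤ s ≤ t ≤ T`,
`‖σ s - σ t‖ ≤ C exp (- e^(-A) s)`, with the explicit constant `C = 8 e^(2A) / (1 - R²)`.
Proof: `σ` is a geodesic (`iso_geodesic`, if `0 < T`), so `‖σ'‖ = 1 / rho ≤ e^A (1 - |σ|²) / 2
≤ (8 e^A / (1 - R²)) exp (- e^(-A) x)` at the parameter `x`, and integrating over `[s, t]` gives
the bound, as `∫_s^∞ exp (- e^(-A) x) dx = e^A exp (- e^(-A) s)`. -/
theorem seg_decay {u : ℂ → ℝ} {A : ℝ} (M : Met u A) {R : ℝ} (hR0 : 0 ≤ R) (hR : R < 1) {T : ℝ}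
    {σ : ℝ → ℂ} (h : IsoOn u 0 T σ) (hx : ‖σ 0‖ ≤ R) {s t : ℝ} (hs : 0 ≤ s) (hst : s ≤ t)
    (ht : t ≤ T) :
    ‖σ s - σ t‖ ≤ 8 * Real.exp (2 * A) / (1 - R ^ 2) * Real.exp (-(Real.exp (-A) * s)) := by
  have hR3 : 0 < 1 - R ^ 2 := by nlinarith
  rcases hst.eq_or_lt with rfl | hst'
  · rw [sub_self, norm_zero]
    positivity
  have hT : 0 < T := by linarith
  obtain ⟨θ, hθ⟩ := iso_geodesic M hT h
  set K : ℝ := 8 * Real.exp (2 * A) / (1 - R ^ 2) with hK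
  have hKpos : 0 < K := by positivity
  have hmono : Set.Icc s t ⊆ Set.Icc 0 T := Set.Icc_subset_Icc hs ht
  have hsub : ∀ x ∈ Set.Icc s t, x ∈ Set.Icc 0 T := fun x hx => hmono hx
  have key := image_norm_le_of_norm_deriv_right_le_deriv_boundary
    (f := fun x => σ x - σ s) (f' := fun x => dir (θ x) / (rho u (σ x) : ℂ)) (a := s) (b := t)
    (B := fun x => K * (Real.exp (-(Real.exp (-A) * s)) - Real.exp (-(Real.exp (-A) * x))))
    (B' := fun x => K * (Real.exp (-A) * Real.exp (-(Real.exp (-A) * x))))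
    (by
      intro x hx
      exact (((hθ x (hsub x hx)).2.1.continuousWithinAt).mono hmono).sub
        continuousWithinAt_const)
    (by
      intro x hx
      have hx' : x ∈ Set.Icc s t := ⟨hx.1, hx.2.le⟩
      have h1 := ((hθ x (hsub x hx')).2.1).sub_const (σ s)
      have hmem : Set.Icc 0 T ∈ 𝓝[Set.Ici x] x := by
        have hxT : x < T := lt_of_lt_of_le hx.2 ht
        refine Filter.mem_of_superset (Icc_mem_nhdsGE hxT) ?_
        exact Set.Icc_subset_Icc (hs.trans hx.1) le_rfl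
      exact (h1.mono_of_mem_nhdsWithin hmem))
    (by simp)
    (by
      intro x
      have h1 : HasDerivAt (fun x => -(Real.exp (-A) * x)) (-(Real.exp (-A) * 1)) x :=
        ((hasDerivAt_id x).const_mul _).neg
      have h2 := (((h1.exp).const_sub (Real.exp (-(Real.exp (-A) * s)))).const_mul K)
      refine h2.congr_deriv ?_
      ring)
    (by
      intro x hx1
      have hx' : x ∈ Set.Icc s t := ⟨hx1.1, hx1.2.le⟩
      have hD := h.1 x (hsub x hx')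
      have hr := rho_pos u hD
      have hlow := rho_lower M hD
      have hqp := q_pos hD
      have hq := seg_q_le M hR0 hR h hx (hsub x hx')
      have hn : ‖dir (θ x) / (rho u (σ x) : ℂ)‖ = 1 / rho u (σ x) := by
        rw [norm_div, norm_dir, Complex.norm_real, Real.norm_eq_abs, abs_of_pos hr]
      have hEA : Real.exp (2 * A) * Real.exp (-A) = Real.exp A := by
        rw [← Real.exp_add]
        congr 1
        ring
      have hAA : Real.exp A * Real.exp (-A) = 1 := by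
        rw [← Real.exp_add, add_neg_cancel, Real.exp_zero]
      have h1 : 1 / rho u (σ x) ≤ Real.exp A * (1 - ‖σ x‖ ^ 2) / 2 := by
        rw [div_le_iff₀ hr]
        have h2 : Real.exp A * (1 - ‖σ x‖ ^ 2) / 2 * (2 * Real.exp (-A) / (1 - ‖σ x‖ ^ 2)) = 1 := by
          field_simp
          exact hAA
        calc (1 : ℝ) = Real.exp A * (1 - ‖σ x‖ ^ 2) / 2 *
              (2 * Real.exp (-A) / (1 - ‖σ x‖ ^ 2)) := h2.symm
          _ ≤ Real.exp A * (1 - ‖σ x‖ ^ 2) / 2 * rho u (σ x) :=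
              mul_le_mul_of_nonneg_left hlow (by positivity)
      have h3 : Real.exp A * (1 - ‖σ x‖ ^ 2) / 2 ≤
          Real.exp A * (16 / (1 - R ^ 2) * Real.exp (-(Real.exp (-A) * x))) / 2 := by
        have := mul_le_mul_of_nonneg_left hq (Real.exp_pos A).le
        linarith
      have h4 : Real.exp A * (16 / (1 - R ^ 2) * Real.exp (-(Real.exp (-A) * x))) / 2 =
          K * (Real.exp (-A) * Real.exp (-(Real.exp (-A) * x))) := by
        rw [hK, ← hEA]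
        ring
      rw [hn, ← h4]
      exact h1.trans h3)
    (x := t) ⟨hst, le_rfl⟩
  have hfin : K * (Real.exp (-(Real.exp (-A) * s)) - Real.exp (-(Real.exp (-A) * t))) ≤
      K * Real.exp (-(Real.exp (-A) * s)) := by
    refine mul_le_mul_of_nonneg_left ?_ hKpos.le
    have := Real.exp_pos (-(Real.exp (-A) * t))
    linarith
  rw [norm_sub_rev]
  exact key.trans hfin

/-- The isometry property of a minimal ray on `[0, T]`. -/
theorem Decay_iso {u : ℂ → ℝ} {r : ℝ → ℂ} {θ : ℝ → ℝ} (h : GRay u r θ) (T : ℝ) :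
    IsoOn u 0 T r :=
  ⟨fun t ht => h.mem t ht.1, fun s hs t ht => h.iso s hs.1 t ht.1⟩

/-- `exp (- e^(-A) t) → 0`. -/
theorem Decay_lim (A : ℝ) :
    Tendsto (fun t : ℝ => Real.exp (-(Real.exp (-A) * t))) atTop (𝓝 0) := by
  refine Real.tendsto_exp_neg_atTop_nhds_zero.comp ?_
  exact tendsto_id.const_mul_atTop (Real.exp_pos (-A))

/-- A minimal ray has an end point on the unit circle. (`seg_decay`: Cauchy; `seg_q_le`: the
limit has norm one.) -/
theorem ray_end {u : ℂ → ℝ} {A : ℝ} (M : Met u A) {r : ℝ → ℂ} {θ : ℝ → ℝ} (h : GRay u r θ) :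
    ∃ ξ : ℂ, ‖ξ‖ = 1 ∧ Tendsto r atTop (𝓝 ξ) := by
  have hR : ‖r 0‖ < 1 := by
    have := h.mem 0 le_rfl
    simpa [Disc] using this
  have hR0 := norm_nonneg (r 0)
  have hlim := Decay_lim A
  have hC : CauchySeq r := by
    rw [Metric.cauchySeq_iff']
    intro ε hε
    have h1 : Tendsto (fun t : ℝ => 8 * Real.exp (2 * A) / (1 - ‖r 0‖ ^ 2) *
        Real.exp (-(Real.exp (-A) * t))) atTop (𝓝 0) := by
      simpa using hlim.const_mul (8 * Real.exp (2 * A) / (1 - ‖r 0‖ ^ 2))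
    obtain ⟨N, hN0, hN⟩ := ((eventually_ge_atTop (0 : ℝ)).and (h1.eventually_lt_const hε)).exists
    refine ⟨N, fun n hn => ?_⟩
    have h2 := seg_decay M hR0 hR (Decay_iso h n) le_rfl hN0 hn le_rfl
    rw [dist_comm, dist_eq_norm]
    exact h2.trans_lt hN
  obtain ⟨ξ, hξ⟩ := cauchySeq_tendsto_of_complete hC
  refine ⟨ξ, ?_, hξ⟩
  have hn : Tendsto (fun t => 1 - ‖r t‖ ^ 2) atTop (𝓝 (1 - ‖ξ‖ ^ 2)) :=
    (tendsto_const_nhds).sub (hξ.norm.pow 2)
  have hz : Tendsto (fun t => 1 - ‖r t‖ ^ 2) atTop (𝓝 0) := by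
    refine squeeze_zero' (g := fun t : ℝ => 16 / (1 - ‖r 0‖ ^ 2) *
        Real.exp (-(Real.exp (-A) * t))) ?_ ?_ ?_
    · filter_upwards [eventually_ge_atTop (0 : ℝ)] with t ht
      exact (q_pos (h.mem t ht)).le
    · filter_upwards [eventually_ge_atTop (0 : ℝ)] with t ht
      exact seg_q_le M hR0 hR (Decay_iso h t) le_rfl ⟨ht, le_rfl⟩
    · simpa using hlim.const_mul (16 / (1 - ‖r 0‖ ^ 2))
  have he := tendsto_nhds_unique hn hz
  have h1 : ‖ξ‖ ^ 2 = 1 := by linarith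
  exact (pow_eq_one_iff_of_nonneg (norm_nonneg ξ) two_ne_zero).1 h1

/-- Rate of convergence to the end point (let `t → ∞` in `seg_decay`). -/
theorem ray_rate {u : ℂ → ℝ} {A : ℝ} (M : Met u A) {R : ℝ} (hR0 : 0 ≤ R) (hR : R < 1)
    {r : ℝ → ℂ} {θ : ℝ → ℝ} (h : GRay u r θ) (hx : ‖r 0‖ ≤ R) {ξ : ℂ}
    (hξ : Tendsto r atTop (𝓝 ξ)) {s : ℝ} (hs : 0 ≤ s) :
    ‖r s - ξ‖ ≤ 8 * Real.exp (2 * A) / (1 - R ^ 2) * Real.exp (-(Real.exp (-A) * s)) := by
  have h1 : Tendsto (fun t => ‖r s - r t‖) atTop (𝓝 ‖r s - ξ‖) :=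
    (tendsto_const_nhds.sub hξ).norm
  refine le_of_tendsto h1 ?_
  filter_upwards [eventually_ge_atTop s] with t ht
  exact seg_decay M hR0 hR (Decay_iso h t) hx hs ht le_rfl

end Pool.Agent.H.MP_bfbbee_an
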