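import Mathlib
import Pool.Agent.H.MP_bfbbee_an.RegC

/-!
# The geodesic equation: confinement, second order estimate, stability, uniqueness
-/

namespace Pool.Agent.H.MP_bfbbee_an

open Filter Topology MeasureTheory

theorem OdeA_ball {R : ℝ} (hR : R < 1) {z : ℂ} (hz : ‖z‖ ≤ R) : z ∈ Disc := by
  simpa [Disc] using lt_of_le_of_lt hz hR

/-- `1 / rho ≤ e^A q / 2`. -/
theorem OdeA_inv {u : ℂ → ℝ} {A : ℝ} (M : Met u A) {z : ℂ} (hz : z ∈ Disc) :
    1 / rho u z ≤ Real.exp A * (1 - ‖z‖ ^ 2) / 2 := by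
  have h1 := rho_lower M hz
  have h2 := q_pos hz
  have h3 : 0 < 2 * Real.exp (-A) / (1 - ‖z‖ ^ 2) := by positivity
  calc 1 / rho u z ≤ 1 / (2 * Real.exp (-A) / (1 - ‖z‖ ^ 2)) := one_div_le_one_div_of_le h3 h1
    _ = Real.exp A * (1 - ‖z‖ ^ 2) / 2 := by
        rw [Real.exp_neg]
        field_simp

/-- `q` and its derivative. -/
theorem OdeA_q {u : ℂ → ℝ} {A : ℝ} (M : Met u A) {a b : ℝ} {z : ℝ → ℂ} {θ : ℝ → ℝ}
    (h : IsGeodesicOn u a b z θ) : ∀ t ∈ Set.Icc a b, ∃ q', |q'| ≤ Real.exp A * (1 - ‖z t‖ ^ 2) ∧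
      HasDerivWithinAt (fun s => 1 - ‖z s‖ ^ 2) q' (Set.Icc a b) t := by
  intro t ht
  obtain ⟨h1, h2, -⟩ := h t ht
  have h3 := h2.norm_sq.const_sub 1
  refine ⟨_, ?_, h3⟩
  have hr := rho_pos u h1
  have h4 := OdeA_inv M h1
  have h5 : ‖dir (θ t) / (rho u (z t) : ℂ)‖ = 1 / rho u (z t) := by
    rw [norm_div, norm_dir, Complex.norm_real, Real.norm_of_nonneg hr.le]
  have h6 := abs_real_inner_le_norm (z t) (dir (θ t) / (rho u (z t) : ℂ))
  rw [h5] at h6
  have h7 : ‖z t‖ ≤ 1 := by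
    have : ‖z t‖ < 1 := by simpa [Disc] using h1
    exact this.le
  have h8 : 0 < 1 / rho u (z t) := by positivity
  rw [abs_neg, abs_mul, abs_two]
  nlinarith [norm_nonneg (z t)]

theorem OdeA_up {u : ℂ → ℝ} {A : ℝ} (M : Met u A) {a b : ℝ} {z : ℝ → ℂ} {θ : ℝ → ℝ}
    (h : IsGeodesicOn u a b z θ) :
    MonotoneOn (fun t => (1 - ‖z t‖ ^ 2) * Real.exp (Real.exp A * t)) (Set.Icc a b) := by
  have hd : ∀ t ∈ Set.Icc a b, ∃ d, 0 ≤ d ∧
      HasDerivWithinAt (fun t => (1 - ‖z t‖ ^ 2) * Real.exp (Real.exp A * t)) d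
        (Set.Icc a b) t := by
    intro t ht
    obtain ⟨q', h1, h2⟩ := OdeA_q M h t ht
    have h3 : HasDerivWithinAt (fun t : ℝ => Real.exp (Real.exp A * t))
        (Real.exp (Real.exp A * t) * (Real.exp A * 1)) (Set.Icc a b) t :=
      ((hasDerivWithinAt_id t _).const_mul (Real.exp A)).exp
    refine ⟨_, ?_, h2.mul h3⟩
    have h4 := (abs_le.1 h1).1
    have h5 := Real.exp_pos (Real.exp A * t)
    have h6 : 0 ≤ (q' + Real.exp A * (1 - ‖z t‖ ^ 2)) * Real.exp (Real.exp A * t) :=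
      mul_nonneg (by linarith) h5.le
    linarith
  apply monotoneOn_of_deriv_nonneg (convex_Icc a b)
  · intro t ht
    obtain ⟨d, -, h2⟩ := hd t ht
    exact h2.continuousWithinAt
  · intro t ht
    rw [interior_Icc] at ht
    obtain ⟨d, -, h2⟩ := hd t (Set.Ioo_subset_Icc_self ht)
    exact (h2.hasDerivAt (Icc_mem_nhds ht.1 ht.2)).differentiableAt.differentiableWithinAt
  · intro t ht
    rw [interior_Icc] at ht
    obtain ⟨d, h1, h2⟩ := hd t (Set.Ioo_subset_Icc_self ht)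
    rw [(h2.hasDerivAt (Icc_mem_nhds ht.1 ht.2)).deriv]
    exact h1

theorem OdeA_down {u : ℂ → ℝ} {A : ℝ} (M : Met u A) {a b : ℝ} {z : ℝ → ℂ} {θ : ℝ → ℝ}
    (h : IsGeodesicOn u a b z θ) :
    AntitoneOn (fun t => (1 - ‖z t‖ ^ 2) * Real.exp (-(Real.exp A * t))) (Set.Icc a b) := by
  have hd : ∀ t ∈ Set.Icc a b, ∃ d, d ≤ 0 ∧
      HasDerivWithinAt (fun t => (1 - ‖z t‖ ^ 2) * Real.exp (-(Real.exp A * t))) d
        (Set.Icc a b) t := by
    intro t ht
    obtain ⟨q', h1, h2⟩ := OdeA_q M h t ht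
    have h3 : HasDerivWithinAt (fun t : ℝ => Real.exp (-(Real.exp A * t)))
        (Real.exp (-(Real.exp A * t)) * (-(Real.exp A * 1))) (Set.Icc a b) t :=
      (((hasDerivWithinAt_id t _).const_mul (Real.exp A)).neg).exp
    refine ⟨_, ?_, h2.mul h3⟩
    have h4 := (abs_le.1 h1).2
    have h5 := Real.exp_pos (-(Real.exp A * t))
    have h6 : 0 ≤ (Real.exp A * (1 - ‖z t‖ ^ 2) - q') * Real.exp (-(Real.exp A * t)) :=
      mul_nonneg (by linarith) h5.le
    linarith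
  apply antitoneOn_of_deriv_nonpos (convex_Icc a b)
  · intro t ht
    obtain ⟨d, -, h2⟩ := hd t ht
    exact h2.continuousWithinAt
  · intro t ht
    rw [interior_Icc] at ht
    obtain ⟨d, -, h2⟩ := hd t (Set.Ioo_subset_Icc_self ht)
    exact (h2.hasDerivAt (Icc_mem_nhds ht.1 ht.2)).differentiableAt.differentiableWithinAt
  · intro t ht
    rw [interior_Icc] at ht
    obtain ⟨d, h1, h2⟩ := hd t (Set.Ioo_subset_Icc_self ht)
    rw [(h2.hasDerivAt (Icc_mem_nhds ht.1 ht.2)).deriv]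
    exact h1

/-- the lower bound for `q` -/
theorem OdeA_low {u : ℂ → ℝ} {A : ℝ} (M : Met u A) {a b : ℝ} {z : ℝ → ℂ} {θ : ℝ → ℝ}
    (h : IsGeodesicOn u a b z θ) {t0 t : ℝ} (ht0 : t0 ∈ Set.Icc a b) (ht : t ∈ Set.Icc a b) :
    (1 - ‖z t0‖ ^ 2) * Real.exp (-(Real.exp A * |t - t0|)) ≤ 1 - ‖z t‖ ^ 2 := by
  rcases le_total t0 t with hle | hle
  · have h1 := OdeA_up M h ht0 ht hle
    simp only at h1
    rw [abs_of_nonneg (sub_nonneg.2 hle)]
    have h2 := mul_le_mul_of_nonneg_right h1 (Real.exp_pos (-(Real.exp A * t))).le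
    rw [mul_assoc, mul_assoc, ← Real.exp_add, ← Real.exp_add] at h2
    have e1 : Real.exp A * t0 + -(Real.exp A * t) = -(Real.exp A * (t - t0)) := by ring
    have e2 : Real.exp A * t + -(Real.exp A * t) = 0 := by ring
    rw [e1, e2, Real.exp_zero, mul_one] at h2
    exact h2
  · have h1 := OdeA_down M h ht ht0 hle
    simp only at h1
    rw [abs_of_nonpos (sub_nonpos.2 hle)]
    have h2 := mul_le_mul_of_nonneg_right h1 (Real.exp_pos (Real.exp A * t)).le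
    rw [mul_assoc, mul_assoc, ← Real.exp_add, ← Real.exp_add] at h2
    have e1 : -(Real.exp A * t0) + Real.exp A * t = -(Real.exp A * -(t - t0)) := by ring
    have e2 : -(Real.exp A * t) + Real.exp A * t = 0 := by ring
    rw [e1, e2, Real.exp_zero, mul_one] at h2
    exact h2

/-- Confinement: a geodesic starting (at the parameter `t0`) in `closedBall 0 R` stays for the
time `T` in `closedBall 0 R'`, `R' < 1`.
Proof. `q t = 1 - |z t|²` satisfies `|q'| = 2 |⟨z, z'⟩| ≤ 2 ‖z'‖ = 2 / rho ≤ e^A q` (`rho_lower`),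
so `q t ≥ q t0 * exp (- e^A |t - t0|) ≥ (1 - R²) exp (- e^A T)` (for instance the function
`q t * exp (e^A t)` is nondecreasing and `q t * exp (- e^A t)` is nonincreasing on `[a, b]`). -/
theorem geo_confine {u : ℂ → ℝ} {A : ℝ} (M : Met u A) {R : ℝ} (hR0 : 0 ≤ R) (hR : R < 1) (T : ℝ)
    (hT : 0 ≤ T) : ∃ R', R ≤ R' ∧ R' < 1 ∧ ∀ (a b : ℝ) (z : ℝ → ℂ) (θ : ℝ → ℝ),
      IsGeodesicOn u a b z θ → ∀ t0 ∈ Set.Icc a b, ‖z t0‖ ≤ R → ∀ t ∈ Set.Icc a b,
        |t - t0| ≤ T → ‖z t‖ ≤ R' := by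
  set E : ℝ := Real.exp (-(Real.exp A * T)) with hE
  have hE0 : 0 < E := Real.exp_pos _
  have hE1 : E ≤ 1 := Real.exp_le_one_iff.2 (by have := Real.exp_pos A; nlinarith)
  have hR2 : 0 < 1 - R ^ 2 := by nlinarith
  have hR3 : R ^ 2 ≤ 1 - (1 - R ^ 2) * E := by nlinarith
  have hR4 : 1 - (1 - R ^ 2) * E < 1 := by nlinarith [mul_pos hR2 hE0]
  refine ⟨Real.sqrt (1 - (1 - R ^ 2) * E), Real.le_sqrt_of_sq_le hR3, ?_, ?_⟩
  · rw [Real.sqrt_lt' one_pos]
    linarith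
  intro a b z θ h t0 ht0 hz0 t ht hT'
  have h1 := OdeA_low M h ht0 ht
  apply Real.le_sqrt_of_sq_le
  have h2 : E ≤ Real.exp (-(Real.exp A * |t - t0|)) := by
    rw [hE]
    apply Real.exp_le_exp.2
    have := mul_le_mul_of_nonneg_left hT' (Real.exp_pos A).le
    linarith
  have h3 : 1 - R ^ 2 ≤ 1 - ‖z t0‖ ^ 2 := by nlinarith [norm_nonneg (z t0)]
  have h4 : (1 - R ^ 2) * E ≤ (1 - ‖z t0‖ ^ 2) * Real.exp (-(Real.exp A * |t - t0|)) :=
    mul_le_mul h3 h2 hE0.le (by linarith)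
  linarith

theorem OdeA_kap (u : ℂ → ℝ) (z v : ℂ) :
    kap u z v = dotp (grad u z) (Complex.I * v) / rho u z := by
  unfold kap
  rw [fderiv_phi_eq]

/-- On a compact set the curvature term is bounded: `|kap u z v| ≤ C` for `‖z‖ ≤ R`, `‖v‖ = 1`
(`kap u z v = ⟨grad, I v⟩ / rho`, `grad_continuousOn`, `rho_ge`). -/
theorem kap_bdd {u : ℂ → ℝ} {A : ℝ} (M : Met u A) {R : ℝ} (hR0 : 0 ≤ R) (hR : R < 1) :
    ∃ C, 0 ≤ C ∧ ∀ z v : ℂ, ‖z‖ ≤ R → ‖v‖ = 1 → |kap u z v| ≤ C := by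
  have hsub : Metric.closedBall (0 : ℂ) R ⊆ Disc := fun z hz =>
    OdeA_ball hR (by simpa using hz)
  obtain ⟨G, hG⟩ := (isCompact_closedBall (0 : ℂ) R).exists_bound_of_continuousOn
    ((grad_continuousOn M).mono hsub)
  have hc : 0 < 2 * Real.exp (-A) := by positivity
  have hG0 : 0 ≤ G := (norm_nonneg _).trans (hG 0 (by simpa using hR0))
  refine ⟨G / (2 * Real.exp (-A)), by positivity, ?_⟩
  intro z v hz hv
  have hzD := OdeA_ball hR hz
  have hr := rho_pos u hzD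
  rw [OdeA_kap, abs_div, abs_of_pos hr]
  have h1 := abs_dotp_le (grad u z) (Complex.I * v)
  rw [norm_mul, Complex.norm_I, one_mul, hv, mul_one] at h1
  have h2 := hG z (by simpa using hz)
  exact div_le_div₀ hG0 (h1.trans h2) hc (rho_ge M hzD)

/-- `1 / rho` is Lipschitz on compact sets. -/
theorem OdeA_lip {u : ℂ → ℝ} {A : ℝ} (M : Met u A) {R : ℝ} (hR : R < 1) :
    ∃ K : NNReal, LipschitzOnWith K (fun z => 1 / rho u z) (Metric.closedBall (0 : ℂ) R) := by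
  have hsub : Metric.closedBall (0 : ℂ) R ⊆ Disc := fun z hz =>
    OdeA_ball hR (by simpa using hz)
  have h1 : ContDiffOn ℝ 2 (fun z => 1 / rho u z) (Metric.closedBall (0 : ℂ) R) :=
    contDiffOn_const.div ((rho_contDiffOn M).mono hsub) (fun z hz => (rho_pos u (hsub hz)).ne')
  exact h1.exists_lipschitzOnWith (by norm_num) (convex_closedBall 0 R) (isCompact_closedBall 0 R)

theorem OdeA_lip' {u : ℂ → ℝ} {A : ℝ} (M : Met u A) {R : ℝ} (hR : R < 1) :
    ∃ K : ℝ, 0 ≤ K ∧ ∀ z w : ℂ, ‖z‖ ≤ R → ‖w‖ ≤ R →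
      |1 / rho u z - 1 / rho u w| ≤ K * ‖z - w‖ := by
  obtain ⟨K, hK⟩ := OdeA_lip M hR
  refine ⟨K, K.2, fun z w hz hw => ?_⟩
  have := hK.dist_le_mul z (by simpa using hz) w (by simpa using hw)
  rwa [Real.dist_eq, dist_eq_norm] at this

/-- The first component of the vector field. -/
theorem OdeA_field1 {u : ℂ → ℝ} {A : ℝ} (M : Met u A) {R : ℝ} (hR : R < 1) :
    ∃ K C : ℝ, 0 ≤ K ∧ 0 ≤ C ∧ ∀ (z w : ℂ) (s t : ℝ), ‖z‖ ≤ R → ‖w‖ ≤ R →
      ‖dir s / (rho u z : ℂ) - dir t / (rho u w : ℂ)‖ ≤ K * ‖z - w‖ + C * ‖dir s - dir t‖ := by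
  obtain ⟨K, hK0, hK⟩ := OdeA_lip' M hR
  have hc : 0 < 2 * Real.exp (-A) := by positivity
  refine ⟨K, 1 / (2 * Real.exp (-A)), hK0, by positivity, ?_⟩
  intro z w s t hz hw
  have hzD := OdeA_ball hR hz
  have hr := rho_pos u hzD
  have e : dir s / (rho u z : ℂ) - dir t / (rho u w : ℂ) =
      dir t * ((1 / rho u z - 1 / rho u w : ℝ) : ℂ) + (dir s - dir t) * ((1 / rho u z : ℝ) : ℂ) := by
    push_cast
    ring
  rw [e]
  refine (norm_add_le _ _).trans (add_le_add ?_ ?_)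
  · rw [norm_mul, norm_dir, one_mul, Complex.norm_real, Real.norm_eq_abs]
    exact hK z w hz hw
  · rw [norm_mul, Complex.norm_real, Real.norm_eq_abs, abs_of_pos (by positivity), mul_comm]
    exact mul_le_mul_of_nonneg_right (one_div_le_one_div_of_le hc (rho_ge M hzD)) (norm_nonneg _)

/-- Second order estimate, uniform on compact sets, on both sides of `t0`:
`‖z t - z t0 - (t - t0) dir (θ t0) / rho (z t0)‖ ≤ C (t - t0)²` and
`‖dir (θ t) - dir (θ t0)‖ ≤ C |t - t0|` for `|t - t0| ≤ 1`.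
Proof: `geo_confine` with `T = 1` gives a compact set; there `|θ'| ≤ C1` (`kap_bdd`), so
`‖dir (θ t) - dir (θ t0)‖ ≤ C1 |t - t0|` (`dir_lip`), and `1 / rho` is Lipschitz on the compact
convex set (it is `C¹`), `‖z'‖ ≤ 1 / rho ≤ C2`, so `z' = dir θ / rho` differs from its value at
`t0` by at most `C3 |t - t0|`; integrate (mean value inequality). -/
theorem geo_second {u : ℂ → ℝ} {A : ℝ} (M : Met u A) {R : ℝ} (hR0 : 0 ≤ R) (hR : R < 1) :
    ∃ C, 0 < C ∧ ∀ (a b : ℝ) (z : ℝ → ℂ) (θ : ℝ → ℝ), IsGeodesicOn u a b z θ →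
      ∀ t0 ∈ Set.Icc a b, ‖z t0‖ ≤ R → ∀ t ∈ Set.Icc a b, |t - t0| ≤ 1 →
        ‖z t - z t0 - ((t - t0 : ℝ) : ℂ) * (dir (θ t0) / (rho u (z t0) : ℂ))‖ ≤ C * (t - t0) ^ 2 ∧
        ‖dir (θ t) - dir (θ t0)‖ ≤ C * |t - t0| := by
  obtain ⟨R', hRR', hR'1, hconf⟩ := geo_confine M hR0 hR 1 zero_le_one
  obtain ⟨C1, hC1, hkap⟩ := kap_bdd M (hR0.trans hRR') hR'1
  obtain ⟨K, C2, hK0, hC2, hf⟩ := OdeA_field1 M hR'1
  have hc : 0 < 2 * Real.exp (-A) := by positivity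
  set C4 : ℝ := 1 / (2 * Real.exp (-A)) with hC4
  have hC4p : 0 < C4 := by positivity
  refine ⟨C1 + (K * C4 + C2 * C1) + 1, by positivity, ?_⟩
  intro a b z θ h t0 ht0 hz0 t ht ht1
  -- the segment
  have hseg : Set.uIcc t0 t ⊆ Set.Icc a b := Set.uIcc_subset_Icc ht0 ht
  have hdist : ∀ s ∈ Set.uIcc t0 t, |s - t0| ≤ |t - t0| := fun s hs => by
    rcases le_total t0 t with hle | hle
    · rw [Set.uIcc_of_le hle] at hs
      rw [abs_of_nonneg (sub_nonneg.2 hs.1), abs_of_nonneg (sub_nonneg.2 hle)]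
      linarith [hs.2]
    · rw [Set.uIcc_of_ge hle] at hs
      rw [abs_of_nonpos (sub_nonpos.2 hs.2), abs_of_nonpos (sub_nonpos.2 hle)]
      linarith [hs.1]
  have hzR : ∀ s ∈ Set.uIcc t0 t, ‖z s‖ ≤ R' := fun s hs =>
    hconf a b z θ h t0 ht0 hz0 s (hseg hs) ((hdist s hs).trans ht1)
  have hconv : Convex ℝ (Set.uIcc t0 t) := convex_uIcc t0 t
  -- the angle
  have hθ : ∀ s ∈ Set.uIcc t0 t, ‖θ s - θ t0‖ ≤ C1 * ‖s - t0‖ := fun s hs =>
    hconv.norm_image_sub_le_of_norm_hasDerivWithin_le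
      (f' := fun x => kap u (z x) (dir (θ x)))
      (fun x hx => (h x (hseg hx)).2.2.mono hseg)
      (fun x hx => by
        rw [Real.norm_eq_abs]
        exact hkap _ _ (hzR x hx) (norm_dir _)) Set.left_mem_uIcc hs
  have hdir : ∀ s ∈ Set.uIcc t0 t, ‖dir (θ s) - dir (θ t0)‖ ≤ C1 * |s - t0| := fun s hs =>
    (dir_lip _ _).trans (by simpa [Real.norm_eq_abs] using hθ s hs)
  -- the point
  have hz : ∀ s ∈ Set.uIcc t0 t, ‖z s - z t0‖ ≤ C4 * ‖s - t0‖ := fun s hs =>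
    hconv.norm_image_sub_le_of_norm_hasDerivWithin_le
      (f' := fun x => dir (θ x) / (rho u (z x) : ℂ))
      (fun x hx => (h x (hseg hx)).2.1.mono hseg)
      (fun x hx => by
        have hD := OdeA_ball hR'1 (hzR x hx)
        rw [norm_div, norm_dir, Complex.norm_real, Real.norm_of_nonneg (rho_pos u hD).le]
        exact one_div_le_one_div_of_le hc (rho_ge M hD)) Set.left_mem_uIcc hs
  set w : ℂ := dir (θ t0) / (rho u (z t0) : ℂ) with hw
  have hder : ∀ s ∈ Set.uIcc t0 t, HasDerivWithinAt (fun x : ℝ => z x - ((x : ℝ) : ℂ) * w)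
      (dir (θ s) / (rho u (z s) : ℂ) - w) (Set.uIcc t0 t) s := by
    intro s hs
    have h1 := (h s (hseg hs)).2.1.mono hseg
    have h2 : HasDerivWithinAt (fun x : ℝ => ((x : ℝ) : ℂ) * w) w (Set.uIcc t0 t) s := by
      have := (((hasDerivAt_id s).ofReal_comp).mul_const w).hasDerivWithinAt
        (s := Set.uIcc t0 t)
      simpa using this
    exact h1.sub h2
  have hbound : ∀ s ∈ Set.uIcc t0 t, ‖dir (θ s) / (rho u (z s) : ℂ) - w‖ ≤
      (K * C4 + C2 * C1) * |t - t0| := by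
    intro s hs
    have h1 := hf (z s) (z t0) (θ s) (θ t0) (hzR s hs) (hzR t0 Set.left_mem_uIcc)
    have h2 := hz s hs
    have h3 := hdir s hs
    have h4 := hdist s hs
    rw [Real.norm_eq_abs] at h2
    have h5 : K * ‖z s - z t0‖ ≤ K * (C4 * |t - t0|) :=
      mul_le_mul_of_nonneg_left (h2.trans (mul_le_mul_of_nonneg_left h4 hC4p.le)) hK0
    have h6 : C2 * ‖dir (θ s) - dir (θ t0)‖ ≤ C2 * (C1 * |t - t0|) :=
      mul_le_mul_of_nonneg_left (h3.trans (mul_le_mul_of_nonneg_left h4 hC1)) hC2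
    calc _ ≤ K * ‖z s - z t0‖ + C2 * ‖dir (θ s) - dir (θ t0)‖ := h1
      _ ≤ (K * C4 + C2 * C1) * |t - t0| := by linarith
  have hmv := hconv.norm_image_sub_le_of_norm_hasDerivWithin_le hder hbound
    Set.left_mem_uIcc Set.right_mem_uIcc
  have e1 : z t - ((t : ℝ) : ℂ) * w - (z t0 - ((t0 : ℝ) : ℂ) * w) =
      z t - z t0 - ((t - t0 : ℝ) : ℂ) * w := by
    push_cast
    ring
  rw [e1, Real.norm_eq_abs] at hmv
  have e2 : |t - t0| * |t - t0| = (t - t0) ^ 2 := by rw [← sq, sq_abs]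
  constructor
  · calc _ ≤ (K * C4 + C2 * C1) * |t - t0| * |t - t0| := hmv
      _ = (K * C4 + C2 * C1) * (t - t0) ^ 2 := by rw [mul_assoc, e2]
      _ ≤ (C1 + (K * C4 + C2 * C1) + 1) * (t - t0) ^ 2 :=
        mul_le_mul_of_nonneg_right (by linarith) (sq_nonneg _)
  · refine (hdir t Set.right_mem_uIcc).trans (mul_le_mul_of_nonneg_right ?_ (abs_nonneg _))
    have : 0 ≤ K * C4 + C2 * C1 := by positivity
    linarith

/-- The geodesic vector field on `ℂ × ℝ` is Lipschitz on `closedBall 0 R × ℝ`.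
(It is `C¹` on `Disc × ℝ`: `(z, θ) ↦ (dir θ / rho z, ⟨grad z, I dir θ⟩ / rho z)`, where `grad` is
`C¹` because `phi` is `C²`. On the compact convex set `closedBall 0 R × [0, 4π]` it is Lipschitz
(`ContDiffOn.exists_lipschitzOnWith` or bounded derivative); it is `2π`-periodic in `θ`, and for
`|θ - θ'| ≥ 2π` use that it is bounded. Alternatively estimate directly:
`‖dir θ / rho z - dir θ' / rho z'‖ ≤ |θ - θ'| / rho z + |1 / rho z - 1 / rho z'|` and
similarly for the second component, with `1 / rho` and `grad / rho` Lipschitz on the compact convex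
set `closedBall 0 R`.) -/
theorem field_lipschitz {u : ℂ → ℝ} {A : ℝ} (M : Met u A) {R : ℝ} (hR0 : 0 ≤ R) (hR : R < 1) :
    ∃ K : NNReal, LipschitzOnWith K
      (fun x : ℂ × ℝ => (dir x.2 / (rho u x.1 : ℂ), kap u x.1 (dir x.2)))
      (Metric.closedBall (0 : ℂ) R ×ˢ Set.univ) := by
  have hsub : Metric.closedBall (0 : ℂ) R ⊆ Disc := fun z hz =>
    OdeA_ball hR (by simpa using hz)
  obtain ⟨K, C, hK0, hC0, hf⟩ := OdeA_field1 M hR
  -- the function `grad / rho`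
  have hg1 : ContDiffOn ℝ 1 (grad u) Disc := by
    have h1 : ContDiffOn ℝ 1 (fderiv ℝ (phi u)) Disc :=
      (phi_contDiffOn M).fderiv_of_isOpen Metric.isOpen_ball (by norm_num)
    have h2 : grad u = fun z => ((fderiv ℝ (phi u) z 1 : ℝ) : ℂ) +
        ((fderiv ℝ (phi u) z Complex.I : ℝ) : ℂ) * Complex.I := by
      funext z
      unfold grad
      apply Complex.ext <;> simp
    rw [h2]
    have h3 : ContDiffOn ℝ 1 (fun z => fderiv ℝ (phi u) z 1) Disc :=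
      h1.clm_apply contDiffOn_const
    have h4 : ContDiffOn ℝ 1 (fun z => fderiv ℝ (phi u) z Complex.I) Disc :=
      h1.clm_apply contDiffOn_const
    exact (Complex.ofRealCLM.contDiff.comp_contDiffOn h3).add
      ((Complex.ofRealCLM.contDiff.comp_contDiffOn h4).mul contDiffOn_const)
  have hg2 : ContDiffOn ℝ 1 (fun z => grad u z * ((1 / rho u z : ℝ) : ℂ))
      (Metric.closedBall (0 : ℂ) R) := by
    refine (hg1.mono hsub).mul (Complex.ofRealCLM.contDiff.comp_contDiffOn ?_)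
    exact contDiffOn_const.div (((rho_contDiffOn M).mono hsub).of_le (by norm_num))
      (fun z hz => (rho_pos u (hsub hz)).ne')
  obtain ⟨K2, hK2⟩ := hg2.exists_lipschitzOnWith (by norm_num) (convex_closedBall 0 R)
    (isCompact_closedBall 0 R)
  obtain ⟨G, hG⟩ := (isCompact_closedBall (0 : ℂ) R).exists_bound_of_continuousOn hg2.continuousOn
  have hG0 : 0 ≤ G := (norm_nonneg _).trans (hG 0 (by simpa using hR0))
  have hkap : ∀ z v : ℂ, kap u z v = dotp (grad u z * ((1 / rho u z : ℝ) : ℂ)) (Complex.I * v) := by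
    intro z v
    rw [OdeA_kap, mul_comm (grad u z), dotp_smul_left]
    ring
  refine ⟨Real.toNNReal (K + C + K2 + G), LipschitzOnWith.of_dist_le_mul ?_⟩
  rintro ⟨z, s⟩ hx ⟨w, t⟩ hy
  have hz : ‖z‖ ≤ R := by simpa using hx.1
  have hw : ‖w‖ ≤ R := by simpa using hy.1
  have hzm : z ∈ Metric.closedBall (0 : ℂ) R := by simpa using hz
  have hwm : w ∈ Metric.closedBall (0 : ℂ) R := by simpa using hw
  rw [Real.coe_toNNReal _ (by positivity)]
  set D := dist ((z, s) : ℂ × ℝ) (w, t) with hD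
  have hD1 : ‖z - w‖ ≤ D := by
    rw [hD, Prod.dist_eq, ← dist_eq_norm]; exact le_max_left _ _
  have hD2 : |s - t| ≤ D := by
    rw [hD, Prod.dist_eq, ← Real.dist_eq]; exact le_max_right _ _
  have hD0 : 0 ≤ D := dist_nonneg
  have hds := (dir_lip s t).trans hD2
  rw [Prod.dist_eq, max_le_iff]
  constructor
  · rw [dist_eq_norm]
    have h1 := hf z w s t hz hw
    have h2 := mul_le_mul_of_nonneg_left hD1 hK0
    have h3 := mul_le_mul_of_nonneg_left hds hC0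
    have h4 : 0 ≤ ((K2 : ℝ) + G) * D := by positivity
    calc _ ≤ K * ‖z - w‖ + C * ‖dir s - dir t‖ := h1
      _ ≤ (K + C + K2 + G) * D := by linarith
  · rw [Real.dist_eq]
    simp only [hkap]
    have e : dotp (grad u z * ((1 / rho u z : ℝ) : ℂ)) (Complex.I * dir s) -
        dotp (grad u w * ((1 / rho u w : ℝ) : ℂ)) (Complex.I * dir t) =
        dotp (grad u z * ((1 / rho u z : ℝ) : ℂ) - grad u w * ((1 / rho u w : ℝ) : ℂ))
          (Complex.I * dir t) +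
        dotp (grad u z * ((1 / rho u z : ℝ) : ℂ)) (Complex.I * (dir s - dir t)) := by
      rw [dotp_sub_left, mul_sub, dotp_sub_right]
      ring
    rw [e]
    have h1 := abs_dotp_le (grad u z * ((1 / rho u z : ℝ) : ℂ) -
      grad u w * ((1 / rho u w : ℝ) : ℂ)) (Complex.I * dir t)
    have h2 := abs_dotp_le (grad u z * ((1 / rho u z : ℝ) : ℂ)) (Complex.I * (dir s - dir t))
    rw [norm_mul Complex.I, Complex.norm_I, one_mul] at h1 h2
    rw [norm_dir, mul_one] at h1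
    have h3 := hK2.dist_le_mul z hzm w hwm
    rw [dist_eq_norm, dist_eq_norm] at h3
    have h4 := hG z hzm
    have h5 : ‖grad u z * ((1 / rho u z : ℝ) : ℂ)‖ * ‖dir s - dir t‖ ≤ G * D :=
      mul_le_mul h4 hds (norm_nonneg _) hG0
    have h6 : (K2 : ℝ) * ‖z - w‖ ≤ K2 * D := mul_le_mul_of_nonneg_left hD1 K2.2
    have h7 : 0 ≤ (K + C) * D := by positivity
    calc _ ≤ _ := abs_add_le _ _
      _ ≤ K2 * D + G * D := add_le_add (h1.trans (h3.trans h6)) (h2.trans h5)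
      _ ≤ (K + C + K2 + G) * D := by linarith

end Pool.Agent.H.MP_bfbbee_an
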