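import Mathlib
import Pool.Agent.H.MP_bfbbee_an.OdeA

/-!
# Stability and uniqueness of geodesics
-/

namespace Pool.Agent.H.MP_bfbbee_an

open Filter Topology MeasureTheory

theorem OdeB_restrict {u : ℂ → ℝ} {a b : ℝ} {z : ℝ → ℂ} {θ : ℝ → ℝ}
    (h : IsGeodesicOn u a b z θ) {t : ℝ} (ht : t ∈ Set.Ico a b) :
    HasDerivWithinAt (fun s => (z s, θ s))
      (dir (θ t) / (rho u (z t) : ℂ), kap u (z t) (dir (θ t))) (Set.Ici t) t := by
  obtain ⟨-, h1, h2⟩ := h t ⟨ht.1, ht.2.le⟩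
  have h3 := h1.prodMk h2
  have h4 : HasDerivWithinAt (fun s => (z s, θ s))
      (dir (θ t) / (rho u (z t) : ℂ), kap u (z t) (dir (θ t))) (Set.Icc t b) t :=
    h3.mono (Set.Icc_subset_Icc_left ht.1)
  exact h4.mono_of_mem_nhdsWithin (Icc_mem_nhdsGE ht.2)

theorem OdeB_cont {u : ℂ → ℝ} {a b : ℝ} {z : ℝ → ℂ} {θ : ℝ → ℝ}
    (h : IsGeodesicOn u a b z θ) : ContinuousOn (fun s => (z s, θ s)) (Set.Icc a b) := by
  intro t ht
  obtain ⟨-, h1, h2⟩ := h t ht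
  exact h1.continuousWithinAt.prodMk h2.continuousWithinAt

/-- Stability on compact sets (Gronwall). Proof: both geodesics stay in `closedBall 0 R'` for the
time `T` (`geo_confine`), where the vector field is Lipschitz with constant `K`
(`field_lipschitz`); `dist_le_of_trajectories_ODE_of_mem` gives
`dist ≤ exp (K t) * dist` in the sup distance of `ℂ × ℝ`; take `Λ = 2 exp (K T)`. (The Mathlib
theorem uses derivatives within `Ici`; `HasDerivWithinAt` on `Icc 0 T` at `t < T` gives the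
derivative within `Ici t`.) -/
theorem geo_gronwall {u : ℂ → ℝ} {A : ℝ} (M : Met u A) {R : ℝ} (hR0 : 0 ≤ R) (hR : R < 1) {T : ℝ}
    (hT : 0 ≤ T) : ∃ Λ, 1 ≤ Λ ∧ ∀ (z1 z2 : ℝ → ℂ) (θ1 θ2 : ℝ → ℝ),
      IsGeodesicOn u 0 T z1 θ1 → IsGeodesicOn u 0 T z2 θ2 → ‖z1 0‖ ≤ R → ‖z2 0‖ ≤ R →
      ∀ t ∈ Set.Icc 0 T, ‖z1 t - z2 t‖ + |θ1 t - θ2 t| ≤
        Λ * (‖z1 0 - z2 0‖ + |θ1 0 - θ2 0|) := by
  obtain ⟨R', hRR', hR'1, hconf⟩ := geo_confine M hR0 hR T hT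
  obtain ⟨K, hK⟩ := field_lipschitz M (hR0.trans hRR') hR'1
  refine ⟨2 * Real.exp (K * T), ?_, ?_⟩
  · have h1 : 0 ≤ (K : ℝ) * T := mul_nonneg K.2 hT
    have h2 := Real.one_le_exp h1
    linarith
  intro z1 z2 θ1 θ2 h1 h2 hz1 hz2 t ht
  have h00 : (0 : ℝ) ∈ Set.Icc 0 T := ⟨le_rfl, hT⟩
  have hc1 : ∀ s ∈ Set.Icc 0 T, ‖z1 s‖ ≤ R' := fun s hs =>
    hconf 0 T z1 θ1 h1 0 h00 hz1 s hs (by rw [sub_zero, abs_of_nonneg hs.1]; exact hs.2)
  have hc2 : ∀ s ∈ Set.Icc 0 T, ‖z2 s‖ ≤ R' := fun s hs =>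
    hconf 0 T z2 θ2 h2 0 h00 hz2 s hs (by rw [sub_zero, abs_of_nonneg hs.1]; exact hs.2)
  have hg := dist_le_of_trajectories_ODE_of_mem
    (v := fun _ (x : ℂ × ℝ) => (dir x.2 / (rho u x.1 : ℂ), kap u x.1 (dir x.2)))
    (s := fun _ => Metric.closedBall (0 : ℂ) R' ×ˢ Set.univ) (K := K)
    (f := fun s => (z1 s, θ1 s)) (g := fun s => (z2 s, θ2 s)) (a := 0) (b := T)
    (δ := ‖z1 0 - z2 0‖ + |θ1 0 - θ2 0|)
    (fun s _ => hK) (OdeB_cont h1) (fun s hs => OdeB_restrict h1 hs)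
    (fun s hs => ⟨by simpa using hc1 s ⟨hs.1, hs.2.le⟩, Set.mem_univ _⟩)
    (OdeB_cont h2) (fun s hs => OdeB_restrict h2 hs)
    (fun s hs => ⟨by simpa using hc2 s ⟨hs.1, hs.2.le⟩, Set.mem_univ _⟩)
    (by
      rw [Prod.dist_eq, max_le_iff, dist_eq_norm, dist_eq_norm, Real.norm_eq_abs]
      have e1 := norm_nonneg (z1 0 - z2 0)
      have e2 := abs_nonneg (θ1 0 - θ2 0)
      exact ⟨by simpa using e2, by simpa using e1⟩) t ht
  rw [Prod.dist_eq, max_le_iff, dist_eq_norm, dist_eq_norm, Real.norm_eq_abs] at hg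
  obtain ⟨g1, g2⟩ := hg
  simp only [sub_zero] at g1 g2
  have hδ : 0 ≤ ‖z1 0 - z2 0‖ + |θ1 0 - θ2 0| := by positivity
  have hexp : Real.exp (K * t) ≤ Real.exp (K * T) :=
    Real.exp_le_exp.2 (mul_le_mul_of_nonneg_left ht.2 K.2)
  have h5 := mul_le_mul_of_nonneg_left hexp hδ
  calc ‖z1 t - z2 t‖ + |θ1 t - θ2 t| ≤ (‖z1 0 - z2 0‖ + |θ1 0 - θ2 0|) * Real.exp (K * t) +
        (‖z1 0 - z2 0‖ + |θ1 0 - θ2 0|) * Real.exp (K * t) := add_le_add g1 g2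
    _ ≤ 2 * Real.exp (K * T) * (‖z1 0 - z2 0‖ + |θ1 0 - θ2 0|) := by linarith

/-- Adding a multiple of `2π` to the angle gives a geodesic (`dir` does not change). -/
theorem geo_add_int {u : ℂ → ℝ} {a b : ℝ} {z : ℝ → ℂ} {θ : ℝ → ℝ}
    (h : IsGeodesicOn u a b z θ) (k : ℤ) :
    IsGeodesicOn u a b z (fun t => θ t + 2 * Real.pi * k) := by
  have hd : ∀ t, dir (θ t + 2 * Real.pi * k) = dir (θ t) := fun t =>
    ((dir_eq_iff (θ t) _).2 ⟨k, rfl⟩).symm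
  intro t ht
  obtain ⟨h1, h2, h3⟩ := h t ht
  refine ⟨h1, ?_, ?_⟩
  · simp only [hd]
    exact h2
  · simp only [hd]
    exact h3.add_const _

/-- Uniqueness of geodesics: same starting point and direction (`geo_add_int`, `dir_eq_iff`,
`geo_gronwall`). -/
theorem geo_unique {u : ℂ → ℝ} {A : ℝ} (M : Met u A) {T : ℝ} {z1 z2 : ℝ → ℂ}
    {θ1 θ2 : ℝ → ℝ} (h1 : IsGeodesicOn u 0 T z1 θ1) (h2 : IsGeodesicOn u 0 T z2 θ2)
    (hz : z1 0 = z2 0) (hd : dir (θ1 0) = dir (θ2 0)) :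
    ∀ t ∈ Set.Icc 0 T, z1 t = z2 t ∧ dir (θ1 t) = dir (θ2 t) := by
  obtain ⟨k, hk⟩ := (dir_eq_iff _ _).1 hd
  intro t ht
  have hT : 0 ≤ T := ht.1.trans ht.2
  have hz0 : z1 0 ∈ Disc := (h1 0 ⟨le_rfl, hT⟩).1
  have hR : ‖z1 0‖ < 1 := by simpa [Disc] using hz0
  obtain ⟨Λ, hΛ, hg⟩ := geo_gronwall M (norm_nonneg (z1 0)) hR hT
  have h1' := geo_add_int h1 k
  have h4 := hg z1 z2 _ θ2 h1' h2 le_rfl (by rw [← hz]) t ht
  rw [hz, sub_self, norm_zero, zero_add, hk, sub_self, abs_zero, mul_zero] at h4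
  have h5 := norm_nonneg (z1 t - z2 t)
  have h6 := abs_nonneg (θ1 t + 2 * Real.pi * k - θ2 t)
  have h7 : ‖z1 t - z2 t‖ = 0 := by linarith
  have h8 : |θ1 t + 2 * Real.pi * k - θ2 t| = 0 := by linarith
  refine ⟨sub_eq_zero.1 (norm_eq_zero.1 h7), ?_⟩
  rw [dir_eq_iff]
  exact ⟨k, (sub_eq_zero.1 (abs_eq_zero.1 h8)).symm⟩

/-- Convergence of directions. Let `(z_n, θ_n)` be geodesics on `[a, b]`, `a < b`, eventually along
a filter `l`, with `z_n t → z t` for every `t` in `[a, b]`, where `(z, θ)` is a geodesic on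
`[a, b]`, and let `t0` be in `[a, b]`. Then `dir (θ_n t0) → dir (θ t0)`.
Proof. Eventually `‖z_n t0‖ ≤ R` for some `R < 1` with `‖z t0‖ < R`. By `geo_second`, for `t` in
`[a, b]`, `0 < |t - t0| ≤ 1`: `‖z_n t - z_n t0 - (t - t0) dir (θ_n t0) / rho (z_n t0)‖
≤ C (t - t0)²` and the same for `z, θ`. Subtract:
`|t - t0| ‖dir (θ_n t0) / rho (z_n t0) - dir (θ t0) / rho (z t0)‖ ≤ 2 C (t - t0)² + ‖z_n t - z t‖ +
‖z_n t0 - z t0‖`, so the limsup of `‖dir (θ_n t0) / rho (z_n t0) - dir (θ t0) / rho (z t0)‖` is at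
most `2 C |t - t0|` for every such `t`; hence it converges to zero, and `rho (z_n t0) → rho (z t0)`
by continuity. -/
theorem dir_tendsto {u : ℂ → ℝ} {A : ℝ} (M : Met u A) {ι : Type*} {l : Filter ι} {a b : ℝ}
    (hab : a < b) {zn : ι → ℝ → ℂ} {θn : ι → ℝ → ℝ} {z : ℝ → ℂ} {θ : ℝ → ℝ}
    (hn : ∀ᶠ n in l, IsGeodesicOn u a b (zn n) (θn n)) (h : IsGeodesicOn u a b z θ)
    (hlim : ∀ t ∈ Set.Icc a b, Tendsto (fun n => zn n t) l (𝓝 (z t))) {t0 : ℝ}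
    (ht0 : t0 ∈ Set.Icc a b) : Tendsto (fun n => dir (θn n t0)) l (𝓝 (dir (θ t0))) := by
  have hzt : z t0 ∈ Disc := (h t0 ht0).1
  have hz1 : ‖z t0‖ < 1 := by simpa [Disc] using hzt
  obtain ⟨R, hR0, hR1⟩ := exists_between hz1
  have hRn : 0 ≤ R := (norm_nonneg _).trans hR0.le
  obtain ⟨C, hC, hsec⟩ := geo_second M hRn hR1
  have hev1 : ∀ᶠ n in l, ‖zn n t0‖ < R :=
    (hlim t0 ht0).norm.eventually (gt_mem_nhds hR0)
  -- the quotient converges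
  have hrho : ContinuousAt (rho u) (z t0) :=
    ((rho_contDiffOn M).continuousOn).continuousAt (Metric.isOpen_ball.mem_nhds hzt)
  have hrt : Tendsto (fun n => (rho u (zn n t0) : ℂ)) l (𝓝 (rho u (z t0) : ℂ)) :=
    (Complex.continuous_ofReal.tendsto _).comp (hrho.tendsto.comp (hlim t0 ht0))
  have hr0 : rho u (z t0) ≠ 0 := (rho_pos u hzt).ne'
  have key : Tendsto (fun n => dir (θn n t0) / (rho u (zn n t0) : ℂ)) l
      (𝓝 (dir (θ t0) / (rho u (z t0) : ℂ))) := by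
    rw [Metric.tendsto_nhds]
    intro ε hε
    -- choose t
    obtain ⟨t, ht, htt, ht1, ht2⟩ : ∃ t ∈ Set.Icc a b, t ≠ t0 ∧ |t - t0| ≤ 1 ∧
        2 * C * |t - t0| < ε / 2 := by
      obtain ⟨d, hd0, hd1, hd2, hd3⟩ : ∃ d : ℝ, 0 < d ∧ d ≤ 1 ∧ d ≤ (b - a) / 2 ∧
          2 * C * d < ε / 2 := by
        refine ⟨min (min 1 ((b - a) / 2)) (ε / (8 * C)), ?_, ?_, ?_, ?_⟩
        · exact lt_min (lt_min one_pos (by linarith)) (by positivity)
        · exact (min_le_left _ _).trans (min_le_left _ _)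
        · exact (min_le_left _ _).trans (min_le_right _ _)
        · have h1 : min (min 1 ((b - a) / 2)) (ε / (8 * C)) ≤ ε / (8 * C) := min_le_right _ _
          calc 2 * C * min (min 1 ((b - a) / 2)) (ε / (8 * C)) ≤ 2 * C * (ε / (8 * C)) :=
                mul_le_mul_of_nonneg_left h1 (by positivity)
            _ = ε / 4 := by field_simp; ring
            _ < ε / 2 := by linarith
      by_cases hs : t0 ≤ (a + b) / 2
      · refine ⟨t0 + d, ⟨by linarith [ht0.1], by linarith⟩, by linarith, ?_, ?_⟩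
        · rw [add_sub_cancel_left, abs_of_pos hd0]; exact hd1
        · rw [add_sub_cancel_left, abs_of_pos hd0]; exact hd3
      · rw [not_le] at hs
        refine ⟨t0 - d, ⟨by linarith, by linarith [ht0.2]⟩, by linarith, ?_, ?_⟩
        · rw [sub_sub_cancel_left, abs_neg, abs_of_pos hd0]; exact hd1
        · rw [sub_sub_cancel_left, abs_neg, abs_of_pos hd0]; exact hd3
    have htpos : 0 < |t - t0| := abs_pos.2 (sub_ne_zero.2 htt)
    have hsum : Tendsto (fun n => ‖zn n t - z t‖ + ‖zn n t0 - z t0‖) l (𝓝 0) := by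
      have e1 := tendsto_iff_norm_sub_tendsto_zero.1 (hlim t ht)
      have e2 := tendsto_iff_norm_sub_tendsto_zero.1 (hlim t0 ht0)
      have := e1.add e2
      rwa [add_zero] at this
    have hev2 : ∀ᶠ n in l, ‖zn n t - z t‖ + ‖zn n t0 - z t0‖ < |t - t0| * (ε / 2) :=
      hsum.eventually (gt_mem_nhds (by positivity))
    filter_upwards [hev1, hev2, hn] with n n1 n2 n3
    have s1 := (hsec a b (zn n) (θn n) n3 t0 ht0 n1.le t ht ht1).1
    have s2 := (hsec a b z θ h t0 ht0 hR0.le t ht ht1).1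
    rw [dist_eq_norm]
    set X := dir (θn n t0) / (rho u (zn n t0) : ℂ) with hX
    set Y := dir (θ t0) / (rho u (z t0) : ℂ) with hY
    have e1 : ((t - t0 : ℝ) : ℂ) * (X - Y) =
        -(zn n t - zn n t0 - ((t - t0 : ℝ) : ℂ) * X) + (z t - z t0 - ((t - t0 : ℝ) : ℂ) * Y) +
          (zn n t - z t) - (zn n t0 - z t0) := by ring
    have e2 : |t - t0| * ‖X - Y‖ ≤ C * (t - t0) ^ 2 + C * (t - t0) ^ 2 +
        ‖zn n t - z t‖ + ‖zn n t0 - z t0‖ := by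
      have e3 : ‖((t - t0 : ℝ) : ℂ) * (X - Y)‖ = |t - t0| * ‖X - Y‖ := by
        rw [norm_mul, Complex.norm_real, Real.norm_eq_abs]
      rw [← e3, e1]
      refine (norm_sub_le _ _).trans (add_le_add ((norm_add_le _ _).trans
        (add_le_add ((norm_add_le _ _).trans (add_le_add ?_ s2)) le_rfl)) le_rfl)
      rw [norm_neg]
      exact s1
    have e4 : (t - t0) ^ 2 = |t - t0| * |t - t0| := by rw [← sq, sq_abs]
    rw [e4] at e2
    have e5 : |t - t0| * ‖X - Y‖ < |t - t0| * ε := by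
      have e6 : |t - t0| * (2 * C * |t - t0|) < |t - t0| * (ε / 2) :=
        mul_lt_mul_of_pos_left ht2 htpos
      nlinarith
    exact lt_of_mul_lt_mul_left e5 htpos.le
  have h9 := key.mul hrt
  have hr0' : (rho u (z t0) : ℂ) ≠ 0 := by exact_mod_cast hr0
  rw [div_mul_cancel₀ _ hr0'] at h9
  refine h9.congr' ?_
  filter_upwards [hn] with n n3
  have h10 : (rho u (zn n t0) : ℂ) ≠ 0 := by
    exact_mod_cast (rho_pos u (n3 t0 ht0).1).ne'
  rw [div_mul_cancel₀ _ h10]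

end Pool.Agent.H.MP_bfbbee_an
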