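import Mathlib
import Pool.Agent.H.MP_bfbbee_an.Decay
import Pool.Agent.H.MP_bfbbee_an.OdeB

/-!
# Limits of minimal curves along the ultrafilter
-/

namespace Pool.Agent.H.MP_bfbbee_an

open Filter Topology

/-- a radius bounding the starting points -/
private theorem limA_radius {xn : ℕ → ℂ} {x : ℂ} (hx : x ∈ Disc)
    (hxn : Tendsto xn ul (𝓝 x)) : ∃ R : ℝ, 0 ≤ R ∧ R < 1 ∧ ∀ᶠ n in ul, ‖xn n‖ ≤ R := by
  have hx1 : ‖x‖ < 1 := by simpa [Disc] using hx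
  refine ⟨(1 + ‖x‖) / 2, by have := norm_nonneg x; linarith, by linarith, ?_⟩
  have h1 : Tendsto (fun n => ‖xn n‖) ul (𝓝 ‖x‖) := hxn.norm
  have h2 : ‖x‖ < (1 + ‖x‖) / 2 := by linarith
  exact (h1.eventually (gt_mem_nhds h2)).mono fun n hn => hn.le

private theorem limA_tendsto {r : ℝ → ℂ} {ξ : ℂ} {A C : ℝ}
    (key : ∀ s, 0 ≤ s → ‖r s - ξ‖ ≤ C * Real.exp (-(Real.exp (-A) * s))) :
    Tendsto r atTop (𝓝 ξ) := by
  rw [tendsto_iff_norm_sub_tendsto_zero]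
  have h1 : Tendsto (fun s : ℝ => C * Real.exp (-(Real.exp (-A) * s))) atTop (𝓝 0) := by
    have h2 : Tendsto (fun s : ℝ => Real.exp (-A) * s) atTop atTop :=
      tendsto_id.const_mul_atTop (Real.exp_pos _)
    have h3 := (Real.tendsto_exp_neg_atTop_nhds_zero.comp h2).const_mul C
    rw [mul_zero] at h3
    exact h3
  refine squeeze_zero' (Eventually.of_forall fun s => norm_nonneg _) ?_ h1
  filter_upwards [eventually_ge_atTop 0] with s hs using key s hs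

/-- Limits of minimal segments starting near `x`: Let `x_n → x` in the disc, and let `(σ_n, θ_n)` be
minimal geodesics on `[0, L_n]` with `σ_n 0 = x_n`, where `L_n → ∞`. Then there is a minimal ray
`(r, θ)` from `x` with `σ_n t → r t` for every `t ≥ 0` and `dir (θ_n 0) → dir (θ 0)` (limits along
`ul`).
Proof. Eventually `‖x_n‖ ≤ R < 1`. For `t ≥ 0` eventually `t ≤ L_n` and
`dst (x_n) (σ_n t) = t`, so `σ_n t` is in a fixed compact subset of the disc (`confine`) and has an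
`ul`-limit `r t` in the disc (`exists_ul_lim`; choice). By `dst_tendsto`, `dst (r s) (r t) = |s - t|`.
`ray_geodesic` gives `θ`; `dir_tendsto` on `[0, 1]` at `t0 = 0` gives the convergence of the
directions. -/
theorem seg_limit {u : ℂ → ℝ} {A : ℝ} (M : Met u A) {xn : ℕ → ℂ} {x : ℂ} (hx : x ∈ Disc)
    (hxn : Tendsto xn ul (𝓝 x)) {σn : ℕ → ℝ → ℂ} {θn : ℕ → ℝ → ℝ} {Ln : ℕ → ℝ}
    (hL : Tendsto Ln ul atTop)
    (hiso : ∀ᶠ n in ul, IsoOn u 0 (Ln n) (σn n) ∧ IsGeodesicOn u 0 (Ln n) (σn n) (θn n) ∧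
      σn n 0 = xn n) :
    ∃ r θ, GRay u r θ ∧ r 0 = x ∧ (∀ t, 0 ≤ t → Tendsto (fun n => σn n t) ul (𝓝 (r t))) ∧
      Tendsto (fun n => dir (θn n 0)) ul (𝓝 (dir (θ 0))) := by
  obtain ⟨R, hR0, hR1, hR⟩ := limA_radius hx hxn
  have hlim : ∀ t : ℝ, ∃ y : ℂ, 0 ≤ t → y ∈ Disc ∧ Tendsto (fun n => σn n t) ul (𝓝 y) := by
    intro t
    by_cases ht : 0 ≤ t
    · obtain ⟨R', -, hR'1, hR'⟩ := confine M hR0 hR1 t
      have h1 : ∀ᶠ n in ul, σn n t ∈ Metric.closedBall (0 : ℂ) R' := by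
        filter_upwards [hR, hiso, hL.eventually_ge_atTop t] with n h2 h3 h4
        obtain ⟨h5, -, h7⟩ := h3
        have h0 : (0 : ℝ) ∈ Set.Icc 0 (Ln n) := ⟨le_rfl, ht.trans h4⟩
        have ht' : t ∈ Set.Icc 0 (Ln n) := ⟨ht, h4⟩
        rw [mem_closedBall_zero_iff]
        refine hR' (xn n) h2 _ (h5.1 t ht') ?_
        have h8 := h5.2 0 h0 t ht'
        rw [h7, zero_sub, abs_neg, abs_of_nonneg ht] at h8
        exact h8.le
      obtain ⟨y, hy, hy'⟩ := exists_ul_lim (isCompact_closedBall (0 : ℂ) R') h1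
      refine ⟨y, fun _ => ⟨?_, hy'⟩⟩
      rw [mem_closedBall_zero_iff] at hy
      rw [Disc, mem_ball_zero_iff]
      exact lt_of_le_of_lt hy hR'1
    · exact ⟨0, fun h => absurd h ht⟩
  choose r hr using hlim
  have hmem : ∀ t, 0 ≤ t → r t ∈ Disc := fun t ht => (hr t ht).1
  have hconv : ∀ t, 0 ≤ t → Tendsto (fun n => σn n t) ul (𝓝 (r t)) := fun t ht => (hr t ht).2
  have hisor : ∀ s, 0 ≤ s → ∀ t, 0 ≤ t → dst u (r s) (r t) = |s - t| := by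
    intro s hs t ht
    have h1 := dst_tendsto M (hmem s hs) (hmem t ht) (hconv s hs) (hconv t ht)
    have h2 : (fun n => dst u (σn n s) (σn n t)) =ᶠ[ul] fun _ => |s - t| := by
      filter_upwards [hiso, hL.eventually_ge_atTop s, hL.eventually_ge_atTop t] with n h3 h4 h5
      exact h3.1.2 s ⟨hs, h4⟩ t ⟨ht, h5⟩
    exact tendsto_nhds_unique h1 (tendsto_const_nhds.congr' h2.symm)
  obtain ⟨θ, hθ⟩ := ray_geodesic M hmem hisor
  refine ⟨r, θ, hθ, ?_, hconv, ?_⟩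
  · refine tendsto_nhds_unique (hconv 0 le_rfl) ?_
    refine hxn.congr' ?_
    filter_upwards [hiso] with n hn
    exact hn.2.2.symm
  · have h1 : ∀ᶠ n in ul, IsGeodesicOn u 0 1 (σn n) (θn n) := by
      filter_upwards [hiso, hL.eventually_ge_atTop 1] with n h3 h4
      intro t ht
      have hsub : Set.Icc (0 : ℝ) 1 ⊆ Set.Icc 0 (Ln n) := Set.Icc_subset_Icc le_rfl h4
      obtain ⟨h5, h6, h7⟩ := h3.2.1 t (hsub ht)
      exact ⟨h5, h6.mono hsub, h7.mono hsub⟩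
    exact dir_tendsto M zero_lt_one h1 (hθ.geo 1 zero_lt_one) (fun t ht => hconv t ht.1)
      ⟨le_rfl, zero_le_one⟩

/-- The same for rays instead of long segments: let `(r_n, θ_n)` be minimal rays with
`r_n 0 = x_n → x`. (Apply `seg_limit` with `L_n = n + 1`.) -/
theorem ray_limit {u : ℂ → ℝ} {A : ℝ} (M : Met u A) {xn : ℕ → ℂ} {x : ℂ} (hx : x ∈ Disc)
    (hxn : Tendsto xn ul (𝓝 x)) {rn : ℕ → ℝ → ℂ} {θn : ℕ → ℝ → ℝ}
    (hr : ∀ᶠ n in ul, GRay u (rn n) (θn n) ∧ rn n 0 = xn n) :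
    ∃ r θ, GRay u r θ ∧ r 0 = x ∧ (∀ t, 0 ≤ t → Tendsto (fun n => rn n t) ul (𝓝 (r t))) ∧
      Tendsto (fun n => dir (θn n 0)) ul (𝓝 (dir (θ 0))) := by
  have hL : Tendsto (fun n : ℕ => (n : ℝ) + 1) ul atTop :=
    (tendsto_atTop_add_const_right _ 1 tendsto_natCast_atTop_atTop).mono_left ul_le
  refine seg_limit M hx hxn hL ?_
  filter_upwards [hr] with n hn
  have hpos : (0 : ℝ) < (n : ℝ) + 1 := by positivity
  refine ⟨⟨fun t ht => hn.1.mem t ht.1, fun s hs t ht => hn.1.iso s hs.1 t ht.1⟩,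
    hn.1.geo _ hpos, hn.2⟩

/-- End points of limits of segments: in the situation of `seg_limit` with `σ_n (L_n) → ξ`, the
limit ray ends at `ξ`. Proof: for fixed `s`, eventually `s ≤ L_n` and
`‖σ_n s - σ_n (L_n)‖ ≤ C exp (- e^(-A) s)` (`seg_decay`, eventually `‖x_n‖ ≤ R`); in the limit
`‖r s - ξ‖ ≤ C exp (- e^(-A) s)`. -/
theorem seg_limit_end {u : ℂ → ℝ} {A : ℝ} (M : Met u A) {xn : ℕ → ℂ} {x : ℂ} (hx : x ∈ Disc)
    (hxn : Tendsto xn ul (𝓝 x)) {σn : ℕ → ℝ → ℂ} {Ln : ℕ → ℝ}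
    (hL : Tendsto Ln ul atTop)
    (hiso : ∀ᶠ n in ul, IsoOn u 0 (Ln n) (σn n) ∧ σn n 0 = xn n) {r : ℝ → ℂ}
    (hr : ∀ t, 0 ≤ t → Tendsto (fun n => σn n t) ul (𝓝 (r t))) {ξ : ℂ}
    (hξ : Tendsto (fun n => σn n (Ln n)) ul (𝓝 ξ)) : Tendsto r atTop (𝓝 ξ) := by
  obtain ⟨R, hR0, hR1, hR⟩ := limA_radius hx hxn
  have key : ∀ s, 0 ≤ s → ‖r s - ξ‖ ≤
      8 * Real.exp (2 * A) / (1 - R ^ 2) * Real.exp (-(Real.exp (-A) * s)) := by
    intro s hs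
    have h1 : Tendsto (fun n => ‖σn n s - σn n (Ln n)‖) ul (𝓝 ‖r s - ξ‖) :=
      ((hr s hs).sub hξ).norm
    refine le_of_tendsto h1 ?_
    filter_upwards [hR, hiso, hL.eventually_ge_atTop s] with n h2 h3 h4
    exact seg_decay M hR0 hR1 h3.1 (by rw [h3.2]; exact h2) hs h4 le_rfl
  exact limA_tendsto key

/-- End points of limits of rays: if `r_n → r` pointwise, `r_n 0 = x_n → x` in the disc, `r_n` ends
at `ξ_n` and `ξ_n → ξ`, then `r` ends at `ξ` (`ray_rate`). -/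
theorem ray_limit_end {u : ℂ → ℝ} {A : ℝ} (M : Met u A) {xn : ℕ → ℂ} {x : ℂ} (hx : x ∈ Disc)
    (hxn : Tendsto xn ul (𝓝 x)) {rn : ℕ → ℝ → ℂ} {θn : ℕ → ℝ → ℝ}
    (hrn : ∀ᶠ n in ul, GRay u (rn n) (θn n) ∧ rn n 0 = xn n) {r : ℝ → ℂ}
    (hr : ∀ t, 0 ≤ t → Tendsto (fun n => rn n t) ul (𝓝 (r t))) {ξn : ℕ → ℂ} {ξ : ℂ}
    (hend : ∀ᶠ n in ul, Tendsto (rn n) atTop (𝓝 (ξn n))) (hξ : Tendsto ξn ul (𝓝 ξ)) :
    Tendsto r atTop (𝓝 ξ) := by
  obtain ⟨R, hR0, hR1, hR⟩ := limA_radius hx hxn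
  have key : ∀ s, 0 ≤ s → ‖r s - ξ‖ ≤
      8 * Real.exp (2 * A) / (1 - R ^ 2) * Real.exp (-(Real.exp (-A) * s)) := by
    intro s hs
    have h1 : Tendsto (fun n => ‖rn n s - ξn n‖) ul (𝓝 ‖r s - ξ‖) :=
      ((hr s hs).sub hξ).norm
    refine le_of_tendsto h1 ?_
    filter_upwards [hR, hrn, hend] with n h2 h3 h4
    exact ray_rate M hR0 hR1 h3.1 (by rw [h3.2]; exact h2) h4 hs
  exact limA_tendsto key

private theorem limA_points {ξ : ℂ} (hξ : ‖ξ‖ = 1) : ∃ p : ℕ → ℂ, (∀ n, p n ∈ Disc) ∧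
    Tendsto p atTop (𝓝 ξ) ∧ Tendsto (fun n => Real.log (1 - ‖p n‖ ^ 2)) atTop atBot := by
  have ht : Tendsto (fun n : ℕ => (1 : ℝ) / ((n : ℝ) + 1)) atTop (𝓝 0) :=
    tendsto_one_div_add_atTop_nhds_zero_nat
  have h0 : ∀ n : ℕ, 0 < (1 : ℝ) / ((n : ℝ) + 1) := fun n => by positivity
  have h1 : ∀ n : ℕ, (1 : ℝ) / ((n : ℝ) + 1) ≤ 1 := fun n => by
    rw [div_le_one (by positivity)]
    have : (0 : ℝ) ≤ (n : ℝ) := Nat.cast_nonneg n
    linarith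
  have hn : ∀ n : ℕ, ‖((1 - 1 / ((n : ℝ) + 1) : ℝ) : ℂ) * ξ‖ = 1 - 1 / ((n : ℝ) + 1) := by
    intro n
    rw [norm_mul, hξ, mul_one, Complex.norm_real, Real.norm_of_nonneg (by linarith [h1 n])]
  refine ⟨fun n => ((1 - 1 / ((n : ℝ) + 1) : ℝ) : ℂ) * ξ, fun n => ?_, ?_, ?_⟩
  · show ((1 - 1 / ((n : ℝ) + 1) : ℝ) : ℂ) * ξ ∈ Metric.ball (0 : ℂ) 1
    rw [mem_ball_zero_iff, hn n]
    linarith [h0 n]
  · have h2 : Tendsto (fun n : ℕ => (1 - 1 / ((n : ℝ) + 1) : ℝ)) atTop (𝓝 (1 - 0)) :=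
      tendsto_const_nhds.sub ht
    have h3 : Tendsto (fun n : ℕ => ((1 - 1 / ((n : ℝ) + 1) : ℝ) : ℂ)) atTop
        (𝓝 (((1 - 0 : ℝ)) : ℂ)) := (Complex.continuous_ofReal.tendsto _).comp h2
    have h4 := h3.mul_const ξ
    have h5 : (((1 - 0 : ℝ)) : ℂ) * ξ = ξ := by
      rw [sub_zero, Complex.ofReal_one, one_mul]
    rw [h5] at h4
    exact h4
  · refine Real.tendsto_log_nhdsGT_zero.comp ?_
    rw [tendsto_nhdsWithin_iff]
    constructor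
    · have h2 : Tendsto (fun n : ℕ => 1 - (1 - 1 / ((n : ℝ) + 1)) ^ 2) atTop
          (𝓝 (1 - (1 - 0) ^ 2)) := tendsto_const_nhds.sub ((tendsto_const_nhds.sub ht).pow 2)
      have h3 : (1 : ℝ) - (1 - 0) ^ 2 = 0 := by norm_num
      rw [h3] at h2
      refine h2.congr fun n => ?_
      rw [hn n]
    · refine Eventually.of_forall fun n => ?_
      show 0 < 1 - ‖((1 - 1 / ((n : ℝ) + 1) : ℝ) : ℂ) * ξ‖ ^ 2
      rw [hn n]
      nlinarith [h0 n, h1 n]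

/-- Existence of a minimal ray from every point to every boundary point: take the minimal
segments from `x` to `(1 - 1/(n+1)) ξ` (`exists_seg`, `iso_geodesic`); their lengths tend to
infinity by `dst_ge_log`; `seg_limit`, `seg_limit_end`. -/
theorem exists_ray {u : ℂ → ℝ} {A : ℝ} (M : Met u A) {x ξ : ℂ} (hx : x ∈ Disc) (hξ : ‖ξ‖ = 1) :
    ∃ r θ, GRay u r θ ∧ r 0 = x ∧ Tendsto r atTop (𝓝 ξ) := by
  obtain ⟨p, hp, hpl, hplog⟩ := limA_points hξ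
  choose σ h1 h2 h3 using fun n => exists_seg M hx (hp n)
  have hLa : Tendsto (fun n => dst u x (p n)) atTop atTop := by
    have h4 : Tendsto (fun n => Real.exp (-A) * (Real.log (1 - ‖x‖ ^ 2) -
        Real.log (1 - ‖p n‖ ^ 2))) atTop atTop := by
      refine Tendsto.const_mul_atTop (Real.exp_pos _) ?_
      have h5 := tendsto_neg_atBot_atTop.comp hplog
      exact (tendsto_atTop_add_const_left _ (Real.log (1 - ‖x‖ ^ 2)) h5).congr fun n => by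
        simp [sub_eq_add_neg]
    exact tendsto_atTop_mono (fun n => dst_ge_log M hx (hp n)) h4
  have hL : Tendsto (fun n => dst u x (p n)) ul atTop := hLa.mono_left ul_le
  have hθ : ∀ n, ∃ θ : ℝ → ℝ, 0 < dst u x (p n) → IsGeodesicOn u 0 (dst u x (p n)) (σ n) θ := by
    intro n
    by_cases h : 0 < dst u x (p n)
    · obtain ⟨θ, hθ⟩ := iso_geodesic M h (h1 n)
      exact ⟨θ, fun _ => hθ⟩
    · exact ⟨fun _ => 0, fun h' => absurd h' h⟩
  choose θn hθn using hθ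
  have hc : Tendsto (fun _ : ℕ => x) ul (𝓝 x) := tendsto_const_nhds
  obtain ⟨r, θ, hr, hr0, hrl, -⟩ := seg_limit M hx hc (σn := σ) (θn := θn) hL (by
    filter_upwards [hL.eventually_gt_atTop 0] with n hn
    exact ⟨h1 n, hθn n hn, h2 n⟩)
  refine ⟨r, θ, hr, hr0, ?_⟩
  refine seg_limit_end M hx hc hL (Eventually.of_forall fun n => ⟨h1 n, h2 n⟩) hrl ?_
  refine (hpl.mono_left ul_le).congr fun n => ?_
  exact (h3 n).symm

end Pool.Agent.H.MP_bfbbee_an
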