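import Mathlib
import Pool.Agent.H.MP_bfbbee_an.Base

/-!
# Möbius maps of the disc
-/

namespace Pool.Agent.H.MP_bfbbee_an

open Filter Topology

/-- The denominator does not vanish: `‖1 - conj a z‖ ≥ 1 - ‖a‖ ‖z‖ > 0` for `‖a‖ < 1`,
`‖z‖ ≤ 1`. -/
theorem den_ne {a z : ℂ} (ha : ‖a‖ < 1) (hz : ‖z‖ ≤ 1) : 1 - (starRingEnd ℂ) a * z ≠ 0 := by
  intro h
  have h1 : (starRingEnd ℂ) a * z = 1 := (sub_eq_zero.1 h).symm
  have h2 : ‖a‖ * ‖z‖ = 1 := by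
    have h3 := congrArg norm h1
    rwa [norm_mul, Complex.norm_conj, norm_one] at h3
  have h4 := norm_nonneg a
  nlinarith

theorem mob_aux1 {a : ℂ} (ha : ‖a‖ < 1) : 0 < 1 - ‖a‖ ^ 2 := by
  have h4 := norm_nonneg a
  nlinarith

theorem mob_aux2 {a : ℂ} (ha : ‖a‖ < 1) : ‖1 - ((‖a‖ : ℝ) : ℂ) ^ 2‖ = 1 - ‖a‖ ^ 2 := by
  have h1 : (1 : ℂ) - ((‖a‖ : ℝ) : ℂ) ^ 2 = ((1 - ‖a‖ ^ 2 : ℝ) : ℂ) := by push_cast; ring
  rw [h1, Complex.norm_real, Real.norm_eq_abs, abs_of_pos (mob_aux1 ha)]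

theorem mob_aux3 (a z : ℂ) :
    ‖1 - (starRingEnd ℂ) a * z‖ ^ 2 - ‖z - a‖ ^ 2 = (1 - ‖a‖ ^ 2) * (1 - ‖z‖ ^ 2) := by
  rw [Complex.sq_norm, Complex.sq_norm, Complex.sq_norm, Complex.sq_norm]
  simp only [Complex.normSq_apply, Complex.sub_re, Complex.sub_im, Complex.mul_re, Complex.mul_im,
    Complex.conj_re, Complex.conj_im, Complex.one_re, Complex.one_im]
  ring

theorem mob_aux4 {a : ℂ} (ha : ‖a‖ < 1) : 1 - (starRingEnd ℂ) a * a ≠ 0 := den_ne ha ha.le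

theorem mob_aux5 {w : ℂ} (hw : ‖w‖ = 1) : (starRingEnd ℂ) w * w = 1 := by
  rw [Complex.conj_mul', hw]; norm_num

/-- `‖mobd w a z‖ = (1 - |a|²) / ‖1 - conj a z‖²` (first form). -/
theorem mob_aux6 {w a z : ℂ} (hw : ‖w‖ = 1) (ha : ‖a‖ < 1) :
    ‖mobd w a z‖ = (1 - ‖a‖ ^ 2) / ‖1 - (starRingEnd ℂ) a * z‖ ^ 2 := by
  unfold mobd
  rw [norm_div, norm_mul, norm_pow, hw, one_mul, mob_aux2 ha]

/-- `1 - |mob z|² = (1 - |z|²) ‖mobd z‖`, from the identity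
`|1 - conj a z|² - |z - a|² = (1 - |a|²)(1 - |z|²)`. -/
theorem one_sub_mob {w a z : ℂ} (hw : ‖w‖ = 1) (ha : ‖a‖ < 1) (hz : ‖z‖ ≤ 1) :
    1 - ‖mob w a z‖ ^ 2 = (1 - ‖z‖ ^ 2) * ‖mobd w a z‖ := by
  have hD : ‖1 - (starRingEnd ℂ) a * z‖ ^ 2 ≠ 0 :=
    pow_ne_zero 2 (norm_ne_zero_iff.2 (den_ne ha hz))
  rw [mob_aux6 hw ha]
  unfold mob
  rw [norm_div, norm_mul, hw, one_mul, div_pow]
  have h := mob_aux3 a z
  rw [← mul_div_assoc, eq_div_iff hD, sub_mul, div_mul_cancel₀ _ hD]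
  linarith

/-- `‖mobd w a z‖ = (1 - |a|²) / ‖1 - conj a z‖²`. -/
theorem norm_mobd {w a z : ℂ} (hw : ‖w‖ = 1) (ha : ‖a‖ < 1) :
    ‖mobd w a z‖ = (1 - ‖a‖ ^ 2) / ‖1 - (starRingEnd ℂ) a * z‖ ^ 2 :=
  mob_aux6 hw ha

theorem mobd_ne {w a z : ℂ} (hw : ‖w‖ = 1) (ha : ‖a‖ < 1) (hz : ‖z‖ ≤ 1) : mobd w a z ≠ 0 := by
  have h : 0 < ‖mobd w a z‖ := by
    rw [norm_mobd hw ha]
    exact div_pos (mob_aux1 ha) (pow_pos (norm_pos_iff.2 (den_ne ha hz)) 2)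
  exact norm_pos_iff.1 h

/-- `mob` maps the disc to itself. -/
theorem mob_mem {w a z : ℂ} (hw : ‖w‖ = 1) (ha : ‖a‖ < 1) (hz : z ∈ Disc) : mob w a z ∈ Disc := by
  have hz1 : ‖z‖ < 1 := mem_ball_zero_iff.1 hz
  have h1 := one_sub_mob hw ha hz1.le
  have h2 : 0 < (1 - ‖z‖ ^ 2) * ‖mobd w a z‖ :=
    mul_pos (q_pos hz) (norm_pos_iff.2 (mobd_ne hw ha hz1.le))
  rw [← h1] at h2
  refine mem_ball_zero_iff.2 ?_
  by_contra hc
  push Not at hc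
  nlinarith

/-- `mob` maps the unit circle to itself. -/
theorem mob_circle {w a z : ℂ} (hw : ‖w‖ = 1) (ha : ‖a‖ < 1) (hz : ‖z‖ = 1) : ‖mob w a z‖ = 1 := by
  have h1 := one_sub_mob hw ha hz.le
  rw [hz, one_pow, sub_self, zero_mul] at h1
  have h2 : ‖mob w a z‖ ^ 2 = 1 := by linarith
  have h3 := norm_nonneg (mob w a z)
  nlinarith

/-- The derivative of a Möbius map. -/
theorem mob_hasDerivAt {w a z : ℂ} (ha : ‖a‖ < 1) (hz : ‖z‖ ≤ 1) :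
    HasDerivAt (mob w a) (mobd w a z) z := by
  have hD := den_ne ha hz
  have h1 : HasDerivAt (fun x : ℂ => w * (x - a)) w z := by
    simpa using ((hasDerivAt_id z).sub_const a).const_mul w
  have h2 : HasDerivAt (fun x : ℂ => 1 - (starRingEnd ℂ) a * x) (-(starRingEnd ℂ) a) z := by
    simpa using ((hasDerivAt_id z).const_mul ((starRingEnd ℂ) a)).const_sub 1
  have h3 := h1.div h2 hD
  have h4 : (w * (1 - (starRingEnd ℂ) a * z) - w * (z - a) * -(starRingEnd ℂ) a) /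
      (1 - (starRingEnd ℂ) a * z) ^ 2 = mobd w a z := by
    unfold mobd
    rw [← Complex.conj_mul' a]
    congr 1
    ring
  rw [h4] at h3
  exact h3

/-- the algebra of the inverse, denominator -/
theorem mob_alg1 {w e a c z : ℂ} (h : e * w = 1) (hD : 1 - c * z ≠ 0) :
    1 - -(e * c) * (w * (z - a) / (1 - c * z)) = (1 - c * a) / (1 - c * z) := by
  have h1 : -(e * c) * (w * (z - a) / (1 - c * z)) = -(c * (z - a)) / (1 - c * z) := by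
    rw [← mul_div_assoc]
    congr 1
    linear_combination (-(c * (z - a))) * h
  rw [h1, eq_div_iff hD, sub_mul, div_mul_cancel₀ _ hD]
  ring

/-- the algebra of the inverse, numerator -/
theorem mob_alg2 {w e a c z : ℂ} (h : e * w = 1) (hD : 1 - c * z ≠ 0) :
    e * (w * (z - a) / (1 - c * z) - -(w * a)) = z * (1 - c * a) / (1 - c * z) := by
  have h1 : e * (w * (z - a) / (1 - c * z) - -(w * a)) =
      (e * w) * ((z - a) / (1 - c * z) + a) := by ring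
  rw [h1, h, one_mul, eq_div_iff hD, add_mul, div_mul_cancel₀ _ hD]
  ring

/-- The inverse Möbius map has the parameters `conj w`, `- w a`. -/
theorem mob_inv {w a z : ℂ} (hw : ‖w‖ = 1) (ha : ‖a‖ < 1) (hz : ‖z‖ ≤ 1) :
    mob ((starRingEnd ℂ) w) (-(w * a)) (mob w a z) = z := by
  have hD := den_ne ha hz
  have hs := mob_aux4 ha
  have h := mob_aux5 hw
  unfold mob
  rw [map_neg, map_mul, mob_alg1 h hD, mob_alg2 h hD, div_div_div_cancel_right₀ hD,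
    mul_div_assoc, div_self hs, mul_one]

/-- The other composition. -/
theorem mob_inv' {w a z : ℂ} (hw : ‖w‖ = 1) (ha : ‖a‖ < 1) (hz : ‖z‖ ≤ 1) :
    mob w a (mob ((starRingEnd ℂ) w) (-(w * a)) z) = z := by
  have h := mob_aux5 hw
  have h1 : ‖(starRingEnd ℂ) w‖ = 1 := by rw [Complex.norm_conj, hw]
  have h2 : ‖-(w * a)‖ < 1 := by rwa [norm_neg, norm_mul, hw, one_mul]
  have h3 := mob_inv h1 h2 hz
  have h4 : -((starRingEnd ℂ) w * -(w * a)) = a := by linear_combination a * h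
  rwa [Complex.conj_conj, h4] at h3

/-- The derivative of the inverse: `mobd (inverse) (mob z) * mobd z = 1`. -/
theorem mobd_inv {w a z : ℂ} (hw : ‖w‖ = 1) (ha : ‖a‖ < 1) (hz : ‖z‖ ≤ 1) :
    mobd ((starRingEnd ℂ) w) (-(w * a)) (mob w a z) * mobd w a z = 1 := by
  have hD := den_ne ha hz
  have hs := mob_aux4 ha
  have h := mob_aux5 hw
  unfold mob mobd
  rw [map_neg, map_mul, mob_alg1 h hD, norm_neg, norm_mul, hw, one_mul, ← Complex.conj_mul' a]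
  have hs2 : (1 - (starRingEnd ℂ) a * a) ^ 2 ≠ 0 := pow_ne_zero 2 hs
  have hD2 : (1 - (starRingEnd ℂ) a * z) ^ 2 ≠ 0 := pow_ne_zero 2 hD
  rw [div_pow, div_div_eq_mul_div, div_mul_div_comm, div_eq_one_iff_eq (mul_ne_zero hs2 hD2)]
  linear_combination ((1 - (starRingEnd ℂ) a * a) ^ 2 * (1 - (starRingEnd ℂ) a * z) ^ 2) * h

/-- The difference formula:
`‖mob z - mob z'‖ = ‖z - z'‖ (1 - |a|²) / (‖1 - conj a z‖ ‖1 - conj a z'‖)`. -/
theorem mob_sub {w a z z' : ℂ} (hw : ‖w‖ = 1) (ha : ‖a‖ < 1) (hz : ‖z‖ ≤ 1) (hz' : ‖z'‖ ≤ 1) :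
    ‖mob w a z - mob w a z'‖ = ‖z - z'‖ * (1 - ‖a‖ ^ 2) /
      (‖1 - (starRingEnd ℂ) a * z‖ * ‖1 - (starRingEnd ℂ) a * z'‖) := by
  have hD := den_ne ha hz
  have hD' := den_ne ha hz'
  have h1 : mob w a z - mob w a z' = w * ((z - z') * (1 - ((‖a‖ : ℝ) : ℂ) ^ 2)) /
      ((1 - (starRingEnd ℂ) a * z) * (1 - (starRingEnd ℂ) a * z')) := by
    unfold mob
    rw [← Complex.conj_mul' a, div_sub_div _ _ hD hD']
    congr 1
    ring
  rw [h1, norm_div, norm_mul, norm_mul, norm_mul, hw, one_mul, mob_aux2 ha]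

end Pool.Agent.H.MP_bfbbee_an
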