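import Mathlib
import Pool.Agent.H.MP_bfbbee_an.Mob
import Pool.Agent.H.MP_bfbbee_an.CurveLen
import Pool.Agent.H.MP_bfbbee_an.RayA

/-!
# Isometries of the metric
-/

namespace Pool.Agent.H.MP_bfbbee_an

open Filter Topology

/-- `rho (g z) ‖g' z‖ = rho z` for an isometry `g` (`one_sub_mob` and `u (g z) = u z`). -/
theorem Sym.rho_eq {u : ℂ → ℝ} {w a : ℂ} (h : Sym u w a) {z : ℂ} (hz : z ∈ Disc) :
    rho u (mob w a z) * ‖mobd w a z‖ = rho u z := by
  have hz1 : ‖z‖ < 1 := mem_ball_zero_iff.1 hz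
  have h1 := one_sub_mob h.hw h.ha hz1.le
  have hm : ‖mobd w a z‖ ≠ 0 := norm_ne_zero_iff.2 (mobd_ne h.hw h.ha hz1.le)
  have hq : 1 - ‖z‖ ^ 2 ≠ 0 := (q_pos hz).ne'
  unfold rho
  rw [h1, h.inv z hz]
  field_simp

theorem SymA_hw {w : ℂ} (hw : ‖w‖ = 1) : ‖(starRingEnd ℂ) w‖ = 1 := by
  rw [Complex.norm_conj, hw]

theorem SymA_ha {w a : ℂ} (hw : ‖w‖ = 1) (ha : ‖a‖ < 1) : ‖-(w * a)‖ < 1 := by
  rwa [norm_neg, norm_mul, hw, one_mul]

/-- The inverse of an isometry is an isometry. -/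
theorem Sym.symm {u : ℂ → ℝ} {w a : ℂ} (h : Sym u w a) :
    Sym u ((starRingEnd ℂ) w) (-(w * a)) := by
  refine ⟨SymA_hw h.hw, SymA_ha h.hw h.ha, fun z hz => ?_⟩
  have hz1 : ‖z‖ < 1 := mem_ball_zero_iff.1 hz
  have hy := mob_mem (SymA_hw h.hw) (SymA_ha h.hw h.ha) hz
  have h1 := h.inv _ hy
  rw [mob_inv' h.hw h.ha hz1.le] at h1
  exact h1.symm

/-- The inverse preserves `F` if the map does (`mob_inv'`, `mobd_inv`: for `z` in the disc put
`y = mob (inverse) z`; `dir θ' = dir θ * (mobd (inverse) z / ‖·‖)` is equivalent to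
`dir θ = dir θ' * (mobd w a y / ‖·‖)`). -/
theorem FSym.symm {u : ℂ → ℝ} {F : ℂ × ℝ → ℝ} {w a : ℂ} (h : Sym u w a) (hF : FSym F w a) :
    FSym F ((starRingEnd ℂ) w) (-(w * a)) := by
  intro z hz θ θ' hθ
  have hz1 : ‖z‖ < 1 := mem_ball_zero_iff.1 hz
  have hy := mob_mem (SymA_hw h.hw) (SymA_ha h.hw h.ha) hz
  have hy1 : ‖mob ((starRingEnd ℂ) w) (-(w * a)) z‖ < 1 := mem_ball_zero_iff.1 hy
  have hinv := mob_inv' h.hw h.ha hz1.le
  have hd := mobd_inv h.hw h.ha hy1.le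
  rw [hinv] at hd
  have hn := congrArg norm hd
  rw [norm_mul, norm_one] at hn
  have key := hF _ hy θ' θ ?_
  · rw [hinv] at key
    exact key.symm
  · have hn' : ((‖mobd ((starRingEnd ℂ) w) (-(w * a)) z‖ : ℝ) : ℂ) *
        ((‖mobd w a (mob ((starRingEnd ℂ) w) (-(w * a)) z)‖ : ℝ) : ℂ) = 1 := by
      exact_mod_cast hn
    rw [hθ, mul_assoc, div_mul_div_comm, hd, hn', div_one, mul_one]

/-- The length of the image of a segment is the length of the segment. -/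
theorem SymA_seg {u : ℂ → ℝ} {A : ℝ} (M : Met u A) {w a : ℂ} (h : Sym u w a) {p q : ℂ}
    (hp : p ∈ Disc) (hq : q ∈ Disc) : dst u (mob w a p) (mob w a q) ≤ cost u p q := by
  have hmem : ∀ s ∈ Set.Icc (0 : ℝ) 1, p + (s : ℂ) * (q - p) ∈ Disc :=
    fun s hs => seg_mem hp hq hs
  have h1 : ∀ s ∈ Set.Icc (0 : ℝ) 1,
      HasDerivWithinAt (fun s : ℝ => mob w a (p + (s : ℂ) * (q - p)))
        (mobd w a (p + (s : ℂ) * (q - p)) * (q - p)) (Set.Icc 0 1) s := by
    intro s hs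
    have hn : ‖p + (s : ℂ) * (q - p)‖ < 1 := mem_ball_zero_iff.1 (hmem s hs)
    have h2 := mob_hasDerivAt (w := w) h.ha hn.le
    have h3 : HasDerivWithinAt (fun s : ℝ => p + (s : ℂ) * (q - p)) (q - p) (Set.Icc 0 1) s := by
      have h4 : HasDerivAt (fun s : ℝ => (s : ℂ)) 1 s := Complex.ofRealCLM.hasDerivAt
      have h5 := (h4.mul_const (q - p)).const_add p
      rw [one_mul] at h5
      exact h5.hasDerivWithinAt
    exact HasDerivAt.comp_hasDerivWithinAt (h₂ := mob w a)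
      (h := fun s : ℝ => p + (s : ℂ) * (q - p)) s h2 h3
  have hc : ContinuousOn (fun s : ℝ => mobd w a (p + (s : ℂ) * (q - p)) * (q - p))
      (Set.Icc 0 1) := by
    unfold mobd
    refine ContinuousOn.mul (ContinuousOn.div continuousOn_const ?_ ?_) continuousOn_const
    · refine Continuous.continuousOn ?_
      fun_prop
    · intro s hs
      have hn : ‖p + (s : ℂ) * (q - p)‖ < 1 := mem_ball_zero_iff.1 (hmem s hs)
      exact pow_ne_zero 2 (den_ne h.ha hn.le)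
  have h4 := dst_le_length_C1 M zero_le_one h1 hc
    (fun s hs => mob_mem h.hw h.ha (hmem s hs))
  have e0 : p + ((0 : ℝ) : ℂ) * (q - p) = p := by simp
  have e1 : p + ((1 : ℝ) : ℂ) * (q - p) = q := by simp
  simp only [e0, e1] at h4
  refine h4.trans (le_of_eq ?_)
  unfold cost
  rw [← intervalIntegral.integral_const_mul]
  refine intervalIntegral.integral_congr fun s hs => ?_
  rw [Set.uIcc_of_le zero_le_one] at hs
  have h5 := h.rho_eq (hmem s hs)
  change rho u (mob w a (p + (s : ℂ) * (q - p))) * ‖mobd w a (p + (s : ℂ) * (q - p)) * (q - p)‖ =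
    ‖q - p‖ * rho u (p + (s : ℂ) * (q - p))
  rw [norm_mul, ← mul_assoc, h5, mul_comm]

/-- An isometry does not increase distances. Proof. For a segment from `p` to `q`, the image curve
`s ↦ g (p + s (q - p))`, `0 ≤ s ≤ 1`, is `C¹` with derivative `g' * (q - p)`, so by
`dst_le_length_C1` and `Sym.rho_eq`, `dst (g p) (g q) ≤ ∫ rho (g ·) ‖g'‖ ‖q - p‖ = cost p q`. By
induction on a path and the triangle inequality `dst (g p) (g q) ≤ L` for every path of length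
`L`; take the infimum. -/
theorem Sym.dst_le {u : ℂ → ℝ} {A : ℝ} (M : Met u A) {w a : ℂ} (h : Sym u w a) {p q : ℂ}
    (hp : p ∈ Disc) (hq : q ∈ Disc) : dst u (mob w a p) (mob w a q) ≤ dst u p q := by
  have key : ∀ (q : ℂ) (L : ℝ), Chain u p q L → dst u (mob w a p) (mob w a q) ≤ L := by
    intro q L hL
    induction hL with
    | nil hp' => rw [dst_self M (mob_mem h.hw h.ha hp')]
    | @cons q r L hc hr ih =>
      have hq' := hc.mem.2
      have h1 := dst_triangle M (mob_mem h.hw h.ha hp) (mob_mem h.hw h.ha hq')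
        (mob_mem h.hw h.ha hr)
      have h2 := SymA_seg M h hq' hr
      linarith
  exact le_csInf ⟨_, Chain.single hp hq⟩ fun L hL => key q L hL

/-- Isometries preserve the distance (`Sym.dst_le` for the map and its inverse). -/
theorem Sym.dst_eq {u : ℂ → ℝ} {A : ℝ} (M : Met u A) {w a : ℂ} (h : Sym u w a) {p q : ℂ}
    (hp : p ∈ Disc) (hq : q ∈ Disc) : dst u (mob w a p) (mob w a q) = dst u p q := by
  refine le_antisymm (h.dst_le M hp hq) ?_
  have h1 := h.symm.dst_le M (mob_mem h.hw h.ha hp) (mob_mem h.hw h.ha hq)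
  rwa [mob_inv h.hw h.ha (mem_ball_zero_iff.1 hp).le,
    mob_inv h.hw h.ha (mem_ball_zero_iff.1 hq).le] at h1

/-- The direction of the image of a geodesic: if `(z, θ)` and `(g ∘ z, θ')` are geodesics on
`[s, t]`, then `dir θ' = dir θ * g' / ‖g'‖` (`g' = mobd w a (z x)`): compare the derivatives
`dir θ' / rho (g z) = g' dir θ / rho z` and use `Sym.rho_eq`. -/
theorem Sym.dir_eq {u : ℂ → ℝ} {w a : ℂ} (h : Sym u w a) {s t : ℝ} (hst : s < t) {z : ℝ → ℂ}
    {θ θ' : ℝ → ℝ} (h1 : IsGeodesicOn u s t z θ)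
    (h2 : IsGeodesicOn u s t (fun x => mob w a (z x)) θ') {x : ℝ} (hx : x ∈ Set.Icc s t) :
    dir (θ' x) = dir (θ x) * (mobd w a (z x) / (‖mobd w a (z x)‖ : ℂ)) := by
  obtain ⟨hm, hz, -⟩ := h1 x hx
  obtain ⟨hm', hz', -⟩ := h2 x hx
  have hn : ‖z x‖ < 1 := mem_ball_zero_iff.1 hm
  have h3 := HasDerivAt.comp_hasDerivWithinAt (h₂ := mob w a) (h := z) x
    (mob_hasDerivAt (w := w) h.ha hn.le) hz
  have h4 := (uniqueDiffOn_Icc hst x hx).eq_deriv _ hz' h3
  have h5 := h.rho_eq hm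
  have hr : ((rho u (mob w a (z x)) : ℝ) : ℂ) ≠ 0 := by
    exact_mod_cast (rho_pos u hm').ne'
  have hr0 : ((rho u (z x) : ℝ) : ℂ) ≠ 0 := by
    exact_mod_cast (rho_pos u hm).ne'
  have hd : ((‖mobd w a (z x)‖ : ℝ) : ℂ) ≠ 0 := by
    exact_mod_cast norm_ne_zero_iff.2 (mobd_ne h.hw h.ha hn.le)
  have h6 : ((rho u (mob w a (z x)) : ℝ) : ℂ) * ((‖mobd w a (z x)‖ : ℝ) : ℂ) =
      ((rho u (z x) : ℝ) : ℂ) := by exact_mod_cast h5
  rw [div_eq_iff hr] at h4
  rw [h4, ← h6]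
  field_simp

/-- The image of a minimal curve is a minimal curve. -/
theorem Sym.isoOn {u : ℂ → ℝ} {A : ℝ} (M : Met u A) {w a : ℂ} (h : Sym u w a) {s t : ℝ}
    {σ : ℝ → ℂ} (hσ : IsoOn u s t σ) : IsoOn u s t (fun x => mob w a (σ x)) := by
  refine ⟨fun x hx => mob_mem h.hw h.ha (hσ.1 x hx), fun x hx y hy => ?_⟩
  rw [h.dst_eq M (hσ.1 x hx) (hσ.1 y hy)]
  exact hσ.2 x hx y hy

/-- The image of a minimal ray is a minimal ray (with some angle function, whose directions are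
given by `Sym.dir_eq`), and the value of an invariant first integral is the same. -/
theorem Sym.ray {u : ℂ → ℝ} {A : ℝ} (M : Met u A) {w a : ℂ} (h : Sym u w a) {r : ℝ → ℂ}
    {θ : ℝ → ℝ} (hr : GRay u r θ) :
    ∃ θ' : ℝ → ℝ, GRay u (fun t => mob w a (r t)) θ' ∧ ∀ t, 0 ≤ t →
      dir (θ' t) = dir (θ t) * (mobd w a (r t) / (‖mobd w a (r t)‖ : ℂ)) := by
  obtain ⟨θ', hθ'⟩ := ray_geodesic M (r := fun t => mob w a (r t))
    (fun t ht => mob_mem h.hw h.ha (hr.mem t ht))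
    (fun s hs t ht => by rw [h.dst_eq M (hr.mem s hs) (hr.mem t ht), hr.iso s hs t ht])
  refine ⟨θ', hθ', fun t ht => ?_⟩
  have hT : 0 < t + 1 := by linarith
  exact h.dir_eq hT (hr.geo _ hT) (hθ'.geo _ hT) ⟨ht, by linarith⟩

end Pool.Agent.H.MP_bfbbee_an
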