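import Mathlib
import Pool.Agent.H.MP_bfbbee_an.LimA
import Pool.Agent.H.MP_bfbbee_an.SymA

/-!
# Almost minimal broken geodesics have small angles
-/

namespace Pool.Agent.H.MP_bfbbee_an

open Filter Topology

/-- Joint lemma, compact version. Let `K_n` be curves on `[-1, 1]`, minimal and geodesic on
`[-1, 0]` with angle `α_n` and on `[0, 1]` with angle `β_n`, `‖K_n 0‖ ≤ R < 1`, and
`dst (K_n (-1)) (K_n 1) → 2`. Then `F (K_n 0, α_n 0) - F (K_n 0, β_n 0) → 0` for every first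
integral `F`.
Proof. All `K_n t` lie in a fixed compact subset of the disc (`confine`), so there are
`ul`-limits `K t`, `t` in `[-1, 1]`, in the disc. By `dst_tendsto`, `K` is minimal on `[-1, 0]` and
on `[0, 1]` and `dst (K (-1)) (K 1) = 2`; by the triangle inequality `dst (K s) (K t) ≤ |s - t|` on
`[-1, 1]`, so `K` is minimal on `[-1, 1]` (`isoOn_of_le`). Let `θ` be its angle (`iso_geodesic`).
By `dir_tendsto` on `[-1, 0]` and on `[0, 1]`, at `t0 = 0`, `dir (α_n 0) → dir (θ 0)` and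
`dir (β_n 0) → dir (θ 0)`; by `F_tendsto` both values converge to `F (K 0, θ 0)`. -/
theorem joint_compact {u : ℂ → ℝ} {A : ℝ} (M : Met u A) {F : ℂ × ℝ → ℝ}
    (hF : FirstIntegral u F) {R : ℝ} (hR0 : 0 ≤ R) (hR : R < 1) {K : ℕ → ℝ → ℂ}
    {α β : ℕ → ℝ → ℝ}
    (h : ∀ᶠ n in ul, ‖K n 0‖ ≤ R ∧ IsoOn u (-1) 0 (K n) ∧ IsGeodesicOn u (-1) 0 (K n) (α n) ∧
      IsoOn u 0 1 (K n) ∧ IsGeodesicOn u 0 1 (K n) (β n))
    (hd : Tendsto (fun n => dst u (K n (-1)) (K n 1)) ul (𝓝 2)) :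
    Tendsto (fun n => F (K n 0, α n 0) - F (K n 0, β n 0)) ul (𝓝 0) := by
  obtain ⟨R', -, hR'1, hR'⟩ := confine M hR0 hR 1
  -- the distance from the middle point
  have hmid : ∀ t ∈ Set.Icc (-1 : ℝ) 1, ∀ᶠ n in ul, K n t ∈ Disc ∧ dst u (K n 0) (K n t) ≤ 1 := by
    intro t ht
    filter_upwards [h] with n hn
    obtain ⟨-, h2, -, h4, -⟩ := hn
    rcases le_total t 0 with h0 | h0
    · have ht' : t ∈ Set.Icc (-1 : ℝ) 0 := ⟨ht.1, h0⟩
      refine ⟨h2.1 t ht', ?_⟩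
      rw [h2.2 0 ⟨by norm_num, le_rfl⟩ t ht', abs_le]
      constructor <;> linarith [ht.1]
    · have ht' : t ∈ Set.Icc (0 : ℝ) 1 := ⟨h0, ht.2⟩
      refine ⟨h4.1 t ht', ?_⟩
      rw [h4.2 0 ⟨le_rfl, by norm_num⟩ t ht', abs_le]
      constructor <;> linarith [ht.2]
  have hlim : ∀ t : ℝ, ∃ y : ℂ, t ∈ Set.Icc (-1 : ℝ) 1 →
      y ∈ Disc ∧ Tendsto (fun n => K n t) ul (𝓝 y) := by
    intro t
    by_cases ht : t ∈ Set.Icc (-1 : ℝ) 1
    · have h1 : ∀ᶠ n in ul, K n t ∈ Metric.closedBall (0 : ℂ) R' := by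
        filter_upwards [h, hmid t ht] with n h2 h3
        rw [mem_closedBall_zero_iff]
        exact hR' (K n 0) h2.1 _ h3.1 h3.2
      obtain ⟨y, hy, hy'⟩ := exists_ul_lim (isCompact_closedBall (0 : ℂ) R') h1
      refine ⟨y, fun _ => ⟨?_, hy'⟩⟩
      rw [mem_closedBall_zero_iff] at hy
      rw [Disc, mem_ball_zero_iff]
      exact lt_of_le_of_lt hy hR'1
    · exact ⟨0, fun h' => absurd h' ht⟩
  choose k hk using hlim
  have hmem : ∀ t ∈ Set.Icc (-1 : ℝ) 1, k t ∈ Disc := fun t ht => (hk t ht).1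
  have hconv : ∀ t ∈ Set.Icc (-1 : ℝ) 1, Tendsto (fun n => K n t) ul (𝓝 (k t)) :=
    fun t ht => (hk t ht).2
  have hdst : ∀ s ∈ Set.Icc (-1 : ℝ) 1, ∀ t ∈ Set.Icc (-1 : ℝ) 1,
      Tendsto (fun n => dst u (K n s) (K n t)) ul (𝓝 (dst u (k s) (k t))) := fun s hs t ht =>
    dst_tendsto M (hmem s hs) (hmem t ht) (hconv s hs) (hconv t ht)
  have m1 : (-1 : ℝ) ∈ Set.Icc (-1 : ℝ) 1 := ⟨le_rfl, by norm_num⟩
  have m0 : (0 : ℝ) ∈ Set.Icc (-1 : ℝ) 1 := ⟨by norm_num, by norm_num⟩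
  have p1 : (1 : ℝ) ∈ Set.Icc (-1 : ℝ) 1 := ⟨by norm_num, le_rfl⟩
  have sub1 : Set.Icc (-1 : ℝ) 0 ⊆ Set.Icc (-1 : ℝ) 1 := Set.Icc_subset_Icc le_rfl (by norm_num)
  have sub2 : Set.Icc (0 : ℝ) 1 ⊆ Set.Icc (-1 : ℝ) 1 := Set.Icc_subset_Icc (by norm_num) le_rfl
  have iso1 : IsoOn u (-1) 0 k := by
    refine ⟨fun t ht => hmem t (sub1 ht), fun s hs t ht => ?_⟩
    have h2 : (fun n => dst u (K n s) (K n t)) =ᶠ[ul] fun _ => |s - t| := by
      filter_upwards [h] with n hn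
      exact hn.2.1.2 s hs t ht
    exact tendsto_nhds_unique (hdst s (sub1 hs) t (sub1 ht))
      (tendsto_const_nhds.congr' h2.symm)
  have iso2 : IsoOn u 0 1 k := by
    refine ⟨fun t ht => hmem t (sub2 ht), fun s hs t ht => ?_⟩
    have h2 : (fun n => dst u (K n s) (K n t)) =ᶠ[ul] fun _ => |s - t| := by
      filter_upwards [h] with n hn
      exact hn.2.2.2.1.2 s hs t ht
    exact tendsto_nhds_unique (hdst s (sub2 hs) t (sub2 ht))
      (tendsto_const_nhds.congr' h2.symm)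
  have hends : dst u (k (-1)) (k 1) = 2 := tendsto_nhds_unique (hdst _ m1 _ p1) hd
  have hle' : ∀ s ∈ Set.Icc (-1 : ℝ) 0, ∀ t ∈ Set.Icc (0 : ℝ) 1,
      dst u (k s) (k t) ≤ t - s := by
    intro s hs t ht
    have h1 := dst_triangle M (hmem s (sub1 hs)) (hmem 0 m0) (hmem t (sub2 ht))
    have h2 := iso1.2 s hs 0 ⟨by norm_num, le_rfl⟩
    have h3 := iso2.2 0 ⟨le_rfl, by norm_num⟩ t ht
    rw [h2, h3, sub_zero, zero_sub, abs_neg, abs_of_nonpos hs.2, abs_of_nonneg ht.1] at h1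
    linarith
  have hle : ∀ s ∈ Set.Icc (-1 : ℝ) 1, ∀ t ∈ Set.Icc (-1 : ℝ) 1,
      dst u (k s) (k t) ≤ |s - t| := by
    intro s hs t ht
    rcases le_total s 0 with h0 | h0 <;> rcases le_total t 0 with h1 | h1
    · exact (iso1.2 s ⟨hs.1, h0⟩ t ⟨ht.1, h1⟩).le
    · have h2 := hle' s ⟨hs.1, h0⟩ t ⟨h1, ht.2⟩
      have h3 := neg_le_abs (s - t)
      linarith
    · have h2 := hle' t ⟨ht.1, h1⟩ s ⟨h0, hs.2⟩
      rw [dst_comm]
      have h3 := le_abs_self (s - t)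
      linarith
    · exact (iso2.2 s ⟨h0, hs.2⟩ t ⟨h1, ht.2⟩).le
  have hiso : IsoOn u (-1) 1 k := isoOn_of_le M hmem hle (by rw [hends]; norm_num)
  obtain ⟨θ, hθ⟩ := iso_geodesic M (by norm_num : (-1 : ℝ) < 1) hiso
  have g1 : IsGeodesicOn u (-1) 0 k θ := fun t ht =>
    ⟨(hθ t (sub1 ht)).1, (hθ t (sub1 ht)).2.1.mono sub1, (hθ t (sub1 ht)).2.2.mono sub1⟩
  have g2 : IsGeodesicOn u 0 1 k θ := fun t ht =>
    ⟨(hθ t (sub2 ht)).1, (hθ t (sub2 ht)).2.1.mono sub2, (hθ t (sub2 ht)).2.2.mono sub2⟩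
  have d1 : Tendsto (fun n => dir (α n 0)) ul (𝓝 (dir (θ 0))) :=
    dir_tendsto M (by norm_num : (-1 : ℝ) < 0) (h.mono fun n hn => hn.2.2.1) g1
      (fun t ht => hconv t (sub1 ht)) ⟨by norm_num, le_rfl⟩
  have d2 : Tendsto (fun n => dir (β n 0)) ul (𝓝 (dir (θ 0))) :=
    dir_tendsto M (by norm_num : (0 : ℝ) < 1) (h.mono fun n hn => hn.2.2.2.2) g2
      (fun t ht => hconv t (sub2 ht)) ⟨le_rfl, by norm_num⟩
  have hD : ∀ᶠ n in ul, K n 0 ∈ Disc := (hmid 0 m0).mono fun n hn => hn.1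
  have f1 := F_tendsto hF (hmem 0 m0) hD (hconv 0 m0) d1
  have f2 := F_tendsto hF (hmem 0 m0) hD (hconv 0 m0) d2
  have f3 := f1.sub f2
  rwa [sub_self] at f3

/-- Joint lemma, general version: the same without `‖K_n 0‖ ≤ R`, if the isometries preserving `F`
act cocompactly. Proof: take isometries `g_n` (parameters `w_n, a_n`) with
`‖g_n (K_n 0)‖ ≤ R`, and apply `joint_compact` to the curves `g_n ∘ K_n` (`Sym.isoOn`,
`iso_geodesic`, `Sym.dst_eq`); their directions at `0` are given by `Sym.dir_eq`, so by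
`FSym` the values of `F` are the same. -/
theorem joint {u : ℂ → ℝ} {A : ℝ} (M : Met u A) {F : ℂ × ℝ → ℝ}
    (hF : FirstIntegral u F) {R : ℝ} (hco : CocoF u F R) {K : ℕ → ℝ → ℂ}
    {α β : ℕ → ℝ → ℝ}
    (h : ∀ᶠ n in ul, IsoOn u (-1) 0 (K n) ∧ IsGeodesicOn u (-1) 0 (K n) (α n) ∧
      IsoOn u 0 1 (K n) ∧ IsGeodesicOn u 0 1 (K n) (β n))
    (hd : Tendsto (fun n => dst u (K n (-1)) (K n 1)) ul (𝓝 2)) :
    Tendsto (fun n => F (K n 0, α n 0) - F (K n 0, β n 0)) ul (𝓝 0) := by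
  have hex : ∀ n, ∃ w a : ℂ, K n 0 ∈ Disc →
      Sym u w a ∧ FSym F w a ∧ ‖mob w a (K n 0)‖ ≤ R := by
    intro n
    by_cases hn : K n 0 ∈ Disc
    · obtain ⟨w, a, h1⟩ := hco.move _ hn
      exact ⟨w, a, fun _ => h1⟩
    · exact ⟨0, 0, fun h' => absurd h' hn⟩
  choose w a hwa using hex
  have hangle : ∀ (lo hi : ℝ), lo < hi → ∀ n, ∃ θ' : ℝ → ℝ,
      IsoOn u lo hi (fun x => mob (w n) (a n) (K n x)) →
      IsGeodesicOn u lo hi (fun x => mob (w n) (a n) (K n x)) θ' := by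
    intro lo hi hlt n
    by_cases hn : IsoOn u lo hi (fun x => mob (w n) (a n) (K n x))
    · obtain ⟨θ', h1⟩ := iso_geodesic M hlt hn
      exact ⟨θ', fun _ => h1⟩
    · exact ⟨fun _ => 0, fun h' => absurd h' hn⟩
  choose α' hα' using hangle (-1) 0 (by norm_num)
  choose β' hβ' using hangle 0 1 (by norm_num)
  have hz1 : (0 : ℝ) ∈ Set.Icc (-1 : ℝ) 0 := ⟨by norm_num, le_rfl⟩
  have hz2 : (0 : ℝ) ∈ Set.Icc (0 : ℝ) 1 := ⟨le_rfl, by norm_num⟩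
  have main := joint_compact M hF hco.pos hco.lt
    (K := fun n x => mob (w n) (a n) (K n x)) (α := α') (β := β') (by
      filter_upwards [h] with n hn
      obtain ⟨h1, h2, h3, h4⟩ := hn
      obtain ⟨s1, s2, s3⟩ := hwa n (h1.1 0 hz1)
      have i1 := s1.isoOn M h1
      have i2 := s1.isoOn M h3
      exact ⟨s3, i1, hα' n i1, i2, hβ' n i2⟩) (by
      refine hd.congr' ?_
      filter_upwards [h] with n hn
      obtain ⟨h1, h2, h3, h4⟩ := hn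
      obtain ⟨s1, s2, s3⟩ := hwa n (h1.1 0 hz1)
      exact (s1.dst_eq M (h1.1 _ ⟨le_rfl, by norm_num⟩) (h3.1 _ ⟨by norm_num, le_rfl⟩)).symm)
  refine main.congr' ?_
  filter_upwards [h] with n hn
  obtain ⟨h1, h2, h3, h4⟩ := hn
  have hD := h1.1 0 hz1
  obtain ⟨s1, s2, s3⟩ := hwa n hD
  have i1 := s1.isoOn M h1
  have i2 := s1.isoOn M h3
  have e1 := s2 _ hD (α n 0) (α' n 0)
    (s1.dir_eq (by norm_num : (-1 : ℝ) < 0) h2 (hα' n i1) hz1)
  have e2 := s2 _ hD (β n 0) (β' n 0)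
    (s1.dir_eq (by norm_num : (0 : ℝ) < 1) h4 (hβ' n i2) hz2)
  show F (mob (w n) (a n) (K n 0), α' n 0) - F (mob (w n) (a n) (K n 0), β' n 0) = _
  rw [e1, e2]

end Pool.Agent.H.MP_bfbbee_an
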