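import Mathlib
import Pool.Agent.H.MP_bfbbee_an.Joint

/-!
# Busemann functions
-/

namespace Pool.Agent.H.MP_bfbbee_an

open Filter Topology

/-- The Busemann function of a minimal ray exists: `t ↦ dst y (r0 t) - t` is nonincreasing on
`[0, ∞)` (triangle inequality) and bounded below by `- dst y (r0 0)`. It is 1-Lipschitz. -/
theorem busemann {u : ℂ → ℝ} {A : ℝ} (M : Met u A) {r0 : ℝ → ℂ} {θ0 : ℝ → ℝ} (h : GRay u r0 θ0) :
    ∃ b : ℂ → ℝ, Lip1 u b ∧ ∀ y ∈ Disc,
      Tendsto (fun t => dst u y (r0 t) - t) atTop (𝓝 (b y)) := by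
  have hlim : ∀ y ∈ Disc, Tendsto (fun t => dst u y (r0 t) - t) atTop
      (𝓝 (⨅ t : ℝ, (dst u y (r0 (max t 0)) - max t 0))) := by
    intro y hy
    have hanti : Antitone (fun t : ℝ => dst u y (r0 (max t 0)) - max t 0) := by
      intro s t hst
      have h1 : max s 0 ≤ max t 0 := max_le_max hst le_rfl
      have hs0 : (0 : ℝ) ≤ max s 0 := le_max_right _ _
      have ht0 : (0 : ℝ) ≤ max t 0 := le_max_right _ _
      have h2 := dst_triangle M hy (h.mem _ hs0) (h.mem _ ht0)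
      have h3 := h.iso _ hs0 _ ht0
      rw [abs_sub_comm, abs_of_nonneg (by linarith)] at h3
      show dst u y (r0 (max t 0)) - max t 0 ≤ dst u y (r0 (max s 0)) - max s 0
      linarith
    have hbdd : BddBelow (Set.range (fun t : ℝ => dst u y (r0 (max t 0)) - max t 0)) := by
      refine ⟨-dst u y (r0 0), ?_⟩
      rintro _ ⟨t, rfl⟩
      have ht0 : (0 : ℝ) ≤ max t 0 := le_max_right _ _
      have h2 := dst_triangle M (h.mem 0 le_rfl) hy (h.mem _ ht0)
      have h3 := h.iso 0 le_rfl _ ht0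
      rw [zero_sub, abs_neg, abs_of_nonneg ht0] at h3
      rw [dst_comm u (r0 0) y] at h2
      show -dst u y (r0 0) ≤ dst u y (r0 (max t 0)) - max t 0
      linarith
    refine (tendsto_atTop_ciInf hanti hbdd).congr' ?_
    filter_upwards [eventually_ge_atTop 0] with t ht
    rw [max_eq_left ht]
  refine ⟨fun y => ⨅ t : ℝ, (dst u y (r0 (max t 0)) - max t 0), ?_, hlim⟩
  intro x hx y hy
  have h1 := (hlim x hx).sub (hlim y hy)
  refine le_of_tendsto h1 ?_
  filter_upwards [eventually_ge_atTop 0] with t ht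
  have h2 := dst_triangle M hx hy (h.mem t ht)
  linarith

theorem bus_congr {u : ℂ → ℝ} {a b : ℝ} {z z' : ℝ → ℂ} {θ θ' : ℝ → ℝ}
    (h : IsGeodesicOn u a b z θ) (hz : ∀ t ∈ Set.Icc a b, z' t = z t)
    (hθ : ∀ t ∈ Set.Icc a b, θ' t = θ t) : IsGeodesicOn u a b z' θ' := by
  intro t ht
  obtain ⟨h1, h2, h3⟩ := h t ht
  rw [hz t ht, hθ t ht]
  exact ⟨h1, h2.congr hz (hz t ht), h3.congr hθ (hθ t ht)⟩

/-- Construction of a co-ray with the same value of `F`. Let `r0` be a minimal ray with end point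
`ξ` and Busemann function `b`. From every `y` in the disc there is a `b`-calibrated minimal ray
which ends at `ξ` and has the same value of `F`.
Proof. Let `L_n = dst y (r0 n)`, and let `σ_n` be a minimal segment from `y` to `r0 n`
(`exists_seg`), with angle `θ_n` on `[0, L_n]` (`iso_geodesic`). `L_n - n → b y`, so `L_n → ∞` and
`L_{n+1} - L_n → 1` (along `ul`, because these limits hold along `atTop`). `seg_limit` gives the
ray `(r, θ)`, `seg_limit_end` the end point `ξ` (as `σ_n (L_n) = r0 n → ξ`).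
Calibration: with `b_n z = dst z (r0 n) - n` (1-Lipschitz), `b_n (σ_n s) = L_n - s - n → b y - s`,
`|b_n (r s) - b_n (σ_n s)| ≤ dst (r s) (σ_n s) → 0` and `b_n (r s) → b (r s)`.
Value of `F`: apply `joint` to `K_n t = σ_n (L_n + t)` for `t ≤ 0` and `r0 (n + t)` for `t > 0` (so
`K_n 0 = r0 n`), with the angles `t ↦ θ_n (L_n + t)` and `t ↦ θ0 (n + t)` (`IsGeodesicOn.shift`,
`mono`, for `L_n ≥ 1`, `n ≥ 0`). The distance of the end points: `2 ≥ dst (K_n (-1)) (K_n 1)
≥ dst y (r0 (n+1)) - dst y (σ_n (L_n - 1)) = L_{n+1} - L_n + 1 → 2`. So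
`F (r0 n, θ_n L_n) - F (r0 n, θ0 n) → 0`; here `F (r0 n, θ0 n) = F (r0 0, θ0 0)`
(`GRay.F_const`) and `F (r0 n, θ_n L_n) = F (y, θ_n 0) → F (y, θ 0)` (`FirstIntegral.inv`,
`F_tendsto` with the directions from `seg_limit`). -/
theorem coray {u : ℂ → ℝ} {A : ℝ} (M : Met u A) {F : ℂ × ℝ → ℝ}
    (hF : FirstIntegral u F) {R : ℝ} (hco : CocoF u F R) {r0 : ℝ → ℂ} {θ0 : ℝ → ℝ}
    (h : GRay u r0 θ0) {ξ : ℂ} (hξ : Tendsto r0 atTop (𝓝 ξ)) {b : ℂ → ℝ} (hb : Lip1 u b)
    (hbl : ∀ y ∈ Disc, Tendsto (fun t => dst u y (r0 t) - t) atTop (𝓝 (b y))) {y : ℂ}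
    (hy : y ∈ Disc) :
    ∃ r θ, Cal u b y r ∧ GRay u r θ ∧ Tendsto r atTop (𝓝 ξ) ∧ F (y, θ 0) = F (r0 0, θ0 0) := by
  have hn0 : ∀ n : ℕ, (0 : ℝ) ≤ n := fun n => Nat.cast_nonneg n
  have hr0 : ∀ n : ℕ, r0 n ∈ Disc := fun n => h.mem n (hn0 n)
  -- the lengths
  obtain ⟨L, hLdef⟩ : ∃ L : ℕ → ℝ, ∀ n, L n = dst u y (r0 n) := ⟨_, fun _ => rfl⟩
  have hcast : Tendsto (fun n : ℕ => (n : ℝ)) atTop atTop := tendsto_natCast_atTop_atTop
  have hbn : ∀ z ∈ Disc, Tendsto (fun n : ℕ => dst u z (r0 n) - n) ul (𝓝 (b z)) := fun z hz =>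
    ((hbl z hz).comp hcast).mono_left ul_le
  have hLb : Tendsto (fun n : ℕ => L n - n) atTop (𝓝 (b y)) := by
    have := (hbl y hy).comp hcast
    refine this.congr fun n => ?_
    show dst u y (r0 n) - n = L n - n
    rw [hLdef]
  have hLtop : Tendsto L atTop atTop := by
    have h1 := hLb.add_atTop hcast
    refine h1.congr fun n => ?_
    ring
  have hL : Tendsto L ul atTop := hLtop.mono_left ul_le
  have hL1 : Tendsto (fun n : ℕ => L (n + 1) - L n) ul (𝓝 1) := by
    have h1 : Tendsto (fun n : ℕ => L (n + 1) - ((n + 1 : ℕ) : ℝ)) atTop (𝓝 (b y)) :=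
      hLb.comp (tendsto_add_atTop_nat 1)
    have h2 := ((h1.sub hLb).add_const 1).mono_left ul_le
    rw [sub_self, zero_add] at h2
    refine h2.congr fun n => ?_
    push_cast
    ring
  -- the segments
  have hseg : ∀ n : ℕ, ∃ σ : ℝ → ℂ, IsoOn u 0 (L n) σ ∧ σ 0 = y ∧ σ (L n) = r0 n := by
    intro n
    rw [hLdef]
    exact exists_seg M hy (hr0 n)
  choose σ hσ hσ0 hσL using hseg
  have hang : ∀ n : ℕ, ∃ θ : ℝ → ℝ, 0 < L n → IsGeodesicOn u 0 (L n) (σ n) θ := by
    intro n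
    by_cases hp : 0 < L n
    · obtain ⟨θ, hθ⟩ := iso_geodesic M hp (hσ n)
      exact ⟨θ, fun _ => hθ⟩
    · exact ⟨fun _ => 0, fun hq => absurd hq hp⟩
  choose θn hθn using hang
  have hLge : ∀ c : ℝ, ∀ᶠ n in ul, c ≤ L n := fun c => hL.eventually_ge_atTop c
  obtain ⟨r, θ, hray, hr0', hlim, hdir⟩ := seg_limit M hy (tendsto_const_nhds (x := y))
    (σn := σ) (θn := θn) hL (by
      filter_upwards [hLge 1] with n hn
      exact ⟨hσ n, hθn n (by linarith), hσ0 n⟩)
  have hend : Tendsto r atTop (𝓝 ξ) := by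
    refine seg_limit_end M hy (tendsto_const_nhds (x := y)) (σn := σ) hL ?_ hlim (ξ := ξ) ?_
    · exact Eventually.of_forall fun n => ⟨hσ n, hσ0 n⟩
    · have h1 : Tendsto (fun n : ℕ => r0 n) ul (𝓝 ξ) := (hξ.comp hcast).mono_left ul_le
      refine h1.congr fun n => ?_
      rw [hσL]
  have hcal : ∀ t, 0 ≤ t → b (r t) = b y - t := by
    intro t ht
    have hrt : r t ∈ Disc := hray.mem t ht
    have h1 : Tendsto (fun n : ℕ => dst u (r t) (r0 n) - n) ul (𝓝 (b (r t))) := hbn _ hrt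
    have h2 : Tendsto (fun n : ℕ => dst u (r t) (σ n t)) ul (𝓝 0) := by
      have h3 := dst_tendsto M hrt hrt (tendsto_const_nhds (x := r t) (f := ul)) (hlim t ht)
      rwa [dst_self M hrt] at h3
    have h4 : Tendsto (fun n : ℕ => (L n - n) - t) ul (𝓝 (b y - t)) :=
      (hLb.mono_left ul_le).sub_const t
    have h5 : Tendsto (fun n : ℕ => (dst u (r t) (r0 n) - n) - ((L n - n) - t)) ul (𝓝 0) := by
      refine squeeze_zero_norm' ?_ h2
      filter_upwards [hLge t] with n hn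
      have hmem : σ n t ∈ Disc := (hσ n).1 t ⟨ht, hn⟩
      have h6 : dst u (σ n t) (r0 n) = L n - t := by
        have := (hσ n).2 t ⟨ht, hn⟩ (L n) ⟨by linarith, le_rfl⟩
        rw [hσL, abs_sub_comm, abs_of_nonneg (by linarith)] at this
        exact this
      have h7 := dst_triangle M hrt hmem (hr0 n)
      have h8 := dst_triangle M hmem hrt (hr0 n)
      rw [dst_comm u (σ n t) (r t)] at h8
      rw [Real.norm_eq_abs, abs_le]
      constructor <;> linarith
    have h9 := h1.sub h4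
    have h10 := tendsto_nhds_unique h9 h5
    linarith
  refine ⟨r, θ, ⟨hr0', hray.mem, fun s hs t ht => (hray.iso s hs t ht).le, ?_⟩, hray, hend, ?_⟩
  · intro t ht
    exact hcal t ht
  -- the value of F
  obtain ⟨K, hK⟩ : ∃ K : ℕ → ℝ → ℂ, ∀ n t, K n t = if t ≤ 0 then σ n (L n + t) else r0 (n + t) :=
    ⟨fun n t => if t ≤ 0 then σ n (L n + t) else r0 (n + t), fun _ _ => rfl⟩
  have hKneg : ∀ n, ∀ t ∈ Set.Icc (-1 : ℝ) 0, K n t = σ n (L n + t) := by
    intro n t ht
    rw [hK, if_pos ht.2]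
  have hKpos : ∀ n, ∀ t ∈ Set.Icc (0 : ℝ) 1, K n t = r0 (n + t) := by
    intro n t ht
    rw [hK]
    split_ifs with hc
    · have : t = 0 := le_antisymm hc ht.1
      subst this
      rw [add_zero, add_zero, hσL]
    · rfl
  have hK0 : ∀ n, K n 0 = r0 n := by
    intro n
    rw [hKpos n 0 ⟨le_rfl, zero_le_one⟩, add_zero]
  have hIso1 : ∀ n, 1 ≤ L n → IsoOn u (-1) 0 (K n) := by
    intro n hn
    constructor
    · intro t ht
      rw [hKneg n t ht]
      exact (hσ n).1 _ ⟨by linarith [ht.1], by linarith [ht.2]⟩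
    · intro s hs t ht
      rw [hKneg n s hs, hKneg n t ht, (hσ n).2 _ ⟨by linarith [hs.1], by linarith [hs.2]⟩ _
        ⟨by linarith [ht.1], by linarith [ht.2]⟩]
      congr 1
      ring
  have hIso2 : ∀ n, IsoOn u 0 1 (K n) := by
    intro n
    constructor
    · intro t ht
      rw [hKpos n t ht]
      exact h.mem _ (by linarith [ht.1, hn0 n])
    · intro s hs t ht
      rw [hKpos n s hs, hKpos n t ht, h.iso _ (by linarith [hs.1, hn0 n]) _
        (by linarith [ht.1, hn0 n])]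
      congr 1
      ring
  have hjoint := joint M hF hco (K := K) (α := fun n t => θn n (L n + t))
    (β := fun n t => θ0 (n + t)) (by
      filter_upwards [hLge 1] with n hn
      refine ⟨hIso1 n hn, ?_, hIso2 n, ?_⟩
      · have h1 := (hθn n (by linarith)).shift (L n)
        have h2 := h1.mono (a' := -1) (b' := 0) (by linarith) (by linarith)
        refine bus_congr h2 (fun t ht => ?_) (fun t _ => ?_)
        · rw [hKneg n t ht, add_comm]
        · rw [add_comm]
      · have h1 := (h.geo ((n : ℝ) + 1) (by linarith [hn0 n])).shift (n : ℝ)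
        have h2 := h1.mono (a' := 0) (b' := 1) (by linarith [hn0 n]) (by linarith)
        refine bus_congr h2 (fun t ht => ?_) (fun t _ => ?_)
        · rw [hKpos n t ht, add_comm]
        · rw [add_comm]) (by
      have hlow : Tendsto (fun n : ℕ => (L (n + 1) - L n) + 1) ul (𝓝 2) := by
        have := hL1.add_const 1
        rw [show (1 : ℝ) + 1 = 2 by norm_num] at this
        exact this
      refine tendsto_of_tendsto_of_tendsto_of_le_of_le' hlow tendsto_const_nhds ?_ ?_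
      · filter_upwards [hLge 1] with n hn
        have hm1 : K n (-1) = σ n (L n + -1) := hKneg n (-1) ⟨le_rfl, by norm_num⟩
        have hm2 : K n 1 = r0 ((n + 1 : ℕ) : ℝ) := by
          rw [hKpos n 1 ⟨by norm_num, le_rfl⟩]
          push_cast
          rfl
        have hmem : σ n (L n + -1) ∈ Disc := (hσ n).1 _ ⟨by linarith, by linarith⟩
        have h1 := dst_triangle M hy hmem (hr0 (n + 1))
        have h2 : dst u y (σ n (L n + -1)) = L n - 1 := by
          have := (hσ n).2 0 ⟨le_rfl, by linarith⟩ (L n + -1) ⟨by linarith, by linarith⟩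
          rw [hσ0, abs_sub_comm, abs_of_nonneg (by linarith)] at this
          rw [this]
          ring
        rw [← hLdef (n + 1)] at h1
        rw [hm1, hm2]
        linarith
      · filter_upwards [hLge 1] with n hn
        have ha := (hIso1 n hn).2 (-1) ⟨le_rfl, by norm_num⟩ 0 ⟨by norm_num, le_rfl⟩
        have hb' := (hIso2 n).2 0 ⟨le_rfl, by norm_num⟩ 1 ⟨by norm_num, le_rfl⟩
        have h1 := dst_triangle M ((hIso1 n hn).1 (-1) ⟨le_rfl, by norm_num⟩)
          ((hIso2 n).1 0 ⟨le_rfl, by norm_num⟩) ((hIso2 n).1 1 ⟨by norm_num, le_rfl⟩)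
        rw [ha, hb'] at h1
        norm_num at h1
        exact h1)
  have h1 : Tendsto (fun n : ℕ => F (y, θn n 0)) ul (𝓝 (F (y, θ 0))) :=
    F_tendsto hF (zn := fun _ => y) hy (Eventually.of_forall fun _ => hy) tendsto_const_nhds hdir
  have h2 : Tendsto (fun n : ℕ => F (y, θn n 0) - F (r0 0, θ0 0)) ul (𝓝 0) := by
    refine hjoint.congr' ?_
    filter_upwards [hLge 1] with n hn
    have h3 : F (σ n 0, θn n 0) = F (σ n (L n), θn n (L n)) :=
      hF.inv 0 (L n) (σ n) (θn n) (by linarith) (hθn n (by linarith))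
    have h4 : F (r0 n, θ0 n) = F (r0 0, θ0 0) := h.F_const hF (hn0 n)
    show F (K n 0, θn n (L n + 0)) - F (K n 0, θ0 (n + 0)) = _
    rw [hK0, add_zero, add_zero, h4, ← hσL n, ← h3, hσ0]
  have h5 := h1.sub_const (F (r0 0, θ0 0))
  have h6 := tendsto_nhds_unique h5 h2
  linarith

/-- The Busemann function of a minimal ray is good. -/
theorem good_of_ray {u : ℂ → ℝ} {A : ℝ} (M : Met u A) {F : ℂ × ℝ → ℝ}
    (hF : FirstIntegral u F) {R : ℝ} (hco : CocoF u F R) {r0 : ℝ → ℂ} {θ0 : ℝ → ℝ}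
    (h : GRay u r0 θ0) {ξ : ℂ} (hξ : Tendsto r0 atTop (𝓝 ξ)) :
    ∃ b, Good u F b (F (r0 0, θ0 0)) ξ := by
  obtain ⟨b, hb, hbl⟩ := busemann M h
  exact ⟨b, hb, fun x hx => coray M hF hco h hξ hb hbl hx⟩

end Pool.Agent.H.MP_bfbbee_an
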