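import Mathlib
import Pool.Agent.H.MP_bfbbee_an.Bus

/-!
# Calibrated rays are unique at interior points
-/

namespace Pool.Agent.H.MP_bfbbee_an

open Filter Topology

/-- Uniqueness of calibrated rays at interior points. Let `b` be 1-Lipschitz, `(r, θ)` a
`b`-calibrated minimal ray from `x`, `s > 0`, and `(r', θ')` a `b`-calibrated minimal ray from
`r s`. Then `r' t = r (s + t)` and `dir (θ' t) = dir (θ (s + t))` for all `t ≥ 0`.
Proof. Let `κ t = r t` for `t ≤ s` and `κ t = r' (t - s)` for `t ≥ s`. Then `b (κ t) = b x - t` and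
`dst (κ t) (κ t') ≤ |t - t'|` (triangle inequality through `r s`), so
`|t - t'| = |b (κ t) - b (κ t')| ≤ dst (κ t) (κ t')`: `κ` is minimal on `[0, s + 1]`; let `ω` be its
angle (`iso_geodesic`). On `[0, s]`, `dir (ω s) = dir (θ s)` (`dir_unique`), on `[s, s + 1]`,
`dir (ω s) = dir (θ' 0)` (`dir_unique` with the shifted `θ'`). So the geodesics `r'` and
`t ↦ r (s + t)` have the same starting point and direction; `geo_unique` on `[0, T]` for all
`T > 0`. -/
theorem cal_unique {u : ℂ → ℝ} {A : ℝ} (M : Met u A) {b : ℂ → ℝ} (hb : Lip1 u b) {x : ℂ}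
    {r r' : ℝ → ℂ} {θ θ' : ℝ → ℝ} (hr : Cal u b x r) (hg : GRay u r θ) {s : ℝ} (hs : 0 < s)
    (hr' : Cal u b (r s) r') (hg' : GRay u r' θ') {t : ℝ} (ht : 0 ≤ t) :
    r' t = r (s + t) ∧ dir (θ' t) = dir (θ (s + t)) := by
  obtain ⟨κ, hκ⟩ : ∃ κ : ℝ → ℂ, ∀ t, κ t = if t ≤ s then r t else r' (t - s) :=
    ⟨fun t => if t ≤ s then r t else r' (t - s), fun _ => rfl⟩
  have hκ1 : ∀ t, t ≤ s → κ t = r t := fun t h => by rw [hκ, if_pos h]
  have hκ2 : ∀ t, s ≤ t → κ t = r' (t - s) := by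
    intro t h
    rw [hκ]
    split_ifs with hc
    · have he : t = s := le_antisymm hc h
      rw [he, sub_self, hr'.start]
    · rfl
  have hmem : ∀ t ∈ Set.Icc (0 : ℝ) (s + 1), κ t ∈ Disc := by
    intro t ht
    rcases le_total t s with h | h
    · rw [hκ1 t h]
      exact hr.mem t ht.1
    · rw [hκ2 t h]
      exact hr'.mem _ (by linarith)
  have hbs : b (r s) = b x - s := hr.cal s hs.le
  have hle' : ∀ p ∈ Set.Icc (0 : ℝ) (s + 1), ∀ q ∈ Set.Icc (0 : ℝ) (s + 1), p ≤ s → s ≤ q →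
      dst u (κ p) (κ q) ≤ q - p := by
    intro p hp q hq h1 h2
    have e1 := hr.one p hp.1 s hs.le
    have e2 := hr'.one 0 le_rfl (q - s) (by linarith)
    rw [hr'.start] at e2
    have e3 := dst_triangle M (hr.mem p hp.1) (hr.mem s hs.le) (hr'.mem (q - s) (by linarith))
    rw [hκ1 p h1, hκ2 q h2]
    rw [abs_of_nonpos (by linarith)] at e1 e2
    linarith
  have hle : ∀ p ∈ Set.Icc (0 : ℝ) (s + 1), ∀ q ∈ Set.Icc (0 : ℝ) (s + 1),
      dst u (κ p) (κ q) ≤ |p - q| := by
    intro p hp q hq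
    rcases le_total p s with h1 | h1 <;> rcases le_total q s with h2 | h2
    · rw [hκ1 p h1, hκ1 q h2]
      exact hr.one p hp.1 q hq.1
    · have h3 := hle' p hp q hq h1 h2
      have h4 := neg_le_abs (p - q)
      linarith
    · have h3 := hle' q hq p hp h2 h1
      have h4 := le_abs_self (p - q)
      rw [dst_comm]
      linarith
    · rw [hκ2 p h1, hκ2 q h2]
      have h3 := hr'.one (p - s) (by linarith) (q - s) (by linarith)
      have e : p - s - (q - s) = p - q := by ring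
      rw [e] at h3
      exact h3
  have m0 : (0 : ℝ) ∈ Set.Icc (0 : ℝ) (s + 1) := ⟨le_rfl, by linarith⟩
  have m1 : s + 1 ∈ Set.Icc (0 : ℝ) (s + 1) := ⟨by linarith, le_rfl⟩
  have hd : s + 1 - 0 ≤ dst u (κ 0) (κ (s + 1)) := by
    have h1 := hb _ (hmem 0 m0) _ (hmem (s + 1) m1)
    have h2 : b (κ 0) = b x := by rw [hκ1 0 hs.le, hr.start]
    have h3 : b (κ (s + 1)) = b x - s - 1 := by
      rw [hκ2 (s + 1) (by linarith), hr'.cal _ (by linarith), hbs]
      ring
    rw [h2, h3] at h1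
    linarith
  obtain ⟨ω, hω⟩ := iso_geodesic M (by linarith : (0 : ℝ) < s + 1) (isoOn_of_le M hmem hle hd)
  have hω1 : IsGeodesicOn u 0 s r ω :=
    bus_congr (hω.mono (a' := 0) (b' := s) le_rfl (by linarith))
      (fun t ht => (hκ1 t ht.2).symm) (fun _ _ => rfl)
  have hdir1 : dir (ω s) = dir (θ s) := dir_unique M hs hω1 (hg.geo s hs) ⟨hs.le, le_rfl⟩
  have hω2 : IsGeodesicOn u 0 1 r' (fun t => ω (t + s)) := by
    refine bus_congr ((hω.shift s).mono (a' := 0) (b' := 1) (by linarith) (by linarith))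
      (fun t ht => ?_) (fun _ _ => rfl)
    have h1 := hκ2 (t + s) (by linarith [ht.1])
    rw [add_sub_cancel_right] at h1
    exact h1.symm
  have hdir2 : dir (ω (0 + s)) = dir (θ' 0) :=
    dir_unique M zero_lt_one hω2 (hg'.geo 1 zero_lt_one) ⟨le_rfl, zero_le_one⟩
  rw [zero_add] at hdir2
  have hsh := hg.shift hs.le
  have key := geo_unique M (hg'.geo (t + 1) (by linarith)) (hsh.geo (t + 1) (by linarith))
    (by
      show r' 0 = r (s + 0)
      rw [hr'.start, add_zero])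
    (by
      show dir (θ' 0) = dir (θ (s + 0))
      rw [add_zero, ← hdir2, hdir1]) t ⟨ht, by linarith⟩
  exact key

/-- For a good `b`, every calibrated ray ends at `ξ` and has the value `c`: from the interior point
`r 1` there is a calibrated ray `r'` with these properties, and `r' t = r (1 + t)`
(`cal_unique`); `F (x, θ 0) = F (r 1, θ 1) = F (r 1, θ' 0) = c` (`GRay.F_const`, `F_congr`). -/
theorem good_all {u : ℂ → ℝ} {A : ℝ} (M : Met u A) {F : ℂ × ℝ → ℝ}
    (hF : FirstIntegral u F) {b : ℂ → ℝ} {c : ℝ} {ξ : ℂ} (hG : Good u F b c ξ) {x : ℂ}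
    {r : ℝ → ℂ} {θ : ℝ → ℝ} (hr : Cal u b x r) (hg : GRay u r θ) :
    Tendsto r atTop (𝓝 ξ) ∧ F (x, θ 0) = c := by
  obtain ⟨hb, hall⟩ := hG
  have h1D : r 1 ∈ Disc := hr.mem 1 zero_le_one
  obtain ⟨r', θ', hc', hg', hξ', hF'⟩ := hall (r 1) h1D
  have key : ∀ t, 0 ≤ t → r' t = r (1 + t) ∧ dir (θ' t) = dir (θ (1 + t)) := fun t ht =>
    cal_unique M hb hr hg zero_lt_one hc' hg' ht
  constructor
  · have h2 : Tendsto (fun t : ℝ => r' (t + -1)) atTop (𝓝 ξ) :=
      hξ'.comp (tendsto_atTop_add_const_right atTop (-1) tendsto_id)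
    refine h2.congr' ?_
    filter_upwards [eventually_ge_atTop 1] with t ht
    have h3 := (key (t + -1) (by linarith)).1
    rw [h3]
    congr 1
    ring
  · have h2 := (key 0 le_rfl).2
    rw [add_zero] at h2
    have h3 := hg.F_const hF (t := 1) zero_le_one
    have h4 : F (r 1, θ 1) = F (r 1, θ' 0) := F_congr hF h1D h2.symm
    rw [← hr.start, ← h3, h4, hF']

end Pool.Agent.H.MP_bfbbee_an
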