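import Mathlib
import Pool.Agent.H.MP_bfbbee_an.CurveLen
import Pool.Agent.H.MP_bfbbee_an.Taylor
import Pool.Agent.H.MP_bfbbee_an.OdeA

/-!
# The second variation inequality
-/

namespace Pool.Agent.H.MP_bfbbee_an

open Filter Topology MeasureTheory

/-- The derivative of the inner product of two curves. -/
theorem var_dotp_deriv {V h : ℝ → ℂ} {V' h' : ℂ} {S : Set ℝ} {t : ℝ}
    (hV : HasDerivWithinAt V V' S t) (hh : HasDerivWithinAt h h' S t) :
    HasDerivWithinAt (fun x => dotp (V x) (h x)) (dotp V' (h t) + dotp (V t) h') S t := by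
  have h1 : HasDerivWithinAt (fun x => (V x).re) V'.re S t :=
    Complex.reCLM.hasFDerivAt.comp_hasDerivWithinAt t hV
  have h2 : HasDerivWithinAt (fun x => (V x).im) V'.im S t :=
    Complex.imCLM.hasFDerivAt.comp_hasDerivWithinAt t hV
  have h3 : HasDerivWithinAt (fun x => (h x).re) h'.re S t :=
    Complex.reCLM.hasFDerivAt.comp_hasDerivWithinAt t hh
  have h4 : HasDerivWithinAt (fun x => (h x).im) h'.im S t :=
    Complex.imCLM.hasFDerivAt.comp_hasDerivWithinAt t hh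
  refine ((h1.mul h3).add (h2.mul h4)).congr_deriv ?_
  unfold dotp
  ring

/-- The derivative of the unit vector with angle `θ`. -/
theorem var_dir_deriv (θ : ℝ) : HasDerivAt dir (dir θ * Complex.I) θ := by
  have h1 : HasDerivAt (fun x : ℝ => (x : ℂ) * Complex.I) (1 * Complex.I) θ :=
    (Complex.ofRealCLM.hasDerivAt (x := θ)).mul_const _
  have h2 := h1.cexp
  rw [one_mul] at h2
  exact h2

/-- Decomposition of a vector in the orthonormal frame `v, I v`. -/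
theorem var_frame (g v : ℂ) (hv : ‖v‖ = 1) :
    ((dotp g v : ℝ) : ℂ) * v + ((dotp g (Complex.I * v) : ℝ) : ℂ) * (v * Complex.I) = g := by
  have h1 : v.re * v.re + v.im * v.im = 1 := by
    have h2 := Complex.normSq_eq_norm_sq v
    rw [hv, Complex.normSq_apply] at h2
    linarith
  apply Complex.ext
  · simp only [dotp, Complex.add_re, Complex.mul_re, Complex.ofReal_re, Complex.ofReal_im,
      Complex.I_re, Complex.I_im, Complex.mul_im]
    linear_combination g.re * h1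
  · simp only [dotp, Complex.add_im, Complex.mul_re, Complex.ofReal_re, Complex.ofReal_im,
      Complex.I_re, Complex.I_im, Complex.mul_im]
    linear_combination g.im * h1

/-- Along a geodesic the momentum `rho (z t) * dir (θ t)` has the derivative `grad (z t)`.
(`(rho ∘ z)' = rho ⟨grad, dir θ / rho⟩ = ⟨grad, dir θ⟩` by `rho_comp_deriv`,
`(dir ∘ θ)' = kap * I * dir θ`, `rho kap = ⟨grad, I dir θ⟩`, and
`⟨g, v⟩ v + ⟨g, I v⟩ I v = g` for a unit complex number `v`.) -/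
theorem momentum_deriv {u : ℂ → ℝ} {A : ℝ} (M : Met u A) {a b : ℝ} {z : ℝ → ℂ} {θ : ℝ → ℝ}
    (h : IsGeodesicOn u a b z θ) {t : ℝ} (ht : t ∈ Set.Icc a b) :
    HasDerivWithinAt (fun x => (rho u (z x) : ℂ) * dir (θ x)) (grad u (z t)) (Set.Icc a b) t := by
  obtain ⟨hmem, hz, hθ⟩ := h t ht
  have hpos := rho_pos u hmem
  have h1 := rho_comp_deriv M hmem hz
  have h2 : HasDerivWithinAt (fun x => (rho u (z x) : ℂ))
      ((rho u (z t) * dotp (grad u (z t)) (dir (θ t) / (rho u (z t) : ℂ)) : ℝ) : ℂ)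
      (Set.Icc a b) t := by
    exact Complex.ofRealCLM.hasFDerivAt.comp_hasDerivWithinAt t h1
  have h3 : HasDerivWithinAt (fun x => dir (θ x))
      (kap u (z t) (dir (θ t)) • (dir (θ t) * Complex.I)) (Set.Icc a b) t :=
    (var_dir_deriv (θ t)).scomp_hasDerivWithinAt t hθ
  refine (h2.mul h3).congr_deriv ?_
  have h4 : dotp (grad u (z t)) (dir (θ t) / (rho u (z t) : ℂ)) =
      (rho u (z t))⁻¹ * dotp (grad u (z t)) (dir (θ t)) := by
    rw [← dotp_smul_right]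
    congr 1
    rw [div_eq_inv_mul, Complex.ofReal_inv]
  have h5 : rho u (z t) * ((rho u (z t))⁻¹ * dotp (grad u (z t)) (dir (θ t))) =
      dotp (grad u (z t)) (dir (θ t)) := by
    field_simp
  have h6 : (rho u (z t) : ℂ) * (kap u (z t) (dir (θ t)) • (dir (θ t) * Complex.I)) =
      ((dotp (grad u (z t)) (Complex.I * dir (θ t)) : ℝ) : ℂ) * (dir (θ t) * Complex.I) := by
    have h7 : rho u (z t) * kap u (z t) (dir (θ t)) =
        dotp (grad u (z t)) (Complex.I * dir (θ t)) := by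
      unfold kap
      rw [fderiv_phi_eq]
      field_simp
    rw [← h7, Complex.real_smul]
    push_cast
    ring
  rw [h4, h5, h6]
  exact var_frame _ _ (norm_dir _)

/-- Upper bound for the distance of the moved end points of a geodesic. For `R < 1` and `T > 0`
there are `C, ε > 0` such that for every geodesic `(z, θ)` on `[0, T]` with `‖z 0‖ ≤ R` and all
`h0, h1` with `‖h0‖, ‖h1‖ ≤ ε`:
`dst (z 0 + h0) (z T + h1) ≤ T + rho (z T) ⟨dir (θ T), h1⟩ - rho (z 0) ⟨dir (θ 0), h0⟩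
+ C (‖h0‖² + ‖h1‖²)`.
Proof. `geo_confine` gives `R' < 1` with `‖z t‖ ≤ R'` on `[0, T]`; let `C0, ε0` be from
`integrand_le` for `R'`. Put `h t = ((T - t) h0 + t h1) / T`, `h' = (h1 - h0) / T`, both of norm
`≤ ε0` if `ε` is small. The curve `z + h` is `C¹` with derivative `dir θ / rho + h'`, so
`dst_le_length_C1` and `integrand_le` (`ζ = dir θ / rho`) give
`dst ≤ ∫_0^T (1 + ⟨grad (z), h⟩ + rho² ⟨dir θ / rho, h'⟩ + C0 (‖h‖² + ‖h'‖²))`. Here
`⟨grad (z), h⟩ + ⟨rho dir θ, h'⟩` is the derivative of `⟨rho (z) dir θ, h⟩` (`momentum_deriv`), so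
its integral is `rho (z T) ⟨dir (θ T), h1⟩ - rho (z 0) ⟨dir (θ 0), h0⟩`; and
`‖h‖² ≤ 2 (‖h0‖² + ‖h1‖²)`, `‖h'‖² ≤ 2 (‖h0‖² + ‖h1‖²) / T²`. -/
theorem second_variation {u : ℂ → ℝ} {A : ℝ} (M : Met u A) {R : ℝ} (hR0 : 0 ≤ R) (hR : R < 1)
    {T : ℝ} (hT : 0 < T) : ∃ C ε : ℝ, 0 < C ∧ 0 < ε ∧ ∀ (z : ℝ → ℂ) (θ : ℝ → ℝ),
      IsGeodesicOn u 0 T z θ → ‖z 0‖ ≤ R → ∀ h0 h1 : ℂ, ‖h0‖ ≤ ε → ‖h1‖ ≤ ε →
        z 0 + h0 ∈ Disc ∧ z T + h1 ∈ Disc ∧
        dst u (z 0 + h0) (z T + h1) ≤ T + rho u (z T) * dotp (dir (θ T)) h1 -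
          rho u (z 0) * dotp (dir (θ 0)) h0 + C * (‖h0‖ ^ 2 + ‖h1‖ ^ 2) := by
  obtain ⟨R', hRR', hR', hconf⟩ := geo_confine M hR0 hR T hT.le
  have hR'0 : 0 ≤ R' := hR0.trans hRR'
  obtain ⟨C0, ε0, hC0, hε0, hint⟩ := integrand_le M hR'0 hR'
  refine ⟨C0 * (2 + 2 / T ^ 2) * T, min (ε0 / 2) (ε0 * T / 2), by positivity,
    lt_min (by positivity) (by positivity), ?_⟩
  intro z θ hgeo hz0 h0 h1 hh0 hh1
  have hTne : T ≠ 0 := hT.ne'
  have hTc : (T : ℂ) ≠ 0 := Complex.ofReal_ne_zero.mpr hTne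
  have hzt : ∀ t ∈ Set.Icc (0 : ℝ) T, ‖z t‖ ≤ R' := by
    intro t ht
    refine hconf 0 T z θ hgeo 0 ⟨le_rfl, hT.le⟩ hz0 t ht ?_
    rw [sub_zero, abs_of_nonneg ht.1]
    exact ht.2
  -- the variation field
  set h : ℝ → ℂ := fun t => h0 + (t : ℂ) * ((h1 - h0) / (T : ℂ)) with hh
  set k : ℂ := (h1 - h0) / (T : ℂ) with hk
  have ha0 : ‖h0‖ ≤ ε0 / 2 := hh0.trans (min_le_left _ _)
  have ha1 : ‖h1‖ ≤ ε0 / 2 := hh1.trans (min_le_left _ _)
  have hb0 : ‖h0‖ ≤ ε0 * T / 2 := hh0.trans (min_le_right _ _)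
  have hb1 : ‖h1‖ ≤ ε0 * T / 2 := hh1.trans (min_le_right _ _)
  have hn0 := norm_nonneg h0
  have hn1 := norm_nonneg h1
  have hkn : ‖k‖ ≤ (‖h0‖ + ‖h1‖) / T := by
    rw [hk, norm_div, Complex.norm_real, Real.norm_eq_abs, abs_of_pos hT]
    gcongr
    rw [add_comm]
    exact norm_sub_le _ _
  have hkε : ‖k‖ ≤ ε0 := by
    refine hkn.trans ?_
    rw [div_le_iff₀ hT]
    linarith
  have hk2 : ‖k‖ ^ 2 ≤ 2 / T ^ 2 * (‖h0‖ ^ 2 + ‖h1‖ ^ 2) := by
    have h2 : ‖k‖ ^ 2 ≤ ((‖h0‖ + ‖h1‖) / T) ^ 2 :=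
      pow_le_pow_left₀ (norm_nonneg _) hkn 2
    refine h2.trans ?_
    rw [div_pow, div_mul_eq_mul_div]
    gcongr
    nlinarith [sq_nonneg (‖h0‖ - ‖h1‖)]
  have hform : ∀ t : ℝ, h t = ((1 - t / T : ℝ) : ℂ) * h0 + ((t / T : ℝ) : ℂ) * h1 := by
    intro t
    show h0 + (t : ℂ) * ((h1 - h0) / (T : ℂ)) = _
    push_cast
    field_simp
    ring
  have hhn : ∀ t ∈ Set.Icc (0 : ℝ) T, ‖h t‖ ≤ ‖h0‖ + ‖h1‖ := by
    intro t ht
    have ht1 : 0 ≤ t / T := div_nonneg ht.1 hT.le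
    have ht2 : t / T ≤ 1 := by
      rw [div_le_one hT]
      exact ht.2
    rw [hform t]
    refine (norm_add_le _ _).trans ?_
    rw [norm_mul, norm_mul, Complex.norm_real, Complex.norm_real, Real.norm_eq_abs,
      Real.norm_eq_abs, abs_of_nonneg ht1, abs_of_nonneg (by linarith)]
    nlinarith
  have hhε : ∀ t ∈ Set.Icc (0 : ℝ) T, ‖h t‖ ≤ ε0 := by
    intro t ht
    have h2 := hhn t ht
    linarith
  have hh2 : ∀ t ∈ Set.Icc (0 : ℝ) T, ‖h t‖ ^ 2 ≤ 2 * (‖h0‖ ^ 2 + ‖h1‖ ^ 2) := by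
    intro t ht
    have h2 : ‖h t‖ ^ 2 ≤ (‖h0‖ + ‖h1‖) ^ 2 := pow_le_pow_left₀ (norm_nonneg _) (hhn t ht) 2
    nlinarith [sq_nonneg (‖h0‖ - ‖h1‖)]
  have hhd : ∀ (S : Set ℝ) (t : ℝ), HasDerivWithinAt h k S t := by
    intro S t
    have h2 : HasDerivAt (fun x : ℝ => (x : ℂ) * k) (1 * k) t :=
      (Complex.ofRealCLM.hasDerivAt (x := t)).mul_const _
    rw [one_mul] at h2
    exact (h2.const_add h0).hasDerivWithinAt
  have hz : ∀ t ∈ Set.Icc (0 : ℝ) T,
      HasDerivWithinAt z (dir (θ t) / (rho u (z t) : ℂ)) (Set.Icc 0 T) t :=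
    fun t ht => (hgeo t ht).2.1
  have hmem : ∀ t ∈ Set.Icc (0 : ℝ) T, z t ∈ Disc := fun t ht => (hgeo t ht).1
  have hrho : ∀ t ∈ Set.Icc (0 : ℝ) T, 0 < rho u (z t) := fun t ht => rho_pos u (hmem t ht)
  -- the integrand
  have hpt : ∀ t ∈ Set.Icc (0 : ℝ) T, z t + h t ∈ Disc ∧
      rho u (z t + h t) * ‖dir (θ t) / (rho u (z t) : ℂ) + k‖ ≤
        1 + dotp (grad u (z t)) (h t) +
          rho u (z t) ^ 2 * dotp (dir (θ t) / (rho u (z t) : ℂ)) k +
          C0 * (‖h t‖ ^ 2 + ‖k‖ ^ 2) := by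
    intro t ht
    refine hint (z t) (dir (θ t) / (rho u (z t) : ℂ)) (h t) k (hzt t ht) ?_ (hhε t ht) hkε
    rw [norm_div, norm_dir, Complex.norm_real, Real.norm_eq_abs, abs_of_pos (hrho t ht)]
    have := (hrho t ht).ne'
    field_simp
  have hdotk : ∀ t ∈ Set.Icc (0 : ℝ) T,
      rho u (z t) ^ 2 * dotp (dir (θ t) / (rho u (z t) : ℂ)) k =
        dotp ((rho u (z t) : ℂ) * dir (θ t)) k := by
    intro t ht
    have h2 : dir (θ t) / (rho u (z t) : ℂ) = (((rho u (z t))⁻¹ : ℝ) : ℂ) * dir (θ t) := by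
      rw [div_eq_inv_mul, Complex.ofReal_inv]
    rw [h2, dotp_smul_left, dotp_smul_left]
    have := (hrho t ht).ne'
    field_simp
  -- the primitive
  have hG : ∀ t ∈ Set.Icc (0 : ℝ) T, HasDerivWithinAt
      (fun x => x + dotp ((rho u (z x) : ℂ) * dir (θ x)) (h x))
      (1 + (dotp (grad u (z t)) (h t) + dotp ((rho u (z t) : ℂ) * dir (θ t)) k))
      (Set.Icc 0 T) t := by
    intro t ht
    exact (hasDerivWithinAt_id t _).add (var_dotp_deriv (momentum_deriv M hgeo ht) (hhd _ t))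
  have hσ : ∀ t ∈ Set.Icc (0 : ℝ) T, HasDerivWithinAt (fun x => z x + h x)
      (dir (θ t) / (rho u (z t) : ℂ) + k) (Set.Icc 0 T) t :=
    fun t ht => (hz t ht).add (hhd _ t)
  have hzc : ContinuousOn z (Set.Icc 0 T) := fun t ht => (hz t ht).continuousWithinAt
  have hhc : ContinuousOn h (Set.Icc 0 T) := fun t _ => (hhd _ t).continuousWithinAt
  have hrc : ContinuousOn (fun t => rho u (z t)) (Set.Icc 0 T) :=
    fun t ht => (rho_comp_deriv M (hmem t ht) (hz t ht)).continuousWithinAt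
  have hθc : ContinuousOn θ (Set.Icc 0 T) := fun t ht => (hgeo t ht).2.2.continuousWithinAt
  have hdirc : Continuous dir := by
    unfold dir
    fun_prop
  have hdc : ContinuousOn (fun t => dir (θ t)) (Set.Icc 0 T) := hdirc.comp_continuousOn hθc
  have hrcc : ContinuousOn (fun t => (rho u (z t) : ℂ)) (Set.Icc 0 T) :=
    Complex.continuous_ofReal.comp_continuousOn hrc
  have hσc : ContinuousOn (fun t => dir (θ t) / (rho u (z t) : ℂ) + k) (Set.Icc 0 T) :=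
    (hdc.div hrcc (fun t ht => Complex.ofReal_ne_zero.mpr (hrho t ht).ne')).add
      continuousOn_const
  have hlen := dst_le_length_C1 M hT.le hσ hσc (fun t ht => (hpt t ht).1)
  -- integrate
  set K : ℝ := C0 * (2 + 2 / T ^ 2) * (‖h0‖ ^ 2 + ‖h1‖ ^ 2) with hK
  have hgc : ContinuousOn (fun t => grad u (z t)) (Set.Icc 0 T) :=
    (grad_continuousOn M).comp hzc hmem
  have hdotc : ∀ {f g : ℝ → ℂ}, ContinuousOn f (Set.Icc 0 T) → ContinuousOn g (Set.Icc 0 T) →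
      ContinuousOn (fun t => dotp (f t) (g t)) (Set.Icc 0 T) := by
    intro f g hf hg
    unfold dotp
    exact ((Complex.continuous_re.comp_continuousOn hf).mul
      (Complex.continuous_re.comp_continuousOn hg)).add
      ((Complex.continuous_im.comp_continuousOn hf).mul
      (Complex.continuous_im.comp_continuousOn hg))
  have hG'c : ContinuousOn (fun t => 1 + (dotp (grad u (z t)) (h t) +
      dotp ((rho u (z t) : ℂ) * dir (θ t)) k)) (Set.Icc 0 T) :=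
    continuousOn_const.add ((hdotc hgc hhc).add (hdotc (hrcc.mul hdc) continuousOn_const))
  have hG'i : IntervalIntegrable (fun t => 1 + (dotp (grad u (z t)) (h t) +
      dotp ((rho u (z t) : ℂ) * dir (θ t)) k)) volume 0 T :=
    hG'c.intervalIntegrable_of_Icc hT.le
  have hFTC : ∫ t in (0 : ℝ)..T, (1 + (dotp (grad u (z t)) (h t) +
      dotp ((rho u (z t) : ℂ) * dir (θ t)) k)) =
      (T + dotp ((rho u (z T) : ℂ) * dir (θ T)) (h T)) -
      (0 + dotp ((rho u (z 0) : ℂ) * dir (θ 0)) (h 0)) := by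
    refine intervalIntegral.integral_eq_sub_of_hasDerivAt_of_le hT.le
      (fun t ht => (hG t ht).continuousWithinAt) (fun t ht => ?_) hG'i
    exact (hG t ⟨ht.1.le, ht.2.le⟩).hasDerivAt (Icc_mem_nhds ht.1 ht.2)
  have hIc : ContinuousOn (fun t => rho u (z t + h t) *
      ‖dir (θ t) / (rho u (z t) : ℂ) + k‖) (Set.Icc 0 T) := by
    refine ContinuousOn.mul ?_ hσc.norm
    exact fun t ht => (rho_comp_deriv M (σ := fun x => z x + h x) (hpt t ht).1
      (hσ t ht)).continuousWithinAt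
  have hle : ∫ t in (0 : ℝ)..T, rho u (z t + h t) * ‖dir (θ t) / (rho u (z t) : ℂ) + k‖ ≤
      ∫ t in (0 : ℝ)..T, ((1 + (dotp (grad u (z t)) (h t) +
        dotp ((rho u (z t) : ℂ) * dir (θ t)) k)) + K) := by
    refine intervalIntegral.integral_mono_on hT.le (hIc.intervalIntegrable_of_Icc hT.le)
      (hG'i.add intervalIntegrable_const) (fun t ht => ?_)
    have h2 := (hpt t ht).2
    rw [hdotk t ht] at h2
    have h3 : C0 * (‖h t‖ ^ 2 + ‖k‖ ^ 2) ≤ K := by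
      have h4 := hh2 t ht
      have h5 : ‖h t‖ ^ 2 + ‖k‖ ^ 2 ≤ (2 + 2 / T ^ 2) * (‖h0‖ ^ 2 + ‖h1‖ ^ 2) := by
        linarith
      rw [hK, mul_assoc]
      exact mul_le_mul_of_nonneg_left h5 hC0.le
    linarith
  rw [intervalIntegral.integral_add hG'i intervalIntegrable_const, hFTC,
    intervalIntegral.integral_const, smul_eq_mul] at hle
  have hhT : h T = h1 := by
    rw [hform T, div_self hTne]
    simp
  have hh00 : h 0 = h0 := by
    rw [hform 0]
    simp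
  have hlen' : dst u (z 0 + h0) (z T + h1) ≤
      ∫ t in (0 : ℝ)..T, rho u (z t + h t) * ‖dir (θ t) / (rho u (z t) : ℂ) + k‖ := by
    have h2 := hlen
    simp only [hhT, hh00] at h2
    exact h2
  have hd0 : z 0 + h0 ∈ Disc := by
    have h2 := (hpt 0 ⟨le_rfl, hT.le⟩).1
    rwa [hh00] at h2
  have hd1 : z T + h1 ∈ Disc := by
    have h2 := (hpt T ⟨hT.le, le_rfl⟩).1
    rwa [hhT] at h2
  refine ⟨hd0, hd1, hlen'.trans (hle.trans ?_)⟩
  rw [hhT, hh00, dotp_smul_left, dotp_smul_left]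
  have h6 : (T - 0) * K = C0 * (2 + 2 / T ^ 2) * T * (‖h0‖ ^ 2 + ‖h1‖ ^ 2) := by
    rw [hK]
    ring
  rw [h6]
  linarith

end Pool.Agent.H.MP_bfbbee_an
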