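import Mathlib
import Pool.Agent.H.MP_bfbbee_an.Var
import Pool.Agent.H.MP_bfbbee_an.CalU

/-!
# Directions of calibrated rays are Lipschitz at interior points
-/

namespace Pool.Agent.H.MP_bfbbee_an

open Filter Topology

/-- Upper quadratic bound (semiconcavity). For `R < 1` there are `C, ε > 0` such that for every
1-Lipschitz `b`, every `b`-calibrated minimal ray `(r, θ)` from `y`, `‖y‖ ≤ R`, and every `h` with
`‖h‖ ≤ ε`: `b (y + h) ≤ b y - rho y ⟨dir (θ 0), h⟩ + C ‖h‖²`.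
Proof. `b (y + h) ≤ b (r 1) + dst (y + h) (r 1)`, `b (r 1) = b y - 1`, and
`second_variation` with `T = 1`, `h0 = h`, `h1 = 0`. -/
theorem cal_upper {u : ℂ → ℝ} {A : ℝ} (M : Met u A) {R : ℝ} (hR0 : 0 ≤ R) (hR : R < 1) :
    ∃ C ε : ℝ, 0 < C ∧ 0 < ε ∧ ∀ (b : ℂ → ℝ) (y : ℂ) (r : ℝ → ℂ) (θ : ℝ → ℝ), Lip1 u b →
      Cal u b y r → GRay u r θ → ‖y‖ ≤ R → ∀ h : ℂ, ‖h‖ ≤ ε →
        y + h ∈ Disc ∧ b (y + h) ≤ b y - rho u y * dotp (dir (θ 0)) h + C * ‖h‖ ^ 2 := by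
  obtain ⟨C, ε, hC, hε, H⟩ := second_variation M hR0 hR one_pos
  refine ⟨C, ε, hC, hε, ?_⟩
  intro b y r θ hb hr hg hy h hh
  obtain ⟨h1, h2, h3⟩ := H r θ (hg.geo 1 one_pos) (by rw [hr.start]; exact hy) h 0 hh
    (by simpa using hε.le)
  rw [hr.start] at h1 h3
  have h4 : dotp (dir (θ 1)) 0 = 0 := by simp [dotp]
  rw [h4, add_zero] at h3
  have h5 := hb (y + h) h1 (r 1) (hr.mem 1 zero_le_one)
  have h6 := hr.cal 1 zero_le_one
  refine ⟨h1, ?_⟩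
  have h7 : ‖(0 : ℂ)‖ ^ 2 = 0 := by simp
  rw [h7] at h3
  linarith

/-- Lower quadratic bound at an interior point `p = r s`, `s > 0`, of a calibrated ray:
`b (p + h) ≥ b p - rho p ⟨dir (θ s), h⟩ - C ‖h‖²` for small `h`.
Proof. `b (p + h) ≥ b (r 0) - dst (r 0) (p + h)`, `b (r 0) = b p + s`, and
`second_variation` with `T = s`, `h0 = 0`, `h1 = h`, for the geodesic `(r, θ)` on `[0, s]`. -/
theorem cal_lower {u : ℂ → ℝ} {A : ℝ} (M : Met u A) {b : ℂ → ℝ} (hb : Lip1 u b) {x : ℂ}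
    {r : ℝ → ℂ} {θ : ℝ → ℝ} (hr : Cal u b x r) (hg : GRay u r θ) {s : ℝ} (hs : 0 < s) :
    ∃ C ε : ℝ, 0 < C ∧ 0 < ε ∧ ∀ h : ℂ, ‖h‖ ≤ ε →
      b (r s) - rho u (r s) * dotp (dir (θ s)) h - C * ‖h‖ ^ 2 ≤ b (r s + h) := by
  have hmem : ‖r 0‖ < 1 := by
    have := hr.mem 0 le_rfl
    simpa [Disc] using this
  obtain ⟨C, ε, hC, hε, H⟩ := second_variation M (norm_nonneg (r 0)) hmem hs
  refine ⟨C, ε, hC, hε, ?_⟩
  intro h hh
  obtain ⟨h1, h2, h3⟩ := H r θ (hg.geo s hs) le_rfl 0 h (by simpa using hε.le) hh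
  have h4 : dotp (dir (θ 0)) 0 = 0 := by simp [dotp]
  have h7 : ‖(0 : ℂ)‖ ^ 2 = 0 := by simp
  rw [h4, h7, add_zero] at h3
  have h5 := hb (r 0) (hr.mem 0 le_rfl) (r s + h) h2
  have h6 := hr.cal s hs.le
  rw [hr.start] at h5 h3
  linarith

/-- An elementary lemma. Let `P, Q` be complex numbers, `y, p` points and suppose that for all `z`
with `‖z - y‖ = ‖y - p‖`: `⟨Q - P, z - y⟩ ≤ C (‖z - p‖² + ‖y - p‖² + ‖z - y‖²)`. Then
`‖Q - P‖ * ‖y - p‖ ≤ 6 C ‖y - p‖²`. (Take `z = y + ‖y - p‖ (Q - P) / ‖Q - P‖`; then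
`‖z - p‖ ≤ 2 ‖y - p‖`.) -/
theorem quad_lemma {P Q y p : ℂ} {C : ℝ} (hC : 0 ≤ C)
    (h : ∀ z : ℂ, ‖z - y‖ = ‖y - p‖ → dotp (Q - P) (z - y) ≤
      C * (‖z - p‖ ^ 2 + ‖y - p‖ ^ 2 + ‖z - y‖ ^ 2)) :
    ‖Q - P‖ * ‖y - p‖ ≤ 6 * C * ‖y - p‖ ^ 2 := by
  by_cases h0 : Q - P = 0
  · rw [h0, norm_zero, zero_mul]
    positivity
  · have hD : 0 < ‖Q - P‖ := norm_pos_iff.mpr h0
    set d := ‖y - p‖ with hd
    have hd0 : 0 ≤ d := norm_nonneg _
    set z : ℂ := y + ((d / ‖Q - P‖ : ℝ) : ℂ) * (Q - P) with hz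
    have hzy : z - y = ((d / ‖Q - P‖ : ℝ) : ℂ) * (Q - P) := by rw [hz]; ring
    have hn : ‖z - y‖ = d := by
      rw [hzy, norm_mul, Complex.norm_real, Real.norm_of_nonneg (by positivity)]
      field_simp
    have h1 := h z hn
    rw [hn] at h1
    have h2 : dotp (Q - P) (z - y) = d * ‖Q - P‖ := by
      rw [hzy, dotp_smul_right, dotp_self]
      field_simp
    rw [h2] at h1
    have h3 : ‖z - p‖ ≤ 2 * d := by
      have : z - p = (z - y) + (y - p) := by ring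
      rw [this]
      calc ‖(z - y) + (y - p)‖ ≤ ‖z - y‖ + ‖y - p‖ := norm_add_le _ _
        _ = 2 * d := by rw [hn, ← hd]; ring
    have h4 : ‖z - p‖ ^ 2 ≤ 4 * d ^ 2 := by
      have h5 : ‖z - p‖ ^ 2 ≤ (2 * d) ^ 2 := by gcongr
      nlinarith
    have h6 : C * (‖z - p‖ ^ 2 + d ^ 2 + d ^ 2) ≤ C * (6 * d ^ 2) := by
      apply mul_le_mul_of_nonneg_left _ hC
      linarith
    nlinarith

/-- Lipschitz dependence of the directions at an interior point `p = r s` of a calibrated ray: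
there are `C, ε > 0` such that for every `y` with `‖y - p‖ ≤ ε` and every `b`-calibrated minimal
ray `(r', θ')` from `y`: `‖dir (θ' 0) - dir (θ s)‖ ≤ C ‖y - p‖`.
Proof. Let `P = rho p * dir (θ s)`, `Q = rho y * dir (θ' 0)`. For `z` near `p`:
`b p - ⟨P, z - p⟩ - C ‖z - p‖² ≤ b z` (`cal_lower`), `b z ≤ b y - ⟨Q, z - y⟩ + C ‖z - y‖²`
(`cal_upper` at `y`) and `b y ≤ b p - ⟨P, y - p⟩ + C ‖y - p‖²` (`cal_upper` at `p`, for the shifted
ray `t ↦ r (s + t)`). Adding: `⟨Q - P, z - y⟩ ≤ C (‖z - p‖² + ‖y - p‖² + ‖z - y‖²)`. By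
`quad_lemma`, `‖Q - P‖ ≤ 6 C ‖y - p‖` (for `y = p` apply the inequality for all small `z - y` to
get `Q = P`, or use `cal_unique`). Finally `rho` is locally Lipschitz and bounded below. -/
theorem cal_dir_lip {u : ℂ → ℝ} {A : ℝ} (M : Met u A) {b : ℂ → ℝ} (hb : Lip1 u b) {x : ℂ}
    {r : ℝ → ℂ} {θ : ℝ → ℝ} (hr : Cal u b x r) (hg : GRay u r θ) {s : ℝ} (hs : 0 < s) :
    ∃ C ε : ℝ, 0 < C ∧ 0 < ε ∧ ∀ (y : ℂ) (r' : ℝ → ℂ) (θ' : ℝ → ℝ), ‖y - r s‖ ≤ ε →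
      Cal u b y r' → GRay u r' θ' → ‖dir (θ' 0) - dir (θ s)‖ ≤ C * ‖y - r s‖ := by
  have hp : r s ∈ Disc := hr.mem s hs.le
  have hp1 : ‖r s‖ < 1 := by simpa [Disc] using hp
  have hp0 : 0 ≤ ‖r s‖ := norm_nonneg _
  have hR0 : 0 ≤ (1 + ‖r s‖) / 2 := by positivity
  have hR1 : (1 + ‖r s‖) / 2 < 1 := by linarith
  obtain ⟨Cu, εu, hCu, hεu, Hu⟩ := cal_upper M hR0 hR1
  obtain ⟨Cl, εl, hCl, hεl, Hl⟩ := cal_lower M hb hr hg hs
  have hcd : ContDiffAt ℝ 1 (rho u) (r s) :=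
    ((rho_contDiffOn M).contDiffAt (Metric.isOpen_ball.mem_nhds hp)).of_le (by norm_num)
  obtain ⟨K, t, ht, hK⟩ := hcd.exists_lipschitzOnWith
  obtain ⟨δ, hδ, hball⟩ := Metric.mem_nhds_iff.mp ht
  have hrp : 0 < rho u (r s) := rho_pos u hp
  set C := Cu + Cl with hC
  have hC0 : 0 < C := by positivity
  refine ⟨(6 * C + K) / rho u (r s), min (min εu (εl / 2)) (min (δ / 2) ((1 - ‖r s‖) / 2)),
    ?_, ?_, ?_⟩
  · have : (0 : ℝ) ≤ K := K.2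
    positivity
  · have : 0 < (1 - ‖r s‖) / 2 := by linarith
    simp only [lt_min_iff]
    exact ⟨⟨hεu, by positivity⟩, by positivity, this⟩
  intro y r' θ' hy hr' hg'
  simp only [le_min_iff] at hy
  obtain ⟨⟨hy1, hy2⟩, hy3, hy4⟩ := hy
  set p := r s with hpdef
  set d := ‖y - p‖ with hd
  have hd0 : 0 ≤ d := norm_nonneg _
  have hyR : ‖y‖ ≤ (1 + ‖p‖) / 2 := by
    have : ‖y‖ ≤ ‖y - p‖ + ‖p‖ := by
      calc ‖y‖ = ‖(y - p) + p‖ := by congr 1; ring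
        _ ≤ ‖y - p‖ + ‖p‖ := norm_add_le _ _
    linarith
  rcases eq_or_lt_of_le hd0 with hd1 | hd1
  · -- y = p
    have hyp : y = p := by
      have : y - p = 0 := norm_eq_zero.mp hd1.symm
      exact sub_eq_zero.mp this
    have hr2 : Cal u b (r s) r' := by
      rw [← hpdef, ← hyp]; exact hr'
    have h1 := (cal_unique M hb hr hg hs hr2 hg' (le_refl (0 : ℝ))).2
    rw [add_zero] at h1
    rw [h1, sub_self, norm_zero, ← hd1, mul_zero]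
  -- main case
  have hshift : Cal u b p (fun t => r (s + t)) := by
    refine ⟨by simp [hpdef], fun t ht => hr.mem (s + t) (by linarith), ?_, ?_⟩
    · intro t1 h1 t2 h2
      have := hr.one (s + t1) (by linarith) (s + t2) (by linarith)
      have e : s + t1 - (s + t2) = t1 - t2 := by ring
      rwa [e] at this
    · intro t ht
      have h1 := hr.cal (s + t) (by linarith)
      have h2 := hr.cal s hs.le
      rw [h1, hpdef, h2]; ring
  have hgs : GRay u (fun t => r (s + t)) (fun t => θ (s + t)) := hg.shift hs.le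
  have hmain : ∀ z : ℂ, ‖z - y‖ = ‖y - p‖ →
      dotp ((rho u y : ℂ) * dir (θ' 0) - (rho u p : ℂ) * dir (θ s)) (z - y) ≤
      C * (‖z - p‖ ^ 2 + ‖y - p‖ ^ 2 + ‖z - y‖ ^ 2) := by
    intro z hz
    have hzp : ‖z - p‖ ≤ 2 * d := by
      have : z - p = (z - y) + (y - p) := by ring
      rw [this]
      calc ‖(z - y) + (y - p)‖ ≤ ‖z - y‖ + ‖y - p‖ := norm_add_le _ _
        _ = 2 * d := by rw [hz, ← hd]; ring
    have a1 := Hl (z - p) (by linarith)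
    have a2 := (Hu b y r' θ' hb hr' hg' hyR (z - y) (by rw [hz]; exact hy1)).2
    have a3 := (Hu b p _ _ hb hshift hgs (by linarith) (y - p) hy1).2
    rw [add_sub_cancel] at a1 a2 a3
    have a4 : dotp (dir (θ s)) (z - p) = dotp (dir (θ s)) (z - y) + dotp (dir (θ s)) (y - p) := by
      rw [← dotp_add_right]; congr 1; ring
    simp only [add_zero] at a3
    rw [dotp_sub_left, dotp_smul_left, dotp_smul_left]
    rw [a4] at a1
    have b1 : 0 ≤ ‖z - p‖ ^ 2 := by positivity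
    have b2 : 0 ≤ ‖y - p‖ ^ 2 := by positivity
    have b3 : 0 ≤ ‖z - y‖ ^ 2 := by positivity
    have c1 : 0 ≤ Cu * ‖z - p‖ ^ 2 := by positivity
    have c2 : 0 ≤ Cl * ‖y - p‖ ^ 2 := by positivity
    have c3 : 0 ≤ Cl * ‖z - y‖ ^ 2 := by positivity
    have e : C * (‖z - p‖ ^ 2 + ‖y - p‖ ^ 2 + ‖z - y‖ ^ 2) =
        Cl * ‖z - p‖ ^ 2 + Cu * ‖y - p‖ ^ 2 + Cu * ‖z - y‖ ^ 2 +
        (Cu * ‖z - p‖ ^ 2 + Cl * ‖y - p‖ ^ 2 + Cl * ‖z - y‖ ^ 2) := by rw [hC]; ring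
    rw [e]
    nlinarith
  have hq := quad_lemma hC0.le hmain
  have hq2 : ‖(rho u y : ℂ) * dir (θ' 0) - (rho u p : ℂ) * dir (θ s)‖ ≤ 6 * C * d := by
    rw [← hd] at hq
    have h1 : ‖(rho u y : ℂ) * dir (θ' 0) - (rho u p : ℂ) * dir (θ s)‖ * d ≤ (6 * C * d) * d := by
      calc _ ≤ 6 * C * d ^ 2 := hq
        _ = (6 * C * d) * d := by ring
    exact le_of_mul_le_mul_right h1 hd1
  have hrho : |rho u y - rho u p| ≤ K * d := by
    have hyt : y ∈ t := hball (by rw [Metric.mem_ball, dist_eq_norm]; linarith)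
    have hpt : p ∈ t := mem_of_mem_nhds ht
    have := hK.dist_le_mul y hyt p hpt
    rwa [Real.dist_eq, dist_eq_norm] at this
  have hfin : rho u p * ‖dir (θ' 0) - dir (θ s)‖ ≤ (6 * C + K) * d := by
    have e : (rho u p : ℂ) * (dir (θ' 0) - dir (θ s)) =
        ((rho u y : ℂ) * dir (θ' 0) - (rho u p : ℂ) * dir (θ s)) -
          ((rho u y - rho u p : ℝ) : ℂ) * dir (θ' 0) := by push_cast; ring
    have e2 : rho u p * ‖dir (θ' 0) - dir (θ s)‖ =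
        ‖(rho u p : ℂ) * (dir (θ' 0) - dir (θ s))‖ := by
      rw [norm_mul, Complex.norm_real, Real.norm_of_nonneg hrp.le]
    rw [e2, e]
    calc _ ≤ ‖(rho u y : ℂ) * dir (θ' 0) - (rho u p : ℂ) * dir (θ s)‖ +
          ‖((rho u y - rho u p : ℝ) : ℂ) * dir (θ' 0)‖ := norm_sub_le _ _
      _ ≤ 6 * C * d + K * d := by
        refine add_le_add hq2 ?_
        rw [norm_mul, norm_dir, mul_one, Complex.norm_real, Real.norm_eq_abs]
        exact hrho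
      _ = (6 * C + K) * d := by ring
  rw [div_mul_eq_mul_div, le_div_iff₀ hrp]
  linarith

end Pool.Agent.H.MP_bfbbee_an
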