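import Mathlib
import Pool.Agent.H.MP_bfbbee_an.Mob

/-!
# Dynamics of Möbius maps on the unit circle
-/

namespace Pool.Agent.H.MP_bfbbee_an

open Filter Topology

/-- If a Möbius map `h` of the disc sends a point `y` of `closedBall 0 R`, `R < 1`, to `z`, then
`1 - |α|² ≤ 4 (1 - |z|²) / (1 - R²)` for its parameter `α`. (`1 - |h y|² = (1 - |y|²) (1 - |α|²) /
|1 - conj α y|²` and `|1 - conj α y| ≤ 2`.) -/
theorem param_le {w α y : ℂ} (hw : ‖w‖ = 1) (hα : ‖α‖ < 1) {R : ℝ} (hR0 : 0 ≤ R) (hR : R < 1)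
    (hy : ‖y‖ ≤ R) : 1 - ‖α‖ ^ 2 ≤ 4 * (1 - ‖mob w α y‖ ^ 2) / (1 - R ^ 2) := by
  have h1 := one_sub_mob hw hα (hy.trans hR.le)
  have h2 := norm_mobd (z := y) hw hα
  have hy1 : ‖y‖ ≤ 1 := hy.trans hR.le
  have hden : ‖1 - (starRingEnd ℂ) α * y‖ ≤ 2 := by
    have h3 := norm_sub_le (1 : ℂ) ((starRingEnd ℂ) α * y)
    rw [norm_mul, RCLike.norm_conj, norm_one] at h3
    have h4 : ‖α‖ * ‖y‖ ≤ 1 := mul_le_one₀ hα.le (norm_nonneg _) hy1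
    linarith
  have hpos : 0 < ‖1 - (starRingEnd ℂ) α * y‖ := norm_pos_iff.2 (den_ne hα hy1)
  have hα2 : 0 ≤ 1 - ‖α‖ ^ 2 := by nlinarith [norm_nonneg α]
  have hR2 : 0 < 1 - R ^ 2 := by nlinarith
  have hyR : 1 - R ^ 2 ≤ 1 - ‖y‖ ^ 2 := by nlinarith [norm_nonneg y]
  rw [le_div_iff₀ hR2, h1, h2]
  have h5 : (1 - ‖α‖ ^ 2) / 4 ≤ (1 - ‖α‖ ^ 2) / ‖1 - (starRingEnd ℂ) α * y‖ ^ 2 := by
    apply div_le_div_of_nonneg_left hα2 (by positivity)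
    nlinarith
  have h6 : (1 - R ^ 2) * ((1 - ‖α‖ ^ 2) / 4) ≤
      (1 - ‖y‖ ^ 2) * ((1 - ‖α‖ ^ 2) / ‖1 - (starRingEnd ℂ) α * y‖ ^ 2) :=
    mul_le_mul hyR h5 (by positivity) (hR2.le.trans hyR)
  linarith

/-- One of two distinct boundary points is mapped near `z`. Let `h = mob w α`, `h y = z` with
`‖y‖ ≤ R < 1`, and let `a ≠ b` be on the unit circle. Then for `p = a` or for `p = b`:
`‖h p - z‖ ≤ 4 (1 - |α|²) / ((1 - R) ‖a - b‖)`.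
(`mob_sub`: `‖h p - h y‖ = ‖p - y‖ (1 - |α|²) / (‖1 - conj α p‖ ‖1 - conj α y‖)`, with `‖p - y‖ ≤ 2`,
`‖1 - conj α y‖ ≥ 1 - R`, and `‖1 - conj α p‖ = ‖p - α‖` for `‖p‖ = 1`; one of
`‖a - α‖, ‖b - α‖` is at least `‖a - b‖ / 2`.) -/
theorem near_image {w α y : ℂ} (hw : ‖w‖ = 1) (hα : ‖α‖ < 1) {R : ℝ} (hR0 : 0 ≤ R) (hR : R < 1)
    (hy : ‖y‖ ≤ R) {a b : ℂ} (ha : ‖a‖ = 1) (hb : ‖b‖ = 1) (hab : a ≠ b) :
    ‖mob w α a - mob w α y‖ ≤ 4 * (1 - ‖α‖ ^ 2) / ((1 - R) * ‖a - b‖) ∨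
    ‖mob w α b - mob w α y‖ ≤ 4 * (1 - ‖α‖ ^ 2) / ((1 - R) * ‖a - b‖) := by
  have hy1 : ‖y‖ ≤ 1 := hy.trans hR.le
  have hα2 : 0 ≤ 1 - ‖α‖ ^ 2 := by nlinarith [norm_nonneg α]
  have hab' : 0 < ‖a - b‖ := norm_pos_iff.2 (sub_ne_zero.2 hab)
  have hR1 : 0 < 1 - R := by linarith
  have hden : 1 - R ≤ ‖1 - (starRingEnd ℂ) α * y‖ := by
    have h3 := norm_sub_norm_le (1 : ℂ) ((starRingEnd ℂ) α * y)
    rw [norm_mul, RCLike.norm_conj, norm_one] at h3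
    have h4 : ‖α‖ * ‖y‖ ≤ R := by nlinarith [norm_nonneg α, norm_nonneg y]
    linarith
  have key : ∀ p : ℂ, ‖p‖ = 1 → ‖a - b‖ / 2 ≤ ‖p - α‖ →
      ‖mob w α p - mob w α y‖ ≤ 4 * (1 - ‖α‖ ^ 2) / ((1 - R) * ‖a - b‖) := by
    intro p hp hpα
    have h1 := mob_sub hw hα (z := p) (z' := y) hp.le hy1
    have h2 : ‖1 - (starRingEnd ℂ) α * p‖ = ‖p - α‖ := by
      have h3 : p * (starRingEnd ℂ) p = 1 := by
        rw [Complex.mul_conj, Complex.normSq_eq_norm_sq, hp]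
        norm_num
      have h4 : 1 - (starRingEnd ℂ) α * p = p * (starRingEnd ℂ) (p - α) := by
        rw [map_sub, mul_sub, h3]
        ring
      rw [h4, norm_mul, hp, one_mul, RCLike.norm_conj]
    rw [h1, h2]
    have h5 : ‖p - y‖ ≤ 2 := by
      have h6 := norm_sub_le p y
      rw [hp] at h6
      linarith
    have hp0 : 0 < ‖p - α‖ := lt_of_lt_of_le (by positivity) hpα
    have hd0 : 0 < ‖1 - (starRingEnd ℂ) α * y‖ := lt_of_lt_of_le hR1 hden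
    rw [div_le_div_iff₀ (by positivity) (by positivity)]
    have h7 : (‖a - b‖ / 2) * (1 - R) ≤ ‖p - α‖ * ‖1 - (starRingEnd ℂ) α * y‖ :=
      mul_le_mul hpα hden hR1.le (norm_nonneg _)
    have h8 : ‖p - y‖ * (1 - ‖α‖ ^ 2) ≤ 2 * (1 - ‖α‖ ^ 2) :=
      mul_le_mul_of_nonneg_right h5 hα2
    have h9 : 0 ≤ (1 - R) * ‖a - b‖ := by positivity
    calc ‖p - y‖ * (1 - ‖α‖ ^ 2) * ((1 - R) * ‖a - b‖)
        ≤ 2 * (1 - ‖α‖ ^ 2) * ((1 - R) * ‖a - b‖) := mul_le_mul_of_nonneg_right h8 h9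
      _ = 4 * (1 - ‖α‖ ^ 2) * ((‖a - b‖ / 2) * (1 - R)) := by ring
      _ ≤ 4 * (1 - ‖α‖ ^ 2) * (‖p - α‖ * ‖1 - (starRingEnd ℂ) α * y‖) :=
        mul_le_mul_of_nonneg_left h7 (by positivity)
  rcases le_or_gt (‖a - b‖ / 2) ‖a - α‖ with h | h
  · exact Or.inl (key a ha h)
  · refine Or.inr (key b hb ?_)
    have h3 : ‖a - b‖ ≤ ‖a - α‖ + ‖b - α‖ := by
      have h4 := norm_sub_le (a - α) (b - α)
      have h5 : a - α - (b - α) = a - b := by ring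
      rw [h5] at h4
      exact h4
    linarith

/-- Density of an invariant subset of the circle. Let `G` be a set of parameters of Möbius maps,
closed under inverses, which moves every point of the disc into `closedBall 0 R`, `R < 1`, and let
`Ξ` be a `G`-invariant closed subset of the unit circle with two distinct points `a ≠ b`. Then `Ξ`
contains the whole circle.
Proof. Let `‖ζ‖ = 1` and `z_n = (1 - 1/(n+1)) ζ`. Choose `g_n` in `G` with `‖g_n z_n‖ ≤ R` and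
`h_n = g_n⁻¹`, so that `h_n (g_n z_n) = z_n` (`mob_inv`). By `param_le` the parameter of `h_n`
satisfies `1 - |α_n|² → 0`, so by `near_image` one of the points `h_n a`, `h_n b` of `Ξ` is at
distance `→ 0` from `z_n`. Hence `ζ` is in the closure of `Ξ`. -/
theorem invariant_closed {G : Set (ℂ × ℂ)} (hG : ∀ g ∈ G, ‖g.1‖ = 1 ∧ ‖g.2‖ < 1)
    (hinv : ∀ g ∈ G, ((starRingEnd ℂ) g.1, -(g.1 * g.2)) ∈ G) {R : ℝ} (hR0 : 0 ≤ R) (hR : R < 1)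
    (hco : ∀ z ∈ Disc, ∃ g ∈ G, ‖mob g.1 g.2 z‖ ≤ R) {Ξ : Set ℂ} (hcl : IsClosed Ξ)
    (hsub : ∀ ξ ∈ Ξ, ‖ξ‖ = 1) (hΞ : ∀ g ∈ G, ∀ ξ ∈ Ξ, mob g.1 g.2 ξ ∈ Ξ) {a b : ℂ} (ha : a ∈ Ξ)
    (hb : b ∈ Ξ) (hab : a ≠ b) {ζ : ℂ} (hζ : ‖ζ‖ = 1) : ζ ∈ Ξ := by
  have ha1 : ‖a‖ = 1 := hsub a ha
  have hb1 : ‖b‖ = 1 := hsub b hb
  have hab' : 0 < ‖a - b‖ := norm_pos_iff.2 (sub_ne_zero.2 hab)
  have hR1 : 0 < 1 - R := by linarith
  have hR2 : 0 < 1 - R ^ 2 := by nlinarith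
  rw [← hcl.closure_eq, Metric.mem_closure_iff]
  intro ε hε
  set K : ℝ := 4 * (4 * 2 / (1 - R ^ 2)) / ((1 - R) * ‖a - b‖) with hK
  have hK0 : 0 < K := by positivity
  set δ : ℝ := min 1 (ε / (2 * (1 + K))) with hδ
  have hδ0 : 0 < δ := lt_min one_pos (by positivity)
  have hδ1 : δ ≤ 1 := min_le_left _ _
  have hδε : (1 + K) * δ < ε := by
    have h1 : δ ≤ ε / (2 * (1 + K)) := min_le_right _ _
    have h2 : (1 + K) * δ ≤ (1 + K) * (ε / (2 * (1 + K))) :=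
      mul_le_mul_of_nonneg_left h1 (by positivity)
    have h3 : (1 + K) * (ε / (2 * (1 + K))) = ε / 2 := by
      field_simp
    linarith
  set z : ℂ := ((1 - δ : ℝ) : ℂ) * ζ with hz
  have hzn : ‖z‖ = 1 - δ := by
    rw [hz, norm_mul, hζ, mul_one, Complex.norm_real, Real.norm_of_nonneg (by linarith)]
  have hzD : z ∈ Disc := by
    rw [Disc, mem_ball_zero_iff, hzn]
    linarith
  obtain ⟨g, hg, hgz⟩ := hco z hzD
  obtain ⟨hw, ha'⟩ := hG g hg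
  obtain ⟨hw2, ha2⟩ := hG _ (hinv g hg)
  have hz1 : ‖z‖ ≤ 1 := by rw [hzn]; linarith
  have hback := mob_inv hw ha' hz1
  have h1 := param_le hw2 ha2 hR0 hR hgz
  have h2 := near_image hw2 ha2 hR0 hR hgz ha1 hb1 hab
  simp only [hback] at h1 h2
  have h3 : 1 - ‖z‖ ^ 2 ≤ 2 * δ := by
    rw [hzn]
    nlinarith
  have h4 : 1 - ‖-(g.1 * g.2)‖ ^ 2 ≤ 4 * (2 * δ) / (1 - R ^ 2) :=
    h1.trans (div_le_div_of_nonneg_right (by linarith) hR2.le)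
  have h5 : 4 * (1 - ‖-(g.1 * g.2)‖ ^ 2) / ((1 - R) * ‖a - b‖) ≤ K * δ := by
    have h6 : K * δ = 4 * (4 * (2 * δ) / (1 - R ^ 2)) / ((1 - R) * ‖a - b‖) := by
      rw [hK]
      field_simp
    rw [h6]
    exact div_le_div_of_nonneg_right (by linarith) (by positivity)
  have h7 : ‖ζ - z‖ = δ := by
    have h8 : ζ - z = (δ : ℂ) * ζ := by
      rw [hz]
      push_cast
      ring
    rw [h8, norm_mul, hζ, mul_one, Complex.norm_real, Real.norm_of_nonneg hδ0.le]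
  have fin : ∀ p ∈ Ξ, ‖mob ((starRingEnd ℂ) g.1) (-(g.1 * g.2)) p - z‖ ≤
      4 * (1 - ‖-(g.1 * g.2)‖ ^ 2) / ((1 - R) * ‖a - b‖) → ∃ q ∈ Ξ, dist ζ q < ε := by
    intro p hp hpz
    refine ⟨_, hΞ _ (hinv g hg) p hp, ?_⟩
    rw [dist_eq_norm]
    have h8 := norm_sub_le (ζ - z) (mob ((starRingEnd ℂ) g.1) (-(g.1 * g.2)) p - z)
    have h9 : ζ - z - (mob ((starRingEnd ℂ) g.1) (-(g.1 * g.2)) p - z) =
        ζ - mob ((starRingEnd ℂ) g.1) (-(g.1 * g.2)) p := by ring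
    rw [h9, h7] at h8
    have h10 := hpz.trans h5
    have h11 : δ + K * δ = (1 + K) * δ := by ring
    show ‖ζ - mob ((starRingEnd ℂ) g.1) (-(g.1 * g.2)) p‖ < ε
    linarith
  rcases h2 with h | h
  · exact fin a ha h
  · exact fin b hb h

/-- A Möbius map of the disc which fixes every point of the unit circle is the identity of the
disc; so some point of the circle is moved if `‖mob w a z‖ ≠ ‖z‖` for some `z` in the disc.
(If `w (ξ - a) = ξ (1 - conj a ξ)` for `ξ = 1, -1, I`, then `a = 0` and `w = 1`: adding the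
equations for `1` and `-1`: `-2 w a = 2 conj a`... compare: `ξ = 1`: `w - w a = 1 - conj a`;
`ξ = -1`: `-w - w a = -1 - conj a`; so `w = 1` and `w a = conj a`, `a` real; `ξ = I`:
`w (I - a) = I + conj a`, so `a = -a`, `a = 0`.) -/
theorem exists_moved {w a : ℂ} (hw : ‖w‖ = 1) (ha : ‖a‖ < 1) {z : ℂ} (hz : z ∈ Disc)
    (h : ‖mob w a z‖ ≠ ‖z‖) : ∃ ξ : ℂ, ‖ξ‖ = 1 ∧ mob w a ξ ≠ ξ := by
  by_contra hcon
  push Not at hcon
  have key : ∀ ξ : ℂ, ‖ξ‖ = 1 → w * (ξ - a) = ξ * (1 - (starRingEnd ℂ) a * ξ) := by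
    intro ξ hξ
    have h1 := hcon ξ hξ
    unfold mob at h1
    exact (div_eq_iff (den_ne ha hξ.le)).1 h1
  have e1 := key 1 (by simp)
  have e2 := key (-1) (by simp)
  have e3 := key Complex.I (by simp)
  have hw1 : w = 1 := by linear_combination (1 / 2) * e1 - (1 / 2) * e2
  subst hw1
  have hI : Complex.I * Complex.I = -1 := Complex.I_mul_I
  have ha0 : a = 0 := by
    linear_combination (-(1 / 2)) * e1 + (-(1 / 2)) * e3 + (1 / 2) * (starRingEnd ℂ) a * hI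
  subst ha0
  apply h
  unfold mob
  simp

end Pool.Agent.H.MP_bfbbee_an
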