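import Mathlib
import Pool.Agent.H.MP_bfbbee_an.CalU

/-!
# Limits of good functions
-/

namespace Pool.Agent.H.MP_bfbbee_an

open Filter Topology

/-- Two-sided form of the Lipschitz condition. -/
theorem GoodL_abs {u : ℂ → ℝ} {b : ℂ → ℝ} (hb : Lip1 u b) {x y : ℂ} (hx : x ∈ Disc)
    (hy : y ∈ Disc) : |b x - b y| ≤ dst u x y := by
  rw [abs_le]
  have h1 := hb x hx y hy
  have h2 := hb y hy x hx
  rw [dst_comm u y x] at h2
  constructor <;> linarith

/-- Values of converging Lipschitz functions at converging points converge. -/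
theorem GoodL_move {u : ℂ → ℝ} {A : ℝ} (M : Met u A) {bn : ℕ → ℂ → ℝ} {b : ℂ → ℝ}
    (hb : ∀ᶠ n in ul, Lip1 u (bn n)) (hlim : ∀ y ∈ Disc, Tendsto (fun n => bn n y) ul (𝓝 (b y)))
    {yn : ℕ → ℂ} {y : ℂ} (hy : y ∈ Disc) (hyn : Tendsto yn ul (𝓝 y))
    (hmem : ∀ᶠ n in ul, yn n ∈ Disc) : Tendsto (fun n => bn n (yn n)) ul (𝓝 (b y)) := by
  have h1 : Tendsto (fun n => dst u (yn n) y) ul (𝓝 0) := by
    have h := dst_tendsto M hy hy hyn (tendsto_const_nhds (x := y) (f := ul))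
    rwa [dst_self M hy] at h
  have h2 : Tendsto (fun n => bn n (yn n) - bn n y) ul (𝓝 0) := by
    refine squeeze_zero_norm' ?_ h1
    filter_upwards [hb, hmem] with n hn hn'
    rw [Real.norm_eq_abs]
    exact GoodL_abs hn hn' hy
  have h3 := h2.add (hlim y hy)
  simpa using h3

/-- Normalised 1-Lipschitz functions have pointwise `ul`-limits on the disc:
if `b_n` is 1-Lipschitz and `b_n 0 = 0`, then `|b_n y| ≤ dst 0 y`, so `b_n y` has an `ul`-limit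
`b y` for every `y` in the disc, and `b` is 1-Lipschitz. -/
theorem lip_limit {u : ℂ → ℝ} {A : ℝ} (M : Met u A) {bn : ℕ → ℂ → ℝ}
    (hb : ∀ᶠ n in ul, Lip1 u (bn n) ∧ bn n 0 = 0) :
    ∃ b : ℂ → ℝ, Lip1 u b ∧ ∀ y ∈ Disc, Tendsto (fun n => bn n y) ul (𝓝 (b y)) := by
  have h0 : (0 : ℂ) ∈ Disc := by simp [Disc]
  have hex : ∀ y : ℂ, ∃ c : ℝ, y ∈ Disc → Tendsto (fun n => bn n y) ul (𝓝 c) := by
    intro y
    by_cases hy : y ∈ Disc
    · have h1 : ∀ᶠ n in ul, bn n y ∈ Set.Icc (-(dst u y 0)) (dst u y 0) := by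
        filter_upwards [hb] with n hn
        have h2 := GoodL_abs hn.1 hy h0
        rw [hn.2, sub_zero] at h2
        exact ⟨(abs_le.mp h2).1, (abs_le.mp h2).2⟩
      obtain ⟨c, -, hc⟩ := exists_ul_lim isCompact_Icc h1
      exact ⟨c, fun _ => hc⟩
    · exact ⟨0, fun h => absurd h hy⟩
  choose b hbl using hex
  refine ⟨b, ?_, hbl⟩
  intro x hx y hy
  have h1 := (hbl x hx).sub (hbl y hy)
  refine le_of_tendsto h1 ?_
  filter_upwards [hb] with n hn
  exact hn.1 x hx y hy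

/-- Limits of calibrated rays are calibrated: `b_n` 1-Lipschitz, `b_n → b` pointwise on the disc,
(r_n, θ_n) `b_n`-calibrated minimal rays from `x_n → x` in the disc. Then there is a
`b`-calibrated minimal ray (r, θ) from `x` with `r_n t → r t`, `dir (θ_n 0) → dir (θ 0)`.
(`ray_limit`. Calibration: `|b_n (r t) - b_n (r_n t)| ≤ dst (r t) (r_n t) → 0` and
`b_n (r_n t) = b_n (x_n) - t`, `|b_n (x_n) - b_n x| ≤ dst x_n x → 0`.) -/
theorem cal_limit {u : ℂ → ℝ} {A : ℝ} (M : Met u A) {bn : ℕ → ℂ → ℝ} {b : ℂ → ℝ}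
    (hb : ∀ᶠ n in ul, Lip1 u (bn n)) (hlim : ∀ y ∈ Disc, Tendsto (fun n => bn n y) ul (𝓝 (b y)))
    {xn : ℕ → ℂ} {x : ℂ} (hx : x ∈ Disc) (hxn : Tendsto xn ul (𝓝 x)) {rn : ℕ → ℝ → ℂ}
    {θn : ℕ → ℝ → ℝ} (hr : ∀ᶠ n in ul, Cal u (bn n) (xn n) (rn n) ∧ GRay u (rn n) (θn n)) :
    ∃ r θ, Cal u b x r ∧ GRay u r θ ∧ (∀ t, 0 ≤ t → Tendsto (fun n => rn n t) ul (𝓝 (r t))) ∧
      Tendsto (fun n => dir (θn n 0)) ul (𝓝 (dir (θ 0))) := by
  obtain ⟨r, θ, hg, hr0, hrt, hdir⟩ := ray_limit M hx hxn (rn := rn) (θn := θn)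
    (by filter_upwards [hr] with n hn using ⟨hn.2, hn.1.start⟩)
  refine ⟨r, θ, ⟨hr0, hg.mem, ?_, ?_⟩, hg, hrt, hdir⟩
  · intro s hs t ht
    exact (hg.iso s hs t ht).le
  · intro t ht
    have h1 : Tendsto (fun n => bn n (rn n t)) ul (𝓝 (b (r t))) :=
      GoodL_move M hb hlim (hg.mem t ht) (hrt t ht)
        (by filter_upwards [hr] with n hn using hn.1.mem t ht)
    have h2 : Tendsto (fun n => bn n (xn n)) ul (𝓝 (b x)) :=
      GoodL_move M hb hlim hx hxn (by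
        filter_upwards [hr] with n hn
        have h := hn.1.mem 0 le_rfl
        rwa [hn.1.start] at h)
    have h3 : Tendsto (fun n => bn n (rn n t)) ul (𝓝 (b x - t)) := by
      refine (h2.sub_const t).congr' ?_
      filter_upwards [hr] with n hn
      exact (hn.1.cal t ht).symm
    exact tendsto_nhds_unique h1 h3

/-- Limits of good functions are good (`cal_limit` with `x_n = x`, `ray_limit_end`,
`F_tendsto`). -/
theorem good_limit {u : ℂ → ℝ} {A : ℝ} (M : Met u A) {F : ℂ × ℝ → ℝ}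
    (hF : FirstIntegral u F) {bn : ℕ → ℂ → ℝ} {cn : ℕ → ℝ} {ξn : ℕ → ℂ} {b : ℂ → ℝ} {c : ℝ} {ξ : ℂ}
    (hG : ∀ᶠ n in ul, Good u F (bn n) (cn n) (ξn n)) (hb : Lip1 u b)
    (hlim : ∀ y ∈ Disc, Tendsto (fun n => bn n y) ul (𝓝 (b y)))
    (hc : Tendsto cn ul (𝓝 c)) (hξ : Tendsto ξn ul (𝓝 ξ)) : Good u F b c ξ := by
  refine ⟨hb, fun x hx => ?_⟩
  have hex : ∀ n, ∃ rθ : (ℝ → ℂ) × (ℝ → ℝ), Good u F (bn n) (cn n) (ξn n) →
      Cal u (bn n) x rθ.1 ∧ GRay u rθ.1 rθ.2 ∧ Tendsto rθ.1 atTop (𝓝 (ξn n)) ∧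
        F (x, rθ.2 0) = cn n := by
    intro n
    by_cases hn : Good u F (bn n) (cn n) (ξn n)
    · obtain ⟨r, θ, h⟩ := hn.2 x hx
      exact ⟨(r, θ), fun _ => h⟩
    · exact ⟨(fun _ => 0, fun _ => 0), fun h => absurd h hn⟩
  choose rθ hrθ using hex
  have hconst : Tendsto (fun _ : ℕ => x) ul (𝓝 x) := tendsto_const_nhds
  obtain ⟨r, θ, hcal, hg, hrt, hdir⟩ := cal_limit M (bn := bn) (b := b)
    (by filter_upwards [hG] with n hn using hn.1) hlim hx hconst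
    (rn := fun n => (rθ n).1) (θn := fun n => (rθ n).2)
    (by filter_upwards [hG] with n hn using ⟨(hrθ n hn).1, (hrθ n hn).2.1⟩)
  refine ⟨r, θ, hcal, hg, ?_, ?_⟩
  · exact ray_limit_end M hx hconst (rn := fun n => (rθ n).1) (θn := fun n => (rθ n).2)
      (by filter_upwards [hG] with n hn using ⟨(hrθ n hn).2.1, (hrθ n hn).1.start⟩) hrt
      (by filter_upwards [hG] with n hn using (hrθ n hn).2.2.1) hξ
  · have h1 : Tendsto (fun n => F (x, (rθ n).2 0)) ul (𝓝 (F (x, θ 0))) :=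
      F_tendsto hF hx (Eventually.of_forall fun _ => hx) hconst hdir
    have h2 : Tendsto (fun n => F (x, (rθ n).2 0)) ul (𝓝 c) := by
      refine hc.congr' ?_
      filter_upwards [hG] with n hn
      exact (hrθ n hn).2.2.2.symm
    exact tendsto_nhds_unique h1 h2

/-- Adding a constant to `b` keeps it good. -/
theorem good_add_const {u : ℂ → ℝ} {F : ℂ × ℝ → ℝ} {b : ℂ → ℝ} {c : ℝ} {ξ : ℂ}
    (hG : Good u F b c ξ) (k : ℝ) : Good u F (fun z => b z + k) c ξ := by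
  refine ⟨fun x hx y hy => ?_, fun x hx => ?_⟩
  · have h := hG.1 x hx y hy
    change b x + k - (b y + k) ≤ dst u x y
    linarith
  · obtain ⟨r, θ, hcal, hg, ht, hF⟩ := hG.2 x hx
    refine ⟨r, θ, ⟨hcal.start, hcal.mem, hcal.one, fun t h0 => ?_⟩, hg, ht, hF⟩
    have h := hcal.cal t h0
    change b (r t) + k = b x + k - t
    linarith

/-- The image of a good function under an isometry preserving `F`: with `g = mob w a` and
`b' z = b (g⁻¹ z)`, `b'` is good for `g ξ` with the same value `c`. (Rays: `g ∘ r`, `Sym.ray`;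
`b' (g (r t)) = b (r t)` by `mob_inv`; the end point by continuity of `g` at `ξ`
(`mob_hasDerivAt`); the value by `FSym`.) -/
theorem good_sym {u : ℂ → ℝ} {A : ℝ} (M : Met u A) {F : ℂ × ℝ → ℝ}
    {b : ℂ → ℝ} {c : ℝ} {ξ : ℂ} (hξ : ‖ξ‖ = 1) (hG : Good u F b c ξ) {w a : ℂ} (h : Sym u w a)
    (hFs : FSym F w a) : ∃ b', Good u F b' c (mob w a ξ) := by
  have hs := h.symm
  have hnorm : ∀ z ∈ Disc, ‖z‖ ≤ 1 := by
    intro z hz
    have hz' : ‖z‖ < 1 := by simpa [Disc] using hz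
    exact hz'.le
  refine ⟨fun z => b (mob ((starRingEnd ℂ) w) (-(w * a)) z), fun x hx y hy => ?_, fun x hx => ?_⟩
  · have h1 := hG.1 _ (mob_mem hs.hw hs.ha hx) _ (mob_mem hs.hw hs.ha hy)
    rw [hs.dst_eq M hx hy] at h1
    exact h1
  · have hy := mob_mem hs.hw hs.ha hx
    have hgy : mob w a (mob ((starRingEnd ℂ) w) (-(w * a)) x) = x :=
      mob_inv' h.hw h.ha (hnorm x hx)
    obtain ⟨r, θ, hcal, hg, ht, hF⟩ := hG.2 _ hy
    obtain ⟨θ', hg', hd⟩ := h.ray M hg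
    refine ⟨fun t => mob w a (r t), θ', ⟨?_, ?_, ?_, ?_⟩, hg', ?_, ?_⟩
    · rw [hcal.start, hgy]
    · intro t h0
      exact mob_mem h.hw h.ha (hcal.mem t h0)
    · intro s h0 t h1
      rw [h.dst_eq M (hcal.mem s h0) (hcal.mem t h1)]
      exact hcal.one s h0 t h1
    · intro t h0
      rw [mob_inv h.hw h.ha (hnorm _ (hcal.mem t h0))]
      exact hcal.cal t h0
    · exact ((mob_hasDerivAt h.ha hξ.le).continuousAt.tendsto).comp ht
    · have h1 := hFs (r 0) (hcal.mem 0 le_rfl) (θ 0) (θ' 0) (hd 0 le_rfl)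
      rw [hcal.start, hgy] at h1
      rw [h1]
      exact hF

end Pool.Agent.H.MP_bfbbee_an
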