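import Mathlib
import Pool.Agent.H.MP_bfbbee_an.GoodL
import Pool.Agent.H.MP_bfbbee_an.Dyn

/-!
# The universal value of a first integral
-/

namespace Pool.Agent.H.MP_bfbbee_an

open Filter Topology

/-- The set of the boundary points with the value `c` is closed.
Proof. Let `ξ_n → ξ` with good `b_n` for `(c, ξ_n)`; by `good_add_const` we may assume
`b_n 0 = 0`; `lip_limit`, `good_limit` (constant sequence `c`). -/
theorem value_closed {u : ℂ → ℝ} {A : ℝ} (M : Met u A) {F : ℂ × ℝ → ℝ}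
    (hF : FirstIntegral u F) (c : ℝ) :
    IsClosed {ξ : ℂ | ‖ξ‖ = 1 ∧ ∃ b, Good u F b c ξ} := by
  apply IsSeqClosed.isClosed
  intro ξn ξ hmem hlim
  have hmem' : ∀ n, ‖ξn n‖ = 1 ∧ ∃ b, Good u F b c (ξn n) := fun n => hmem n
  have hnorm : ‖ξ‖ = 1 := by
    have h1 : Tendsto (fun n => ‖ξn n‖) atTop (𝓝 ‖ξ‖) := hlim.norm
    have h2 : Tendsto (fun n => ‖ξn n‖) atTop (𝓝 1) := by
      have h3 : (fun n => ‖ξn n‖) = fun _ => (1 : ℝ) := funext fun n => (hmem' n).1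
      rw [h3]
      exact tendsto_const_nhds
    exact tendsto_nhds_unique h1 h2
  choose b0 hb0 using fun n => (hmem' n).2
  have hgood : ∀ n, Good u F (fun z => b0 n z + (-(b0 n 0))) c (ξn n) :=
    fun n => good_add_const (hb0 n) _
  obtain ⟨b, hb, hbl⟩ := lip_limit M (bn := fun n z => b0 n z + (-(b0 n 0)))
    (Eventually.of_forall fun n => ⟨(hgood n).1, by simp⟩)
  exact ⟨hnorm, b, good_limit M hF (cn := fun _ => c) (Eventually.of_forall hgood) hb hbl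
    tendsto_const_nhds (hlim.mono_left ul_le)⟩

/-- There is one value `c` which is good for all boundary points.
Proof. Let `z` be a point of the disc with `R < ‖z‖ < 1` and `g` an isometry preserving `F` with
`‖g z‖ ≤ R`; by `exists_moved` there is `ξ0` on the circle with `g ξ0 ≠ ξ0`. Take a minimal ray to
`ξ0` (`exists_ray` from `0`) and let `c` be its value of `F`; by `good_of_ray` there is a good `b`
for `(c, ξ0)`. The set `Ξ` of all `ξ` with a good `b` for `(c, ξ)` is closed (`value_closed`) and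
invariant (`good_sym`) under the set `G` of the parameters of all isometries preserving `F`, which
is closed under inverses (`Sym.symm`, `FSym.symm`). It contains `ξ0 ≠ g ξ0`. By
`invariant_closed` it is the whole circle. -/
theorem exists_value {u : ℂ → ℝ} {A : ℝ} (M : Met u A) {F : ℂ × ℝ → ℝ}
    (hF : FirstIntegral u F) {R : ℝ} (hco : CocoF u F R) :
    ∃ c, ∀ ξ : ℂ, ‖ξ‖ = 1 → ∃ b, Good u F b c ξ := by
  have hR0 := hco.pos
  have hR := hco.lt
  have hnz : ‖(((R + 1) / 2 : ℝ) : ℂ)‖ = (R + 1) / 2 := by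
    rw [Complex.norm_real, Real.norm_eq_abs, abs_of_nonneg (by linarith)]
  have hz : (((R + 1) / 2 : ℝ) : ℂ) ∈ Disc := by
    rw [Metric.mem_ball, dist_zero_right, hnz]
    linarith
  obtain ⟨w, a, hs, hFs, hm⟩ := hco.move _ hz
  have hne : ‖mob w a (((R + 1) / 2 : ℝ) : ℂ)‖ ≠ ‖(((R + 1) / 2 : ℝ) : ℂ)‖ := by
    rw [hnz]
    intro h
    rw [h] at hm
    linarith
  obtain ⟨ξ0, hξ0, hmv⟩ := exists_moved hs.hw hs.ha hz hne
  obtain ⟨r, θ, hr, hr0, hrt⟩ := exists_ray M (x := 0) (Metric.mem_ball_self one_pos) hξ0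
  obtain ⟨b, hb⟩ := good_of_ray M hF hco hr hrt
  refine ⟨F (r 0, θ 0), fun ξ hξ => ?_⟩
  have hinvar : ∀ g ∈ {g : ℂ × ℂ | Sym u g.1 g.2 ∧ FSym F g.1 g.2},
      ∀ ξ ∈ {ξ : ℂ | ‖ξ‖ = 1 ∧ ∃ b, Good u F b (F (r 0, θ 0)) ξ},
      mob g.1 g.2 ξ ∈ {ξ : ℂ | ‖ξ‖ = 1 ∧ ∃ b, Good u F b (F (r 0, θ 0)) ξ} := by
    rintro g ⟨hg1, hg2⟩ η ⟨hη, b', hb'⟩
    exact ⟨mob_circle hg1.hw hg1.ha hη, good_sym M hη hb' hg1 hg2⟩
  have hkey := invariant_closed (G := {g : ℂ × ℂ | Sym u g.1 g.2 ∧ FSym F g.1 g.2})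
    (fun g hg => ⟨hg.1.hw, hg.1.ha⟩) (fun g hg => ⟨hg.1.symm, FSym.symm hg.1 hg.2⟩) hR0 hR
    (fun z hz => by
      obtain ⟨w', a', h1, h2, h3⟩ := hco.move z hz
      exact ⟨(w', a'), ⟨h1, h2⟩, h3⟩)
    (value_closed M hF (F (r 0, θ 0))) (fun ξ h => h.1) hinvar
    (a := ξ0) (b := mob w a ξ0) ⟨hξ0, b, hb⟩ (hinvar (w, a) ⟨hs, hFs⟩ ξ0 ⟨hξ0, b, hb⟩)
    (Ne.symm hmv) hξ
  exact hkey.2

end Pool.Agent.H.MP_bfbbee_an
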