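import Mathlib
import Pool.Agent.H.MP_bfbbee_an.Semi
import Pool.Agent.H.MP_bfbbee_an.Val

/-!
# Critical points of first integrals
-/

namespace Pool.Agent.H.MP_bfbbee_an

open Filter Topology

/-- A differentiability lemma. Let `F : ℂ × ℝ → ℝ` be differentiable at `(p, ω)` with
`F (p, ω) = c`. Suppose
(i) for every `ε > 0` there is `ω'` with `0 < |ω' - ω| < ε` and `F (p, ω') = c`;
(ii) there are `C, ε > 0` such that for every `y` with `‖y - p‖ ≤ ε` there is `ω'` with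
`|ω' - ω| ≤ C ‖y - p‖` and `F (y, ω') = c`.
Then `fderiv ℝ F (p, ω) = 0`.
Proof. Let `L` be the derivative. By (i) the derivative of `F (p, ·)` at `ω` vanishes:
`L (0, 1) = 0`, so `L (h, τ) = L (h, 0)`. By (ii), for `y = p + t h`, `t → 0`:
`0 = F (y, ω') - F (p, ω) = L (t h, ω' - ω) + o (|t| ‖h‖ + |ω' - ω|) = t L (h, 0) + o (|t|)`; so
`L (h, 0) = 0`. -/
theorem fderiv_zero_of {F : ℂ × ℝ → ℝ} {p : ℂ} {ω c : ℝ} (hd : DifferentiableAt ℝ F (p, ω))
    (h0 : F (p, ω) = c)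
    (h1 : ∀ ε > 0, ∃ ω' : ℝ, 0 < |ω' - ω| ∧ |ω' - ω| < ε ∧ F (p, ω') = c)
    (h2 : ∃ C ε : ℝ, 0 < ε ∧ ∀ y : ℂ, ‖y - p‖ ≤ ε → ∃ ω' : ℝ, |ω' - ω| ≤ C * ‖y - p‖ ∧
      F (y, ω') = c) : fderiv ℝ F (p, ω) = 0 := by
  set L := fderiv ℝ F (p, ω) with hL
  have hF : HasFDerivAt F L (p, ω) := hd.hasFDerivAt
  have key : ∀ ε > 0, ∃ δ > 0, ∀ x : ℂ × ℝ, ‖x - (p, ω)‖ < δ → F x = c →
      |L (x - (p, ω))| ≤ ε * ‖x - (p, ω)‖ := by
    intro ε hε
    have h3 := (hF.isLittleO.def hε)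
    rw [Metric.eventually_nhds_iff] at h3
    obtain ⟨δ, hδ, h4⟩ := h3
    refine ⟨δ, hδ, fun x hx hc => ?_⟩
    have h5 := h4 (y := x) (by rw [dist_eq_norm]; exact hx)
    rw [hc, h0, sub_self, zero_sub, norm_neg, Real.norm_eq_abs] at h5
    exact h5
  -- vertical derivative
  have hv : L (0, 1) = 0 := by
    by_contra hne
    have hpos : 0 < |L (0, 1)| := abs_pos.2 hne
    obtain ⟨δ, hδ, h3⟩ := key (|L (0, 1)| / 2) (by linarith)
    obtain ⟨ω', ha, hb, hc⟩ := h1 δ hδ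
    have hn : ‖((p, ω') : ℂ × ℝ) - (p, ω)‖ = |ω' - ω| := by
      rw [Prod.mk_sub_mk, sub_self, Prod.norm_mk, norm_zero, Real.norm_eq_abs]
      exact max_eq_right (abs_nonneg _)
    have h4 := h3 (p, ω') (by rw [hn]; exact hb) hc
    rw [hn] at h4
    have h5 : L (((p, ω') : ℂ × ℝ) - (p, ω)) = (ω' - ω) * L (0, 1) := by
      rw [Prod.mk_sub_mk, sub_self]
      have : ((0, ω' - ω) : ℂ × ℝ) = (ω' - ω) • ((0, 1) : ℂ × ℝ) := by
        ext <;> simp
      rw [this, map_smul, smul_eq_mul]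
    rw [h5, abs_mul] at h4
    have h6 : |ω' - ω| * |L (0, 1)| ≤ |ω' - ω| * (|L (0, 1)| / 2) := by linarith
    have h7 := le_of_mul_le_mul_left h6 ha
    linarith
  obtain ⟨C, ε0, hε0, h2⟩ := h2
  have hh : ∀ h : ℂ, L (h, 0) = 0 := by
    intro h
    by_contra hne
    have hpos : 0 < |L (h, 0)| := abs_pos.2 hne
    have hh0 : h ≠ 0 := by
      rintro rfl
      apply hne
      have : ((0, 0) : ℂ × ℝ) = 0 := rfl
      rw [this, map_zero]
    have hnh : 0 < ‖h‖ := norm_pos_iff.2 hh0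
    set K := (1 + |C|) * ‖h‖ with hK
    have hKpos : 0 < K := by
      have : 0 ≤ |C| := abs_nonneg C
      positivity
    obtain ⟨δ, hδ, h3⟩ := key (|L (h, 0)| / (2 * K)) (by positivity)
    set t := min (ε0 / ‖h‖) (δ / (2 * K)) with ht
    have htpos : 0 < t := lt_min (by positivity) (by positivity)
    have ht1 : t * ‖h‖ ≤ ε0 := by
      calc t * ‖h‖ ≤ ε0 / ‖h‖ * ‖h‖ := by
            exact mul_le_mul_of_nonneg_right (min_le_left _ _) hnh.le
        _ = ε0 := by field_simp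
    have ht2 : t * K < δ := by
      calc t * K ≤ δ / (2 * K) * K := mul_le_mul_of_nonneg_right (min_le_right _ _) hKpos.le
        _ = δ / 2 := by field_simp
        _ < δ := by linarith
    have hyn : ‖(p + (t : ℂ) * h) - p‖ = t * ‖h‖ := by
      rw [add_sub_cancel_left, norm_mul, Complex.norm_real, Real.norm_of_nonneg htpos.le]
    obtain ⟨ω', hω, hc⟩ := h2 (p + (t : ℂ) * h) (by rw [hyn]; exact ht1)
    rw [hyn] at hω
    have hω2 : |ω' - ω| ≤ t * K := by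
      calc |ω' - ω| ≤ C * (t * ‖h‖) := hω
        _ ≤ |C| * (t * ‖h‖) := mul_le_mul_of_nonneg_right (le_abs_self C) (by positivity)
        _ ≤ t * K := by
            rw [hK]
            nlinarith [mul_pos htpos hnh, abs_nonneg C]
    have hn : ‖((p + (t : ℂ) * h, ω') : ℂ × ℝ) - (p, ω)‖ ≤ t * K := by
      rw [Prod.mk_sub_mk, Prod.norm_mk, hyn, Real.norm_eq_abs]
      refine max_le ?_ hω2
      rw [hK]
      nlinarith [mul_pos htpos hnh, abs_nonneg C]
    have h4 := h3 (p + (t : ℂ) * h, ω') (lt_of_le_of_lt hn ht2) hc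
    have h5 : L (((p + (t : ℂ) * h, ω') : ℂ × ℝ) - (p, ω)) = t * L (h, 0) := by
      have : ((p + (t : ℂ) * h, ω') : ℂ × ℝ) - (p, ω) =
          t • ((h, 0) : ℂ × ℝ) + (ω' - ω) • ((0, 1) : ℂ × ℝ) := by
        ext <;> simp
      rw [this, map_add, map_smul, map_smul, hv, smul_eq_mul, smul_zero, add_zero]
    rw [h5, abs_mul, abs_of_pos htpos] at h4
    have h6 : |L (h, 0)| / (2 * K) * ‖((p + (t : ℂ) * h, ω') : ℂ × ℝ) - (p, ω)‖ ≤
        |L (h, 0)| / (2 * K) * (t * K) := mul_le_mul_of_nonneg_left hn (by positivity)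
    have h7 : |L (h, 0)| / (2 * K) * (t * K) = t * (|L (h, 0)| / 2) := by field_simp
    have h8 : t * |L (h, 0)| ≤ t * (|L (h, 0)| / 2) := by linarith
    have h9 := le_of_mul_le_mul_left h8 htpos
    linarith
  ext x
  · have := hh x
    simpa using this
  · have : L (0, 1) = 0 := hv
    simpa using this

/-- The limit function. Suppose `c` is good for all boundary points and let `‖ξ‖ = 1`. There is a
1-Lipschitz `b` and there are sequences `b_n`, `ξ_n` with `b_n` good for `(c, ξ_n)`,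
`‖ξ_n‖ = 1`, `ξ_n ≠ ξ`, `ξ_n → ξ` and `b_n → b` pointwise on the disc (along `ul`).
(Take `ξ_n = ξ * dir (1 / (n + 1))`, normalise `b_n 0 = 0` by `good_add_const`, `lip_limit`.) -/
theorem exists_limit_b {u : ℂ → ℝ} {A : ℝ} (M : Met u A) {F : ℂ × ℝ → ℝ}
    {c : ℝ} (hc : ∀ ξ : ℂ, ‖ξ‖ = 1 → ∃ b, Good u F b c ξ) {ξ : ℂ} (hξ : ‖ξ‖ = 1) :
    ∃ (b : ℂ → ℝ) (bn : ℕ → ℂ → ℝ) (ξn : ℕ → ℂ), Lip1 u b ∧ (∀ n, Good u F (bn n) c (ξn n)) ∧
      (∀ n, ‖ξn n‖ = 1 ∧ ξn n ≠ ξ) ∧ Tendsto ξn ul (𝓝 ξ) ∧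
      ∀ y ∈ Disc, Tendsto (fun n => bn n y) ul (𝓝 (b y)) := by
  have hd0 : dir 0 = 1 := by
    unfold dir
    simp
  have hn1 : ∀ n : ℕ, ‖ξ * dir (1 / ((n : ℝ) + 1))‖ = 1 := fun n => by
    rw [norm_mul, hξ, norm_dir, one_mul]
  choose b0 hb0 using fun n : ℕ => hc _ (hn1 n)
  have hgood : ∀ n : ℕ, Good u F (fun z => b0 n z + (-(b0 n 0))) c
      (ξ * dir (1 / ((n : ℝ) + 1))) := fun n => good_add_const (hb0 n) _
  obtain ⟨b, hb, hlim⟩ := lip_limit M (bn := fun n z => b0 n z + (-(b0 n 0)))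
    (Eventually.of_forall fun n => ⟨(hgood n).1, by ring⟩)
  refine ⟨b, _, fun n => ξ * dir (1 / ((n : ℝ) + 1)), hb, hgood, fun n => ⟨hn1 n, ?_⟩, ?_, hlim⟩
  · intro h
    have hξ0 : ξ ≠ 0 := by
      intro h0
      rw [h0, norm_zero] at hξ
      exact zero_ne_one hξ
    have h1 : dir (1 / ((n : ℝ) + 1)) = dir 0 := by
      rw [hd0]
      refine mul_left_cancel₀ hξ0 ?_
      rw [mul_one]
      exact h
    obtain ⟨k, hk⟩ := (dir_eq_iff _ _).1 h1
    have hpos : 0 < 1 / ((n : ℝ) + 1) := by positivity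
    have hle : 1 / ((n : ℝ) + 1) ≤ 1 := by
      rw [div_le_one (by positivity)]
      have : (0 : ℝ) ≤ n := Nat.cast_nonneg n
      linarith
    have hpi := Real.pi_gt_three
    rcases lt_or_ge k 0 with hk0 | hk0
    · have : (k : ℝ) ≤ -1 := by
        have : k ≤ -1 := by omega
        exact_mod_cast this
      nlinarith
    · have : (0 : ℝ) ≤ k := by exact_mod_cast hk0
      nlinarith
  · have h1 : Tendsto (fun n : ℕ => 1 / ((n : ℝ) + 1)) atTop (𝓝 0) :=
      tendsto_one_div_add_atTop_nhds_zero_nat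
    have h2 : Continuous dir := by
      unfold dir
      fun_prop
    have h3 : Tendsto (fun n : ℕ => ξ * dir (1 / ((n : ℝ) + 1))) atTop (𝓝 (ξ * dir 0)) :=
      ((h2.tendsto 0).comp h1).const_mul ξ
    rw [hd0, mul_one] at h3
    exact h3.mono_left ul_le

/-- Accumulation in the fibre over an interior point. In the situation of `exists_limit_b` let
`(r, θ)` be a `b`-calibrated minimal ray from `x` and `s > 0`. For every `ε > 0` there is `ω'` with
`0 < |ω' - θ s| < ε` and `F (r s, ω') = c`.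
Proof. Let `(r_n, θ_n)` be the `b_n`-calibrated rays from `r s` given by `Good`, with end point
`ξ_n` and value `c`. By `cal_limit` they converge to a `b`-calibrated ray `(r', θ')` from `r s`,
with `dir (θ_n 0) → dir (θ' 0) = dir (θ s)` (`cal_unique` at `t = 0`). By `exists_near` there are
`ω_n` with `dir ω_n = dir (θ_n 0)` and `|ω_n - θ s| ≤ 2 ‖dir (θ_n 0) - dir (θ s)‖ → 0`, and
`F (r s, ω_n) = c` (`F_congr`). If `ω_n = θ s`, then `r_n` and `t ↦ r (s + t)` have the same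
starting point and direction, so they are equal (`geo_unique`) and have the same end point; but
`r` ends at `ξ` (`good_all` for the good function `b`, see `good_limit`) and `r_n` ends at
`ξ_n ≠ ξ`, a contradiction. So `ω_n ≠ θ s` for all `n`; take `n` with `|ω_n - θ s| < ε`. -/
theorem fibre_accumulate {u : ℂ → ℝ} {A : ℝ} (M : Met u A) {F : ℂ × ℝ → ℝ}
    (hF : FirstIntegral u F) {c : ℝ} {ξ : ℂ} {b : ℂ → ℝ} {bn : ℕ → ℂ → ℝ} {ξn : ℕ → ℂ}
    (hb : Lip1 u b) (hgood : ∀ n, Good u F (bn n) c (ξn n)) (hne : ∀ n, ‖ξn n‖ = 1 ∧ ξn n ≠ ξ)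
    (hξn : Tendsto ξn ul (𝓝 ξ)) (hlim : ∀ y ∈ Disc, Tendsto (fun n => bn n y) ul (𝓝 (b y)))
    {x : ℂ} (hx : x ∈ Disc) {r : ℝ → ℂ} {θ : ℝ → ℝ} (hr : Cal u b x r) (hg : GRay u r θ) {s : ℝ}
    (hs : 0 < s) {ε : ℝ} (hε : 0 < ε) :
    ∃ ω' : ℝ, 0 < |ω' - θ s| ∧ |ω' - θ s| < ε ∧ F (r s, ω') = c := by
  have hrs : r s ∈ Disc := hr.mem s hs.le
  choose rn θn hcal hray hend hval using fun n => (hgood n).2 (r s) hrs
  obtain ⟨r', θ', hc', hg', -, hdir⟩ := cal_limit M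
    (Eventually.of_forall fun n => (hgood n).1) hlim hrs
    (tendsto_const_nhds (x := r s) (f := ul)) (Eventually.of_forall fun n => ⟨hcal n, hray n⟩)
  have h1 := (cal_unique M hb hr hg hs hc' hg' le_rfl).2
  rw [add_zero] at h1
  rw [h1] at hdir
  have h2 : ∀ᶠ n in ul, ‖dir (θn n 0) - dir (θ s)‖ < ε / 2 := by
    have h3 := (tendsto_iff_norm_sub_tendsto_zero.1 hdir)
    exact h3.eventually_lt_const (by linarith)
  obtain ⟨n, hn⟩ := h2.exists
  obtain ⟨ω', hω, hω2⟩ := exists_near (θ := θ s) (norm_dir (θn n 0))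
  refine ⟨ω', ?_, by linarith, ?_⟩
  · rw [abs_pos, sub_ne_zero]
    intro heq
    have hG : Good u F b c ξ := good_limit M hF (Eventually.of_forall fun n => hgood n) hb hlim
      (tendsto_const_nhds (x := c) (f := ul)) hξn
    have hrξ : Tendsto r atTop (𝓝 ξ) := (good_all M hF hG hr hg).1
    have hsh := hg.shift hs.le
    have hsame : ∀ T, 0 < T → rn n T = r (s + T) := by
      intro T hT
      have h4 := geo_unique M ((hray n).geo T hT) (hsh.geo T hT)
        (by rw [(hcal n).start, add_zero]) (by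
          show dir (θn n 0) = dir (θ (s + 0))
          rw [add_zero, ← hω, heq]) T ⟨hT.le, le_rfl⟩
      exact h4.1
    have h5 : Tendsto (fun T => r (s + T)) atTop (𝓝 ξ) :=
      hrξ.comp (tendsto_atTop_add_const_left atTop s tendsto_id)
    have h6 : Tendsto (rn n) atTop (𝓝 ξ) := by
      refine h5.congr' ?_
      filter_upwards [eventually_gt_atTop (0 : ℝ)] with T hT
      exact (hsame T hT).symm
    exact (hne n).2 (tendsto_nhds_unique (hend n) h6)
  · rw [F_congr hF hrs hω, hval n]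

/-- The main local statement. Suppose `c` is good for all boundary points. For every `x` in the disc
and every `ξ` on the circle there is a minimal ray `(r, θ)` from `x` to `ξ` with `F (x, θ 0) = c`
and, if `F` is `C¹` on `Disc × ℝ`, `fderiv ℝ F (x, θ 0) = 0`.
Proof. Take `b, b_n, ξ_n` from `exists_limit_b`; `b` is good for `(c, ξ)` by `good_limit`; let
`(r, θ)` be the `b`-calibrated ray from `x`. For `s > 0` apply `fderiv_zero_of` at
`(r s, θ s)`: (i) is `fibre_accumulate`; (ii) for `y` near `r s` let `(r', θ')` be the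
`b`-calibrated ray from `y` with `F (y, θ' 0) = c`; by `cal_dir_lip` and `exists_near` there is `ω'`
with `dir ω' = dir (θ' 0)` and `|ω' - θ s| ≤ 2 C ‖y - r s‖`, and `F (y, ω') = c` by `F_congr`. So
`fderiv ℝ F (r s, θ s) = 0` for all `s > 0`; let `s → 0`: `fderiv ℝ F` is continuous on
`Disc × ℝ` (open set, `C¹`), `r s → r 0 = x`, `θ s → θ 0` (differentiability within `[0, 1]`). -/
theorem crit_ray {u : ℂ → ℝ} {A : ℝ} (M : Met u A) {F : ℂ × ℝ → ℝ}
    (hF : FirstIntegral u F) {c : ℝ} (hc : ∀ ξ : ℂ, ‖ξ‖ = 1 → ∃ b, Good u F b c ξ) {x ξ : ℂ}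
    (hx : x ∈ Disc) (hξ : ‖ξ‖ = 1) :
    ∃ r θ, GRay u r θ ∧ r 0 = x ∧ Tendsto r atTop (𝓝 ξ) ∧ F (x, θ 0) = c ∧
      (ContDiffOn ℝ 1 F (Disc ×ˢ Set.univ) → fderiv ℝ F (x, θ 0) = 0) := by
  obtain ⟨b, bn, ξn, hb, hgood, hne, hξn, hlim⟩ := exists_limit_b M hc hξ
  have hG : Good u F b c ξ := good_limit M hF (Eventually.of_forall fun n => hgood n) hb hlim
    (tendsto_const_nhds (x := c) (f := ul)) hξn
  obtain ⟨r, θ, hr, hg, hend, hval⟩ := hG.2 x hx
  refine ⟨r, θ, hg, hr.start, hend, hval, fun hC => ?_⟩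
  have hopen : IsOpen (Disc ×ˢ (Set.univ : Set ℝ)) := Metric.isOpen_ball.prod isOpen_univ
  have hcr : ∀ s, 0 < s → fderiv ℝ F (r s, θ s) = 0 := by
    intro s hs
    have hrs : r s ∈ Disc := hr.mem s hs.le
    have hd : DifferentiableAt ℝ F (r s, θ s) :=
      (hC.differentiableOn one_ne_zero).differentiableAt (hopen.mem_nhds ⟨hrs, Set.mem_univ _⟩)
    have hFs : F (r s, θ s) = c := by
      rw [hg.F_const hF hs.le, hr.start]
      exact hval
    refine fderiv_zero_of (c := c) hd hFs ?_ ?_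
    · intro ε hε
      exact fibre_accumulate M hF hb hgood hne hξn hlim hx hr hg hs hε
    · obtain ⟨C, ε, hCpos, hε, h3⟩ := cal_dir_lip M hb hr hg hs
      have hlt : ‖r s‖ < 1 := by simpa [Disc] using hrs
      refine ⟨2 * C, min ε ((1 - ‖r s‖) / 2), lt_min hε (by linarith), fun y hy => ?_⟩
      have hy1 : ‖y - r s‖ ≤ ε := hy.trans (min_le_left _ _)
      have hy2 : ‖y - r s‖ ≤ (1 - ‖r s‖) / 2 := hy.trans (min_le_right _ _)
      have hyD : y ∈ Disc := by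
        have : ‖y‖ ≤ ‖y - r s‖ + ‖r s‖ := by
          have := norm_add_le (y - r s) (r s)
          rwa [sub_add_cancel] at this
        rw [Metric.mem_ball, dist_zero_right]
        linarith
      obtain ⟨r', θ', hr', hg', -, hv'⟩ := hG.2 y hyD
      obtain ⟨ω', hω, hω2⟩ := exists_near (θ := θ s) (norm_dir (θ' 0))
      refine ⟨ω', ?_, ?_⟩
      · have := h3 y r' θ' hy1 hr' hg'
        linarith
      · rw [F_congr hF hyD hω]
        exact hv'
  have hcont : ContinuousOn (fderiv ℝ F) (Disc ×ˢ (Set.univ : Set ℝ)) :=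
    hC.continuousOn_fderiv_of_isOpen hopen le_rfl
  have h0 : (0 : ℝ) ∈ Set.Icc (0 : ℝ) 1 := ⟨le_rfl, zero_le_one⟩
  obtain ⟨hD0, hr0, hθ0⟩ := hg.geo 1 one_pos 0 h0
  have h4 : Tendsto (fun s => (r s, θ s)) (𝓝[Set.Icc 0 1] 0) (𝓝 (r 0, θ 0)) :=
    hr0.continuousWithinAt.tendsto.prodMk_nhds hθ0.continuousWithinAt.tendsto
  have h5 : Tendsto (fun s => fderiv ℝ F (r s, θ s)) (𝓝[Set.Icc 0 1] 0)
      (𝓝 (fderiv ℝ F (r 0, θ 0))) :=
    ((hcont (r 0, θ 0) ⟨hD0, Set.mem_univ _⟩).continuousAt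
      (hopen.mem_nhds ⟨hD0, Set.mem_univ _⟩)).tendsto.comp h4
  have h6 : Tendsto (fun s => fderiv ℝ F (r s, θ s)) (𝓝[Set.Ioo 0 1] 0)
      (𝓝 (fderiv ℝ F (r 0, θ 0))) :=
    h5.mono_left (nhdsWithin_mono _ Set.Ioo_subset_Icc_self)
  have h7 : Tendsto (fun s => fderiv ℝ F (r s, θ s)) (𝓝[Set.Ioo 0 1] 0) (𝓝 0) := by
    refine (tendsto_const_nhds (x := (0 : ℂ × ℝ →L[ℝ] ℝ))).congr' ?_
    filter_upwards [self_mem_nhdsWithin] with s hs
    exact (hcr s hs.1).symm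
  have hnb : (𝓝[Set.Ioo (0 : ℝ) 1] 0).NeBot := by
    rw [nhdsWithin_Ioo_eq_nhdsGT one_pos]
    infer_instance
  have h8 := tendsto_nhds_unique h6 h7
  rw [hr.start] at h8
  exact h8

end Pool.Agent.H.MP_bfbbee_an
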