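import Mathlib
import Pool.Agent.H.MP_bfbbee_an.Mob

/-!
# Composition of Möbius maps, uniform estimates
-/

namespace Pool.Agent.H.MP_bfbbee_an

open Filter Topology

private theorem mobc_norm_id (b c : ℂ) :
    ‖1 + (starRingEnd ℂ) c * b‖ ^ 2 - ‖b + c‖ ^ 2 = (1 - ‖b‖ ^ 2) * (1 - ‖c‖ ^ 2) := by
  simp only [Complex.sq_norm, Complex.normSq_apply, Complex.add_re, Complex.add_im,
    Complex.mul_re, Complex.mul_im, Complex.conj_re, Complex.conj_im, Complex.one_re,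
    Complex.one_im]
  ring

private theorem mobc_conj_mul_self {w : ℂ} (hw : ‖w‖ = 1) : (starRingEnd ℂ) w * w = 1 := by
  rw [Complex.conj_mul', hw]
  norm_num

private theorem mobc_norm_le {w a z : ℂ} (hw : ‖w‖ = 1) (ha : ‖a‖ < 1) (hz : ‖z‖ ≤ 1) :
    ‖mob w a z‖ ≤ 1 := by
  rcases hz.eq_or_lt with h | h
  · exact (mob_circle hw ha h).le
  · have h1 := mob_mem hw ha (z := z) (mem_ball_zero_iff.2 h)
    exact (mem_ball_zero_iff.1 h1).le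

private theorem mobc_den_ge {a z : ℂ} {R1 : ℝ} (ha : ‖a‖ ≤ R1) (hz : ‖z‖ ≤ 1) :
    1 - R1 ≤ ‖1 - (starRingEnd ℂ) a * z‖ := by
  have h1 : ‖(1 : ℂ)‖ - ‖(starRingEnd ℂ) a * z‖ ≤ ‖1 - (starRingEnd ℂ) a * z‖ :=
    norm_sub_norm_le _ _
  rw [norm_one, norm_mul, RCLike.norm_conj] at h1
  have h2 : ‖a‖ * ‖z‖ ≤ R1 := by
    calc ‖a‖ * ‖z‖ ≤ ‖a‖ * 1 := mul_le_mul_of_nonneg_left hz (norm_nonneg _)
      _ ≤ R1 := by rw [mul_one]; exact ha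
  linarith

/-- Composition: `mob w2 a2 (mob w1 a1 z) = mob w a z` with `s = 1 + conj a2 * w1 * a1`,
`w = w2 w1 conj s / s`, `a = (w1 a1 + a2) / (w1 conj s)`. (Then
`conj a = (conj a1 + conj a2 w1) / s`; `‖s‖ > 0` as `‖a1‖, ‖a2‖ < 1`; `‖a‖ < 1` because
`a = mob (conj w1) (-(w1 a1)) a2` is in the disc.) -/
theorem mob_comp {w1 a1 w2 a2 : ℂ} (hw1 : ‖w1‖ = 1) (ha1 : ‖a1‖ < 1) (hw2 : ‖w2‖ = 1)
    (ha2 : ‖a2‖ < 1) : ∃ w a : ℂ, ‖w‖ = 1 ∧ ‖a‖ < 1 ∧ ∀ z : ℂ, ‖z‖ ≤ 1 →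
      mob w2 a2 (mob w1 a1 z) = mob w a z := by
  set s : ℂ := 1 + (starRingEnd ℂ) a2 * (w1 * a1) with hs
  have hw1' : (starRingEnd ℂ) w1 * w1 = 1 := mobc_conj_mul_self hw1
  have hw1n : w1 ≠ 0 := by
    intro h
    rw [h, norm_zero] at hw1
    exact zero_ne_one hw1
  have hb : ‖w1 * a1‖ = ‖a1‖ := by rw [norm_mul, hw1, one_mul]
  have hid := mobc_norm_id (w1 * a1) a2
  rw [← hs, hb] at hid
  have hpos : 0 < (1 - ‖a1‖ ^ 2) * (1 - ‖a2‖ ^ 2) := by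
    have h1 := norm_nonneg a1
    have h2 := norm_nonneg a2
    apply mul_pos <;> nlinarith
  have hlt : ‖w1 * a1 + a2‖ < ‖s‖ := by
    have h1 : ‖w1 * a1 + a2‖ ^ 2 < ‖s‖ ^ 2 := by linarith
    exact lt_of_pow_lt_pow_left₀ 2 (norm_nonneg _) h1
  have hs0 : s ≠ 0 := by
    intro h
    rw [h, norm_zero] at hlt
    exact absurd hlt (not_lt.2 (norm_nonneg _))
  have hsc : (starRingEnd ℂ) s ≠ 0 := (map_ne_zero _).2 hs0
  have hcs : w1 * (starRingEnd ℂ) s = w1 + a2 * (starRingEnd ℂ) a1 := by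
    rw [hs]
    simp only [map_add, map_one, map_mul, Complex.conj_conj]
    linear_combination a2 * (starRingEnd ℂ) a1 * hw1'
  have hq0 : w1 * (starRingEnd ℂ) s ≠ 0 := mul_ne_zero hw1n hsc
  set a : ℂ := (w1 * a1 + a2) / (w1 * (starRingEnd ℂ) s) with ha
  have han : ‖a‖ < 1 := by
    rw [ha, norm_div, norm_mul, hw1, one_mul, RCLike.norm_conj, div_lt_one (norm_pos_iff.2 hs0)]
    exact hlt
  have hca : (starRingEnd ℂ) a * s = (starRingEnd ℂ) a1 + (starRingEnd ℂ) a2 * w1 := by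
    rw [ha, map_div₀]
    simp only [map_add, map_mul, Complex.conj_conj]
    have hcw : (starRingEnd ℂ) w1 ≠ 0 := (map_ne_zero _).2 hw1n
    rw [div_mul_eq_mul_div, div_eq_iff (mul_ne_zero hcw hs0)]
    linear_combination (-(starRingEnd ℂ) a2 * s) * hw1'
  refine ⟨w2 * w1 * (starRingEnd ℂ) s / s, a, ?_, han, ?_⟩
  · rw [norm_div, norm_mul, norm_mul, hw1, hw2, RCLike.norm_conj, one_mul, one_mul,
      div_self (norm_ne_zero_iff.2 hs0)]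
  · intro z hz
    have hd1 : 1 - (starRingEnd ℂ) a1 * z ≠ 0 := den_ne ha1 hz
    have hd3 : 1 - (starRingEnd ℂ) a * z ≠ 0 := den_ne han hz
    have hd2 : 1 - (starRingEnd ℂ) a2 * mob w1 a1 z ≠ 0 :=
      den_ne ha2 (mobc_norm_le hw1 ha1 hz)
    have ham : a * (w1 * (starRingEnd ℂ) s) = w1 * a1 + a2 := by
      rw [ha, div_mul_cancel₀ _ hq0]
    have hu : mob w1 a1 z * (1 - (starRingEnd ℂ) a1 * z) = w1 * (z - a1) := by
      unfold mob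
      rw [div_mul_cancel₀ _ hd1]
    unfold mob at hd2 hu ⊢
    set u : ℂ := w1 * (z - a1) / (1 - (starRingEnd ℂ) a1 * z) with hudef
    rw [div_eq_div_iff hd2 hd3]
    have key : (w2 * (u - a2) * (1 - (starRingEnd ℂ) a * z) -
        w2 * w1 * (starRingEnd ℂ) s / s * (z - a) * (1 - (starRingEnd ℂ) a2 * u)) *
        (s * (1 - (starRingEnd ℂ) a1 * z)) = 0 := by
      have e1 : (w2 * (u - a2) * (1 - (starRingEnd ℂ) a * z) -
        w2 * w1 * (starRingEnd ℂ) s / s * (z - a) * (1 - (starRingEnd ℂ) a2 * u)) *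
        (s * (1 - (starRingEnd ℂ) a1 * z)) =
        w2 * (u * (1 - (starRingEnd ℂ) a1 * z) - a2 * (1 - (starRingEnd ℂ) a1 * z)) *
          (s - (starRingEnd ℂ) a * s * z) -
        w2 * (w1 * (starRingEnd ℂ) s * z - a * (w1 * (starRingEnd ℂ) s)) *
          ((1 - (starRingEnd ℂ) a1 * z) -
            (starRingEnd ℂ) a2 * (u * (1 - (starRingEnd ℂ) a1 * z))) := by
        field_simp
      rw [e1, hu, hca, ham, hcs]
      have hsv : s = 1 + (starRingEnd ℂ) a2 * (w1 * a1) := hs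
      rw [hsv]
      ring
    have hne : s * (1 - (starRingEnd ℂ) a1 * z) ≠ 0 := mul_ne_zero hs0 hd1
    exact sub_eq_zero.1 ((mul_eq_zero.1 key).resolve_right hne)

/-- The chain rule for the derivatives, at points of the disc (`HasDerivAt.comp` and uniqueness of
derivatives, since the two maps agree on the disc, a neighbourhood of `z`). -/
theorem mobd_comp {w1 a1 w2 a2 w a : ℂ} (hw1 : ‖w1‖ = 1) (ha1 : ‖a1‖ < 1)
    (hw2 : ‖w2‖ = 1) (ha2 : ‖a2‖ < 1) (ha : ‖a‖ < 1)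
    (h : ∀ z : ℂ, ‖z‖ ≤ 1 → mob w2 a2 (mob w1 a1 z) = mob w a z) {z : ℂ} (hz : z ∈ Disc) :
    mobd w a z = mobd w2 a2 (mob w1 a1 z) * mobd w1 a1 z := by
  have _ := hw2
  have hz1 : ‖z‖ ≤ 1 := (mem_ball_zero_iff.1 hz).le
  have h1 := mob_hasDerivAt (w := w1) ha1 hz1
  have h2 := mob_hasDerivAt (w := w2) ha2 (mobc_norm_le hw1 ha1 hz1)
  have h3 := h2.comp z h1
  have h4 := mob_hasDerivAt (w := w) ha hz1
  have h5 : mob w a =ᶠ[𝓝 z] mob w2 a2 ∘ mob w1 a1 := by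
    filter_upwards [Metric.isOpen_ball.mem_nhds hz] with y hy
    exact (h y (mem_ball_zero_iff.1 hy).le).symm
  exact (h4.congr_of_eventuallyEq h5.symm).unique h3

/-- Difference formula in terms of the derivatives:
`‖mob z - mob z'‖ = ‖z - z'‖ sqrt (‖mobd z‖ ‖mobd z'‖)` (`mob_sub`, `norm_mobd`). -/
theorem mob_sub_sqrt {w a z z' : ℂ} (hw : ‖w‖ = 1) (ha : ‖a‖ < 1) (hz : ‖z‖ ≤ 1)
    (hz' : ‖z'‖ ≤ 1) :
    ‖mob w a z - mob w a z'‖ = ‖z - z'‖ * Real.sqrt (‖mobd w a z‖ * ‖mobd w a z'‖) := by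
  rw [mob_sub hw ha hz hz', norm_mobd hw ha, norm_mobd hw ha, mul_div_assoc]
  congr 1
  have h1 : 0 < ‖1 - (starRingEnd ℂ) a * z‖ := norm_pos_iff.2 (den_ne ha hz)
  have h2 : 0 < ‖1 - (starRingEnd ℂ) a * z'‖ := norm_pos_iff.2 (den_ne ha hz')
  have h3 : 0 ≤ 1 - ‖a‖ ^ 2 := by
    have := norm_nonneg a
    nlinarith
  have h4 : (1 - ‖a‖ ^ 2) / ‖1 - (starRingEnd ℂ) a * z‖ ^ 2 *
      ((1 - ‖a‖ ^ 2) / ‖1 - (starRingEnd ℂ) a * z'‖ ^ 2) =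
      ((1 - ‖a‖ ^ 2) / (‖1 - (starRingEnd ℂ) a * z‖ * ‖1 - (starRingEnd ℂ) a * z'‖)) ^ 2 := by
    field_simp
  rw [h4, Real.sqrt_sq]
  positivity

/-- Möbius maps which move a point of `closedBall 0 R'` into `closedBall 0 R` have parameters in a
compact subset of the disc: `1 - |a|² = (1 - |g y|²) |1 - conj a y|² / (1 - |y|²)
≥ (1 - R²) (1 - R')²`. -/
theorem param_ge {R R' : ℝ} (hR0 : 0 ≤ R) (hR : R < 1) (hR'0 : 0 ≤ R') (hR' : R' < 1) :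
    ∃ R1, 0 ≤ R1 ∧ R1 < 1 ∧ ∀ w a y : ℂ, ‖w‖ = 1 → ‖a‖ < 1 → ‖y‖ ≤ R' → ‖mob w a y‖ ≤ R →
      ‖a‖ ≤ R1 := by
  set κ : ℝ := (1 - R ^ 2) * (1 - R') ^ 2 with hκ
  have h1 : 0 < 1 - R ^ 2 := by nlinarith
  have h2 : 0 < (1 - R') ^ 2 := by
    have : 0 < 1 - R' := by linarith
    positivity
  have hκ0 : 0 < κ := mul_pos h1 h2
  refine ⟨Real.sqrt (1 - κ), Real.sqrt_nonneg _, ?_, ?_⟩
  · rw [Real.sqrt_lt' one_pos]
    linarith
  · intro w a y hw ha hy hm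
    have hy1 : ‖y‖ ≤ 1 := hy.trans hR'.le
    have hyl : ‖y‖ < 1 := hy.trans_lt hR'
    have h3 := one_sub_mob hw ha hy1
    rw [norm_mobd hw ha] at h3
    have h4 : 0 < ‖1 - (starRingEnd ℂ) a * y‖ := norm_pos_iff.2 (den_ne ha hy1)
    have h5 : 1 - R' ≤ ‖1 - (starRingEnd ℂ) a * y‖ := by
      have h6 : ‖(1 : ℂ)‖ - ‖(starRingEnd ℂ) a * y‖ ≤ ‖1 - (starRingEnd ℂ) a * y‖ :=
        norm_sub_norm_le _ _
      rw [norm_one, norm_mul, RCLike.norm_conj] at h6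
      have h7 : ‖a‖ * ‖y‖ ≤ 1 * ‖y‖ := mul_le_mul_of_nonneg_right ha.le (norm_nonneg _)
      linarith
    have h8 : (1 - R') ^ 2 ≤ ‖1 - (starRingEnd ℂ) a * y‖ ^ 2 :=
      pow_le_pow_left₀ (by linarith) h5 2
    have h9 : 1 - R ^ 2 ≤ 1 - ‖mob w a y‖ ^ 2 := by
      have := pow_le_pow_left₀ (norm_nonneg _) hm 2
      linarith
    have h10 : (1 - ‖mob w a y‖ ^ 2) * ‖1 - (starRingEnd ℂ) a * y‖ ^ 2 =
        (1 - ‖y‖ ^ 2) * (1 - ‖a‖ ^ 2) := by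
      rw [h3]
      field_simp
    have h11 : κ ≤ (1 - ‖mob w a y‖ ^ 2) * ‖1 - (starRingEnd ℂ) a * y‖ ^ 2 :=
      mul_le_mul h9 h8 h2.le (h1.le.trans h9)
    have h12 : 0 ≤ 1 - ‖a‖ ^ 2 := by
      have := norm_nonneg a
      nlinarith
    have h13 : (1 - ‖y‖ ^ 2) * (1 - ‖a‖ ^ 2) ≤ 1 * (1 - ‖a‖ ^ 2) := by
      apply mul_le_mul_of_nonneg_right _ h12
      have := sq_nonneg ‖y‖
      linarith
    apply Real.le_sqrt_of_sq_le
    linarith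

/-- Möbius maps with parameters in a compact subset of the disc are uniformly Lipschitz on the
closed disc, and so are the phases of their derivatives.
(`mob_sub` and `‖1 - conj a z‖ ≥ 1 - R1`; the phase is
`mobd / ‖mobd‖ = w (‖s‖ / s)²` with `s = 1 - conj a z`, and
`‖‖s‖/s - ‖s'‖/s'‖ ≤ 2 ‖s - s'‖ / (1 - R1)`.) -/
theorem mob_lip {R1 : ℝ} (h0 : 0 ≤ R1) (h1 : R1 < 1) : ∃ C, 1 ≤ C ∧ ∀ w a z z' : ℂ, ‖w‖ = 1 →
    ‖a‖ ≤ R1 → ‖z‖ ≤ 1 → ‖z'‖ ≤ 1 → ‖mob w a z - mob w a z'‖ ≤ C * ‖z - z'‖ ∧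
      ‖mobd w a z / (‖mobd w a z‖ : ℂ) - mobd w a z' / (‖mobd w a z'‖ : ℂ)‖ ≤ C * ‖z - z'‖ := by
  have hr : 0 < 1 - R1 := by linarith
  have hr1 : 1 - R1 ≤ 1 := by linarith
  have hr2 : (1 - R1) ^ 2 ≤ 1 - R1 := by nlinarith
  have hr2p : 0 < (1 - R1) ^ 2 := by positivity
  refine ⟨4 / (1 - R1) ^ 2, ?_, ?_⟩
  · rw [le_div_iff₀ hr2p]
    linarith
  intro w a z z' hw ha hz hz'
  have ha1 : ‖a‖ < 1 := ha.trans_lt h1
  set s : ℂ := 1 - (starRingEnd ℂ) a * z with hs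
  set s' : ℂ := 1 - (starRingEnd ℂ) a * z' with hs'
  have hsn : 1 - R1 ≤ ‖s‖ := mobc_den_ge ha hz
  have hsn' : 1 - R1 ≤ ‖s'‖ := mobc_den_ge ha hz'
  have hsp : 0 < ‖s‖ := hr.trans_le hsn
  have hsp' : 0 < ‖s'‖ := hr.trans_le hsn'
  have hs0 : s ≠ 0 := norm_pos_iff.1 hsp
  have hs0' : s' ≠ 0 := norm_pos_iff.1 hsp'
  have hapos : 0 < 1 - ‖a‖ ^ 2 := by
    have := norm_nonneg a
    nlinarith
  have hale : 1 - ‖a‖ ^ 2 ≤ 1 := by
    have := sq_nonneg ‖a‖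
    linarith
  have hzz : 0 ≤ ‖z - z'‖ := norm_nonneg _
  constructor
  · rw [mob_sub hw ha1 hz hz', ← hs, ← hs', div_mul_eq_mul_div]
    have h2 : (1 - R1) ^ 2 ≤ ‖s‖ * ‖s'‖ := by
      rw [sq]
      exact mul_le_mul hsn hsn' hr.le hsp.le
    apply div_le_div₀ (by positivity) _ hr2p h2
    nlinarith
  · have hph : ∀ y : ℂ, ‖y‖ ≤ 1 → mobd w a y / (‖mobd w a y‖ : ℂ) =
        w * ((‖1 - (starRingEnd ℂ) a * y‖ : ℂ) / (1 - (starRingEnd ℂ) a * y)) ^ 2 := by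
      intro y hy
      rw [norm_mobd hw ha1]
      have hy0 : 1 - (starRingEnd ℂ) a * y ≠ 0 := den_ne ha1 hy
      have hyn : (‖1 - (starRingEnd ℂ) a * y‖ : ℂ) ≠ 0 := by
        exact_mod_cast (norm_pos_iff.2 hy0).ne'
      have ha0 : (1 - (‖a‖ : ℂ) ^ 2) ≠ 0 := by
        exact_mod_cast hapos.ne'
      unfold mobd
      push_cast
      field_simp
    rw [hph z hz, hph z' hz', ← hs, ← hs', ← mul_sub, norm_mul, hw, one_mul]
    set p : ℂ := (‖s‖ : ℂ) / s with hp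
    set p' : ℂ := (‖s'‖ : ℂ) / s' with hp'
    have hpn : ‖p‖ = 1 := by
      rw [hp, norm_div, Complex.norm_real, norm_norm, div_self hsp.ne']
    have hpn' : ‖p'‖ = 1 := by
      rw [hp', norm_div, Complex.norm_real, norm_norm, div_self hsp'.ne']
    have h2 : ‖p ^ 2 - p' ^ 2‖ ≤ 2 * ‖p - p'‖ := by
      have h3 : p ^ 2 - p' ^ 2 = (p + p') * (p - p') := by ring
      rw [h3, norm_mul]
      apply mul_le_mul_of_nonneg_right _ (norm_nonneg _)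
      have := norm_add_le p p'
      linarith
    have h4 : ‖s - s'‖ ≤ ‖z - z'‖ := by
      have h5 : s - s' = -((starRingEnd ℂ) a * (z - z')) := by
        rw [hs, hs']
        ring
      rw [h5, norm_neg, norm_mul, RCLike.norm_conj]
      exact mul_le_of_le_one_left hzz ha1.le
    have h6 : ‖p - p'‖ ≤ 2 * ‖s - s'‖ / ‖s'‖ := by
      have h7 : p - p' = ((‖s‖ : ℂ) * (s' - s) + ((‖s‖ : ℂ) - (‖s'‖ : ℂ)) * s) / (s * s') := by
        rw [hp, hp']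
        field_simp
        ring
      rw [h7, norm_div, norm_mul, div_le_div_iff₀ (mul_pos hsp hsp') hsp']
      have h8 : ‖(‖s‖ : ℂ) * (s' - s) + ((‖s‖ : ℂ) - (‖s'‖ : ℂ)) * s‖ ≤
          2 * ‖s - s'‖ * ‖s‖ := by
        refine (norm_add_le _ _).trans ?_
        rw [norm_mul, norm_mul, Complex.norm_real, norm_norm, norm_sub_rev s' s,
          ← Complex.ofReal_sub, Complex.norm_real, Real.norm_eq_abs]
        have h9 : |‖s‖ - ‖s'‖| ≤ ‖s - s'‖ := abs_norm_sub_norm_le _ _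
        have h10 := mul_le_mul_of_nonneg_right h9 hsp.le
        linarith
      calc ‖(‖s‖ : ℂ) * (s' - s) + ((‖s‖ : ℂ) - (‖s'‖ : ℂ)) * s‖ * ‖s'‖
          ≤ 2 * ‖s - s'‖ * ‖s‖ * ‖s'‖ := mul_le_mul_of_nonneg_right h8 hsp'.le
        _ = 2 * ‖s - s'‖ * (‖s‖ * ‖s'‖) := by ring
    have h11 : 2 * ‖s - s'‖ / ‖s'‖ ≤ 2 * ‖z - z'‖ / (1 - R1) :=
      div_le_div₀ (by positivity) (by linarith) hr hsn'
    have h12 : 2 * (2 * ‖z - z'‖ / (1 - R1)) ≤ 4 / (1 - R1) ^ 2 * ‖z - z'‖ := by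
      have h13 : 2 * (2 * ‖z - z'‖ / (1 - R1)) = 4 * ‖z - z'‖ / (1 - R1) := by ring
      rw [h13, div_mul_eq_mul_div]
      exact div_le_div_of_nonneg_left (by positivity) hr2p hr2
    linarith

end Pool.Agent.H.MP_bfbbee_an
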