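import Mathlib
import Pool.Agent.H.MP_bfbbee_an.MobC
import Pool.Agent.H.MP_bfbbee_an.SymA
import Pool.Agent.H.MP_bfbbee_an.OdeB
import Pool.Agent.H.MP_bfbbee_an.Decay

/-!
# Divergence of minimal rays is at most exponential
-/

namespace Pool.Agent.H.MP_bfbbee_an

open Filter Topology

/-- The unit tangent vector with angle `θ` at `z`, moved by the differential of `mob w a`. -/
noncomputable def push (w a z : ℂ) (θ : ℝ) : ℂ := dir θ * (mobd w a z / (‖mobd w a z‖ : ℂ))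

/-- The unit tangent vectors of two rays at the parameter `t` are `e`-close, seen from the point of
the first one. -/
def Near (u : ℂ → ℝ) (R e : ℝ) (r1 : ℝ → ℂ) (θ1 : ℝ → ℝ) (r2 : ℝ → ℂ) (θ2 : ℝ → ℝ) (t : ℝ) : Prop :=
  ∃ w a, Sym u w a ∧ ‖mob w a (r1 t)‖ ≤ R ∧
    ‖mob w a (r1 t) - mob w a (r2 t)‖ + ‖push w a (r1 t) (θ1 t) - push w a (r2 t) (θ2 t)‖ ≤ e

private theorem Near_phase (c : ℂ) : ‖c / (‖c‖ : ℂ)‖ ≤ 1 := by
  rw [norm_div, Complex.norm_real, norm_norm]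
  exact div_self_le_one _

private theorem Near_phase_mul (c d : ℂ) :
    c * d / (‖c * d‖ : ℂ) = c / (‖c‖ : ℂ) * (d / (‖d‖ : ℂ)) := by
  rw [norm_mul, Complex.ofReal_mul, mul_div_mul_comm]

private theorem Near_le {z : ℂ} (hz : z ∈ Disc) : ‖z‖ ≤ 1 := (mem_ball_zero_iff.1 hz).le

/-- The composition of two isometries is an isometry (`mob_comp`, `mob_mem`). -/
theorem Sym.comp {u : ℂ → ℝ} {w1 a1 w2 a2 : ℂ} (h1 : Sym u w1 a1) (h2 : Sym u w2 a2) :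
    ∃ w a, Sym u w a ∧ ∀ z : ℂ, ‖z‖ ≤ 1 → mob w2 a2 (mob w1 a1 z) = mob w a z := by
  obtain ⟨w, a, hw, ha, h⟩ := mob_comp h1.hw h1.ha h2.hw h2.ha
  refine ⟨w, a, ⟨hw, ha, fun z hz => ?_⟩, h⟩
  rw [← h z (Near_le hz), h2.inv _ (mob_mem h1.hw h1.ha hz), h1.inv z hz]

/-- Rays from the same point: `Near` at `t = 0` with `e = ‖dir (θ1 0) - dir (θ2 0)‖` (take an
isometry moving `x` into `closedBall 0 R`; both vectors are multiplied by the same unit complex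
number). -/
theorem near_init {u : ℂ → ℝ} {R : ℝ} (hco : Coco u R) {r1 r2 : ℝ → ℂ} {θ1 θ2 : ℝ → ℝ}
    (hx : r1 0 ∈ Disc) (h : r1 0 = r2 0) :
    Near u R ‖dir (θ1 0) - dir (θ2 0)‖ r1 θ1 r2 θ2 0 := by
  obtain ⟨w, a, hs, hR⟩ := hco.move _ hx
  refine ⟨w, a, hs, hR, ?_⟩
  rw [← h, sub_self, norm_zero, zero_add]
  unfold push
  rw [← sub_mul, norm_mul]
  exact mul_le_of_le_one_right (norm_nonneg _) (Near_phase _)

/-- The vectors of a composition. -/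
private theorem Near_push {w a w2 a2 w3 a3 : ℂ} {u : ℂ → ℝ} (h1 : Sym u w a) (h2 : Sym u w2 a2)
    (h3 : Sym u w3 a3) (hc : ∀ z : ℂ, ‖z‖ ≤ 1 → mob w2 a2 (mob w a z) = mob w3 a3 z) {z : ℂ}
    (hz : z ∈ Disc) {θ θ' : ℝ} (hd : dir θ' = dir θ * (mobd w a z / (‖mobd w a z‖ : ℂ))) :
    push w3 a3 z θ = dir θ' * (mobd w2 a2 (mob w a z) / (‖mobd w2 a2 (mob w a z)‖ : ℂ)) := by
  unfold push
  rw [mobd_comp h1.hw h1.ha h2.hw h2.ha h3.ha hc hz, Near_phase_mul, hd]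
  ring

/-- One step. There are `K ≥ 2` and `ε > 0` such that for all minimal rays and all `t ≥ 0`:
`Near e` at `t` with `0 ≤ e ≤ ε` implies `Near (K e)` at `t + 1`.
Proof. Let `g = mob w a` be the isometry for the parameter `t`. The shifted rays
`s ↦ r_i (t + s)` (`GRay.shift`) have images `r_i' s = g (r_i (t + s))` which are minimal rays with
angles `θ_i'` with `dir (θ_i' s) = push w a (r_i (t + s)) (θ_i (t + s))` (`Sym.ray`). By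
`exists_near` and `dir_eq_iff` there is an integer `k` with
`|θ2' 0 + 2πk - θ1' 0| ≤ 2 ‖dir (θ2' 0) - dir (θ1' 0)‖ ≤ 2 e`. With `R~ = (1 + R) / 2` and
`ε ≤ (1 - R) / 2` both `r_i' 0` are in `closedBall 0 R~`; `geo_gronwall` on `[0, 1]`
(`geo_add_int`) gives `‖r1' 1 - r2' 1‖ + |θ1' 1 - θ2' 1 - 2πk| ≤ 3 Λ e`, hence
`‖r1' 1 - r2' 1‖ + ‖dir (θ1' 1) - dir (θ2' 1)‖ ≤ 3 Λ e` (`dir_lip`; `dir` is `2π`-periodic).
`geo_confine`: `‖r1' 1‖ ≤ R'`. Choose an isometry `g2 = mob w2 a2` with `‖g2 (r1' 1)‖ ≤ R`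
(`hco.move`); by `param_ge`, `‖a2‖ ≤ R1`, and by `mob_lip` `g2` and the phase of its derivative are
`C`-Lipschitz. Let `g3 = g2 ∘ g` (`Sym.comp`); `push` for `g3` is `push` for `g` times the phase of
`mobd w2 a2` (`mobd_comp`), so the new distance is at most `C ‖r1' 1 - r2' 1‖ +
‖dir (θ1' 1) - dir (θ2' 1)‖ + C ‖r1' 1 - r2' 1‖ ≤ 2 C * 3 Λ e`. -/
theorem near_step {u : ℂ → ℝ} {A : ℝ} (M : Met u A) {R : ℝ} (hco : Coco u R) :
    ∃ K ε : ℝ, 2 ≤ K ∧ 0 < ε ∧ ε ≤ (1 - R) / 2 ∧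
      ∀ (r1 : ℝ → ℂ) (θ1 : ℝ → ℝ) (r2 : ℝ → ℂ) (θ2 : ℝ → ℝ) (t e : ℝ),
        GRay u r1 θ1 → GRay u r2 θ2 → 0 ≤ t → 0 ≤ e → e ≤ ε → Near u R e r1 θ1 r2 θ2 t →
          Near u R (K * e) r1 θ1 r2 θ2 (t + 1) := by
  have hR0 : 0 ≤ R := hco.pos
  have hR : R < 1 := hco.lt
  have hRt0 : 0 ≤ (1 + R) / 2 := by linarith
  have hRt : (1 + R) / 2 < 1 := by linarith
  obtain ⟨Λ, hΛ1, hΛ⟩ := geo_gronwall M hRt0 hRt zero_le_one
  obtain ⟨R', hR'1, hR'2, hconf⟩ := geo_confine M hRt0 hRt 1 zero_le_one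
  have hR'0 : 0 ≤ R' := hRt0.trans hR'1
  obtain ⟨R1, hR10, hR11, hpar⟩ := param_ge hR0 hR hR'0 hR'2
  obtain ⟨C, hC1, hC⟩ := mob_lip hR10 hR11
  have hCΛ : 1 ≤ C * Λ := one_le_mul_of_one_le_of_one_le hC1 hΛ1
  refine ⟨4 * (C * Λ), (1 - R) / 2, by linarith, by linarith, le_rfl, ?_⟩
  intro r1 θ1 r2 θ2 t e h1 h2 ht he0 he hN
  obtain ⟨w, a, hs, hle, hsum⟩ := hN
  obtain ⟨θ1', hg1, hd1⟩ := hs.ray M (h1.shift ht)
  obtain ⟨θ2', hg2, hd2⟩ := hs.ray M (h2.shift ht)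
  have hm1 := h1.mem (t + 1) (by linarith)
  have hm2 := h2.mem (t + 1) (by linarith)
  have hd10 := hd1 0 le_rfl
  have hd20 := hd2 0 le_rfl
  have hd11 := hd1 1 zero_le_one
  have hd21 := hd2 1 zero_le_one
  simp only [add_zero] at hd10 hd20
  have hp1 : push w a (r1 t) (θ1 t) = dir (θ1' 0) := hd10.symm
  have hp2 : push w a (r2 t) (θ2 t) = dir (θ2' 0) := hd20.symm
  rw [hp1, hp2] at hsum
  obtain ⟨θ'', hθ1, hθ2⟩ := exists_near (θ := θ1' 0) (norm_dir (θ2' 0))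
  obtain ⟨k, hk⟩ := (dir_eq_iff (θ2' 0) θ'').1 hθ1.symm
  have hG1 := hg1.geo 1 zero_lt_one
  have hG2 := hg2.geo 1 zero_lt_one
  have hG2' := geo_add_int hG2 k
  have hone : (1 : ℝ) ∈ Set.Icc (0 : ℝ) 1 := ⟨zero_le_one, le_rfl⟩
  have hzero : (0 : ℝ) ∈ Set.Icc (0 : ℝ) 1 := ⟨le_rfl, zero_le_one⟩
  have hn0 := norm_nonneg (mob w a (r1 t) - mob w a (r2 t))
  have hn1 := norm_nonneg (dir (θ1' 0) - dir (θ2' 0))
  have hz1 : ‖mob w a (r1 (t + 0))‖ ≤ (1 + R) / 2 := by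
    rw [add_zero]
    linarith
  have hz2 : ‖mob w a (r2 (t + 0))‖ ≤ (1 + R) / 2 := by
    rw [add_zero]
    have h3 : ‖mob w a (r2 t)‖ ≤ ‖mob w a (r1 t)‖ + ‖mob w a (r1 t) - mob w a (r2 t)‖ := by
      have h4 := norm_sub_le (mob w a (r1 t)) (mob w a (r1 t) - mob w a (r2 t))
      rwa [sub_sub_cancel] at h4
    linarith
  have hgr := hΛ _ _ _ _ hG1 hG2' hz1 hz2 1 hone
  simp only [add_zero] at hgr
  have hang : |θ1' 0 - (θ2' 0 + 2 * Real.pi * k)| ≤ 2 * ‖dir (θ1' 0) - dir (θ2' 0)‖ := by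
    rw [abs_sub_comm, ← hk, norm_sub_rev]
    exact hθ2
  set X := ‖mob w a (r1 (t + 1)) - mob w a (r2 (t + 1))‖ with hX
  have hX0 : 0 ≤ X := norm_nonneg _
  have hgr2 : X + |θ1' 1 - (θ2' 1 + 2 * Real.pi * k)| ≤ Λ * (2 * e) := by
    refine hgr.trans (mul_le_mul_of_nonneg_left ?_ (by linarith))
    linarith
  have hdir : ‖dir (θ1' 1) - dir (θ2' 1)‖ ≤ |θ1' 1 - (θ2' 1 + 2 * Real.pi * k)| := by
    have h3 : dir (θ2' 1) = dir (θ2' 1 + 2 * Real.pi * k) := (dir_eq_iff _ _).2 ⟨k, rfl⟩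
    rw [h3]
    exact dir_lip _ _
  have hz11 : ‖mob w a (r1 (t + 1))‖ ≤ R' :=
    hconf _ _ _ _ hG1 0 hzero hz1 1 hone (by norm_num)
  have hmm1 : mob w a (r1 (t + 1)) ∈ Disc := mob_mem hs.hw hs.ha hm1
  have hmm2 : mob w a (r2 (t + 1)) ∈ Disc := mob_mem hs.hw hs.ha hm2
  obtain ⟨w2, a2, hs2, hR2⟩ := hco.move _ hmm1
  have ha2 : ‖a2‖ ≤ R1 := hpar w2 a2 _ hs2.hw hs2.ha hz11 hR2
  obtain ⟨w3, a3, hs3, hc⟩ := Sym.comp hs hs2
  obtain ⟨hL1, hL2⟩ := hC w2 a2 _ _ hs2.hw ha2 (Near_le hmm1) (Near_le hmm2)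
  refine ⟨w3, a3, hs3, ?_, ?_⟩
  · rw [← hc _ (Near_le hm1)]
    exact hR2
  · rw [← hc _ (Near_le hm1), ← hc _ (Near_le hm2),
      Near_push hs hs2 hs3 hc hm1 hd11, Near_push hs hs2 hs3 hc hm2 hd21]
    set p1 := mobd w2 a2 (mob w a (r1 (t + 1))) / (‖mobd w2 a2 (mob w a (r1 (t + 1)))‖ : ℂ)
      with hp1
    set p2 := mobd w2 a2 (mob w a (r2 (t + 1))) / (‖mobd w2 a2 (mob w a (r2 (t + 1)))‖ : ℂ)
      with hp2
    have hsplit : dir (θ1' 1) * p1 - dir (θ2' 1) * p2 =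
        (dir (θ1' 1) - dir (θ2' 1)) * p1 + dir (θ2' 1) * (p1 - p2) := by ring
    have hn : ‖dir (θ1' 1) * p1 - dir (θ2' 1) * p2‖ ≤
        ‖dir (θ1' 1) - dir (θ2' 1)‖ + C * X := by
      rw [hsplit]
      refine (norm_add_le _ _).trans ?_
      rw [norm_mul, norm_mul, norm_dir, one_mul]
      exact add_le_add (mul_le_of_le_one_right (norm_nonneg _) (Near_phase _)) hL2
    have h5 : |θ1' 1 - (θ2' 1 + 2 * Real.pi * k)| ≤
        C * |θ1' 1 - (θ2' 1 + 2 * Real.pi * k)| :=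
      le_mul_of_one_le_left (abs_nonneg _) hC1
    have h6 : C * (X + |θ1' 1 - (θ2' 1 + 2 * Real.pi * k)|) ≤ C * (Λ * (2 * e)) :=
      mul_le_mul_of_nonneg_left hgr2 (by linarith)
    have h7 : 0 ≤ C * |θ1' 1 - (θ2' 1 + 2 * Real.pi * k)| :=
      mul_nonneg (by linarith) (abs_nonneg _)
    have h8 : 4 * (C * Λ) * e = 2 * (C * (Λ * (2 * e))) := by ring
    rw [h8]
    rw [mul_add] at h6
    linarith

/-- `Near` implies Euclidean closeness: for `e ≤ (1 - R) / 2`,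
`‖r1 t - r2 t‖ ≤ 4 / (1 - R)² * e * sqrt ((1 - |r1 t|²) (1 - |r2 t|²))`. (`mob_sub_sqrt`,
`one_sub_mob`: `‖mobd z_i‖ = (1 - |g z_i|²) / (1 - |z_i|²)`, `|g z_1| ≤ R`,
`|g z_2| ≤ R + e ≤ (1 + R) / 2`, so `1 - |g z_i|² ≥ (1 - R) / 2`.) -/
theorem near_dist {u : ℂ → ℝ} {R e : ℝ} (hR0 : 0 ≤ R) (hR : R < 1) (he : e ≤ (1 - R) / 2)
    {r1 r2 : ℝ → ℂ} {θ1 θ2 : ℝ → ℝ} {t : ℝ} (h1 : r1 t ∈ Disc) (h2 : r2 t ∈ Disc)
    (h : Near u R e r1 θ1 r2 θ2 t) :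
    ‖r1 t - r2 t‖ ≤ 4 / (1 - R) ^ 2 * e * Real.sqrt ((1 - ‖r1 t‖ ^ 2) * (1 - ‖r2 t‖ ^ 2)) := by
  obtain ⟨w, a, hs, hle, hsum⟩ := h
  have hsub := mob_sub_sqrt hs.hw hs.ha (Near_le h1) (Near_le h2)
  have ho1 := one_sub_mob hs.hw hs.ha (Near_le h1)
  have ho2 := one_sub_mob hs.hw hs.ha (Near_le h2)
  have hp := norm_nonneg (push w a (r1 t) (θ1 t) - push w a (r2 t) (θ2 t))
  have hm := norm_nonneg (mob w a (r1 t) - mob w a (r2 t))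
  have he0 : 0 ≤ e := by linarith
  have hme : ‖mob w a (r1 t) - mob w a (r2 t)‖ ≤ e := by linarith
  have hz2 : ‖mob w a (r2 t)‖ ≤ (1 + R) / 2 := by
    have h3 : ‖mob w a (r2 t)‖ ≤ ‖mob w a (r1 t)‖ + ‖mob w a (r1 t) - mob w a (r2 t)‖ := by
      have h4 := norm_sub_le (mob w a (r1 t)) (mob w a (r1 t) - mob w a (r2 t))
      rwa [sub_sub_cancel] at h4
    linarith
  have hb1 : (1 - R) / 2 ≤ 1 - ‖mob w a (r1 t)‖ ^ 2 := by
    have := norm_nonneg (mob w a (r1 t))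
    nlinarith
  have hb2 : (1 - R) / 2 ≤ 1 - ‖mob w a (r2 t)‖ ^ 2 := by
    have := norm_nonneg (mob w a (r2 t))
    nlinarith
  set q1 := 1 - ‖r1 t‖ ^ 2 with hq1
  set q2 := 1 - ‖r2 t‖ ^ 2 with hq2
  have hq1p : 0 < q1 := q_pos h1
  have hq2p : 0 < q2 := q_pos h2
  set m1 := ‖mobd w a (r1 t)‖ with hm1
  set m2 := ‖mobd w a (r2 t)‖ with hm2
  have hm1p : 0 ≤ m1 := norm_nonneg _
  have hm2p : 0 ≤ m2 := norm_nonneg _
  have hR2 : 0 < (1 - R) / 2 := by linarith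
  have hprod : (1 - R) / 2 ≤ Real.sqrt (m1 * m2) * Real.sqrt (q1 * q2) := by
    rw [← Real.sqrt_mul (mul_nonneg hm1p hm2p)]
    apply Real.le_sqrt_of_sq_le
    have h3 : m1 * m2 * (q1 * q2) = (q1 * m1) * (q2 * m2) := by ring
    rw [h3, ← ho1, ← ho2, sq]
    exact mul_le_mul hb1 hb2 hR2.le (hR2.le.trans hb1)
  have hS := Real.sqrt_nonneg (q1 * q2)
  have hkey : ‖r1 t - r2 t‖ * ((1 - R) / 2) ≤ e * Real.sqrt (q1 * q2) := by
    calc ‖r1 t - r2 t‖ * ((1 - R) / 2)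
        ≤ ‖r1 t - r2 t‖ * (Real.sqrt (m1 * m2) * Real.sqrt (q1 * q2)) :=
          mul_le_mul_of_nonneg_left hprod (norm_nonneg _)
      _ = ‖mob w a (r1 t) - mob w a (r2 t)‖ * Real.sqrt (q1 * q2) := by
          rw [hsub]; ring
      _ ≤ e * Real.sqrt (q1 * q2) := mul_le_mul_of_nonneg_right hme hS
  have hfin : ‖r1 t - r2 t‖ ≤ e * Real.sqrt (q1 * q2) / ((1 - R) / 2) := by
    rw [le_div_iff₀ hR2]
    exact hkey
  refine hfin.trans ?_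
  have h1R : 0 < 1 - R := by linarith
  have hA : 0 ≤ e * Real.sqrt (q1 * q2) := mul_nonneg he0 hS
  have h5 : e * Real.sqrt (q1 * q2) / ((1 - R) / 2) =
      2 * (1 - R) * (e * Real.sqrt (q1 * q2)) / (1 - R) ^ 2 := by
    field_simp
  have h6 : 4 / (1 - R) ^ 2 * e * Real.sqrt (q1 * q2) =
      4 * (e * Real.sqrt (q1 * q2)) / (1 - R) ^ 2 := by
    ring
  rw [h5, h6]
  apply div_le_div_of_nonneg_right _ (by positivity)
  apply mul_le_mul_of_nonneg_right _ hA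
  linarith

end Pool.Agent.H.MP_bfbbee_an
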