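import Mathlib
import Pool.Agent.H.MP_bfbbee_an.Near

/-!
# The end point map is Hölder continuous
-/

namespace Pool.Agent.H.MP_bfbbee_an

open Filter Topology

/-- `Near` propagates along both rays as long as the bound stays below `ε`. -/
private theorem near_all {u : ℂ → ℝ} {R K ε : ℝ} (hco : Coco u R) (hK : 2 ≤ K)
    (hstep : ∀ (r1 : ℝ → ℂ) (θ1 : ℝ → ℝ) (r2 : ℝ → ℂ) (θ2 : ℝ → ℝ) (t e : ℝ),
        GRay u r1 θ1 → GRay u r2 θ2 → 0 ≤ t → 0 ≤ e → e ≤ ε → Near u R e r1 θ1 r2 θ2 t →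
          Near u R (K * e) r1 θ1 r2 θ2 (t + 1)) {r1 r2 : ℝ → ℂ} {θ1 θ2 : ℝ → ℝ}
    (h1 : GRay u r1 θ1) (h2 : GRay u r2 θ2) (h12 : r1 0 = r2 0) (n : ℕ)
    (hn : K ^ n * ‖dir (θ1 0) - dir (θ2 0)‖ ≤ ε) :
    Near u R (K ^ n * ‖dir (θ1 0) - dir (θ2 0)‖) r1 θ1 r2 θ2 n := by
  induction n with
  | zero =>
    rw [pow_zero, one_mul, Nat.cast_zero]
    exact near_init hco (h1.mem 0 le_rfl) h12
  | succ n ih =>
    have hΔ : 0 ≤ ‖dir (θ1 0) - dir (θ2 0)‖ := norm_nonneg _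
    have hKn : 0 ≤ K ^ n := by positivity
    have h3 : 0 ≤ K ^ n * ‖dir (θ1 0) - dir (θ2 0)‖ := mul_nonneg hKn hΔ
    have h4 : K ^ (n + 1) * ‖dir (θ1 0) - dir (θ2 0)‖ =
        K * (K ^ n * ‖dir (θ1 0) - dir (θ2 0)‖) := by ring
    have h5 : K ^ n * ‖dir (θ1 0) - dir (θ2 0)‖ ≤ ε := by
      refine le_trans ?_ hn
      rw [h4]
      nlinarith
    have h6 := hstep r1 θ1 r2 θ2 n _ h1 h2 (Nat.cast_nonneg n) h3 h5 (ih h5)
    rw [h4]
    push_cast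
    exact h6

/-- The restriction of a minimal ray. -/
private theorem gray_isoOn {u : ℂ → ℝ} {r : ℝ → ℂ} {θ : ℝ → ℝ} (h : GRay u r θ) (T : ℝ) :
    IsoOn u 0 T r :=
  ⟨fun t ht => h.mem t ht.1, fun s hs t ht => h.iso s hs.1 t ht.1⟩

/-- The distance of the end points when `Near` holds at the parameter `n`. -/
private theorem end_dist {u : ℂ → ℝ} {A : ℝ} (M : Met u A) {R e ε : ℝ} (hco : Coco u R)
    (he : e ≤ ε) (hε : ε ≤ (1 - R) / 2) (hε0 : 0 < ε) {x : ℂ} (hx : x ∈ Disc)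
    {r1 r2 : ℝ → ℂ} {θ1 θ2 : ℝ → ℝ} {ξ1 ξ2 : ℂ}
    (h1 : GRay u r1 θ1) (h2 : GRay u r2 θ2) (hx1 : r1 0 = x) (hx2 : r2 0 = x)
    (hξ1 : Tendsto r1 atTop (𝓝 ξ1)) (hξ2 : Tendsto r2 atTop (𝓝 ξ2)) {n : ℕ}
    (hn : Near u R e r1 θ1 r2 θ2 n) :
    ‖ξ1 - ξ2‖ ≤ (2 * (8 * Real.exp (2 * A) / (1 - ‖x‖ ^ 2)) +
      4 / (1 - R) ^ 2 * ε * (16 / (1 - ‖x‖ ^ 2))) * Real.exp (-(Real.exp (-A) * n)) := by
  have hq := q_pos hx
  have hx' : ‖x‖ < 1 := by simpa [Disc] using hx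
  have hR := hco.lt
  have hn0 : (0 : ℝ) ≤ n := Nat.cast_nonneg n
  have e1 := ray_rate M (norm_nonneg x) hx' h1 (by rw [hx1]) hξ1 hn0
  have e2 := ray_rate M (norm_nonneg x) hx' h2 (by rw [hx2]) hξ2 hn0
  have e3 := near_dist hco.pos hR (he.trans hε) (h1.mem _ hn0) (h2.mem _ hn0) hn
  have hmem : (n : ℝ) ∈ Set.Icc (0 : ℝ) n := ⟨hn0, le_rfl⟩
  have e4 := seg_q_le M (norm_nonneg x) hx' (gray_isoOn h1 n) (by rw [hx1]) hmem
  have e5 := seg_q_le M (norm_nonneg x) hx' (gray_isoOn h2 n) (by rw [hx2]) hmem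
  have p1 := q_pos (h1.mem _ hn0)
  have p2 := q_pos (h2.mem _ hn0)
  have hE := Real.exp_pos (-(Real.exp (-A) * n))
  have hQ : 0 ≤ 16 / (1 - ‖x‖ ^ 2) * Real.exp (-(Real.exp (-A) * n)) := by positivity
  have e6 : Real.sqrt ((1 - ‖r1 n‖ ^ 2) * (1 - ‖r2 n‖ ^ 2)) ≤
      16 / (1 - ‖x‖ ^ 2) * Real.exp (-(Real.exp (-A) * n)) := by
    exact Real.sqrt_le_iff.2 ⟨hQ, (mul_le_mul e4 e5 p2.le hQ).trans (le_of_eq (sq _).symm)⟩
  have hR2 : 0 < (1 - R) ^ 2 := by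
    have : 0 < 1 - R := by linarith
    positivity
  have hc : 0 ≤ 4 / (1 - R) ^ 2 := by positivity
  have e7 : 4 / (1 - R) ^ 2 * e * Real.sqrt ((1 - ‖r1 n‖ ^ 2) * (1 - ‖r2 n‖ ^ 2)) ≤
      4 / (1 - R) ^ 2 * ε * (16 / (1 - ‖x‖ ^ 2) * Real.exp (-(Real.exp (-A) * n))) := by
    refine le_trans (mul_le_mul_of_nonneg_right
      (mul_le_mul_of_nonneg_left he hc) (Real.sqrt_nonneg _)) ?_
    exact mul_le_mul_of_nonneg_left e6 (mul_nonneg hc hε0.le)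
  have e8 : ‖ξ1 - ξ2‖ ≤ ‖r1 n - ξ1‖ + ‖r1 n - r2 n‖ + ‖r2 n - ξ2‖ := by
    have : ξ1 - ξ2 = -(r1 n - ξ1) + (r1 n - r2 n) + (r2 n - ξ2) := by ring
    rw [this]
    refine (norm_add_le _ _).trans ?_
    refine add_le_add_left ?_ _
    refine (norm_add_le _ _).trans ?_
    rw [norm_neg]
  nlinarith

/-- Hölder continuity of the end point of minimal rays from `x`, with an exponent `α` depending
only on the metric. Proof. Let `K, ε` be from `near_step`, `c = e^(-A)` and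
`α = c / log K`. Let `Δ = ‖dir (θ1 0) - dir (θ2 0)‖`. If `Δ = 0` the rays coincide
(`geo_unique` on all `[0, T]`) and so do the end points. If `Δ > ε`, then
`‖ξ1 - ξ2‖ ≤ 2 ≤ (2 / ε^α) Δ^α`. Otherwise let `n` be the largest natural number with
`K^n Δ ≤ ε` (`n = ⌊log (ε / Δ) / log K⌋`). By `near_init` and induction with `near_step`,
`Near (K^m Δ)` holds at `m` for all `m ≤ n`. By `near_dist` and `seg_q_le` (for the
restriction of the rays to `[0, n]`, constants depending on `x`),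
`‖r1 n - r2 n‖ ≤ C e^(- c n)`, and by `ray_rate` `‖r_i n - ξ_i‖ ≤ C e^(- c n)`. So
`‖ξ1 - ξ2‖ ≤ 3 C e^(- c n) = 3 C K^(- α n) = 3 C K^α K^(- α (n + 1)) ≤ 3 C K^α (Δ / ε)^α`, as
`K^(n+1) > ε / Δ`. -/
theorem end_holder {u : ℂ → ℝ} {A : ℝ} (M : Met u A) {R : ℝ} (hco : Coco u R) :
    ∃ α : ℝ, 0 < α ∧ ∀ x ∈ Disc, ∃ C : ℝ, 0 ≤ C ∧
      ∀ (r1 : ℝ → ℂ) (θ1 : ℝ → ℝ) (r2 : ℝ → ℂ) (θ2 : ℝ → ℝ) (ξ1 ξ2 : ℂ),
        GRay u r1 θ1 → GRay u r2 θ2 → r1 0 = x → r2 0 = x →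
        Tendsto r1 atTop (𝓝 ξ1) → Tendsto r2 atTop (𝓝 ξ2) →
          ‖ξ1 - ξ2‖ ≤ C * ‖dir (θ1 0) - dir (θ2 0)‖ ^ α := by
  obtain ⟨K, ε, hK, hε0, hε, hstep⟩ := near_step M hco
  have hK0 : 0 < K := by linarith
  have hlogK : 0 < Real.log K := Real.log_pos (by linarith)
  obtain ⟨c, hc⟩ : ∃ c, c = Real.exp (-A) := ⟨_, rfl⟩
  have hc0 : 0 < c := hc ▸ Real.exp_pos _
  refine ⟨c / Real.log K, div_pos hc0 hlogK, fun x hx => ?_⟩
  obtain ⟨α, hα⟩ : ∃ α, α = c / Real.log K := ⟨_, rfl⟩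
  rw [← hα]
  have hα0 : 0 < α := hα ▸ div_pos hc0 hlogK
  have hαK : α * Real.log K = c := by
    rw [hα]
    field_simp
  have hq := q_pos hx
  obtain ⟨C3, hC3⟩ : ∃ C3, C3 = 2 * (8 * Real.exp (2 * A) / (1 - ‖x‖ ^ 2)) +
      4 / (1 - R) ^ 2 * ε * (16 / (1 - ‖x‖ ^ 2)) := ⟨_, rfl⟩
  have hR := hco.lt
  have hR2 : 0 < (1 - R) ^ 2 := by
    have : 0 < 1 - R := by linarith
    positivity
  have hC30 : 0 ≤ C3 := by
    rw [hC3]
    positivity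
  have hεα : 0 < ε ^ α := Real.rpow_pos_of_pos hε0 α
  refine ⟨(C3 * Real.exp c + 2) / ε ^ α, by positivity, ?_⟩
  intro r1 θ1 r2 θ2 ξ1 ξ2 h1 h2 hx1 hx2 hξ1 hξ2
  obtain ⟨Δ, hΔ⟩ : ∃ Δ, Δ = ‖dir (θ1 0) - dir (θ2 0)‖ := ⟨_, rfl⟩
  have hΔ0 : 0 ≤ Δ := hΔ ▸ norm_nonneg _
  have h12 : r1 0 = r2 0 := by rw [hx1, hx2]
  have key : ∀ n : ℕ, K ^ n * Δ ≤ ε → ‖ξ1 - ξ2‖ ≤ C3 * Real.exp (-(c * n)) := by
    intro n hn
    rw [hΔ] at hn
    have := end_dist M hco hn hε hε0 hx h1 h2 hx1 hx2 hξ1 hξ2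
      (near_all hco hK hstep h1 h2 h12 n hn)
    rw [hC3, hc]
    exact this
  rw [← hΔ]
  rcases hΔ0.eq_or_lt with hz | hpos
  · -- equal directions
    rw [← hz, Real.zero_rpow hα0.ne', mul_zero]
    have hlim : Tendsto (fun n : ℕ => C3 * Real.exp (-(c * n))) atTop (𝓝 0) := by
      have t1 : Tendsto (fun n : ℕ => c * (n : ℝ)) atTop atTop :=
        (tendsto_natCast_atTop_atTop (R := ℝ)).const_mul_atTop hc0
      have t2 := (Real.tendsto_exp_neg_atTop_nhds_zero.comp t1).const_mul C3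
      rw [mul_zero] at t2
      exact t2
    refine ge_of_tendsto' hlim fun n => key n ?_
    rw [← hz, mul_zero]
    exact hε0.le
  · rcases le_or_gt Δ ε with hle | hgt
    · -- the main case
      have hex : ∃ m : ℕ, ε < K ^ m * Δ := by
        obtain ⟨m, hm⟩ := pow_unbounded_of_one_lt (ε / Δ) (by linarith : 1 < K)
        refine ⟨m, ?_⟩
        rwa [div_lt_iff₀ hpos] at hm
      classical
      obtain ⟨m, hm, hmin⟩ : ∃ m : ℕ, ε < K ^ m * Δ ∧ ∀ k < m, ¬ (ε < K ^ k * Δ) :=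
        ⟨Nat.find hex, Nat.find_spec hex, fun k hk => Nat.find_min hex hk⟩
      have hm0 : m ≠ 0 := by
        rintro rfl
        rw [pow_zero, one_mul] at hm
        linarith
      obtain ⟨n, rfl⟩ := Nat.exists_eq_succ_of_ne_zero hm0
      have hn : K ^ n * Δ ≤ ε := not_lt.1 (hmin n (Nat.lt_succ_self n))
      refine (key n hn).trans ?_
      -- `exp (-c (n+1)) ≤ (Δ / ε) ^ α`
      have hΔε : 0 < Δ / ε := div_pos hpos hε0
      have h3 : -(c * ((n : ℝ) + 1)) ≤ α * Real.log (Δ / ε) := by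
        have h4 : Real.log ε ≤ Real.log (K ^ (n + 1) * Δ) := Real.log_le_log hε0 hm.le
        rw [Real.log_mul (by positivity) hpos.ne', Real.log_pow] at h4
        rw [Real.log_div hpos.ne' hε0.ne', ← hαK]
        push_cast at h4
        have h5 := mul_le_mul_of_nonneg_left h4 hα0.le
        nlinarith
      have h6 : Real.exp (-(c * ((n : ℝ) + 1))) ≤ Δ ^ α / ε ^ α := by
        rw [← Real.div_rpow hΔ0 hε0.le, Real.rpow_def_of_pos hΔε, mul_comm (Real.log _)]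
        exact Real.exp_le_exp.2 h3
      have h7 : Real.exp (-(c * n)) = Real.exp c * Real.exp (-(c * ((n : ℝ) + 1))) := by
        rw [← Real.exp_add]
        congr 1
        ring
      rw [h7]
      have hΔα : 0 ≤ Δ ^ α := Real.rpow_nonneg hΔ0 α
      calc C3 * (Real.exp c * Real.exp (-(c * ((n : ℝ) + 1))))
          = C3 * Real.exp c * Real.exp (-(c * ((n : ℝ) + 1))) := by ring
        _ ≤ C3 * Real.exp c * (Δ ^ α / ε ^ α) :=
            mul_le_mul_of_nonneg_left h6 (by positivity)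
        _ ≤ (C3 * Real.exp c + 2) * (Δ ^ α / ε ^ α) :=
            mul_le_mul_of_nonneg_right (by linarith) (by positivity)
        _ = (C3 * Real.exp c + 2) / ε ^ α * Δ ^ α := by ring
    · -- far directions
      have hb : ∀ {r : ℝ → ℂ} {θ : ℝ → ℝ} {ξ : ℂ}, GRay u r θ → Tendsto r atTop (𝓝 ξ) →
          ‖ξ‖ ≤ 1 := by
        intro r θ ξ h hξ
        refine le_of_tendsto hξ.norm ?_
        filter_upwards [eventually_ge_atTop (0 : ℝ)] with t ht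
        have := h.mem t ht
        rw [Disc, mem_ball_zero_iff] at this
        exact this.le
      have h3 : ‖ξ1 - ξ2‖ ≤ 2 := by
        refine (norm_sub_le _ _).trans ?_
        linarith [hb h1 hξ1, hb h2 hξ2]
      have h4 : ε ^ α ≤ Δ ^ α := Real.rpow_le_rpow hε0.le hgt.le hα0.le
      have h5 : 1 ≤ Δ ^ α / ε ^ α := (one_le_div hεα).2 h4
      calc ‖ξ1 - ξ2‖ ≤ 2 := h3
        _ ≤ (C3 * Real.exp c + 2) * (Δ ^ α / ε ^ α) := by
            have : 0 ≤ C3 * Real.exp c := by positivity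
            nlinarith
        _ = (C3 * Real.exp c + 2) / ε ^ α * Δ ^ α := by ring

/-- The unit circle has Hausdorff dimension at least one (its image under the Lipschitz map
`Complex.re` contains `[-1, 1]`). -/
theorem dimH_circle : 1 ≤ dimH {ξ : ℂ | ‖ξ‖ = 1} := by
  have hre : LipschitzWith 1 (fun z : ℂ => z.re) := by
    refine LipschitzWith.of_dist_le_mul fun z w => ?_
    rw [NNReal.coe_one, one_mul, Real.dist_eq, Complex.dist_eq, ← Complex.sub_re]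
    exact Complex.abs_re_le_norm _
  have h1 : Set.Icc (-1 : ℝ) 1 ⊆ (fun z : ℂ => z.re) '' {ξ : ℂ | ‖ξ‖ = 1} := by
    intro t ht
    refine ⟨dir (Real.arccos t), norm_dir _, ?_⟩
    change (Complex.exp ((Real.arccos t : ℂ) * Complex.I)).re = t
    rw [Complex.exp_ofReal_mul_I_re]
    exact Real.cos_arccos ht.1 ht.2
  have h2 : dimH (Set.Icc (-1 : ℝ) 1) = 1 := by
    have : (interior (Set.Icc (-1 : ℝ) 1)).Nonempty := by
      rw [interior_Icc]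
      exact ⟨0, by constructor <;> norm_num⟩
    rw [Real.dimH_of_nonempty_interior this]
    simp
  calc (1 : ENNReal) = dimH (Set.Icc (-1 : ℝ) 1) := h2.symm
    _ ≤ dimH ((fun z : ℂ => z.re) '' {ξ : ℂ | ‖ξ‖ = 1}) := dimH_mono h1
    _ ≤ dimH {ξ : ℂ | ‖ξ‖ = 1} := hre.dimH_image_le _

/-- Dimension bound. Let `T` be a set of angles such that for every `ξ` on the circle there is a
minimal ray from `x` to `ξ` with an angle in `T`. Then `α ≤ dimH T` with the exponent `α` of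
`end_holder`. (Let `E` be the set of the `θ` in `T` which are angles of minimal rays from `x`, and
`e θ` the end point, well defined by `geo_unique`; `e` is Hölder with exponent `α` on `E`
(`dir_lip`), and `e '' E` contains the circle. `HolderOnWith.dimH_image_le`, `dimH_circle`.) -/
theorem dimH_ge {u : ℂ → ℝ} {A : ℝ} (M : Met u A) {x : ℂ} (hx : x ∈ Disc) {α : NNReal}
    (hα : 0 < α) {C : ℝ} (hC : 0 ≤ C)
    (hH : ∀ (r1 : ℝ → ℂ) (θ1 : ℝ → ℝ) (r2 : ℝ → ℂ) (θ2 : ℝ → ℝ) (ξ1 ξ2 : ℂ),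
        GRay u r1 θ1 → GRay u r2 θ2 → r1 0 = x → r2 0 = x →
        Tendsto r1 atTop (𝓝 ξ1) → Tendsto r2 atTop (𝓝 ξ2) →
          ‖ξ1 - ξ2‖ ≤ C * ‖dir (θ1 0) - dir (θ2 0)‖ ^ (α : ℝ)) {T : Set ℝ}
    (hT : ∀ ξ : ℂ, ‖ξ‖ = 1 → ∃ r θ, GRay u r θ ∧ r 0 = x ∧ Tendsto r atTop (𝓝 ξ) ∧ θ 0 ∈ T) :
    (α : ENNReal) ≤ dimH T := by
  classical
  have hα' : (0 : ℝ) < α := by exact_mod_cast hα
  obtain ⟨P, hP⟩ : ∃ P : ℝ → ℂ → Prop, ∀ t ξ, P t ξ ↔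
      ∃ r θ, GRay u r θ ∧ r 0 = x ∧ Tendsto r atTop (𝓝 ξ) ∧ θ 0 = t :=
    ⟨fun t ξ => ∃ r θ, GRay u r θ ∧ r 0 = x ∧ Tendsto r atTop (𝓝 ξ) ∧ θ 0 = t,
      fun _ _ => Iff.rfl⟩
  have hcl : ∀ t t' ξ ξ', P t ξ → P t' ξ' → ‖ξ - ξ'‖ ≤ C * |t - t'| ^ (α : ℝ) := by
    intro t t' ξ ξ' h h'
    obtain ⟨r, θ, h1, h2, h3, h4⟩ := (hP t ξ).1 h
    obtain ⟨r', θ', h1', h2', h3', h4'⟩ := (hP t' ξ').1 h'
    refine (hH r θ r' θ' ξ ξ' h1 h1' h2 h2' h3 h3').trans ?_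
    refine mul_le_mul_of_nonneg_left ?_ hC
    refine Real.rpow_le_rpow (norm_nonneg _) ?_ hα'.le
    rw [h4, h4']
    exact dir_lip t t'
  have hch : ∀ t : ℝ, ∃ ξ : ℂ, (∃ ξ', P t ξ') → P t ξ := by
    intro t
    by_cases h : ∃ ξ', P t ξ'
    · obtain ⟨ξ, hξ⟩ := h
      exact ⟨ξ, fun _ => hξ⟩
    · exact ⟨0, fun h' => absurd h' h⟩
  choose e he using hch
  obtain ⟨E, hE⟩ : ∃ E : Set ℝ, E = {t | t ∈ T ∧ ∃ ξ, P t ξ} := ⟨_, rfl⟩
  have hET : E ⊆ T := by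
    rw [hE]
    exact fun t ht => ht.1
  have hhol : HolderOnWith C.toNNReal α e E := by
    intro t ht t' ht'
    rw [hE] at ht ht'
    have h1 := hcl t t' (e t) (e t') (he t ht.2) (he t' ht'.2)
    rw [edist_dist, edist_dist, Complex.dist_eq, Real.dist_eq]
    rw [ENNReal.ofReal_rpow_of_nonneg (abs_nonneg _) hα'.le]
    have h2 : (C.toNNReal : ENNReal) = ENNReal.ofReal C := rfl
    rw [h2, ← ENNReal.ofReal_mul hC]
    exact ENNReal.ofReal_le_ofReal h1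
  have hsub : {ξ : ℂ | ‖ξ‖ = 1} ⊆ e '' E := by
    intro ξ hξ
    obtain ⟨r, θ, h1, h2, h3, h4⟩ := hT ξ hξ
    have hPt : P (θ 0) ξ := (hP _ _).2 ⟨r, θ, h1, h2, h3, rfl⟩
    refine ⟨θ 0, ?_, ?_⟩
    · rw [hE]
      exact ⟨h4, ξ, hPt⟩
    · have h5 := hcl _ _ _ _ (he (θ 0) ⟨ξ, hPt⟩) hPt
      rw [sub_self, abs_zero, Real.zero_rpow hα'.ne', mul_zero] at h5
      exact sub_eq_zero.1 (norm_le_zero_iff.1 h5)
  have h6 : (1 : ENNReal) ≤ dimH E / α := by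
    calc (1 : ENNReal) ≤ dimH {ξ : ℂ | ‖ξ‖ = 1} := dimH_circle
      _ ≤ dimH (e '' E) := dimH_mono hsub
      _ ≤ dimH E / α := hhol.dimH_image_le hα
  have hαE : (α : ENNReal) ≠ 0 := by
    rw [ENNReal.coe_ne_zero]
    exact hα.ne'
  have h7 : (1 : ENNReal) * α ≤ dimH E :=
    (ENNReal.le_div_iff_mul_le (Or.inl hαE) (Or.inl ENNReal.coe_ne_top)).1 h6
  rw [one_mul] at h7
  exact h7.trans (dimH_mono hET)

end Pool.Agent.H.MP_bfbbee_an
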