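import Mathlib
import Pool.Agent.H.MP_bfbbee_an.Hold
import Pool.Agent.H.MP_bfbbee_an.Crit

/-!
# The main theorem in terms of the internal definitions
-/

namespace Pool.Agent.H.MP_bfbbee_an

open Filter Topology

/-- The function `u` is bounded: it is continuous on the compact set `closedBall 0 R` and invariant
under isometries which move every point into this set. -/
theorem exists_met {u : ℂ → ℝ} (hu : ContDiffOn ℝ 2 u Disc) {R : ℝ} (hco : Coco u R) :
    ∃ A, Met u A := by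
  have hsub : Metric.closedBall (0 : ℂ) R ⊆ Disc := by
    intro z hz
    rw [mem_closedBall_zero_iff] at hz
    rw [Disc, mem_ball_zero_iff]
    exact lt_of_le_of_lt hz hco.lt
  have hc : ContinuousOn u (Metric.closedBall (0 : ℂ) R) := hu.continuousOn.mono hsub
  obtain ⟨A, hA⟩ := (isCompact_closedBall (0 : ℂ) R).exists_bound_of_continuousOn hc
  have h0 : (0 : ℂ) ∈ Metric.closedBall (0 : ℂ) R := by
    rw [mem_closedBall_zero_iff, norm_zero]
    exact hco.pos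
  refine ⟨A, hu, (norm_nonneg _).trans (hA 0 h0), fun z hz => ?_⟩
  obtain ⟨w, a, hs, hm⟩ := hco.move z hz
  have h1 : mob w a z ∈ Metric.closedBall (0 : ℂ) R := by
    rw [mem_closedBall_zero_iff]
    exact hm
  have h2 := hA _ h1
  rw [hs.inv z hz, Real.norm_eq_abs] at h2
  exact h2

theorem main {u : ℂ → ℝ} (hu : ContDiffOn ℝ 2 u Disc) {R : ℝ} (hco : Coco u R) :
    ∃ α : NNReal, 0 < α ∧ ∀ F : ℂ × ℝ → ℝ, FirstIntegral u F → (∃ R', CocoF u F R') →
      ∃ c : ℝ, ∀ x ∈ Disc, (α : ENNReal) ≤ dimH {θ : ℝ | F (x, θ) = c ∧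
        (ContDiffOn ℝ 1 F (Disc ×ˢ Set.univ) → fderiv ℝ F (x, θ) = 0)} := by
  obtain ⟨A, M⟩ := exists_met hu hco
  obtain ⟨α, hα, h⟩ := end_holder M hco
  refine ⟨⟨α, hα.le⟩, by exact_mod_cast hα, fun F hF hR' => ?_⟩
  obtain ⟨R', hR'⟩ := hR'
  obtain ⟨c, hc⟩ := exists_value M hF hR'
  refine ⟨c, fun x hx => ?_⟩
  obtain ⟨C, hC, hH⟩ := h x hx
  refine dimH_ge (α := ⟨α, hα.le⟩) M hx (by exact_mod_cast hα) hC hH fun ξ hξ => ?_
  obtain ⟨r, θ, h1, h2, h3, h4, h5⟩ := crit_ray M hF hc hx hξ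
  exact ⟨r, θ, h1, h2, h3, h4, h5⟩

end Pool.Agent.H.MP_bfbbee_an
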